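import Pool.Agent.LibM73.Brec
set_option autoImplicit false
/-!
# Accounts  (TASK ACC)
-/
namespace Pool.Agent.LibM73
open Pool.Agent.LibMoser5 Pool.Agent.LibMoserF

theorem InC_le {c : ℕ} {x : ℝ} (h : InC c x) : c ≤ NC := by
  rcases h with h | h
  · exact h.1.le
  · exact h.1.le

theorem InC_pos {c : ℕ} {x : ℝ} (h : InC c x) (hc : c < NC) : 0 < x := by
  rcases h with h | h
  · refine lt_of_le_of_lt ?_ h.2.1
    have : (0 : ℝ) ≤ (lo c : ℝ) := Nat.cast_nonneg _
    have h2 : (0 : ℝ) ≤ 1 - 1 / 2 ^ 14 := by norm_num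
    exact mul_nonneg this h2
  · exact absurd h.1 hc.ne

theorem pk_zero : pk (fun _ => 0) = 0 := by
  unfold pk
  exact Finset.sum_eq_zero (fun c _ => by simp)

theorem tt_zero : tt (fun _ => 0) = 0 := by
  unfold tt
  exact Finset.sum_eq_zero (fun c _ => rfl)

theorem pk_add (f g : ℕ → ℕ) : pk (fun c => f c + g c) = pk f + pk g := by
  unfold pk
  rw [← Finset.sum_add_distrib]
  exact Finset.sum_congr rfl (fun c _ => by rw [add_mul])

theorem tt_add (f g : ℕ → ℕ) : tt (fun c => f c + g c) = tt f + tt g := by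
  unfold tt
  rw [← Finset.sum_add_distrib]

theorem mC_append (L L' : List (ℕ × ℝ × ℝ)) (c : ℕ) : mC (L ++ L') c = mC L c + mC L' c := by
  unfold mC
  rw [List.map_append, List.sum_append]

theorem Acc.nil : Acc [] 0 0 :=
  ⟨[], fun _ => 0, by simp, by simp, by simp [mC], pk_zero, tt_zero⟩

theorem Acc.append {l l' : List (ℝ × ℝ)} {p p' t t' : ℕ} (h : Acc l p t) (h' : Acc l' p' t') :
    Acc (l ++ l') (p + p') (t + t') := by
  obtain ⟨L, f, h1, h2, h3, h4, h5⟩ := h
  obtain ⟨L', f', h1', h2', h3', h4', h5'⟩ := h'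
  refine ⟨L ++ L', fun c => f c + f' c, ?_, ?_, ?_, ?_, ?_⟩
  · rw [List.map_append]
    exact h1.append h1'
  · intro z hz
    rcases List.mem_append.1 hz with hz | hz
    · exact h2 z hz
    · exact h2' z hz
  · intro c
    rw [mC_append]
    push_cast
    exact add_le_add (h3 c) (h3' c)
  · rw [pk_add, h4, h4']
  · rw [tt_add, h5, h5']

theorem Acc.perm {l l' : List (ℝ × ℝ)} {p t : ℕ} (h : Acc l p t) (hp : l.Perm l') :
    Acc l' p t := by
  obtain ⟨L, f, h1, h2, h3, h4, h5⟩ := h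
  exact ⟨L, f, h1.trans hp, h2, h3, h4, h5⟩

theorem pk_ite {c m : ℕ} (hc : c ≤ NC) :
    pk (fun c' => if c' = c then m else 0) = Nat.shiftLeft m (36 * c) := by
  unfold pk
  rw [Finset.sum_eq_single c]
  · show (if c = c then m else 0) * 2 ^ (36 * c) = _
    rw [if_pos rfl]
    exact (Nat.shiftLeft_eq m (36 * c)).symm
  · intro b _ hb
    simp [hb]
  · intro h
    exact absurd (Finset.mem_range.2 (Nat.lt_succ_of_le hc)) h

theorem tt_ite {c m : ℕ} (hc : c ≤ NC) :
    tt (fun c' => if c' = c then m else 0) = m := by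
  unfold tt
  rw [Finset.sum_eq_single c]
  · simp
  · intro b _ hb
    simp [hb]
  · intro h
    exact absurd (Finset.mem_range.2 (Nat.lt_succ_of_le hc)) h

/-- all pieces in one cell -/
theorem acc_cell {l : List (ℝ × ℝ)} {c m : ℕ} (hc : c ≤ NC)
    (h : ∀ x ∈ l, InC c (U * x.1) ∧ 6 / 5 * x.1 ≤ x.2) (hm : (l.map ms).sum ≤ m) :
    Acc l (Nat.shiftLeft m (36 * c)) m := by
  refine ⟨l.map (fun x => (c, x)), fun c' => if c' = c then m else 0, ?_, ?_, ?_, pk_ite hc,
    tt_ite hc⟩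
  · rw [List.map_map]
    have : (Prod.snd ∘ fun x : ℝ × ℝ => (c, x)) = id := rfl
    rw [this, List.map_id]
  · intro z hz
    obtain ⟨x, hx, rfl⟩ := List.mem_map.1 hz
    exact h x hx
  · intro c'
    unfold mC
    rw [List.map_map]
    by_cases hcc : c' = c
    · have h1 : ((fun z : ℕ × ℝ × ℝ => if z.1 = c' then ms z.2 else 0) ∘
          fun x : ℝ × ℝ => (c, x)) = ms := by
        funext x
        simp [hcc]
      rw [h1]
      simpa [hcc] using hm
    · have h1 : ((fun z : ℕ × ℝ × ℝ => if z.1 = c' then ms z.2 else 0) ∘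
          fun x : ℝ × ℝ => (c, x)) = fun _ => 0 := by
        funext x
        simp [Ne.symm hcc]
      rw [h1]
      simp [hcc]

theorem acc_single {th ln : ℝ} {c m : ℕ} (h1 : InC c (U * th)) (h2 : 6 / 5 * th ≤ ln)
    (hm : ms (th, ln) ≤ m) : Acc [(th, ln)] (Nat.shiftLeft m (36 * c)) m := by
  refine acc_cell (InC_le h1) ?_ ?_
  · intro x hx
    rw [List.mem_singleton.1 hx]
    exact ⟨h1, h2⟩
  · simpa using hm

/-- pieces of mass at most `w`, cells given by a function -/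
theorem acc_list {α : Type} (s : List α) (x : α → ℝ × ℝ) (κ : α → ℕ) (w : ℕ)
    (h : ∀ i ∈ s, InC (κ i) (U * (x i).1) ∧ 6 / 5 * (x i).1 ≤ (x i).2 ∧ ms (x i) ≤ w) :
    Acc (s.map x) (s.map (fun i => Nat.shiftLeft w (36 * κ i))).sum (s.length * w) := by
  induction s with
  | nil => simpa using Acc.nil
  | cons a s ih =>
    have h1 := h a (by simp)
    have h2 : Acc [((x a).1, (x a).2)] (Nat.shiftLeft w (36 * κ a)) w :=
      acc_single h1.1 h1.2.1 h1.2.2
    have h3 := h2.append (ih (fun i hi => h i (List.mem_cons_of_mem _ hi)))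
    have h4 : (a :: s).length * w = w + s.length * w := by
      rw [List.length_cons, Nat.succ_mul, Nat.add_comm]
    rw [List.map_cons, List.map_cons, List.sum_cons, h4]
    exact h3

theorem ms_nonneg {x : ℝ × ℝ} (h : 0 ≤ x.1) (h' : 6 / 5 * x.1 ≤ x.2) : 0 ≤ ms x := by
  unfold ms
  have : 0 ≤ x.2 + 13 / 16 * x.1 := by linarith
  positivity

theorem sum_map_le {α : Type} (l : List α) (f g : α → ℝ) (h : ∀ x ∈ l, f x ≤ g x) :
    (l.map f).sum ≤ (l.map g).sum := List.sum_le_sum h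

/-- pieces in cells `i .. i'`, the whole mass `m` is counted in each of these cells -/
theorem acc_range {l : List (ℝ × ℝ)} {i i' m : ℕ} (hi : i ≤ i') (hi' : i' < NC)
    (h : ∀ x ∈ l, (∃ c, i ≤ c ∧ c ≤ i' ∧ InC c (U * x.1)) ∧ 6 / 5 * x.1 ≤ x.2)
    (hm : (l.map ms).sum ≤ m) :
    Acc l (∑ c ∈ Finset.Icc i i', Nat.shiftLeft m (36 * c)) (m * (i' - i + 1)) := by
  have h' : ∀ x : ℝ × ℝ, ∃ c, x ∈ l → i ≤ c ∧ c ≤ i' ∧ InC c (U * x.1) := by
    intro x
    by_cases hx : x ∈ l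
    · obtain ⟨c, hc⟩ := (h x hx).1
      exact ⟨c, fun _ => hc⟩
    · exact ⟨0, fun h => absurd h hx⟩
  choose κ hκ using h'
  have hU : (0 : ℝ) < U := by unfold U; positivity
  have hpos : ∀ x ∈ l, 0 ≤ ms x := by
    intro x hx
    obtain ⟨h1, h2, h3⟩ := hκ x hx
    have h4 := InC_pos h3 (lt_of_le_of_lt h2 hi')
    have h5 : 0 < x.1 := by
      rcases pos_and_pos_or_neg_and_neg_of_mul_pos h4 with h | h
      · exact h.2
      · exact absurd h.1 (not_lt.2 hU.le)
    exact ms_nonneg h5.le (h x hx).2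
  have hsum : (∑ c ∈ Finset.range (NC + 1), (if i ≤ c ∧ c ≤ i' then m else 0) * 2 ^ (36 * c)) =
      ∑ c ∈ Finset.Icc i i', Nat.shiftLeft m (36 * c) := by
    have h1 : Finset.Icc i i' ⊆ Finset.range (NC + 1) := by
      intro c hc
      have := (Finset.mem_Icc.1 hc).2
      exact Finset.mem_range.2 (by omega)
    rw [← Finset.sum_subset h1]
    · refine Finset.sum_congr rfl (fun c hc => ?_)
      rw [if_pos (Finset.mem_Icc.1 hc)]
      exact (Nat.shiftLeft_eq m (36 * c)).symm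
    · intro c _ hc
      rw [if_neg (fun h => hc (Finset.mem_Icc.2 h)), Nat.zero_mul]
  have hsum2 : (∑ c ∈ Finset.range (NC + 1), (if i ≤ c ∧ c ≤ i' then m else 0)) =
      m * (i' - i + 1) := by
    have h1 : Finset.Icc i i' ⊆ Finset.range (NC + 1) := by
      intro c hc
      have := (Finset.mem_Icc.1 hc).2
      exact Finset.mem_range.2 (by omega)
    rw [← Finset.sum_subset h1]
    · have h2 : ∑ c ∈ Finset.Icc i i', (if i ≤ c ∧ c ≤ i' then m else 0) =
          ∑ c ∈ Finset.Icc i i', m :=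
        Finset.sum_congr rfl (fun c hc => if_pos (Finset.mem_Icc.1 hc))
      have h3 : i' + 1 - i = i' - i + 1 := by omega
      rw [h2, Finset.sum_const, Nat.card_Icc, smul_eq_mul, Nat.mul_comm, h3]
    · intro c _ hc
      rw [if_neg (fun h => hc (Finset.mem_Icc.2 h))]
  refine ⟨l.map (fun x => (κ x, x)), fun c => if i ≤ c ∧ c ≤ i' then m else 0, ?_, ?_, ?_,
    hsum, hsum2⟩
  · rw [List.map_map]
    have : (Prod.snd ∘ fun x : ℝ × ℝ => (κ x, x)) = id := rfl
    rw [this, List.map_id]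
  · intro z hz
    obtain ⟨x, hx, rfl⟩ := List.mem_map.1 hz
    exact ⟨(hκ x hx).2.2, (h x hx).2⟩
  · intro c
    unfold mC
    rw [List.map_map]
    by_cases hc : i ≤ c ∧ c ≤ i'
    · refine le_trans (sum_map_le l _ ms ?_) (by simpa [hc] using hm)
      intro x hx
      show (if κ x = c then ms x else 0) ≤ ms x
      split_ifs
      · exact le_rfl
      · exact hpos x hx
    · refine le_trans (sum_map_le l _ (fun _ => 0) ?_) (by simp [hc])
      intro x hx
      show (if κ x = c then ms x else 0) ≤ 0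
      rw [if_neg]
      intro h1
      exact hc (h1 ▸ ⟨(hκ x hx).1, (hκ x hx).2.1⟩)

theorem digit_aux (B : ℕ) (g : ℕ → ℕ) (hg : ∀ c, g c < B) (k : ℕ) :
    ∑ c ∈ Finset.range k, g c * B ^ c < B ^ k := by
  induction k with
  | zero => simp
  | succ k ih =>
    rw [Finset.sum_range_succ, pow_succ]
    have h1 : g k + 1 ≤ B := hg k
    calc ∑ c ∈ Finset.range k, g c * B ^ c + g k * B ^ k < B ^ k + g k * B ^ k :=
          Nat.add_lt_add_right ih _
      _ = (g k + 1) * B ^ k := by ring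
      _ ≤ B * B ^ k := Nat.mul_le_mul_right _ h1
      _ = B ^ k * B := Nat.mul_comm _ _

theorem digit_split (B : ℕ) (g : ℕ → ℕ) (k m : ℕ) :
    ∑ c ∈ Finset.range (k + m), g c * B ^ c =
      ∑ c ∈ Finset.range k, g c * B ^ c + B ^ k * ∑ c ∈ Finset.range m, g (k + c) * B ^ c := by
  rw [Finset.sum_range_add, Finset.mul_sum]
  congr 1
  refine Finset.sum_congr rfl (fun c _ => ?_)
  rw [pow_add]
  ring

theorem digit (B : ℕ) (g : ℕ → ℕ) (hg : ∀ c, g c < B) (n k : ℕ) (hk : k < n) :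
    (∑ c ∈ Finset.range n, g c * B ^ c) / B ^ k % B = g k := by
  obtain ⟨m, rfl⟩ : ∃ m, n = k + (m + 1) := ⟨n - k - 1, by omega⟩
  have hB : 0 < B := lt_of_le_of_lt (Nat.zero_le _) (hg 0)
  have hBk : 0 < B ^ k := Nat.pow_pos hB
  rw [digit_split B g k (m + 1), Nat.add_mul_div_left _ _ hBk,
    Nat.div_eq_of_lt (digit_aux B g hg k), Nat.zero_add, Finset.sum_range_succ']
  have h1 : ∑ c ∈ Finset.range m, g (k + (c + 1)) * B ^ (c + 1) =
      B * ∑ c ∈ Finset.range m, g (k + (c + 1)) * B ^ c := by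
    rw [Finset.mul_sum]
    refine Finset.sum_congr rfl (fun c _ => ?_)
    rw [pow_succ]
    ring
  rw [h1, Nat.mul_add_mod]
  simp [Nat.mod_eq_of_lt (hg k)]

/-- digits of a packed table -/
theorem pk_digit {f : ℕ → ℕ} (h : tt f < 2 ^ 36) {c : ℕ} (hc : c ≤ NC) :
    pk f / 2 ^ (36 * c) % 2 ^ 36 = f c := by
  have hf : ∀ c ≤ NC, f c < 2 ^ 36 := by
    intro c hc
    refine lt_of_le_of_lt ?_ h
    unfold tt
    exact Finset.single_le_sum (f := f) (fun _ _ => Nat.zero_le _)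
      (Finset.mem_range.2 (Nat.lt_succ_of_le hc))
  have h1 : pk f = ∑ c ∈ Finset.range (NC + 1), (if c ≤ NC then f c else 0) * (2 ^ 36) ^ c := by
    unfold pk
    refine Finset.sum_congr rfl (fun c hc => ?_)
    rw [if_pos (Nat.le_of_lt_succ (Finset.mem_range.1 hc)), pow_mul]
  rw [h1, pow_mul, digit (2 ^ 36) (fun c => if c ≤ NC then f c else 0) ?_ (NC + 1) c
    (Nat.lt_succ_of_le hc)]
  · exact if_pos hc
  · intro c
    show (if c ≤ NC then f c else 0) < 2 ^ 36
    split_ifs with hc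
    · exact hf c hc
    · exact Nat.pow_pos (by norm_num)

theorem sum_ms (l : List (ℝ × ℝ)) :
    (l.map ms).sum = 2 ^ 34 * ((l.map Prod.snd).sum + 13 / 16 * (l.map Prod.fst).sum) := by
  induction l with
  | nil => simp
  | cons a l ih =>
    rw [List.map_cons, List.sum_cons, ih, List.map_cons, List.sum_cons, List.map_cons,
      List.sum_cons]
    unfold ms
    ring

/-- mass bound of the machine: total length `≤ tl`, total thickness `≤ tv` (unit `2^-100`) -/
theorem msT_le {l : List (ℝ × ℝ)} {tl tv : ℕ} (h1 : U * (l.map Prod.snd).sum ≤ tl)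
    (h2 : U * (l.map Prod.fst).sum ≤ tv) : (l.map ms).sum ≤ msT tl tv := by
  have h3 : msT tl tv = (16 * tl + 13 * tv) / 2 ^ 70 + 1 := by
    show Nat.succ ((16 * tl + 13 * tv) >>> 70) = _
    rw [Nat.shiftRight_eq_div_pow]
  have h4 : ((16 * tl + 13 * tv : ℕ) : ℝ) / 2 ^ 70 < msT tl tv := by
    rw [h3]
    have h6 : 16 * tl + 13 * tv < ((16 * tl + 13 * tv) / 2 ^ 70 + 1) * 2 ^ 70 := by
      have h5 := Nat.div_add_mod (16 * tl + 13 * tv) (2 ^ 70)
      have h8 := Nat.mod_lt (16 * tl + 13 * tv) (show 0 < 2 ^ 70 by norm_num)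
      rw [Nat.add_mul, Nat.one_mul, Nat.mul_comm ((16 * tl + 13 * tv) / 2 ^ 70)]
      omega
    rw [div_lt_iff₀ (by positivity)]
    exact_mod_cast h6
  rw [sum_ms]
  push_cast at h4
  have h7 : (2 : ℝ) ^ 34 * ((l.map Prod.snd).sum + 13 / 16 * (l.map Prod.fst).sum) =
      (16 * (U * (l.map Prod.snd).sum) + 13 * (U * (l.map Prod.fst).sum)) / 2 ^ 70 := by
    unfold U
    ring
  rw [h7]
  refine le_trans ?_ h4.le
  gcongr

end Pool.Agent.LibM73
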