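import Pool.Agent.LibM73.Spec
import Mathlib.Analysis.SpecialFunctions.Complex.Arctan
import Mathlib.Analysis.SpecialFunctions.Trigonometric.Arctan
import Mathlib.Analysis.SpecificLimits.Normed
set_option autoImplicit false
/-!
# `π` to 40 digits (Machin)
-/
namespace Pool.Agent.LibM73.FinPi
open Real Filter

theorem arctan_tendsto {x : ℝ} (h0 : 0 ≤ x) (h1 : x < 1) :
    Tendsto (fun n => ∑ i ∈ Finset.range n, (-1 : ℝ) ^ i * (x ^ (2 * i + 1) / (2 * (i : ℝ) + 1)))
      atTop (nhds (arctan x)) := by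
  have h := (Real.hasSum_arctan (x := x) (by rw [Real.norm_eq_abs, abs_of_nonneg h0]; exact h1)).tendsto_sum_nat
  refine h.congr (fun n => Finset.sum_congr rfl (fun i _ => ?_))
  push_cast
  ring

theorem anti {x : ℝ} (h0 : 0 ≤ x) (h1 : x < 1) :
    Antitone (fun i : ℕ => x ^ (2 * i + 1) / (2 * (i : ℝ) + 1)) := by
  refine antitone_nat_of_succ_le (fun n => ?_)
  have h2 : x ^ (2 * (n + 1) + 1) ≤ x ^ (2 * n + 1) :=
    pow_le_pow_of_le_one h0 h1.le (by omega)
  have h3 : (2 * (n : ℝ) + 1) ≤ 2 * ((n + 1 : ℕ) : ℝ) + 1 := by push_cast; linarith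
  exact div_le_div₀ (pow_nonneg h0 _) h2 (by positivity) h3

theorem arctan_lo {x : ℝ} (h0 : 0 ≤ x) (h1 : x < 1) (k : ℕ) :
    ∑ i ∈ Finset.range (2 * k), (-1 : ℝ) ^ i * (x ^ (2 * i + 1) / (2 * (i : ℝ) + 1)) ≤ arctan x :=
  (anti h0 h1).alternating_series_le_tendsto (arctan_tendsto h0 h1) k

theorem arctan_hi {x : ℝ} (h0 : 0 ≤ x) (h1 : x < 1) (k : ℕ) :
    arctan x ≤ ∑ i ∈ Finset.range (2 * k + 1), (-1 : ℝ) ^ i * (x ^ (2 * i + 1) / (2 * (i : ℝ) + 1)) :=
  (anti h0 h1).tendsto_le_alternating_series (arctan_tendsto h0 h1) k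

theorem machin : π = 16 * arctan 5⁻¹ - 4 * arctan 239⁻¹ := by
  have := Real.four_mul_arctan_inv_5_sub_arctan_inv_239
  linarith

theorem pi_lo : (4175892906503776358826876457663557747 : ℝ) / 2 ^ 120 ≤ π := by
  rw [machin]
  have h1 := arctan_lo (x := 5⁻¹) (by norm_num) (by norm_num) 16
  have h2 := arctan_hi (x := 239⁻¹) (by norm_num) (by norm_num) 4
  refine le_trans ?_ (sub_le_sub (mul_le_mul_of_nonneg_left h1 (by norm_num))
    (mul_le_mul_of_nonneg_left h2 (by norm_num)))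
  simp only [Finset.sum_range_succ, Finset.sum_range_zero, Nat.reduceMul, Nat.reduceAdd]
  norm_num

theorem pi_hi : π ≤ (4175892906503776358826876457663557748 : ℝ) / 2 ^ 120 := by
  rw [machin]
  have h1 := arctan_hi (x := 5⁻¹) (by norm_num) (by norm_num) 16
  have h2 := arctan_lo (x := 239⁻¹) (by norm_num) (by norm_num) 4
  refine le_trans (sub_le_sub (mul_le_mul_of_nonneg_left h1 (by norm_num))
    (mul_le_mul_of_nonneg_left h2 (by norm_num))) ?_
  simp only [Finset.sum_range_succ, Finset.sum_range_zero, Nat.reduceMul, Nat.reduceAdd]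
  norm_num

theorem pi_sq_lo : (4175892906503776358826876457663557747 : ℝ) ^ 2 / 2 ^ 240 ≤ π ^ 2 := by
  have h := pow_le_pow_left₀ (by positivity) pi_lo 2
  rw [div_pow, ← pow_mul] at h
  exact h

theorem pi_sq_hi : π ^ 2 ≤ (4175892906503776358826876457663557748 : ℝ) ^ 2 / 2 ^ 240 := by
  have h := pow_le_pow_left₀ pi_pos.le pi_hi 2
  rw [div_pow, ← pow_mul] at h
  exact h

/-- `3/4 π^2 - 6 - 2/3` in units `2^-100` -/
theorem H_lo : (932403455770545665876569815157 : ℝ) ≤ 2 ^ 100 * (3 / 4 * π ^ 2 - 6 - 2 / 3) := by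
  have h := pi_sq_lo
  norm_num at h ⊢
  linarith

theorem H_hi : 2 ^ 100 * (3 / 4 * π ^ 2 - 6 - 2 / 3) ≤ (932403455770545665876569815158 : ℝ) := by
  have h := pi_sq_hi
  norm_num at h ⊢
  linarith

end Pool.Agent.LibM73.FinPi

namespace Pool.Agent.LibM73
open Real Pool.Agent.LibMoser5 Pool.Agent.LibMoserF

/-- the remaining height -/
theorem Iv_H : Iv 932403455770545665876569815157 932403455770545665876569815158 (3 / 4 * π ^ 2 - 6 - 2 / 3) := by
  have h1 := FinPi.H_lo
  have h2 := FinPi.H_hi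
  unfold Iv U
  push_cast
  exact ⟨h1, h2⟩

/-- larger intervals -/
theorem Iv.mono {a A a' A' : ℕ} {x : ℝ} (h : Iv a A x) (h1 : a' ≤ a) (h2 : A ≤ A') : Iv a' A' x :=
  ⟨le_trans (by exact_mod_cast h1) h.1, h.2.trans (by exact_mod_cast h2)⟩

/-- the width `sd 1 = 2/3` -/
theorem Iv_W : Iv 845100400152152934331135470250 845100400152152934331135470251 (2 / 3) := by
  unfold Iv U
  push_cast
  constructor <;> norm_num

/-- the start item -/
theorem rep_start : Rep (It.rc 845100400152152934331135470250 845100400152152934331135470251 932403455770545665876569815157 932403455770545665876569815158) [(2 / 3, 3 / 4 * π ^ 2 - 6 - 2 / 3)] :=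
  ⟨_, _, rfl, Iv_W, Iv_H⟩

theorem sd_one : sd 1 = 2 / 3 := by
  unfold sd; norm_num

/-- the state after the square `1` -/
theorem start_PC : PC (2 / 3) (3 / 4 * π ^ 2 - 6) [[(2 / 3, 3 / 4 * π ^ 2 - 6 - 2 / 3)]] {1} := by
  have hpi : (9 : ℝ) < π ^ 2 := by
    have := Real.pi_gt_three
    nlinarith
  have h0 : PC (2 / 3) (3 / 4 * π ^ 2 - 6) [[(3 / 4 * π ^ 2 - 6, 2 / 3)]] ∅ :=
    PC.init (by norm_num) (by linarith)
  have h1 := PC.row [1] h0.swap (by simp) (by simp [sd_one]) (by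
    simp only [List.map_cons, List.map_nil, List.sum_cons, List.sum_nil, sd_one]
    linarith) (by simp)
  have h2 := h1.dropZ (by simp [child, ar, sd_one])
  have h3 := h2.dropZ (by simp [ar])
  simp only [List.map_cons, List.map_nil, List.sum_cons, List.sum_nil, sd_one, add_zero] at h3
  simpa using h3

end Pool.Agent.LibM73
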