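import Pool.Agent.LibM73.FinA
import Pool.Agent.LibM73.FinPi
set_option autoImplicit false
/-!
# The start: the square 1 is placed  (FIN-S)
-/
namespace Pool.Agent.LibM73
open Pool.Agent.LibMoser5 Pool.Agent.LibMoserF

theorem sd_one51 : sd 1 = 2 / 3 := by
  unfold sd
  norm_num

/-- the first square in the corner of the rectangle `2/3 × H` -/
theorem start_PC' {H : ℝ} (hH : 2 / 3 ≤ H) :
    PC (2 / 3) H [[(2 / 3, H - 2 / 3)]] (Finset.Ico 1 2) := by
  have h1 : PC (2 / 3) H [[(H, 2 / 3)]] ∅ := PC.init (by norm_num) (by linarith)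
  have h2 : PC (2 / 3) H ([(2 / 3, H)] :: []) ∅ := PC.swap h1
  have h3 := h2.cut (c := []) (a := 2 / 3) (by norm_num) hH
  have h4 : PC (2 / 3) H ([(2 / 3, (([1] : List ℕ).map sd).sum)] :: [[(2 / 3, H - 2 / 3)]]) ∅ := by
    have e : (([1] : List ℕ).map sd).sum = 2 / 3 := by simp [sd_one51]
    rw [e]
    exact h3
  have h5 := h4.rowS [1] (by simp) (by intro n hn; simp at hn; rw [hn, sd_one51]) (by simp)
  have h6 := h5.dropZ (by simp [child, ar, sd_one51])
  have e : (∅ : Finset ℕ) ∪ ([1] : List ℕ).toFinset = Finset.Ico 1 2 := by decide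
  rw [e] at h6
  exact h6

/-- start state of the machine -/
theorem start_CSt {H : ℝ} {it : It} (hH : 2 / 3 ≤ H) (h : Rep it [(2 / 3, H - 2 / 3)]) :
    CSt (2 / 3) H [it] [] (Finset.Ico 1 2) 0 0 0 :=
  CSt.start (cs := [[(2 / 3, H - 2 / 3)]]) (hs := []) (List.Forall₂.cons h List.Forall₂.nil)
    List.Forall₂.nil (by simpa using start_PC' hH)

/-- the same with exchanged sides -/
theorem start_CSt' {H : ℝ} {it : It} (hH : 2 / 3 ≤ H) (h : Rep it [(H - 2 / 3, 2 / 3)]) :
    CSt (2 / 3) H [it] [] (Finset.Ico 1 2) 0 0 0 :=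
  CSt.start (cs := [[(H - 2 / 3, 2 / 3)]]) (hs := []) (List.Forall₂.cons h List.Forall₂.nil)
    List.Forall₂.nil (by simpa using PC.swap (start_PC' hH))

/-- **the start state** -/
theorem start_state : CSt (2 / 3) (3 / 4 * Real.pi ^ 2 - 6)
    [It.rc 845100400152152934331135470250 845100400152152934331135470251
      932403455770545665876569815157 932403455770545665876569815158] [] (Finset.Ico 1 2) 0 0 0 := by
  refine start_CSt ?_ rep_start
  have h := rep_start
  obtain ⟨x, y, h1, _, h3⟩ := h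
  have h4 : y = 3 / 4 * Real.pi ^ 2 - 6 - 2 / 3 := by
    have := List.cons.inj h1
    exact (Prod.ext_iff.1 this.1).2.symm
  have hU : (0 : ℝ) < U := by norm_num [U]
  have h5 : 0 ≤ U * y := le_trans (by positivity) h3.1
  have h6 : 0 ≤ y := nonneg_of_mul_nonneg_right h5 hU
  linarith

end Pool.Agent.LibM73
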