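import Pool.Agent.LibM73D.M0
import Pool.Agent.LibM73D.M1
import Pool.Agent.LibM73D.M2
import Pool.Agent.LibM73D.M3
import Pool.Agent.LibM73D.M4
import Pool.Agent.LibM73D.M5
import Pool.Agent.LibM73D.M6
import Pool.Agent.LibM73D.M7
import Pool.Agent.LibM73D.M8
import Pool.Agent.LibM73D.M9
import Pool.Agent.LibM73D.M10
import Pool.Agent.LibM73D.M11
import Pool.Agent.LibM73D.M12
import Pool.Agent.LibM73D.M13
import Pool.Agent.LibM73D.M14
import Pool.Agent.LibM73D.M15
import Pool.Agent.LibM73D.M16
import Pool.Agent.LibM73D.M17
import Pool.Agent.LibM73D.M18
import Pool.Agent.LibM73D.M19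
import Pool.Agent.LibM73D.M20
import Pool.Agent.LibM73D.M21
import Pool.Agent.LibM73D.M22
import Pool.Agent.LibM73D.M23
import Pool.Agent.LibM73D.M24
import Pool.Agent.LibM73D.M25
import Pool.Agent.LibM73D.M26
import Pool.Agent.LibM73D.M27
import Pool.Agent.LibM73D.M28
import Pool.Agent.LibM73D.M29
import Pool.Agent.LibM73D.M30
import Pool.Agent.LibM73D.M31
import Pool.Agent.LibM73D.M32
import Pool.Agent.LibM73D.M33
import Pool.Agent.LibM73D.M34
import Pool.Agent.LibM73D.M35
import Pool.Agent.LibM73D.M36
import Pool.Agent.LibM73D.M37
import Pool.Agent.LibM73D.M38
import Pool.Agent.LibM73D.M39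
import Pool.Agent.LibM73D.M40
import Pool.Agent.LibM73D.M41
import Pool.Agent.LibM73D.M42
import Pool.Agent.LibM73D.M43
import Pool.Agent.LibM73D.M44
import Pool.Agent.LibM73D.M45
import Pool.Agent.LibM73D.M46
import Pool.Agent.LibM73D.M47
import Pool.Agent.LibM73D.M48
import Pool.Agent.LibM73D.M49
import Pool.Agent.LibM73D.M50
import Pool.Agent.LibM73D.M51
import Pool.Agent.LibM73D.M52
import Pool.Agent.LibM73D.M53
import Pool.Agent.LibM73D.M54
import Pool.Agent.LibM73D.M55
import Pool.Agent.LibM73D.M56
import Pool.Agent.LibM73D.M57
import Pool.Agent.LibM73D.M58
import Pool.Agent.LibM73D.M59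
import Pool.Agent.LibM73D.M60
import Pool.Agent.LibM73D.M61
import Pool.Agent.LibM73D.M62
import Pool.Agent.LibM73D.M63
import Pool.Agent.LibM73D.M64
import Pool.Agent.LibM73D.M65
import Pool.Agent.LibM73D.M66
import Pool.Agent.LibM73D.M67
import Pool.Agent.LibM73D.M68
import Pool.Agent.LibM73D.M69
import Pool.Agent.LibM73D.M70
import Pool.Agent.LibM73D.M71
import Pool.Agent.LibM73D.M72
import Pool.Agent.LibM73D.M73
import Pool.Agent.LibM73D.M74
import Pool.Agent.LibM73D.M75
import Pool.Agent.LibM73D.M76
import Pool.Agent.LibM73D.M77
import Pool.Agent.LibM73D.M78
import Pool.Agent.LibM73D.M79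
import Pool.Agent.LibM73D.M80
import Pool.Agent.LibM73D.M81
import Pool.Agent.LibM73D.M82
import Pool.Agent.LibM73D.M83
import Pool.Agent.LibM73D.M84
import Pool.Agent.LibM73D.M85
import Pool.Agent.LibM73D.M86
import Pool.Agent.LibM73D.M87
import Pool.Agent.LibM73D.M88
import Pool.Agent.LibM73D.M89
import Pool.Agent.LibM73D.M90
import Pool.Agent.LibM73D.M91
import Pool.Agent.LibM73D.M92
import Pool.Agent.LibM73D.M93
import Pool.Agent.LibM73D.M94
import Pool.Agent.LibM73D.M95
import Pool.Agent.LibM73D.M96
import Pool.Agent.LibM73D.M97
import Pool.Agent.LibM73D.M98
import Pool.Agent.LibM73D.M99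
import Pool.Agent.LibM73D.M100
import Pool.Agent.LibM73D.M101
import Pool.Agent.LibM73D.M102
import Pool.Agent.LibM73D.M103
import Pool.Agent.LibM73D.M104
import Pool.Agent.LibM73D.M105
import Pool.Agent.LibM73D.M106
import Pool.Agent.LibM73D.M107
import Pool.Agent.LibM73D.M108
import Pool.Agent.LibM73D.M109
import Pool.Agent.LibM73D.M110
import Pool.Agent.LibM73D.M111
import Pool.Agent.LibM73D.M112
import Pool.Agent.LibM73D.M113
import Pool.Agent.LibM73D.M114
import Pool.Agent.LibM73D.M115
import Pool.Agent.LibM73D.M116
import Pool.Agent.LibM73D.M117
import Pool.Agent.LibM73D.M118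
import Pool.Agent.LibM73D.M119
import Pool.Agent.LibM73D.M120
import Pool.Agent.LibM73D.M121
import Pool.Agent.LibM73D.M122
import Pool.Agent.LibM73D.M123
import Pool.Agent.LibM73D.M124
import Pool.Agent.LibM73D.M125
import Pool.Agent.LibM73D.M126
import Pool.Agent.LibM73D.M127
import Pool.Agent.LibM73D.M128
import Pool.Agent.LibM73D.M129
import Pool.Agent.LibM73D.M130
import Pool.Agent.LibM73D.M131
import Pool.Agent.LibM73D.M132
import Pool.Agent.LibM73D.M133
import Pool.Agent.LibM73D.M134
import Pool.Agent.LibM73D.M135
import Pool.Agent.LibM73D.M136
import Pool.Agent.LibM73D.M137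
import Pool.Agent.LibM73D.M138
import Pool.Agent.LibM73D.M139
import Pool.Agent.LibM73D.M140
import Pool.Agent.LibM73D.M141
import Pool.Agent.LibM73D.M142
import Pool.Agent.LibM73D.M143
import Pool.Agent.LibM73D.M144
import Pool.Agent.LibM73D.M145
import Pool.Agent.LibM73D.M146
import Pool.Agent.LibM73D.M147
import Pool.Agent.LibM73D.M148
import Pool.Agent.LibM73D.M149
import Pool.Agent.LibM73D.M150
import Pool.Agent.LibM73D.M151
import Pool.Agent.LibM73D.M152
import Pool.Agent.LibM73D.M153
import Pool.Agent.LibM73D.M154
import Pool.Agent.LibM73D.M155
import Pool.Agent.LibM73D.M156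
import Pool.Agent.LibM73D.M157
import Pool.Agent.LibM73D.M158
import Pool.Agent.LibM73D.M159
import Pool.Agent.LibM73D.M160
import Pool.Agent.LibM73D.M161
import Pool.Agent.LibM73D.M162
import Pool.Agent.LibM73D.M163
import Pool.Agent.LibM73D.M164
import Pool.Agent.LibM73D.M165
import Pool.Agent.LibM73D.M166
import Pool.Agent.LibM73D.M167
import Pool.Agent.LibM73D.M168
import Pool.Agent.LibM73D.M169
import Pool.Agent.LibM73D.M170
import Pool.Agent.LibM73D.M171
import Pool.Agent.LibM73D.M172
import Pool.Agent.LibM73D.M173
import Pool.Agent.LibM73D.M174
import Pool.Agent.LibM73D.M175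
import Pool.Agent.LibM73D.M176
import Pool.Agent.LibM73D.M177
import Pool.Agent.LibM73D.M178
import Pool.Agent.LibM73D.M179
import Pool.Agent.LibM73D.M180
import Pool.Agent.LibM73D.M181
import Pool.Agent.LibM73D.M182
import Pool.Agent.LibM73D.M183
import Pool.Agent.LibM73D.M184
import Pool.Agent.LibM73D.M185
import Pool.Agent.LibM73D.M186
import Pool.Agent.LibM73D.M187
import Pool.Agent.LibM73D.M188
import Pool.Agent.LibM73D.M189
import Pool.Agent.LibM73D.M190
import Pool.Agent.LibM73D.M191
import Pool.Agent.LibM73D.M192
import Pool.Agent.LibM73D.M193
import Pool.Agent.LibM73D.M194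
import Pool.Agent.LibM73D.M195
import Pool.Agent.LibM73D.M196
import Pool.Agent.LibM73D.M197
import Pool.Agent.LibM73D.M198
import Pool.Agent.LibM73D.M199
import Pool.Agent.LibM73D.M200
import Pool.Agent.LibM73D.M201
import Pool.Agent.LibM73D.M202
import Pool.Agent.LibM73D.M203
import Pool.Agent.LibM73D.M204
import Pool.Agent.LibM73D.M205
import Pool.Agent.LibM73D.M206
import Pool.Agent.LibM73D.M207
import Pool.Agent.LibM73D.M208
import Pool.Agent.LibM73D.M209
import Pool.Agent.LibM73D.M210
import Pool.Agent.LibM73D.M211
import Pool.Agent.LibM73D.M212
import Pool.Agent.LibM73D.M213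
import Pool.Agent.LibM73D.M214
import Pool.Agent.LibM73D.M215
import Pool.Agent.LibM73D.M216
import Pool.Agent.LibM73D.M217
import Pool.Agent.LibM73D.M218
import Pool.Agent.LibM73D.M219
import Pool.Agent.LibM73D.M220
import Pool.Agent.LibM73D.M221
import Pool.Agent.LibM73D.M222
import Pool.Agent.LibM73D.M223
import Pool.Agent.LibM73D.M224
import Pool.Agent.LibM73D.M225
import Pool.Agent.LibM73D.M226
import Pool.Agent.LibM73D.M227
import Pool.Agent.LibM73D.M228
import Pool.Agent.LibM73D.M229
import Pool.Agent.LibM73D.M230
import Pool.Agent.LibM73D.M231
import Pool.Agent.LibM73D.M232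
import Pool.Agent.LibM73D.M233
import Pool.Agent.LibM73D.M234
import Pool.Agent.LibM73D.M235
import Pool.Agent.LibM73D.M236
import Pool.Agent.LibM73D.M237
import Pool.Agent.LibM73D.M238
import Pool.Agent.LibM73D.M239
import Pool.Agent.LibM73D.M240
import Pool.Agent.LibM73D.M241
import Pool.Agent.LibM73D.M242
import Pool.Agent.LibM73D.M243
import Pool.Agent.LibM73D.M244
import Pool.Agent.LibM73D.M245
import Pool.Agent.LibM73D.M246
import Pool.Agent.LibM73D.M247
import Pool.Agent.LibM73D.M248
import Pool.Agent.LibM73D.M249
import Pool.Agent.LibM73D.M250
import Pool.Agent.LibM73D.M251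
import Pool.Agent.LibM73D.M252
import Pool.Agent.LibM73D.M253
import Pool.Agent.LibM73D.M254
import Pool.Agent.LibM73D.M255
import Pool.Agent.LibM73D.M256
import Pool.Agent.LibM73D.M257
import Pool.Agent.LibM73D.M258
import Pool.Agent.LibM73D.M259
import Pool.Agent.LibM73D.M260
import Pool.Agent.LibM73D.M261
import Pool.Agent.LibM73D.M262
import Pool.Agent.LibM73D.M263
import Pool.Agent.LibM73D.M264
import Pool.Agent.LibM73D.M265
import Pool.Agent.LibM73D.M266
import Pool.Agent.LibM73D.M267
import Pool.Agent.LibM73D.M268
import Pool.Agent.LibM73D.M269
import Pool.Agent.LibM73D.M270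
import Pool.Agent.LibM73D.M271
import Pool.Agent.LibM73D.M272
import Pool.Agent.LibM73D.M273
import Pool.Agent.LibM73D.M274
import Pool.Agent.LibM73D.M275
import Pool.Agent.LibM73D.M276
import Pool.Agent.LibM73D.M277
import Pool.Agent.LibM73D.M278
import Pool.Agent.LibM73D.M279
import Pool.Agent.LibM73D.M280
import Pool.Agent.LibM73D.M281
import Pool.Agent.LibM73D.M282
import Pool.Agent.LibM73D.M283
import Pool.Agent.LibM73D.M284
import Pool.Agent.LibM73D.M285
import Pool.Agent.LibM73D.M286
import Pool.Agent.LibM73D.M287
import Pool.Agent.LibM73D.M288
import Pool.Agent.LibM73D.M289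
import Pool.Agent.LibM73D.M290
import Pool.Agent.LibM73D.M291
import Pool.Agent.LibM73D.M292
import Pool.Agent.LibM73D.M293
import Pool.Agent.LibM73D.M294
import Pool.Agent.LibM73D.M295
import Pool.Agent.LibM73D.M296
import Pool.Agent.LibM73D.M297
import Pool.Agent.LibM73D.M298
import Pool.Agent.LibM73D.M299
import Pool.Agent.LibM73D.M300
import Pool.Agent.LibM73D.M301
import Pool.Agent.LibM73D.M302
import Pool.Agent.LibM73D.M303
import Pool.Agent.LibM73.FinS
set_option autoImplicit false
set_option maxRecDepth 100000
/-!
# The assembly of the modules: the lists
-/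
namespace Pool.Agent.LibM73D.X
open Pool.Agent.LibM73 Pool.Agent.LibM73D
noncomputable section

def aSl : List (List It) := [
  S0, S1, S2, S3, S4, S5, S6, S7, S8, S9,
  S10, S11, S12, S13, S14, S15, S16, S17, S18, S19,
  S20, S21, S22, S23, S24, S25, S26, S27, S28, S29,
  S30, S31, S32, S33, S34, S35, S36, S37, S38, S39,
  S40, S41, S42, S43, S44, S45, S46, S47, S48, S49,
  S50, S51, S52, S53, S54, S55, S56, S57, S58, S59,
  S60, S61, S62, S63, S64, S65, S66, S67, S68, S69,
  S70, S71, S72, S73, S74, S75, S76, S77, S78, S79,
  S80, S81, S82, S83, S84, S85, S86, S87, S88, S89,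
  S90, S91, S92, S93, S94, S95, S96, S97, S98, S99,
  S100, S101, S102, S103, S104, S105, S106, S107, S108, S109,
  S110, S111, S112, S113, S114, S115, S116, S117, S118, S119,
  S120, S121, S122, S123, S124, S125, S126, S127, S128, S129,
  S130, S131, S132, S133, S134, S135, S136, S137, S138, S139,
  S140, S141, S142, S143, S144, S145, S146, S147, S148, S149,
  S150, S151, S152, S153, S154, S155, S156, S157, S158, S159,
  S160, S161, S162, S163, S164, S165, S166, S167, S168, S169,
  S170, S171, S172, S173, S174, S175, S176, S177, S178, S179,
  S180, S181, S182, S183, S184, S185, S186, S187, S188, S189,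
  S190, S191, S192, S193, S194, S195, S196, S197, S198, S199,
  S200, S201, S202, S203, S204, S205, S206, S207, S208, S209,
  S210, S211, S212, S213, S214, S215, S216, S217, S218, S219,
  S220, S221, S222, S223, S224, S225, S226, S227, S228, S229,
  S230, S231, S232, S233, S234, S235, S236, S237, S238, S239,
  S240, S241, S242, S243, S244, S245, S246, S247, S248, S249,
  S250, S251, S252, S253, S254, S255, S256, S257, S258, S259,
  S260, S261, S262, S263, S264, S265, S266, S267, S268, S269,
  S270, S271, S272, S273, S274, S275, S276, S277, S278, S279,
  S280, S281, S282, S283, S284, S285, S286, S287, S288, S289,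
  S290, S291, S292, S293, S294, S295, S296, S297, S298, S299,
  S300, S301, S302, S303, S304]
def aS (i : ℕ) : List It := aSl.getD i []
def aHl : List (List It) := [
  H0, H1, H2, H3, H4, H5, H6, H7, H8, H9,
  H10, H11, H12, H13, H14, H15, H16, H17, H18, H19,
  H20, H21, H22, H23, H24, H25, H26, H27, H28, H29,
  H30, H31, H32, H33, H34, H35, H36, H37, H38, H39,
  H40, H41, H42, H43, H44, H45, H46, H47, H48, H49,
  H50, H51, H52, H53, H54, H55, H56, H57, H58, H59,
  H60, H61, H62, H63, H64, H65, H66, H67, H68, H69,
  H70, H71, H72, H73, H74, H75, H76, H77, H78, H79,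
  H80, H81, H82, H83, H84, H85, H86, H87, H88, H89,
  H90, H91, H92, H93, H94, H95, H96, H97, H98, H99,
  H100, H101, H102, H103, H104, H105, H106, H107, H108, H109,
  H110, H111, H112, H113, H114, H115, H116, H117, H118, H119,
  H120, H121, H122, H123, H124, H125, H126, H127, H128, H129,
  H130, H131, H132, H133, H134, H135, H136, H137, H138, H139,
  H140, H141, H142, H143, H144, H145, H146, H147, H148, H149,
  H150, H151, H152, H153, H154, H155, H156, H157, H158, H159,
  H160, H161, H162, H163, H164, H165, H166, H167, H168, H169,
  H170, H171, H172, H173, H174, H175, H176, H177, H178, H179,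
  H180, H181, H182, H183, H184, H185, H186, H187, H188, H189,
  H190, H191, H192, H193, H194, H195, H196, H197, H198, H199,
  H200, H201, H202, H203, H204, H205, H206, H207, H208, H209,
  H210, H211, H212, H213, H214, H215, H216, H217, H218, H219,
  H220, H221, H222, H223, H224, H225, H226, H227, H228, H229,
  H230, H231, H232, H233, H234, H235, H236, H237, H238, H239,
  H240, H241, H242, H243, H244, H245, H246, H247, H248, H249,
  H250, H251, H252, H253, H254, H255, H256, H257, H258, H259,
  H260, H261, H262, H263, H264, H265, H266, H267, H268, H269,
  H270, H271, H272, H273, H274, H275, H276, H277, H278, H279,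
  H280, H281, H282, H283, H284, H285, H286, H287, H288, H289,
  H290, H291, H292, H293, H294, H295, H296, H297, H298, H299,
  H300, H301, H302, H303, H304]
def aH (i : ℕ) : List It := aHl.getD i []
def aTl : List (ℕ) := [
  T0, T1, T2, T3, T4, T5, T6, T7, T8, T9,
  T10, T11, T12, T13, T14, T15, T16, T17, T18, T19,
  T20, T21, T22, T23, T24, T25, T26, T27, T28, T29,
  T30, T31, T32, T33, T34, T35, T36, T37, T38, T39,
  T40, T41, T42, T43, T44, T45, T46, T47, T48, T49,
  T50, T51, T52, T53, T54, T55, T56, T57, T58, T59,
  T60, T61, T62, T63, T64, T65, T66, T67, T68, T69,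
  T70, T71, T72, T73, T74, T75, T76, T77, T78, T79,
  T80, T81, T82, T83, T84, T85, T86, T87, T88, T89,
  T90, T91, T92, T93, T94, T95, T96, T97, T98, T99,
  T100, T101, T102, T103, T104, T105, T106, T107, T108, T109,
  T110, T111, T112, T113, T114, T115, T116, T117, T118, T119,
  T120, T121, T122, T123, T124, T125, T126, T127, T128, T129,
  T130, T131, T132, T133, T134, T135, T136, T137, T138, T139,
  T140, T141, T142, T143, T144, T145, T146, T147, T148, T149,
  T150, T151, T152, T153, T154, T155, T156, T157, T158, T159,
  T160, T161, T162, T163, T164, T165, T166, T167, T168, T169,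
  T170, T171, T172, T173, T174, T175, T176, T177, T178, T179,
  T180, T181, T182, T183, T184, T185, T186, T187, T188, T189,
  T190, T191, T192, T193, T194, T195, T196, T197, T198, T199,
  T200, T201, T202, T203, T204, T205, T206, T207, T208, T209,
  T210, T211, T212, T213, T214, T215, T216, T217, T218, T219,
  T220, T221, T222, T223, T224, T225, T226, T227, T228, T229,
  T230, T231, T232, T233, T234, T235, T236, T237, T238, T239,
  T240, T241, T242, T243, T244, T245, T246, T247, T248, T249,
  T250, T251, T252, T253, T254, T255, T256, T257, T258, T259,
  T260, T261, T262, T263, T264, T265, T266, T267, T268, T269,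
  T270, T271, T272, T273, T274, T275, T276, T277, T278, T279,
  T280, T281, T282, T283, T284, T285, T286, T287, T288, T289,
  T290, T291, T292, T293, T294, T295, T296, T297, T298, T299,
  T300, T301, T302, T303]
def aT (i : ℕ) : ℕ := aTl.getD i 0
def aRl : List (ℕ) := [
  R0, R1, R2, R3, R4, R5, R6, R7, R8, R9,
  R10, R11, R12, R13, R14, R15, R16, R17, R18, R19,
  R20, R21, R22, R23, R24, R25, R26, R27, R28, R29,
  R30, R31, R32, R33, R34, R35, R36, R37, R38, R39,
  R40, R41, R42, R43, R44, R45, R46, R47, R48, R49,
  R50, R51, R52, R53, R54, R55, R56, R57, R58, R59,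
  R60, R61, R62, R63, R64, R65, R66, R67, R68, R69,
  R70, R71, R72, R73, R74, R75, R76, R77, R78, R79,
  R80, R81, R82, R83, R84, R85, R86, R87, R88, R89,
  R90, R91, R92, R93, R94, R95, R96, R97, R98, R99,
  R100, R101, R102, R103, R104, R105, R106, R107, R108, R109,
  R110, R111, R112, R113, R114, R115, R116, R117, R118, R119,
  R120, R121, R122, R123, R124, R125, R126, R127, R128, R129,
  R130, R131, R132, R133, R134, R135, R136, R137, R138, R139,
  R140, R141, R142, R143, R144, R145, R146, R147, R148, R149,
  R150, R151, R152, R153, R154, R155, R156, R157, R158, R159,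
  R160, R161, R162, R163, R164, R165, R166, R167, R168, R169,
  R170, R171, R172, R173, R174, R175, R176, R177, R178, R179,
  R180, R181, R182, R183, R184, R185, R186, R187, R188, R189,
  R190, R191, R192, R193, R194, R195, R196, R197, R198, R199,
  R200, R201, R202, R203, R204, R205, R206, R207, R208, R209,
  R210, R211, R212, R213, R214, R215, R216, R217, R218, R219,
  R220, R221, R222, R223, R224, R225, R226, R227, R228, R229,
  R230, R231, R232, R233, R234, R235, R236, R237, R238, R239,
  R240, R241, R242, R243, R244, R245, R246, R247, R248, R249,
  R250, R251, R252, R253, R254, R255, R256, R257, R258, R259,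
  R260, R261, R262, R263, R264, R265, R266, R267, R268, R269,
  R270, R271, R272, R273, R274, R275, R276, R277, R278, R279,
  R280, R281, R282, R283, R284, R285, R286, R287, R288, R289,
  R290, R291, R292, R293, R294, R295, R296, R297, R298, R299,
  R300, R301, R302, R303]
def aR (i : ℕ) : ℕ := aRl.getD i 0
def aCl : List (ℕ) := [
  C0, C1, C2, C3, C4, C5, C6, C7, C8, C9,
  C10, C11, C12, C13, C14, C15, C16, C17, C18, C19,
  C20, C21, C22, C23, C24, C25, C26, C27, C28, C29,
  C30, C31, C32, C33, C34, C35, C36, C37, C38, C39,
  C40, C41, C42, C43, C44, C45, C46, C47, C48, C49,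
  C50, C51, C52, C53, C54, C55, C56, C57, C58, C59,
  C60, C61, C62, C63, C64, C65, C66, C67, C68, C69,
  C70, C71, C72, C73, C74, C75, C76, C77, C78, C79,
  C80, C81, C82, C83, C84, C85, C86, C87, C88, C89,
  C90, C91, C92, C93, C94, C95, C96, C97, C98, C99,
  C100, C101, C102, C103, C104, C105, C106, C107, C108, C109,
  C110, C111, C112, C113, C114, C115, C116, C117, C118, C119,
  C120, C121, C122, C123, C124, C125, C126, C127, C128, C129,
  C130, C131, C132, C133, C134, C135, C136, C137, C138, C139,
  C140, C141, C142, C143, C144, C145, C146, C147, C148, C149,
  C150, C151, C152, C153, C154, C155, C156, C157, C158, C159,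
  C160, C161, C162, C163, C164, C165, C166, C167, C168, C169,
  C170, C171, C172, C173, C174, C175, C176, C177, C178, C179,
  C180, C181, C182, C183, C184, C185, C186, C187, C188, C189,
  C190, C191, C192, C193, C194, C195, C196, C197, C198, C199,
  C200, C201, C202, C203, C204, C205, C206, C207, C208, C209,
  C210, C211, C212, C213, C214, C215, C216, C217, C218, C219,
  C220, C221, C222, C223, C224, C225, C226, C227, C228, C229,
  C230, C231, C232, C233, C234, C235, C236, C237, C238, C239,
  C240, C241, C242, C243, C244, C245, C246, C247, C248, C249,
  C250, C251, C252, C253, C254, C255, C256, C257, C258, C259,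
  C260, C261, C262, C263, C264, C265, C266, C267, C268, C269,
  C270, C271, C272, C273, C274, C275, C276, C277, C278, C279,
  C280, C281, C282, C283, C284, C285, C286, C287, C288, C289,
  C290, C291, C292, C293, C294, C295, C296, C297, C298, C299,
  C300, C301, C302, C303]
def aC (i : ℕ) : ℕ := aCl.getD i 0
def aDl : List (Dl) := [
  D0, D1, D2, D3, D4, D5, D6, D7, D8, D9,
  D10, D11, D12, D13, D14, D15, D16, D17, D18, D19,
  D20, D21, D22, D23, D24, D25, D26, D27, D28, D29,
  D30, D31, D32, D33, D34, D35, D36, D37, D38, D39,
  D40, D41, D42, D43, D44, D45, D46, D47, D48, D49,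
  D50, D51, D52, D53, D54, D55, D56, D57, D58, D59,
  D60, D61, D62, D63, D64, D65, D66, D67, D68, D69,
  D70, D71, D72, D73, D74, D75, D76, D77, D78, D79,
  D80, D81, D82, D83, D84, D85, D86, D87, D88, D89,
  D90, D91, D92, D93, D94, D95, D96, D97, D98, D99,
  D100, D101, D102, D103, D104, D105, D106, D107, D108, D109,
  D110, D111, D112, D113, D114, D115, D116, D117, D118, D119,
  D120, D121, D122, D123, D124, D125, D126, D127, D128, D129,
  D130, D131, D132, D133, D134, D135, D136, D137, D138, D139,
  D140, D141, D142, D143, D144, D145, D146, D147, D148, D149,
  D150, D151, D152, D153, D154, D155, D156, D157, D158, D159,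
  D160, D161, D162, D163, D164, D165, D166, D167, D168, D169,
  D170, D171, D172, D173, D174, D175, D176, D177, D178, D179,
  D180, D181, D182, D183, D184, D185, D186, D187, D188, D189,
  D190, D191, D192, D193, D194, D195, D196, D197, D198, D199,
  D200, D201, D202, D203, D204, D205, D206, D207, D208, D209,
  D210, D211, D212, D213, D214, D215, D216, D217, D218, D219,
  D220, D221, D222, D223, D224, D225, D226, D227, D228, D229,
  D230, D231, D232, D233, D234, D235, D236, D237, D238, D239,
  D240, D241, D242, D243, D244, D245, D246, D247, D248, D249,
  D250, D251, D252, D253, D254, D255, D256, D257, D258, D259,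
  D260, D261, D262, D263, D264, D265, D266, D267, D268, D269,
  D270, D271, D272, D273, D274, D275, D276, D277, D278, D279,
  D280, D281, D282, D283, D284, D285, D286, D287, D288, D289,
  D290, D291, D292, D293, D294, D295, D296, D297, D298, D299,
  D300, D301, D302, D303]
def aD (i : ℕ) : Dl := aDl.getD i D0
def aPl : List (Pf) := [
  P0, P1, P2, P3, P4, P5, P6, P7, P8, P9,
  P10, P11, P12, P13, P14, P15, P16, P17, P18, P19,
  P20, P21, P22, P23, P24, P25, P26, P27, P28, P29,
  P30, P31, P32, P33, P34, P35, P36, P37, P38, P39,
  P40, P41, P42, P43, P44, P45, P46, P47, P48, P49,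
  P50, P51, P52, P53, P54, P55, P56, P57, P58, P59,
  P60, P61, P62, P63, P64, P65, P66, P67, P68, P69,
  P70, P71, P72, P73, P74, P75, P76, P77, P78, P79,
  P80, P81, P82, P83, P84, P85, P86, P87, P88, P89,
  P90, P91, P92, P93, P94, P95, P96, P97, P98, P99,
  P100, P101, P102, P103, P104, P105, P106, P107, P108, P109,
  P110, P111, P112, P113, P114, P115, P116, P117, P118, P119,
  P120, P121, P122, P123, P124, P125, P126, P127, P128, P129,
  P130, P131, P132, P133, P134, P135, P136, P137, P138, P139,
  P140, P141, P142, P143, P144, P145, P146, P147, P148, P149,
  P150, P151, P152, P153, P154, P155, P156, P157, P158, P159,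
  P160, P161, P162, P163, P164, P165, P166, P167, P168, P169,
  P170, P171, P172, P173, P174, P175, P176, P177, P178, P179,
  P180, P181, P182, P183, P184, P185, P186, P187, P188, P189,
  P190, P191, P192, P193, P194, P195, P196, P197, P198, P199,
  P200, P201, P202, P203, P204, P205, P206, P207, P208, P209,
  P210, P211, P212, P213, P214, P215, P216, P217, P218, P219,
  P220, P221, P222, P223, P224, P225, P226, P227, P228, P229,
  P230, P231, P232, P233, P234, P235, P236, P237, P238, P239,
  P240, P241, P242, P243, P244, P245, P246, P247, P248, P249,
  P250, P251, P252, P253, P254, P255, P256, P257, P258, P259,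
  P260, P261, P262, P263, P264, P265, P266, P267, P268, P269,
  P270, P271, P272, P273, P274, P275, P276, P277, P278, P279,
  P280, P281, P282, P283, P284, P285, P286, P287, P288, P289,
  P290, P291, P292, P293, P294, P295, P296, P297, P298, P299,
  P300, P301, P302, P303]
def aP (i : ℕ) : Pf := aPl.getD i P00
def aspl : List (ℕ) := [
  21217891206712186847643505, 13355676599138090693831944, 22771116924316269555379787, 25737497325663178956204944,
  7893021811505046284851625, 6760633506285325124808647, 5935855178251089018922354, 8533386063233972326740723,
  9125517128323221524816339, 13547654792648606369756428, 13295713307162590416270761, 21841238271016796623882496,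
  15699297675785072391809565, 20867409275062596836257471, 5232572873080867904714178, 6488730189950692510492034,
  9585814853544451499370357, 10619164793321099342177769, 9850105214965103143939832, 22742319293832230099291232,
  24671980437696489004256594, 8368438425770405908780255, 14904173194504015618088828, 22469865405766040702245218,
  16426207954014350352037773, 30073725037303107747977067, 17556731923387062861867192, 5967681262302731491942957,
  36276577962763539170736412, 22441160692908836218451591, 19709444172301132657016009, 8033462719988889771393350,
  7318559548553645509599957, 6370857291795452634021530, 8693699044780115334984053, 9822284923500475718681709,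
  7074476339480593611149938, 5848418714457702579048502, 7178458492950132899342589, 7043930447018761297876441,
  8376071271410051036651987, 31476820697229365548402380, 14482632592287413875202700, 7754867951165303916827019,
  8152298900335662051053500, 12249410134530985293145116, 6691940198407978791679840, 10764120821882458424287005,
  9230550458504022823857351, 12181187693790799774160376, 6818988518349889962887509, 8556625601910591811281049,
  6726754064436491496155927, 10243288891808830078993409, 7443848299528103779639825, 5670347392562811785008029,
  14544753404243278418962031, 11881918140678317228833605, 8652705895971386443466091, 8632310629529548200609231,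
  7530063459712645906958209, 6099508594958240144985761, 7031733590985887889436588, 10185739941626255876682884,
  14367587072290172205886263, 14902791422265336394891886, 17403814148789038394628870, 19774327741183303393382361,
  19611711279687694544852735, 14379511873185818822275791, 12067608110293352114752930, 24561149530373834039203930,
  17742446552527748833119985, 13965928734347866556437001, 41223658549098615607435929, 14448630505587146969922206,
  14217134824172493677581899, 10707866375614318788950525, 11879142562074228502992011, 18452062412334557523788585,
  26080522594525636071590916, 15943059130082812902243673, 27000146413105726694518345, 10203186550658467655067666,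
  10593675456505839638339708, 15112325042196290395703819, 12428984516830748145656791, 20230658982336854164228464,
  20561363465041333635211212, 19773524199185844667176013, 22977314275021971181045311, 19914905752763281846701317,
  5538951050668624495594336, 11289508648690377091564219, 7429155578852071160200487, 11261235793389529686648832,
  17830204882950714464047159, 26521006336437540298845183, 6831018143296153820054890, 30351839310441530883339150,
  7571854197301102391779484, 22268244603059540337924192, 18383850856434326872237779, 12489974947552992943023154,
  8740511145142795427011495, 5210994177603445913211507, 8303740034419343324917718, 6141914865814902648400998,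
  6214142258121337452094699, 24198905733027355476106509, 14005013402469649949737716, 23912147429156060339950367,
  16632851446349213219467001, 20044663536780054436294159, 18239842839665728058279457, 17547195333483009935975816,
  27130005079269611916131160, 3605071192488575362555032, 5894224784796170837750373, 10659489954661476564992122,
  29462759829803178328714871, 8668099522205486806491409, 31827260130672519882801796, 10607059571348178856447782,
  35335335913850694609170075, 42227187262387568676689763, 15803807460943887399736253, 10493756138726757697242308,
  5787851115264615111689322, 6000012138102375979811311, 5783432367409373097272242, 8605335298374217016785313,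
  13660943014429845199659145, 12244975372747853329537245, 6215771119882273036677130, 6942653163187564566911175,
  4249907069423345919601542, 6562986294851903583319172, 5541636172213754488000828, 14425444123624810632925960,
  16117044070295995919565113, 7477296626063203440783061, 15004865680438080377268816, 13802680964241755395939813,
  18944329473758309215454563, 22057400429186714369663496, 4618017252944876822797972, 6554732914423226795262960,
  7029122886400540215323889, 7114154127749057640519952, 4012769320761372386712959, 5426420514270450963736149,
  10056499119130495084724588, 5131629120576335203972300, 9105458926095881596279094, 15319420373487085500312068,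
  30482335903112004512234259, 34723545735067876877355138, 17289667458559227417444360, 12525724168856055502253180,
  12105061316801705378370138, 18426725821309567875449407, 8309840238505431964380938, 10444400040281292045268806,
  9492576283447449793576834, 8582938985297274682125861, 4481419713528001948810369, 6531726379307920830806163,
  12837548927827152865490512, 6552544689873855082641582, 8107842779084570020918152, 8669464304905829086977775,
  6928553872014696744891253, 8613035094011074212551627, 7763458918671743164809532, 6414088858463980680703311,
  8376518524155814402889669, 8497422966147795889582857, 10139537015617662505083995, 9086350265404971412208581,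
  11797029491603279275127559, 22153273228332371356947842, 13993979446992945205140351, 5905625172315484564558070,
  6647786572090064664879359, 4454926845028848364585379, 13681733301534460812914063, 11037850144024333286894385,
  14276174810167409677363442, 5642243187477653217716078, 8040958665706397077885798, 6418312699392964501764248,
  8643640298275981047457285, 10469319324135847374460994, 7882228056371177961426424, 7683786214301484587276464,
  4271595612753353913492998, 6919955493734320991856928, 4475533314814030715891799, 9700440070255464731321352,
  8734895721386502229981209, 6791309426603495963963993, 6600525642064358137840429, 7045272146887917459777411,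
  12531189436603896540676353, 16553544155628779908363265, 14084145640180713884712887, 6663953072679837508519693,
  9007867714554979947940887, 7843755832544177586007688, 13237795185781197456640943, 9978434294145033636467756,
  6009872761979569272178109, 7892015154992702461399251, 9551722401950128752978506, 13995964525843335377529865,
  7493900361517455441576293, 5896446209026859298495122, 10757394793516527114415210, 7935085932211492366084561,
  11707454118847180621555922, 11792559978512324679554582, 16742148698229034064317016, 14065953698199462239242819,
  12085114818983970443179241, 24596826007185986625765865, 8300558042075279728068135, 10627708796124716176841113,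
  6452817244431338616087019, 4812315761791398775247405, 12177449865798755328547791, 5963344200470532204817661,
  8065632841972139493099140, 9377895641717512362860559, 11080534508497353712484478, 15178420044210367289307861,
  21258536569630604547984459, 14249997773359989825708409, 9386855873021804172036496, 10585476077207249866130842,
  7530580288476953572257414, 11788275333099200431303402, 5953967073284121791110195, 8798463588505675855994623,
  7860850284436589960990182, 11323196269633785034377752, 8536333769787223470601720, 12905828640235485896036943,
  3133982355140870526599206, 3981023806806332864047934, 9086150297611812350222805, 7367314998485182528256744,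
  7608843406363641143286867, 11749188976217636946342717, 10753173174703369765020545, 13094822144845314610784383,
  5405744088645447574574906, 8805320996895571963874104, 9217075611728506969805004, 5645551248798850481520670,
  8622011897938069080956436, 10384829854915092138330582, 22511313245888245718908705, 17528027059871492312243572,
  9002472560837555229902597, 4025957638735456730643797, 7246487152721468945076393, 7551930513694139477951272,
  8597417813647166915006046, 8734772649381076867898791, 10241498335285934527503542, 9545720542092777233365721,
  17431220254351796921802077, 16532240570611546704335603, 12543077447847177503681254, 19327328319003112177337553,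
  18560627437464893407402338, 6740808967855936979630198, 5391477116172626656198643, 7139966109029808442664503,
  5914443932878826317119471, 6928329232508056630766323, 8110203571485766202037369, 9797925806986817784306079,
  8220888861967752117303477, 9482493168635608079254036, 13681687599218185620917314, 7957378225654413700787144,
  7861578452378043403899071, 11096795608148222633048064, 8357511570721763248021926, 12165233417884990117074621,
  14556294797369799330691989, 3241675692698223193697581, 4462669198548251909886676, 18119635784536858309811048,
  20087188027469826723417532, 10801441355146242511147789, 21255576681121358452969393, 11512208006304894841767074,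
  7686219098344091175310052, 8447492288638617276480185, 8045670089864078358194385, 2286673278623049662576909]
def asp (i : ℕ) : ℕ := aspl.getD i 0
def atotl : List (ℕ) := [
  389240027, 313377153, 512785649, 461197970, 80489410, 72246339, 49314251, 33120644, 17723815, 5433200,
  170145274, 343860611, 177323049, 195333800, 41600480, 21198273, 2933282, 5197189, 48480573, 387160753,
  575500983, 263758257, 268203962, 427922124, 336482586, 489827847, 139197084, 81529669, 612477458, 491609795,
  308528300, 105207418, 62061897, 23535099, 112969456, 107698872, 29574481, 31301986, 20088529, 10647599,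
  22218264, 406745247, 290900482, 62606022, 22902945, 5862657, 10344484, 10070907, 13680465, 48062128,
  19813765, 11192564, 9595920, 24526117, 8587099, 47731701, 410966095, 281216452, 101170524, 49234119,
  57951501, 1898021, 8179055, 17286227, 371990246, 261498544, 381864533, 463288122, 496874409, 328290149,
  121147036, 579863494, 243136380, 161547490, 746863061, 243823363, 186655881, 135814760, 124924513, 347589824,
  533152997, 311395032, 627262431, 330814561, 410474911, 512183945, 391396916, 300919443, 309306339, 381105429,
  547677363, 429900238, 67742240, 44116642, 11912705, 13340293, 487682193, 480098833, 220800779, 506680920,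
  166685821, 424583307, 358590704, 240201431, 71895394, 58677238, 55903141, 52955103, 76462670, 606910532,
  277390144, 359426961, 434642441, 315115560, 411839558, 129451897, 520821650, 64751555, 101665611, 416617667,
  704517283, 248680610, 625687343, 325456950, 583765171, 616906727, 306427034, 160168467, 69191271, 55363997,
  17266169, 12767443, 44447305, 222648012, 54148115, 9432114, 6920670, 52316939, 95573396, 198415370,
  326389707, 105360015, 337619560, 365608966, 268050692, 450593163, 91696177, 85585275, 37725940, 57151223,
  13483452, 5652311, 6891177, 17156930, 14905193, 240913889, 652073289, 510341180, 331537998, 415418771,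
  320667181, 257354257, 121265754, 58737108, 5600149, 9649008, 9284586, 18258449, 106032470, 53175513,
  5803137, 18558733, 32825042, 113672386, 65929271, 7213802, 16341894, 33590854, 45573425, 11206599,
  13633436, 384933703, 275475900, 30095671, 53689593, 3560603, 39477393, 11825396, 7448083, 11199082,
  8845485, 9480453, 11894251, 8335602, 27602294, 10775358, 6849955, 12580414, 11970159, 7325956,
  48452349, 20218990, 6175632, 8499667, 15168968, 227470822, 258151602, 49273642, 3945349, 8184876,
  132686452, 83963500, 53639250, 8464734, 10074383, 198665144, 47784509, 50961541, 6945222, 8583038,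
  151446364, 187683298, 210794810, 317057689, 323933950, 372926294, 65934843, 30504643, 721875, 5519443,
  9003605, 29640367, 3869010, 9299239, 224854796, 280838075, 303457727, 221753117, 129210495, 103666074,
  12201179, 76149443, 53351015, 54023822, 912903, 980566, 453473, 1005258, 168337, 925775,
  940394, 929407, 926677, 995555, 602940, 1053005, 1005593, 958844, 5634497, 12993073,
  19376178, 222575885, 517491837, 334052522, 90642915, 58667919, 55101684, 58958347, 3927120, 11340247,
  233081404, 306133864, 410701203, 173166323, 224117196, 400032859, 391697942, 153331749, 23490213, 55136830,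
  3051679, 8583052, 38443241, 20631713, 16779394, 3724649, 29677227, 44722639, 9489342, 15739026,
  3964215, 38012520, 10634856, 10295792, 86168323, 401112295, 493227972, 155855427, 201834621, 112017187,
  62441726, 6086707, 13214745, 286877]
def atot (i : ℕ) : ℕ := atotl.getD i 0
def acntl : List (ℕ) := [
  3066, 3084, 3136, 2821, 1660, 1353, 952, 2697, 2964, 3828,
  2575, 2336, 3430, 2027, 2401, 3321, 3292, 2993, 1749, 2558,
  3115, 3546, 2230, 2514, 3399, 2908, 2199, 1568, 2803, 2881,
  1708, 1537, 1432, 2845, 2540, 1438, 703, 1259, 3017, 2615,
  3351, 3039, 2406, 1502, 3012, 1972, 2935, 3457, 2682, 2301,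
  2982, 3368, 2935, 3021, 2820, 2919, 2498, 2906, 1847, 1260,
  2287, 2762, 3191, 3082, 3323, 3312, 2535, 2514, 3081, 2546,
  679, 3346, 2521, 2999, 2768, 3240, 2025, 3384, 3266, 2738,
  2225, 2836, 3066, 3545, 3571, 3313, 3190, 2149, 2137, 2978,
  3363, 3036, 955, 2551, 2627, 1521, 3479, 2852, 3344, 2911,
  1871, 3209, 2270, 2768, 1609, 1104, 2320, 2760, 1111, 2973,
  3197, 4216, 2713, 2734, 3158, 2886, 3005, 1604, 1866, 3229,
  3178, 2861, 2932, 3425, 2904, 3148, 3014, 1620, 1474, 1383,
  3020, 2380, 2418, 2024, 1417, 2873, 2542, 2293, 1678, 2728,
  2038, 2070, 2649, 3342, 1720, 2700, 1780, 1659, 421, 1332,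
  3046, 2269, 1920, 2719, 1658, 2315, 2961, 2822, 1496, 2913,
  3485, 1627, 1449, 2148, 2935, 2829, 2602, 3057, 1624, 2188,
  1886, 2687, 3131, 1745, 2090, 3036, 3050, 2387, 2268, 3166,
  3097, 2420, 1609, 718, 2395, 549, 3845, 3415, 2957, 2540,
  2561, 3173, 2989, 2284, 3031, 3030, 2593, 2988, 3145, 2729,
  2224, 2717, 2340, 3020, 2477, 2023, 1727, 2490, 3032, 2769,
  3366, 1197, 1371, 1537, 2311, 3180, 1355, 2301, 2109, 3687,
  3425, 2176, 1940, 1974, 3340, 2488, 1194, 2937, 1214, 1819,
  2824, 2764, 2697, 3023, 1886, 2459, 2708, 1941, 1898, 1948,
  3313, 1698, 1012, 1434, 82, 51, 17, 219, 5, 213,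
  82, 75, 82, 71, 22, 335, 277, 82, 2679, 3162,
  2728, 3345, 2944, 2293, 1726, 1526, 912, 2301, 2827, 3216,
  3398, 3386, 3334, 2193, 1284, 2801, 2749, 1648, 762, 2407,
  913, 2940, 1911, 2767, 2907, 2336, 2997, 2463, 2728, 2749,
  2855, 2204, 178, 951, 1610, 3580, 3186, 2243, 2949, 1974,
  2203, 2847, 2767, 408]
def acnt (i : ℕ) : ℕ := acntl.getD i 0

/-- the statement of module `i` -/
def RunP (i : ℕ) : Prop := runM (aT i) (fin (aS (i + 1)) (aH (i + 1)) (aP i) (asp i) (atot i) 0) (aD i)
    (aS i) (aH i) P00 0 0 (2 ^ acnt i - 1) = true

/-- the covering statement of module `i` -/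
def CovP (i : ℕ) : Prop := covL i (acnt i) Gs (aT i) (aR i) (aC i) 0 = true

end
end Pool.Agent.LibM73D.X
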