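import Pool.Agent.LibM73.AsmA0
import Pool.Agent.LibM73.AsmA1
import Pool.Agent.LibM73.AsmA2
import Pool.Agent.LibM73.AsmA3
import Pool.Agent.LibM73.AsmA4
import Pool.Agent.LibM73.AsmA5
import Pool.Agent.LibM73.AsmA6
import Pool.Agent.LibM73.AsmA7
import Pool.Agent.LibM73.AsmA8
import Pool.Agent.LibM73.AsmA9
set_option autoImplicit false
/-!
# The assembly of the modules
-/
namespace Pool.Agent.LibM73D.X
open Pool.Agent.LibM73 Pool.Agent.LibM73D Pool.Agent.LibMoserT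
noncomputable section

theorem hrunP : ∀ i < 304, RunP i := by
  intro i hi
  rcases lt_or_ge i 30 with h0 | h0
  · exact hrun_0 i (Nat.zero_le i) h0
  rcases lt_or_ge i 60 with h1 | h1
  · exact hrun_1 i h0 h1
  rcases lt_or_ge i 91 with h2 | h2
  · exact hrun_2 i h1 h2
  rcases lt_or_ge i 121 with h3 | h3
  · exact hrun_3 i h2 h3
  rcases lt_or_ge i 152 with h4 | h4
  · exact hrun_4 i h3 h4
  rcases lt_or_ge i 182 with h5 | h5
  · exact hrun_5 i h4 h5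
  rcases lt_or_ge i 212 with h6 | h6
  · exact hrun_6 i h5 h6
  rcases lt_or_ge i 243 with h7 | h7
  · exact hrun_7 i h6 h7
  rcases lt_or_ge i 273 with h8 | h8
  · exact hrun_8 i h7 h8
  exact hrun_9 i h8 hi

theorem hcovP : ∀ i < 304, CovP i := by
  intro i hi
  rcases lt_or_ge i 30 with h0 | h0
  · exact hcov_0 i (Nat.zero_le i) h0
  rcases lt_or_ge i 60 with h1 | h1
  · exact hcov_1 i h0 h1
  rcases lt_or_ge i 91 with h2 | h2
  · exact hcov_2 i h1 h2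
  rcases lt_or_ge i 121 with h3 | h3
  · exact hcov_3 i h2 h3
  rcases lt_or_ge i 152 with h4 | h4
  · exact hcov_4 i h3 h4
  rcases lt_or_ge i 182 with h5 | h5
  · exact hcov_5 i h4 h5
  rcases lt_or_ge i 212 with h6 | h6
  · exact hcov_6 i h5 h6
  rcases lt_or_ge i 243 with h7 | h7
  · exact hcov_7 i h6 h7
  rcases lt_or_ge i 273 with h8 | h8
  · exact hcov_8 i h7 h8
  exact hcov_9 i h8 hi

theorem hrun : ∀ i < 304, runM (aT i) (fin (aS (i + 1)) (aH (i + 1)) (aP i) (asp i) (atot i) 0) (aD i)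
    (aS i) (aH i) P00 0 0 (2 ^ acnt i - 1) = true := fun i hi => hrunP i hi

theorem hcov : ∀ i < 304, covL i (acnt i) Gs (aT i) (aR i) (aC i) 0 = true := fun i hi => hcovP i hi

theorem sP0 : ∑ i ∈ Finset.range 30, flat (aP i) = 0 + PQ0 :=
  zchain 30 30 (zchain0 (fun i => flat (aP i))) z_0 (by norm_num) (by norm_num)
theorem sP1 : ∑ i ∈ Finset.range 60, flat (aP i) = (0 + PQ0) + PQ1 :=
  zchain 30 60 sP0 z_1 (by norm_num) (by norm_num)
theorem sP2 : ∑ i ∈ Finset.range 91, flat (aP i) = ((0 + PQ0) + PQ1) + PQ2 :=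
  zchain 31 91 sP1 z_2 (by norm_num) (by norm_num)
theorem sP3 : ∑ i ∈ Finset.range 121, flat (aP i) = (((0 + PQ0) + PQ1) + PQ2) + PQ3 :=
  zchain 30 121 sP2 z_3 (by norm_num) (by norm_num)
theorem sP4 : ∑ i ∈ Finset.range 152, flat (aP i) = ((((0 + PQ0) + PQ1) + PQ2) + PQ3) + PQ4 :=
  zchain 31 152 sP3 z_4 (by norm_num) (by norm_num)
theorem sP5 : ∑ i ∈ Finset.range 182, flat (aP i) = (((((0 + PQ0) + PQ1) + PQ2) + PQ3) + PQ4) + PQ5 :=
  zchain 30 182 sP4 z_5 (by norm_num) (by norm_num)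
theorem sP6 : ∑ i ∈ Finset.range 212, flat (aP i) = ((((((0 + PQ0) + PQ1) + PQ2) + PQ3) + PQ4) + PQ5) + PQ6 :=
  zchain 30 212 sP5 z_6 (by norm_num) (by norm_num)
theorem sP7 : ∑ i ∈ Finset.range 243, flat (aP i) = (((((((0 + PQ0) + PQ1) + PQ2) + PQ3) + PQ4) + PQ5) + PQ6) + PQ7 :=
  zchain 31 243 sP6 z_7 (by norm_num) (by norm_num)
theorem sP8 : ∑ i ∈ Finset.range 273, flat (aP i) = ((((((((0 + PQ0) + PQ1) + PQ2) + PQ3) + PQ4) + PQ5) + PQ6) + PQ7) + PQ8 :=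
  zchain 30 273 sP7 z_8 (by norm_num) (by norm_num)
theorem sP9 : ∑ i ∈ Finset.range 304, flat (aP i) = (((((((((0 + PQ0) + PQ1) + PQ2) + PQ3) + PQ4) + PQ5) + PQ6) + PQ7) + PQ8) + PQ9 :=
  zchain 31 304 sP8 z_9 (by norm_num) (by norm_num)

theorem hPT : Nat.beq ((((((((((0 + PQ0) + PQ1) + PQ2) + PQ3) + PQ4) + PQ5) + PQ6) + PQ7) + PQ8) + PQ9) PT = true := by decide +kernel

theorem sumPT : ∑ i ∈ Finset.range 304, flat (aP i) = PT := sP9.trans (Nat.eq_of_beq_eq_true hPT)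

end
end Pool.Agent.LibM73D.X
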