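import Pool.Agent.LibM73.AsmX
set_option autoImplicit false
set_option maxRecDepth 100000
/-!
# The final state of the certificate and the theorem
-/
namespace Pool.Agent.LibM73D.X
open Pool.Agent.LibM73 Pool.Agent.LibM73D Pool.Agent.LibMoserT
noncomputable section

theorem sumZ {f : ℕ → ℕ} {n y : ℕ} (h : Nat.beq (sumF f 10 0 n) y = true) (hn : n ≤ 1024) :
    ∑ i ∈ Finset.range n, f i = y := by
  have h3 := Nat.eq_of_beq_eq_true h
  rw [sumF_eq f 10 0 n (by omega), zero_add, ← Finset.range_eq_Ico] at h3
  exact h3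

theorem z_cnt : Nat.beq (sumF acnt 10 0 304) 719409 = true := by decide +kernel
theorem z_sp : Nat.beq (sumF asp 10 0 304) 3666593384702672917595854557 = true := by decide +kernel
theorem z_tot : Nat.beq (sumF atot 10 0 304) 48013402606 = true := by decide +kernel

theorem hb : covB Gs = true := by decide +kernel
theorem hg0 : Nat.beq (gS Gs 0) 2 = true := by decide +kernel
theorem hg1 : Nat.beq (gS Gs 719409) N41 = true := by decide +kernel
theorem hg2 : Nat.beq Gs.length (719409 / 1024 + 1) = true := by decide +kernel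
theorem hg3 : Nat.blt (Gs.getD (719409 / 1024) 0) (2 ^ (40 * (719409 % 1024 + 1))) = true := by
  decide +kernel

/-- **the final state of the certificate** -/
theorem asm : CSt (2 / 3) (3 / 4 * Real.pi ^ 2 - 6) []
    [It.rc 64334623584441966243230041 64334623584441966244547101
      64052364079203566924361037 64052364079203566975495524] (Finset.Ico 1 N41) PT
    3666593384702672917595854557 48013402606 := by
  have hl2 : Gs.getD (719409 / 1024) 0 < 2 ^ (40 * (719409 % 1024 + 1)) :=
    Nat.le_of_ble_eq_true hg3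
  have h := chainM (M := 304) (nr := 719409) (N1 := N41) (Gs := Gs) (tab := aT) (cnt := acnt)
    (R := aR) (C := aC) (sp := asp) (tot := atot) (p := aP) (D := aD) (S := aS) (Th := aH)
    hrun hcov (by norm_num) (sumZ z_cnt (by norm_num)) hb (Nat.eq_of_beq_eq_true hg0)
    (Nat.eq_of_beq_eq_true hg1) (Nat.eq_of_beq_eq_true hg2) hl2 (by unfold N41; norm_num)
    (W := 2 / 3) (H := 3 / 4 * Real.pi ^ 2 - 6) start_state
  rw [sumPT, sumZ z_sp (by norm_num), sumZ z_tot (by norm_num)] at h
  exact h

/-- **the theorem** -/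
theorem main : IsLeast {x : ℝ | ∃ W H : ℝ, 0 < W ∧ 0 < H ∧ W * H = x ∧ Final.Packs W H}
    (Real.pi ^ 2 / 8 - 1) := fin41 T41_chk LT41_chk finChk41 asm

end
end Pool.Agent.LibM73D.X
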