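import Pool.Agent.LibM73.Spec
set_option autoImplicit false
/-! Elimination of the recursors. -/
namespace Pool.Agent.LibM73

theorem bf {b x : Bool} : (Bool.rec (motive := fun _ => Bool) false x b) = true ↔
    b = true ∧ x = true := by
  cases b <;> simp

theorem bi {α : Type} (b : Bool) (x y : α) :
    Bool.rec (motive := fun _ => α) x y b = if b = true then y else x := by
  cases b <;> simp

theorem ble_iff {a b : ℕ} : Nat.ble a b = true ↔ a ≤ b :=
  ⟨Nat.le_of_ble_eq_true, Nat.ble_eq_true_of_le⟩

theorem beq_iff {a b : ℕ} : Nat.beq a b = true ↔ a = b :=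
  ⟨Nat.eq_of_beq_eq_true, fun h => by subst h; exact Nat.beq_refl a⟩

end Pool.Agent.LibM73
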