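import Pool.Agent.LibM73.Brec
set_option autoImplicit false
/-!
# Geometry of the cells  (TASK CELL)

`oc e = 71 - e`; `v` lies in the octave `e` iff `v >>> oc e = 1`; the number of the cell is
`ix e v = (ct e >>> 7) - (v >>> (ct e % 128))`.
-/
namespace Pool.Agent.LibM73

/-- shift of the octave -/
def sh (e : ℕ) : ℕ := 71 - e - qe e

/-- first cell of the octave -/
def cBase (e : ℕ) : ℕ := if e < 12 then 2048 * e else if e < 16 then 24576 + 512 * (e - 12)
  else if e < 20 then 26624 + 256 * (e - 16) else 27648 + 128 * (e - 20)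

theorem oc_eq (e : ℕ) : oc e = 71 - e := rfl

/-- constants of the octaves (by `decide`) -/
theorem ct_sh {e : ℕ} (he : e < 32) : Nat.mod (ct e) 128 = sh e := by
  have h : ∀ e ∈ Finset.range 32, Nat.mod (ct e) 128 = sh e := by
    intro e he
    rw [Finset.mem_range] at he
    interval_cases e <;> rfl
  exact h e (Finset.mem_range.2 he)

theorem ct_base {e : ℕ} (he : e < 32) :
    Nat.shiftRight (ct e) 7 = cBase e + (2 ^ (qe e + 1) - 1) := by
  have h : ∀ e ∈ Finset.range 32, Nat.shiftRight (ct e) 7 = cBase e + (2 ^ (qe e + 1) - 1) := by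
    intro e he
    rw [Finset.mem_range] at he
    interval_cases e <;> rfl
  exact h e (Finset.mem_range.2 he)

theorem ix_def {e v : ℕ} (he : e < 32) : ix e v = (Nat.shiftRight (ct e) 7) - v >>> sh e := by
  rw [← ct_sh he]
  rfl

theorem sh_add {e : ℕ} (he : e < 32) : sh e + qe e = 71 - e := by
  unfold sh qe
  split_ifs <;> omega

theorem sh_ge {e : ℕ} (he : e < 32) : 33 ≤ sh e := by
  unfold sh qe
  split_ifs <;> omega

theorem oct_iff {e v : ℕ} : v >>> oc e = 1 ↔ 2 ^ (71 - e) ≤ v ∧ v < 2 ^ (71 - e + 1) := by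
  rw [oc_eq, Nat.shiftRight_eq_div_pow, pow_succ]
  have hp : 0 < 2 ^ (71 - e) := by positivity
  constructor
  · intro h
    constructor
    · have h1 : 1 ≤ v / 2 ^ (71 - e) := by omega
      rw [Nat.le_div_iff_mul_le hp] at h1
      omega
    · have h1 : v / 2 ^ (71 - e) < 2 := by omega
      rw [Nat.div_lt_iff_lt_mul hp] at h1
      omega
  · rintro ⟨h1, h2⟩
    have h3 : 1 ≤ v / 2 ^ (71 - e) := by
      rw [Nat.le_div_iff_mul_le hp]
      omega
    have h4 : v / 2 ^ (71 - e) < 2 := by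
      rw [Nat.div_lt_iff_lt_mul hp]
      omega
    omega

theorem uu_bd {e v : ℕ} (he : e < 32) (hv : v >>> oc e = 1) :
    2 ^ qe e ≤ v >>> sh e ∧ v >>> sh e < 2 ^ (qe e + 1) := by
  rw [oct_iff] at hv
  rw [Nat.shiftRight_eq_div_pow]
  have hp : 0 < 2 ^ sh e := by positivity
  rw [Nat.le_div_iff_mul_le hp, Nat.div_lt_iff_lt_mul hp, ← pow_add, ← pow_add,
    show qe e + sh e = 71 - e by rw [← sh_add he]; ring,
    show qe e + 1 + sh e = 71 - e + 1 by rw [← sh_add he]; ring]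
  exact hv

theorem cell_num {e r : ℕ} (he : e < 32) (hr : r < 2 ^ qe e) :
    cBase e + r < NC ∧ cE (cBase e + r) = e ∧ cR (cBase e + r) = r := by
  unfold qe at hr
  unfold cBase cE cR NC
  by_cases h1 : e < 12
  · rw [if_pos h1] at hr
    norm_num at hr
    rw [if_pos h1, if_pos (by omega), if_pos (by omega)]
    omega
  · rw [if_neg h1] at hr
    by_cases h2 : e < 16
    · rw [if_pos h2] at hr
      norm_num at hr
      rw [if_neg h1, if_pos h2, if_neg (by omega), if_pos (by omega), if_neg (by omega),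
        if_pos (by omega)]
      omega
    · rw [if_neg h2] at hr
      by_cases h3 : e < 20
      · rw [if_pos h3] at hr
        norm_num at hr
        rw [if_neg h1, if_neg h2, if_pos h3, if_neg (by omega), if_neg (by omega),
          if_pos (by omega), if_neg (by omega), if_neg (by omega), if_pos (by omega)]
        omega
      · rw [if_neg h3] at hr
        norm_num at hr
        rw [if_neg h1, if_neg h2, if_neg h3, if_neg (by omega), if_neg (by omega),
          if_neg (by omega), if_neg (by omega), if_neg (by omega), if_neg (by omega)]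
        omega

theorem ix_eq {e v : ℕ} (he : e < 32) (hv : v >>> oc e = 1) :
    ix e v = cBase e + (2 ^ (qe e + 1) - 1 - v >>> sh e) := by
  have h1 := uu_bd he hv
  rw [ix_def he, ct_base he]
  omega

/-- number, octave and position of the cell of `v` -/
theorem ix_spec {e v : ℕ} (he : e < 32) (hv : v >>> oc e = 1) :
    ix e v < NC ∧ cE (ix e v) = e ∧ cR (ix e v) = 2 ^ (qe e + 1) - 1 - v >>> sh e ∧
      2 ^ qe e ≤ v >>> sh e ∧ v >>> sh e < 2 ^ (qe e + 1) := by
  obtain ⟨h1, h2⟩ := uu_bd he hv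
  have h3 : 2 ^ (qe e + 1) - 1 - v >>> sh e < 2 ^ qe e := by
    have : 2 ^ (qe e + 1) = 2 * 2 ^ qe e := by ring
    omega
  obtain ⟨h4, h5, h6⟩ := cell_num he h3
  rw [← ix_eq he hv] at h4 h5 h6
  exact ⟨h4, h5, h6, h1, h2⟩

theorem lo_up_eq {e v : ℕ} (he : e < 32) (hv : v >>> oc e = 1) :
    lo (ix e v) = (v >>> sh e) * 2 ^ sh e ∧ up (ix e v) = (v >>> sh e + 1) * 2 ^ sh e := by
  obtain ⟨_, h2, h3, h4, h5⟩ := ix_spec he hv
  unfold lo up
  rw [h2, h3]
  have e1 : 71 - e - qe e = sh e := rfl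
  rw [e1]
  constructor
  · congr 1
    omega
  · congr 1
    omega

/-- edges of the cell of `v` -/
theorem ix_edges {e v : ℕ} (he : e < 32) (hv : v >>> oc e = 1) :
    lo (ix e v) ≤ v ∧ v < up (ix e v) ∧ 2 ^ (oc e) ≤ lo (ix e v) := by
  obtain ⟨h1, h2⟩ := lo_up_eq he hv
  obtain ⟨h3, h4⟩ := uu_bd he hv
  have hp : 0 < 2 ^ sh e := by positivity
  rw [h1, h2]
  refine ⟨?_, ?_, ?_⟩
  · rw [Nat.shiftRight_eq_div_pow]
    exact Nat.div_mul_le_self _ _
  · rw [Nat.shiftRight_eq_div_pow, mul_comm]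
    exact Nat.lt_mul_div_succ _ hp
  · have h5 : 2 ^ oc e = 2 ^ qe e * 2 ^ sh e := by
      rw [oc_eq, ← pow_add, ← sh_add he, add_comm]
    rw [h5]
    exact Nat.mul_le_mul_right _ h3

theorem InC_of {c : ℕ} {x : ℝ} (hc : c < NC) (hl : 0 < lo c)
    (h1 : (lo c : ℝ) - lo c / 2 ^ 15 ≤ x) (h2 : x ≤ up c) : InC c x := by
  refine Or.inl ⟨hc, lt_of_lt_of_le ?_ h1, h2⟩
  have : (0 : ℝ) < lo c := by exact_mod_cast hl
  have e : (lo c : ℝ) - lo c / 2 ^ 15 - lo c * (1 - 1 / 2 ^ 14) = lo c / 2 ^ 15 := by ring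
  have : (0 : ℝ) < lo c / 2 ^ 15 := by positivity
  linarith

theorem ix_in {e v : ℕ} {x : ℝ} (he : e < 32) (hv : v >>> oc e = 1) (h1 : x ≤ v)
    (h2 : (v : ℝ) - v / 2 ^ 15 ≤ x) : InC (ix e v) x := by
  obtain ⟨h3, h4, h5⟩ := ix_edges he hv
  have hp : 0 < 2 ^ oc e := by positivity
  have h3' : (lo (ix e v) : ℝ) ≤ v := by exact_mod_cast h3
  have h4' : (v : ℝ) ≤ up (ix e v) := by exact_mod_cast h4.le
  refine InC_of (ix_spec he hv).1 (by omega) ?_ (h1.trans h4')
  refine le_trans ?_ h2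
  have e1 : (v : ℝ) - v / 2 ^ 15 = v * (1 - 1 / 2 ^ 15) := by ring
  have e2 : (lo (ix e v) : ℝ) - lo (ix e v) / 2 ^ 15 = lo (ix e v) * (1 - 1 / 2 ^ 15) := by ring
  rw [e1, e2]
  exact mul_le_mul_of_nonneg_right h3' (by norm_num)

/-- the same with the precision of the machine -/
theorem put_in {e v er : ℕ} {x : ℝ} (he : e < 32) (hv : v >>> oc e = 1) (her : er ≤ v >>> 15)
    (h1 : x ≤ v) (h2 : (v : ℝ) - er ≤ x) : InC (ix e v) x := by
  refine ix_in he hv h1 (le_trans ?_ h2)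
  rw [Nat.shiftRight_eq_div_pow] at her
  have h3 : (er : ℝ) ≤ ((v / 2 ^ 15 : ℕ) : ℝ) := by exact_mod_cast her
  have h4 := div_le' v (2 ^ 15) (by positivity)
  push_cast at h3 h4
  linarith

theorem dust_in {v : ℕ} {x : ℝ} (hv : v >>> 56 = 0) (h1 : x ≤ v) : InC NC x := by
  refine Or.inr ⟨rfl, h1.trans ?_⟩
  rw [Nat.shiftRight_eq_div_pow, Nat.div_eq_zero_iff] at hv
  have h2 : v ≤ 2 ^ 56 := by
    rcases hv with h | h
    · exact absurd h (by positivity)
    · exact h.le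
  exact_mod_cast h2

/-- all numbers between `v0` and `v` are in the same cell -/
theorem in_same {e v0 v er : ℕ} {x : ℝ} (he : e < 32) (hv : v >>> oc e = 1)
    (hs : v0 >>> sh e = v >>> sh e) (her : er ≤ v0 >>> 15 ∨ er ≤ 2 ^ (oc e) >>> 15)
    (h1 : x ≤ v) (h2 : (v0 : ℝ) - er ≤ x) : InC (ix e v) x := by
  obtain ⟨h3, h4, h5⟩ := ix_edges he hv
  have hp : 0 < 2 ^ oc e := by positivity
  have h4' : (v : ℝ) ≤ up (ix e v) := by exact_mod_cast h4.le
  refine InC_of (ix_spec he hv).1 (by omega) (le_trans ?_ h2) (h1.trans h4')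
  have h6 : lo (ix e v) ≤ v0 := by
    rw [(lo_up_eq he hv).1, ← hs, Nat.shiftRight_eq_div_pow]
    exact Nat.div_mul_le_self _ _
  have h6' : (lo (ix e v) : ℝ) ≤ v0 := by exact_mod_cast h6
  have h5' : ((2 ^ oc e : ℕ) : ℝ) ≤ lo (ix e v) := by exact_mod_cast h5
  rcases her with her | her
  · rw [Nat.shiftRight_eq_div_pow] at her
    have h7 : (er : ℝ) ≤ ((v0 / 2 ^ 15 : ℕ) : ℝ) := by exact_mod_cast her
    have h8 := div_le' v0 (2 ^ 15) (by positivity)
    push_cast at h7 h8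
    have e1 : (v0 : ℝ) - v0 / 2 ^ 15 = v0 * (1 - 1 / 2 ^ 15) := by ring
    have e2 : (lo (ix e v) : ℝ) - lo (ix e v) / 2 ^ 15 = lo (ix e v) * (1 - 1 / 2 ^ 15) := by ring
    have h9 : (lo (ix e v) : ℝ) * (1 - 1 / 2 ^ 15) ≤ v0 * (1 - 1 / 2 ^ 15) :=
      mul_le_mul_of_nonneg_right h6' (by norm_num)
    linarith
  · rw [Nat.shiftRight_eq_div_pow] at her
    have h7 : (er : ℝ) ≤ ((2 ^ oc e / 2 ^ 15 : ℕ) : ℝ) := by exact_mod_cast her
    have h8 := div_le' (2 ^ oc e) (2 ^ 15) (by positivity)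
    push_cast at h7 h8 h5'
    have h9 : (2 : ℝ) ^ oc e / 32768 ≤ (lo (ix e v) : ℝ) / 32768 :=
      div_le_div_of_nonneg_right h5' (by norm_num)
    have e3 : (2 : ℝ) ^ 15 = 32768 := by norm_num
    rw [e3] at *
    linarith

/-- cells of the numbers of one octave -/
theorem ix_sub {e v v' : ℕ} (he : e < 32) (hv : v >>> oc e = 1) (hv' : v' >>> oc e = 1)
    (h : v' ≤ v) : ix e v' = ix e v + (v >>> sh e - v' >>> sh e) ∧ v' >>> sh e ≤ v >>> sh e := by
  have h1 : v' >>> sh e ≤ v >>> sh e := by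
    rw [Nat.shiftRight_eq_div_pow, Nat.shiftRight_eq_div_pow]
    exact Nat.div_le_div_right h
  obtain ⟨h2, h3⟩ := uu_bd he hv
  obtain ⟨h4, h5⟩ := uu_bd he hv'
  refine ⟨?_, h1⟩
  rw [ix_eq he hv, ix_eq he hv']
  omega

theorem cBase_lt {e e' : ℕ} (he' : e' < 32) (h : e < e') : cBase e + 2 ^ qe e ≤ cBase e' := by
  unfold cBase qe
  split_ifs <;> norm_num <;> omega

/-- thicker = smaller number -/
theorem ix_anti {e e' v V : ℕ} (he : e < 32) (he' : e' < 32) (hV : V >>> oc e = 1)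
    (hv : v >>> oc e' = 1) (h : v ≤ V) : ix e V ≤ ix e' v := by
  have h1 := oct_iff.1 hV
  have h2 := oct_iff.1 hv
  have h3 : e ≤ e' := by
    by_contra hcon
    rw [not_le] at hcon
    have h4 : 2 ^ (71 - e + 1) ≤ 2 ^ (71 - e') := Nat.pow_le_pow_right (by norm_num) (by omega)
    omega
  rcases Nat.lt_or_ge e e' with h4 | h4
  · have h5 := ix_eq he hV
    have h6 := ix_eq he' hv
    have h7 := cBase_lt he' h4
    obtain ⟨h8, h9⟩ := uu_bd he hV
    have h10 : 2 ^ (qe e + 1) = 2 * 2 ^ qe e := by ring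
    omega
  · obtain rfl : e = e' := by omega
    have := (ix_sub he hV hv h).1
    omega

/-- the cells between `v` and `V` cover everything between `v` and `V` -/
theorem ix_between {e e' v V : ℕ} {x : ℝ} (he : e < 32) (he' : e' < 32) (hV : V >>> oc e = 1)
    (hv : v >>> oc e' = 1) (hi : ix e V ≤ ix e' v) (h1 : (v : ℝ) - v / 2 ^ 15 ≤ x) (h2 : x ≤ V) :
    ∃ c, ix e V ≤ c ∧ c ≤ ix e' v ∧ InC c x := by
  rcases le_total x v with h3 | h3
  · exact ⟨ix e' v, hi, le_rfl, ix_in he' hv h3 h1⟩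
  · -- `y` = rounded up
    have hx0 : 0 ≤ x := le_trans (Nat.cast_nonneg _) h3
    obtain ⟨y, hy1, hy2⟩ : ∃ y : ℕ, x ≤ y ∧ (y : ℝ) < x + 1 :=
      ⟨⌈x⌉₊, Nat.le_ceil x, Nat.ceil_lt_add_one hx0⟩
    have h4 : v ≤ y := by
      have : (v : ℝ) ≤ y := h3.trans hy1
      exact_mod_cast this
    have h5 : y ≤ V := by
      have : (y : ℝ) < (V : ℝ) + 1 := by linarith
      have : y < V + 1 := by exact_mod_cast this
      omega
    have k1 := oct_iff.1 hV
    have k2 := oct_iff.1 hv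
    -- octave of `y`
    have hy0 : y ≠ 0 := by
      have : 0 < 2 ^ (71 - e') := by positivity
      omega
    have k3 : 2 ^ Nat.log 2 y ≤ y := Nat.pow_log_le_self 2 hy0
    have k4 : y < 2 ^ (Nat.log 2 y + 1) := Nat.lt_pow_succ_log_self (by norm_num) y
    have k5 : 71 - e' ≤ Nat.log 2 y := by
      by_contra hcon
      rw [not_le] at hcon
      have : 2 ^ (Nat.log 2 y + 1) ≤ 2 ^ (71 - e') := Nat.pow_le_pow_right (by norm_num) (by omega)
      omega
    have k6 : Nat.log 2 y ≤ 71 - e := by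
      by_contra hcon
      rw [not_le] at hcon
      have : 2 ^ (71 - e + 1) ≤ 2 ^ Nat.log 2 y := Nat.pow_le_pow_right (by norm_num) (by omega)
      omega
    obtain ⟨f, hf1, hf2⟩ : ∃ f, f < 32 ∧ 71 - f = Nat.log 2 y := ⟨71 - Nat.log 2 y, by omega, by omega⟩
    have hyo : y >>> oc f = 1 := by
      rw [oct_iff, hf2]
      exact ⟨k3, k4⟩
    refine ⟨ix f y, ix_anti he hf1 hV hyo h5, ix_anti hf1 he' hyo hv h4, ix_in hf1 hyo hy1 ?_⟩
    have k7 : 2 ^ 15 ≤ y := by
      have : 2 ^ 15 ≤ 2 ^ (71 - f) := Nat.pow_le_pow_right (by norm_num) (by omega)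
      rw [hf2] at this
      omega
    have k8 : (2 : ℝ) ^ 15 ≤ y := by exact_mod_cast k7
    have k9 : (1 : ℝ) ≤ y / 2 ^ 15 := by
      rw [le_div_iff₀ (by positivity)]
      linarith
    linarith

end Pool.Agent.LibM73
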