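set_option autoImplicit false
/-!
# Coverage: the checks

The global list of the entries, sorted by their start, is packed in chunks of 1024 entries: 40 bits
per entry, `start + 2^29 * owner` (owner = number of the module); the chunk has one more digit, the
start of the first entry of the next chunk (or `N1`).  Module `i` has its own table `T` (56 bits per
entry, `start + 2^29 * (count - 1)`, sorted by start); `count <= 2^20` is checked, too.
-/
namespace Pool.Agent.LibM73

noncomputable section

/-- `m` entries of the module `i` in the chunk `G`: `T` = remaining entries, `R` = remaining gaps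
(10 bits each), `o` = first possible place -/
def covI (G i : Nat) (K : Nat → Nat → Bool) (m : Nat) : Nat → Nat → Nat → Bool :=
  Nat.rec (motive := fun _ => Nat → Nat → Nat → Bool)
    (fun T R _ => K T R)
    (fun _ ih T R o =>
      Bool.rec (motive := fun _ => Bool) false
        (Bool.rec (motive := fun _ => Bool) false
          (ih (Nat.shiftRight T (nat_lit 56)) (Nat.shiftRight R (nat_lit 10))
            (Nat.succ (Nat.add o (Nat.mod R (nat_lit 1024)))))
          (Nat.beq
            (Nat.mod (Nat.shiftRight G (Nat.mul (nat_lit 40) (Nat.add o (Nat.mod R (nat_lit 1024)))))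
              (nat_lit 590295810358705651712))
            (Nat.add (Nat.add (Nat.mod T (nat_lit 536870912)) (Nat.mul (nat_lit 536870912) i))
              (Nat.mul (nat_lit 1099511627776)
                (Nat.succ (Nat.add (Nat.mod T (nat_lit 536870912))
                  (Nat.shiftRight (Nat.mod T (nat_lit 72057594037927936)) (nat_lit 29))))))))
        (Nat.ble (Nat.mod T (nat_lit 72057594037927936)) (nat_lit 562949953421311)))
    m

/-- all chunks; `C` = numbers of entries (11 bits each), `n` = entries used so far -/
def covL (i cnt : Nat) (Gs : List Nat) : Nat → Nat → Nat → Nat → Bool :=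
  List.rec (motive := fun _ => Nat → Nat → Nat → Nat → Bool)
    (fun _ _ _ n => Nat.beq n cnt)
    (fun G _ ih T R C n =>
      Bool.rec (motive := fun _ => Bool)
        (covI G i (fun T R => ih T R (Nat.shiftRight C (nat_lit 11))
          (Nat.add n (Nat.mod C (nat_lit 2048)))) (Nat.mod C (nat_lit 2048)) T R (nat_lit 0))
        (ih T R (Nat.shiftRight C (nat_lit 11)) n)
        (Nat.beq (Nat.mod C (nat_lit 2048)) (nat_lit 0)))
    Gs

/-- start of the entry `ρ` -/
def gS (Gs : List Nat) (ρ : Nat) : Nat := (Gs.getD (ρ / 1024) 0 >>> (40 * (ρ % 1024))) % 2 ^ 29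

/-- the borders of the chunks agree -/
def covB (Gs : List Nat) : Bool :=
  List.rec (motive := fun _ => Bool) true
    (fun G Gs' ih => and ih (List.rec (motive := fun _ => Bool) true
      (fun G' _ _ => Nat.beq (Nat.shiftRight G (nat_lit 40960)) (Nat.mod G' (nat_lit 536870912)))
      Gs')) Gs

end

end Pool.Agent.LibM73
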