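import Pool.Agent.LibM73.Brec
import Pool.Agent.LibM73.CovDefs
set_option autoImplicit false
/-!
# Coverage: every square number in `[2, N1)` is used exactly once  (TASK COV)

The global list of the entries, sorted by their start, is packed in chunks of 1024 entries: 40 bits
per entry, `start + 2^29 * owner` (owner = number of the module); the chunk has one more digit, the
start of the first entry of the next chunk (or `N1`).  Module `i` has its own table `T` (56 bits per
entry, `start + 2^29 * (count - 1)`, sorted by start); `count ≤ 2^20` is checked, too.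
-/
namespace Pool.Agent.LibM73

/-! ### one match -/

/-- the entry `w` of the module `i` is found in the chunk `G` at the place `p` -/
def Mt (G i w p : ℕ) : Prop :=
  (G >>> (40 * p)) % 2 ^ 69 = en w + 2 ^ 29 * i + 2 ^ 40 * (en w + ek w + 1) ∧ w < 2 ^ 49

theorem ent_eq (T r : ℕ) : ent T r = (T >>> (56 * r)) % 2 ^ 56 := rfl

theorem en_eq (w : ℕ) : en w = w % 2 ^ 29 := rfl

theorem ek_eq (w : ℕ) : ek w = w / 2 ^ 29 := by
  show w >>> 29 = _
  rw [Nat.shiftRight_eq_div_pow]

theorem ent_shift (T m r : ℕ) : ent (T >>> (56 * m)) r = ent T (r + m) := by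
  rw [ent_eq, ent_eq, ← Nat.shiftRight_add]
  congr 2
  ring

theorem covI_spec (G i : ℕ) (K : ℕ → ℕ → Bool) (m : ℕ) : ∀ T R o : ℕ,
    covI G i K m T R o = true →
    (∃ f : ℕ → ℕ, (∀ r < m, o ≤ f r) ∧ (∀ r r', r < r' → r' < m → f r < f r') ∧
      (∀ r < m, Mt G i (ent T r) (f r))) ∧ K (T >>> (56 * m)) (R >>> (10 * m)) = true := by
  induction m with
  | zero =>
    intro T R o h
    exact ⟨⟨fun _ => 0, by simp, by simp, by simp⟩, h⟩
  | succ m ih =>
    intro T R o h
    have h0 : (Bool.rec (motive := fun _ => Bool) false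
        (Bool.rec (motive := fun _ => Bool) false
          (covI G i K m (T >>> 56) (R >>> 10) (o + R % 1024 + 1))
          (Nat.beq ((G >>> (40 * (o + R % 1024))) % 590295810358705651712)
            (T % 536870912 + 536870912 * i + 1099511627776 *
              (T % 536870912 + (T % 72057594037927936) >>> 29 + 1))))
        (Nat.ble (T % 72057594037927936) 562949953421311)) = true := h
    rw [bf, bf, ble_iff, beq_iff] at h0
    obtain ⟨h1, h2, h3⟩ := h0
    obtain ⟨⟨f, f1, f2, f3⟩, hK⟩ := ih _ _ _ h3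
    have hM : Mt G i (ent T 0) (o + R % 1024) := by
      have e1 : ent T 0 = T % 72057594037927936 := by
        rw [ent_eq]
        simp
      refine ⟨?_, ?_⟩
      · rw [e1, en_eq]
        have e2 : (T % 72057594037927936) % 2 ^ 29 = T % 536870912 := by omega
        rw [e2]
        exact h2
      · rw [e1]
        omega
    refine ⟨⟨fun r => if r = 0 then o + R % 1024 else f (r - 1), ?_, ?_, ?_⟩, ?_⟩
    · intro r hr
      dsimp only
      split_ifs with h4
      · omega
      · have := f1 (r - 1) (by omega)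
        omega
    · intro r r' hr hr'
      dsimp only
      rw [if_neg (by omega : ¬ r' = 0)]
      split_ifs with h4
      · have := f1 (r' - 1) (by omega)
        omega
      · exact f2 _ _ (by omega) (by omega)
    · intro r hr
      dsimp only
      split_ifs with h4
      · subst h4
        exact hM
      · have := f3 (r - 1) (by omega)
        have e : T >>> 56 = T >>> (56 * 1) := by rw [Nat.mul_one]
        rw [e, ent_shift] at this
        have e2 : r - 1 + 1 = r := by omega
        rwa [e2] at this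
    · rw [← Nat.shiftRight_add, ← Nat.shiftRight_add] at hK
      have e1 : 56 + 56 * m = 56 * (m + 1) := by ring
      have e2 : 10 + 10 * m = 10 * (m + 1) := by ring
      rwa [e1, e2] at hK

theorem covL_spec (i cnt : ℕ) (Gs : List ℕ) : ∀ T R C n : ℕ,
    covL i cnt Gs T R C n = true → n ≤ cnt ∧
    ∃ c p : ℕ → ℕ, (∀ r < cnt - n, c r < Gs.length ∧ Mt (Gs.getD (c r) 0) i (ent T r) (p r)) ∧
      (∀ r r', r < r' → r' < cnt - n → c r < c r' ∨ (c r = c r' ∧ p r < p r')) := by
  induction Gs with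
  | nil =>
    intro T R C n h
    have h1 : n = cnt := beq_iff.1 h
    exact ⟨h1.le, fun _ => 0, fun _ => 0, by omega, by omega⟩
  | cons G Gs ih =>
    intro T R C n h
    have h1 : covI G i (fun T R => covL i cnt Gs T R (C >>> 11) (n + C % 2048)) (C % 2048) T R 0 =
        true := by
      have h2 : (Bool.rec (motive := fun _ => Bool)
        (covI G i (fun T R => covL i cnt Gs T R (C >>> 11) (n + C % 2048)) (C % 2048) T R 0)
        (covL i cnt Gs T R (C >>> 11) n) (Nat.beq (C % 2048) 0)) = true := h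
      rw [bi] at h2
      split_ifs at h2 with h3
      · rw [beq_iff] at h3
        rw [h3]
        exact h2
      · exact h2
    obtain ⟨⟨f, f1, f2, f3⟩, hK⟩ := covI_spec _ _ _ _ _ _ _ h1
    obtain ⟨hn, c, p, h4, h5⟩ := ih _ _ _ _ hK
    generalize C % 2048 = m at *
    refine ⟨by omega, fun r => if r < m then 0 else c (r - m) + 1,
      fun r => if r < m then f r else p (r - m), ?_, ?_⟩
    · intro r hr
      dsimp only
      by_cases h6 : r < m
      · rw [if_pos h6, if_pos h6]
        exact ⟨by simp, by simpa using f3 r h6⟩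
      · rw [if_neg h6, if_neg h6]
        obtain ⟨h7, h8⟩ := h4 (r - m) (by omega)
        rw [ent_shift] at h8
        have e : r - m + m = r := by omega
        rw [e] at h8
        exact ⟨by simpa using h7, by simpa using h8⟩
    · intro r r' hr hr'
      dsimp only
      by_cases h6 : r' < m
      · rw [if_pos (by omega : r < m), if_pos h6, if_pos (by omega : r < m), if_pos h6]
        exact Or.inr ⟨rfl, f2 r r' hr h6⟩
      · rw [if_neg h6, if_neg h6]
        by_cases h7 : r < m
        · rw [if_pos h7]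
          left
          omega
        · rw [if_neg h7, if_neg h7]
          rcases h5 (r - m) (r' - m) (by omega) (by omega) with h8 | ⟨h8, h9⟩
          · left
            omega
          · right
            exact ⟨by omega, h9⟩

theorem covB_spec (Gs : List ℕ) : covB Gs = true → ∀ j, j + 1 < Gs.length →
    Gs.getD j 0 >>> 40960 = Gs.getD (j + 1) 0 % 2 ^ 29 := by
  induction Gs with
  | nil =>
    intro _ j hj
    simp at hj
  | cons G Gs ih =>
    intro h j hj
    have h0 : (covB Gs && (List.rec (motive := fun _ => Bool) true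
      (fun G' _ _ => Nat.beq (G >>> 40960) (G' % 536870912)) Gs)) = true := h
    rw [Bool.and_eq_true] at h0
    obtain ⟨h1, h2⟩ := h0
    cases Gs with
    | nil => simp at hj
    | cons G' Gs' =>
      cases j with
      | zero =>
        have h3 : G >>> 40960 = G' % 536870912 := beq_iff.1 h2
        simpa using h3
      | succ j =>
        have h4 := ih h1 j (by simpa using hj)
        simpa using h4

/-! ### consequences of a match -/

theorem Mt.dec {G i w p : ℕ} (h : Mt G i w p) (hi : i < 2048) :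
    (G >>> (40 * p)) % 2 ^ 29 = en w ∧ (G >>> (40 * p)) / 2 ^ 29 % 2048 = i ∧
      (G >>> (40 * (p + 1))) % 2 ^ 29 = en w + ek w + 1 ∧ 2 ^ 40 ≤ G >>> (40 * p) := by
  obtain ⟨h1, h2⟩ := h
  have e : G >>> (40 * (p + 1)) = G >>> (40 * p) / 2 ^ 40 := by
    have : 40 * (p + 1) = 40 * p + 40 := by ring
    rw [this, Nat.shiftRight_add, Nat.shiftRight_eq_div_pow _ 40]
  rw [e]
  generalize G >>> (40 * p) = X at *
  have h3 : en w < 2 ^ 29 := by
    rw [en_eq]
    exact Nat.mod_lt _ (by norm_num)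
  generalize en w = a at *
  obtain ⟨b, hbb⟩ : ∃ b, b = a + ek w + 1 := ⟨_, rfl⟩
  rw [← hbb] at h1 ⊢
  have hb1 : 1 ≤ b := by omega
  have h5 := Nat.div_add_mod X (2 ^ 69)
  have h6 : X % 2 ^ 69 < 2 ^ 69 := Nat.mod_lt _ (by norm_num)
  rw [h1] at h5 h6
  generalize X / 2 ^ 69 = q at *
  clear h1 h2 hbb
  norm_num at h3 h5 h6 ⊢
  have hb2 : b < 536870912 := by omega
  have e1 : X / 536870912 = 1099511627776 * q + i + 2048 * b := by omega
  have e2 : X / 1099511627776 = 536870912 * q + b := by omega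
  rw [e1, e2]
  refine ⟨?_, ?_, ?_, ?_⟩ <;> omega

theorem ek_lt {w : ℕ} (h : w < 2 ^ 49) : ek w < 2 ^ 20 := by
  rw [ek_eq, Nat.div_lt_iff_lt_mul (by norm_num)]
  norm_num at h ⊢
  omega

section
variable {Gs : List ℕ} {nr : ℕ}

/-- place of a match -/
theorem Mt.place (hb : covB Gs = true) (hl : Gs.length = nr / 1024 + 1)
    (hl2 : Gs.getD (nr / 1024) 0 < 2 ^ (40 * (nr % 1024 + 1))) {i w c p : ℕ}
    (hc : c < Gs.length) (h : Mt (Gs.getD c 0) i w p) (hi : i < 2048) :
    p < 1024 ∧ 1024 * c + p < nr ∧ (p = 1023 → c + 1 < Gs.length) := by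
  obtain ⟨h1, h2, h3, h4⟩ := h.dec hi
  rcases Nat.lt_or_ge (c + 1) Gs.length with h5 | h5
  · have h6 := covB_spec Gs hb c h5
    have hp : p < 1024 := by
      by_contra hp
      have e : 40 * p = 40960 + 40 * (p - 1024) := by omega
      rw [e, Nat.shiftRight_add, h6] at h4
      have h7 : (Gs.getD (c + 1) 0 % 2 ^ 29) >>> (40 * (p - 1024)) ≤
          Gs.getD (c + 1) 0 % 2 ^ 29 := by
        rw [Nat.shiftRight_eq_div_pow]
        exact Nat.div_le_self _ _
      have h8 : Gs.getD (c + 1) 0 % 2 ^ 29 < 2 ^ 29 := Nat.mod_lt _ (by norm_num)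
      have h9 : (2 : ℕ) ^ 29 < 2 ^ 40 := by norm_num
      omega
    refine ⟨hp, ?_, fun _ => h5⟩
    omega
  · have hc' : c = nr / 1024 := by omega
    have hp : p < nr % 1024 := by
      by_contra hp
      rw [hc'] at h4
      have h7 : Gs.getD (nr / 1024) 0 < 2 ^ (40 * p + 40) := by
        refine lt_of_lt_of_le hl2 (Nat.pow_le_pow_right (by norm_num) (by omega))
      rw [Nat.shiftRight_eq_div_pow] at h4
      have h8 : Gs.getD (nr / 1024) 0 / 2 ^ (40 * p) < 2 ^ 40 := by
        rw [Nat.div_lt_iff_lt_mul (by positivity), ← pow_add]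
        refine lt_of_lt_of_le h7 (le_of_eq ?_)
        congr 1
        ring
      omega
    have h9 : nr % 1024 < 1024 := Nat.mod_lt _ (by norm_num)
    refine ⟨by omega, by omega, by omega⟩

theorem Mt.gS (hb : covB Gs = true) (hl : Gs.length = nr / 1024 + 1)
    (hl2 : Gs.getD (nr / 1024) 0 < 2 ^ (40 * (nr % 1024 + 1))) {i w c p : ℕ}
    (hc : c < Gs.length) (h : Mt (Gs.getD c 0) i w p) (hi : i < 2048) :
    gS Gs (1024 * c + p) = en w ∧ gS Gs (1024 * c + p + 1) = en w + ek w + 1 := by
  obtain ⟨h1, h2, h3, h4⟩ := h.dec hi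
  obtain ⟨p1, p2, p3⟩ := h.place hb hl hl2 hc hi
  constructor
  · unfold LibM73.gS
    have e1 : (1024 * c + p) / 1024 = c := by omega
    have e2 : (1024 * c + p) % 1024 = p := by omega
    rw [e1, e2]
    exact h1
  · rcases Nat.lt_or_ge p 1023 with h5 | h5
    · unfold LibM73.gS
      have e1 : (1024 * c + p + 1) / 1024 = c := by omega
      have e2 : (1024 * c + p + 1) % 1024 = p + 1 := by omega
      rw [e1, e2]
      exact h3
    · have hp : p = 1023 := by omega
      have h6 := covB_spec Gs hb c (p3 hp)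
      subst hp
      have e : 40 * (1023 + 1) = 40960 := by norm_num
      rw [e, h6] at h3
      unfold LibM73.gS
      have e1 : (1024 * c + 1023 + 1) / 1024 = c + 1 := by omega
      have e2 : (1024 * c + 1023 + 1) % 1024 = 0 := by omega
      rw [e1, e2, Nat.mul_zero, Nat.shiftRight_zero, ← h3, Nat.mod_mod]

/-- owner of a place -/
def owner (Gs : List ℕ) (ρ : ℕ) : ℕ := (Gs.getD (ρ / 1024) 0 >>> (40 * (ρ % 1024))) / 2 ^ 29 % 2048

theorem Mt.owner (hb : covB Gs = true) (hl : Gs.length = nr / 1024 + 1)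
    (hl2 : Gs.getD (nr / 1024) 0 < 2 ^ (40 * (nr % 1024 + 1))) {i w c p : ℕ}
    (hc : c < Gs.length) (h : Mt (Gs.getD c 0) i w p) (hi : i < 2048) :
    owner Gs (1024 * c + p) = i := by
  obtain ⟨h1, h2, h3, h4⟩ := h.dec hi
  obtain ⟨p1, p2, p3⟩ := h.place hb hl hl2 hc hi
  unfold LibM73.owner
  have e1 : (1024 * c + p) / 1024 = c := by omega
  have e2 : (1024 * c + p) % 1024 = p := by omega
  rw [e1, e2]
  exact h2

end

/-! ### partition -/

theorem incr_le {f : ℕ → ℕ} {n : ℕ} (h : ∀ ρ < n, f ρ < f (ρ + 1)) {a b : ℕ} (hab : a ≤ b)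
    (hb : b ≤ n) : f a ≤ f b := by
  induction b, hab using Nat.le_induction with
  | base => exact le_rfl
  | succ b hab ih => exact (ih (by omega)).trans (h b (by omega)).le

theorem incr_union {f : ℕ → ℕ} {n : ℕ} (h : ∀ ρ < n, f ρ < f (ρ + 1)) :
    (Finset.range n).biUnion (fun ρ => Finset.Ico (f ρ) (f (ρ + 1))) = Finset.Ico (f 0) (f n) := by
  induction n with
  | zero => simp
  | succ n ih =>
    rw [Finset.range_add_one, Finset.biUnion_insert, ih (fun ρ hρ => h ρ (by omega)),
      Finset.union_comm]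
    exact Finset.Ico_union_Ico_eq_Ico (incr_le h (Nat.zero_le _) (by omega)) (h n (by omega)).le

/-- **coverage.**  `M` modules with tables `tab i` and counts `cnt i`. -/
theorem cover {M nr N1 : ℕ} {Gs : List ℕ} {tab cnt R C : ℕ → ℕ}
    (h : ∀ i < M, covL i (cnt i) Gs (tab i) (R i) (C i) 0 = true)
    (hM : M ≤ 2048) (hn : ∑ i ∈ Finset.range M, cnt i = nr) (hb : covB Gs = true)
    (h0 : gS Gs 0 = 2) (h1 : gS Gs nr = N1) (hl : Gs.length = nr / 1024 + 1)
    (hl2 : Gs.getD (nr / 1024) 0 < 2 ^ (40 * (nr % 1024 + 1))) :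
    (∀ i < M, ∀ r < cnt i, ek (ent (tab i) r) < 2 ^ 20) ∧
    (∀ i < M, ∀ r < cnt i, ∀ i' < M, ∀ r' < cnt i', (i, r) ≠ (i', r') →
      Disjoint (Iset (tab i) r) (Iset (tab i') r')) ∧
    (Finset.range M).biUnion (fun i => (Finset.range (cnt i)).biUnion (Iset (tab i))) =
      Finset.Ico 2 N1 := by
  have hex : ∀ i, ∃ c p : ℕ → ℕ, i < M → (∀ r < cnt i, c r < Gs.length ∧
      Mt (Gs.getD (c r) 0) i (ent (tab i) r) (p r)) ∧
      (∀ r r', r < r' → r' < cnt i → c r < c r' ∨ (c r = c r' ∧ p r < p r')) := by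
    intro i
    by_cases hi : i < M
    · obtain ⟨_, c, p, h2, h3⟩ := covL_spec i (cnt i) Gs _ _ _ _ (h i hi)
      exact ⟨c, p, fun _ => ⟨by simpa using h2, by simpa using h3⟩⟩
    · exact ⟨fun _ => 0, fun _ => 0, fun h' => absurd h' hi⟩
  choose c p hcp using hex
  -- the place of an entry
  obtain ⟨ρ, hρ⟩ : ∃ ρ : ℕ × ℕ → ℕ, ρ = fun q => 1024 * c q.1 q.2 + p q.1 q.2 := ⟨_, rfl⟩
  have hpl : ∀ i < M, ∀ r < cnt i, p i r < 1024 ∧ ρ (i, r) < nr := by
    intro i hi r hr
    obtain ⟨a1, a2⟩ := (hcp i hi).1 r hr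
    have := a2.place hb hl hl2 a1 (by omega)
    rw [hρ]
    exact ⟨this.1, this.2.1⟩
  have hgS : ∀ i < M, ∀ r < cnt i, gS Gs (ρ (i, r)) = en (ent (tab i) r) ∧
      gS Gs (ρ (i, r) + 1) = en (ent (tab i) r) + (ek (ent (tab i) r) + 1) := by
    intro i hi r hr
    obtain ⟨a1, a2⟩ := (hcp i hi).1 r hr
    rw [hρ]
    exact a2.gS hb hl hl2 a1 (by omega)
  have how : ∀ i < M, ∀ r < cnt i, owner Gs (ρ (i, r)) = i := by
    intro i hi r hr
    obtain ⟨a1, a2⟩ := (hcp i hi).1 r hr
    rw [hρ]
    exact a2.owner hb hl hl2 a1 (by omega)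
  have hinj : ∀ i < M, ∀ r < cnt i, ∀ i' < M, ∀ r' < cnt i', ρ (i, r) = ρ (i', r') →
      (i, r) = (i', r') := by
    intro i hi r hr i' hi' r' hr' he
    have e1 : i = i' := by
      rw [← how i hi r hr, ← how i' hi' r' hr', he]
    subst e1
    have p1 := (hpl i hi r hr).1
    have p2 := (hpl i hi r' hr').1
    rw [hρ] at he
    simp only at he
    rcases lt_trichotomy r r' with h5 | h5 | h5
    · rcases (hcp i hi).2 r r' h5 hr' with h6 | ⟨h6, h7⟩ <;> omega
    · rw [h5]
    · rcases (hcp i hi).2 r' r h5 hr with h6 | ⟨h6, h7⟩ <;> omega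
  -- counting
  have himg : ((Finset.range M).sigma (fun i => Finset.range (cnt i))).image
      (fun q => ρ (q.1, q.2)) = Finset.range nr := by
    apply Finset.eq_of_subset_of_card_le
    · intro x hx
      rw [Finset.mem_image] at hx
      obtain ⟨q, hq, rfl⟩ := hx
      rw [Finset.mem_sigma, Finset.mem_range, Finset.mem_range] at hq
      rw [Finset.mem_range]
      exact (hpl _ hq.1 _ hq.2).2
    · rw [Finset.card_image_of_injOn, Finset.card_sigma, Finset.card_range]
      · simp only [Finset.card_range]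
        rw [hn]
      · intro q hq q' hq' he
        rw [Finset.mem_coe, Finset.mem_sigma, Finset.mem_range, Finset.mem_range] at hq hq'
        have h5 := hinj _ hq.1 _ hq.2 _ hq'.1 _ hq'.2 he
        rw [Prod.mk.injEq] at h5
        exact Sigma.ext h5.1 (heq_of_eq h5.2)
  have hsur : ∀ x < nr, ∃ i < M, ∃ r < cnt i, ρ (i, r) = x := by
    intro x hx
    rw [← Finset.mem_range, ← himg, Finset.mem_image] at hx
    obtain ⟨q, hq, h5⟩ := hx
    rw [Finset.mem_sigma, Finset.mem_range, Finset.mem_range] at hq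
    exact ⟨q.1, hq.1, q.2, hq.2, h5⟩
  have hinc : ∀ x < nr, gS Gs x < gS Gs (x + 1) := by
    intro x hx
    obtain ⟨i, hi, r, hr, rfl⟩ := hsur x hx
    obtain ⟨a1, a2⟩ := hgS i hi r hr
    omega
  have hI : ∀ i < M, ∀ r < cnt i, Iset (tab i) r =
      Finset.Ico (gS Gs (ρ (i, r))) (gS Gs (ρ (i, r) + 1)) := by
    intro i hi r hr
    obtain ⟨a1, a2⟩ := hgS i hi r hr
    rw [a1, a2]
    rfl
  refine ⟨?_, ?_, ?_⟩
  · intro i hi r hr
    exact ek_lt ((hcp i hi).1 r hr).2.2
  · intro i hi r hr i' hi' r' hr' hne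
    have hne' : ρ (i, r) ≠ ρ (i', r') := fun he => hne (hinj i hi r hr i' hi' r' hr' he)
    rw [hI i hi r hr, hI i' hi' r' hr', Finset.disjoint_left]
    intro x hx hx'
    rw [Finset.mem_Ico] at hx hx'
    rcases lt_or_gt_of_ne hne' with h5 | h5
    · have := incr_le hinc (a := ρ (i, r) + 1) (b := ρ (i', r')) h5
        (hpl i' hi' r' hr').2.le
      omega
    · have := incr_le hinc (a := ρ (i', r') + 1) (b := ρ (i, r)) h5
        (hpl i hi r hr).2.le
      omega
  · rw [← h0, ← h1, ← incr_union hinc]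
    ext x
    simp only [Finset.mem_biUnion, Finset.mem_range]
    constructor
    · rintro ⟨i, hi, r, hr, hx⟩
      rw [hI i hi r hr] at hx
      exact ⟨_, (hpl i hi r hr).2, hx⟩
    · rintro ⟨y, hy, hx⟩
      obtain ⟨i, hi, r, hr, rfl⟩ := hsur y hy
      refine ⟨i, hi, r, hr, ?_⟩
      rw [hI i hi r hr]
      exact hx

end Pool.Agent.LibM73
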