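set_option autoImplicit false
/-!
# Packed numbers with short digits

The tables `P_i` of the data files are written with digits of `w` bits; `ex` moves the digits to the
distance of 36 bits.  (Nothing has to be proved about these functions: they only describe numbers.)
-/
namespace Pool.Agent.LibM73

noncomputable section

/-- `∑_{j < 2^c} m 2^(s j)` -/
def dup (c : Nat) : Nat → Nat → Nat :=
  Nat.rec (motive := fun _ => Nat → Nat → Nat) (fun _ m => m)
    (fun _ ih s m => ih (Nat.add s s) (Nat.add m (Nat.shiftLeft m s))) c

/-- the upper halves (`2^k` digits) of all blocks are moved; `M` = mask of the lower halves -/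
def spl2 (w k x M : Nat) : Nat :=
  Nat.add (Nat.land x M)
    (Nat.shiftLeft (Nat.land (Nat.shiftRight x (Nat.shiftLeft w k)) M)
      (Nat.shiftLeft (nat_lit 36) k))

/-- the same with the mask for `2^c` blocks -/
def spl (w k c x : Nat) : Nat :=
  spl2 w k x (dup c (Nat.shiftLeft (nat_lit 36) (Nat.succ k))
    (Nat.pred (Nat.shiftLeft (nat_lit 1) (Nat.shiftLeft w k))))

/-- `2^k` digits of `w` bits -> `2^k` digits of 36 bits -/
def ex (w k : Nat) : Nat → Nat → Nat :=
  Nat.rec (motive := fun _ => Nat → Nat → Nat) (fun _ x => x)
    (fun k ih c x => ih (Nat.succ c) (spl w k c x)) k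

end

end Pool.Agent.LibM73
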