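import Pool.Agent.LibM73.FinB
import Pool.Agent.LibMoserT.Glue
import Pool.Agent.LibMoserT.LedCmp
set_option autoImplicit false
/-!
# From the final state of the certificate and the tables to the theorem
-/
namespace Pool.Agent.LibM73
open Pool.Agent.LibMoser5 Pool.Agent.LibMoserF Pool.Agent.LibMoserT

/-- what the kernel checks about the final state (`Sp = 29 / 10000`, `mJ0 = 2 / 10000`) -/
def finChk (T : OTab) (L : LTab) (a A b B P sp tot : ℕ) : Bool :=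
  Nat.blt tot (2 ^ 36) && Nat.beq T.nO 29184 && T.cmpT P &&
  Nat.ble ((P >>> (36 * 29184)) % 2 ^ 36) 3435973 && Nat.ble (sp * 10000) (29 * 2 ^ 100) &&
  Nat.blt 0 a && Nat.blt 0 b &&
  ((Nat.ble A b && Nat.ble (25 * B) (26 * a)) || (Nat.ble B a && Nat.ble (25 * A) (26 * b))) &&
  Nat.ble (157 * 2 ^ 40) (10000 * L.P0) && Nat.ble (247 * 2 ^ 20) (10000 * L.JJ)

/-- **the theorem from the certificate and the tables** -/
theorem fin41 {T : OTab} {L : LTab} {Z a A b B P sp tot : ℕ} (hT : T.Chk Z) (hL : L.Chk T Z)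
    (hk : finChk T L a A b B P sp tot = true)
    (hc : CSt (2 / 3) (3 / 4 * Real.pi ^ 2 - 6) [] [It.rc a A b B] (Finset.Ico 1 N41) P sp tot) :
    IsLeast {x : ℝ | ∃ W H : ℝ, 0 < W ∧ 0 < H ∧ W * H = x ∧ Final.Packs W H}
      (Real.pi ^ 2 / 8 - 1) := by
  unfold finChk at hk
  simp only [Bool.and_eq_true] at hk
  obtain ⟨⟨⟨⟨⟨⟨⟨⟨⟨h1, h2⟩, h3⟩, h4⟩, h5⟩, h6⟩, h7⟩, h8⟩, h9⟩, h10⟩ := hk
  have hn : T.nO = NC := Nat.eq_of_beq_eq_true h2
  have hf : (A ≤ b ∧ 25 * B ≤ 26 * a) ∨ (B ≤ a ∧ 25 * A ≤ 26 * b) := by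
    rw [Bool.or_eq_true, Bool.and_eq_true, Bool.and_eq_true] at h8
    rcases h8 with ⟨x1, x2⟩ | ⟨x1, x2⟩
    · exact Or.inl ⟨Nat.le_of_ble_eq_true x1, Nat.le_of_ble_eq_true x2⟩
    · exact Or.inr ⟨Nat.le_of_ble_eq_true x1, Nat.le_of_ble_eq_true x2⟩
  have hJ : ((P / 2 ^ (36 * NC) % 2 ^ 36 : ℕ) : ℝ) ≤ 2 ^ 34 * (1 / 5000) := by
    have e := Nat.le_of_ble_eq_true h4
    rw [Nat.shiftRight_eq_div_pow] at e
    have e2 : ((P / 2 ^ (36 * NC) % 2 ^ 36 : ℕ) : ℝ) ≤ (3435973 : ℕ) := by exact_mod_cast e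
    refine e2.trans ?_
    norm_num
  have hS : (sp : ℝ) ≤ 2 ^ 100 * (29 / 10000) := by
    have e := Nat.le_of_ble_eq_true h5
    have e2 : (sp : ℝ) * 10000 ≤ 29 * 2 ^ 100 := by exact_mod_cast e
    linarith
  obtain ⟨OL, FL, J0, hs⟩ := finB (T := T) (ar := L.ar) (lam := lamR) (mJ0 := 1 / 5000)
    (Sp := 29 / 10000) hc (Nat.le_of_ble_eq_true h1) hn.le
    (OTab.cmpT_spec hT h3) (fun c hc1 hc2 => absurd hc2 (by omega)) hJ hS
    (Nat.le_of_ble_eq_true h6) (Nat.le_of_ble_eq_true h7) hf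
  have hP : 5 * (29 / 10000 : ℝ) + 6 * (1 / 5000) ≤ (L.P0 : ℝ) / 2 ^ 40 := by
    have e := Nat.le_of_ble_eq_true h9
    have e2 : (157 : ℝ) * 2 ^ 40 ≤ 10000 * (L.P0 : ℝ) := by exact_mod_cast e
    rw [le_div_iff₀ (by positivity)]
    linarith
  have hJJ : 13 * (17 / 10000 + 1 / 5000 : ℝ) ≤ (L.JJ : ℝ) / 2 ^ 20 := by
    have e := Nat.le_of_ble_eq_true h10
    have e2 : (247 : ℝ) * 2 ^ 20 ≤ 10000 * (L.JJ : ℝ) := by exact_mod_cast e
    rw [le_div_iff₀ (by positivity)]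
    linarith
  exact glue hT hL (by norm_num) (by norm_num) hP hJJ hs

end Pool.Agent.LibM73
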