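import Pool.Agent.LibM73.Run
import Pool.Agent.LibM73.Cov
set_option autoImplicit false
/-!
# The chain of the modules  (FIN-A)
-/
namespace Pool.Agent.LibM73
open Pool.Agent.LibMoser5 Pool.Agent.LibMoserF

/-- the state between two modules: stack `S`, thick rectangles `Th`, placed squares `P`, table `p`,
sum of thicknesses `sp`, total mass `tot` -/
def CSt (W H : ℝ) (S Th : List It) (P : Finset ℕ) (p sp tot : ℕ) : Prop :=
  ∃ cs hs ls : List Cb, List.Forall₂ Rep S cs ∧ List.Forall₂ Rep Th hs ∧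
    Acc ls.flatten p tot ∧ U * thk ls.flatten ≤ sp ∧ PC W H (cs ++ hs ++ ls) P

theorem CSt.start {W H : ℝ} {S Th : List It} {P : Finset ℕ} {cs hs : List Cb}
    (hS : List.Forall₂ Rep S cs) (hT : List.Forall₂ Rep Th hs) (hPC : PC W H (cs ++ hs) P) :
    CSt W H S Th P 0 0 0 :=
  ⟨cs, hs, [], hS, hT, Acc.nil, by simp [thk], by simpa using hPC⟩

/-- one module -/
theorem CSt.step {W H : ℝ} {S Th S' Th' : List It} {P : Finset ℕ} {p sp tot sp' tot' : ℕ}
    (hc : CSt W H S Th P p sp tot) {p' : Pf} {tab cnt : ℕ} {D : Dl}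
    (h : runM tab (fin S' Th' p' sp' tot' 0) D S Th P00 0 0 (2 ^ cnt - 1) = true)
    (hk : ∀ r < cnt, ek (ent tab r) < 2 ^ 20)
    (hd : ∀ r < cnt, Disjoint (Iset tab r) P)
    (hd2 : ∀ r < cnt, ∀ r' < cnt, r ≠ r' → Disjoint (Iset tab r) (Iset tab r')) :
    CSt W H S' Th' (P ∪ (Finset.range cnt).biUnion (Iset tab)) (p + flat p') (sp + sp')
      (tot + tot') := by
  obtain ⟨cs, hs, ls, h1, h2, h3, h4, h5⟩ := hc
  obtain ⟨cs', hs', ls', a1, a2, a3, a4, a5⟩ := mod_sound (C0 := ls) h hk h1 h2 h5 hd hd2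
  refine ⟨cs', hs', ls ++ ls', a1, a2, ?_, ?_, ?_⟩
  · rw [List.flatten_append]
    exact Acc.append h3 a3
  · have e : thk (ls ++ ls').flatten = thk ls.flatten + thk ls'.flatten := by
      simp [thk]
    rw [e, mul_add]
    push_cast
    linarith
  · refine a5.perm ?_
    have e1 : cs' ++ hs' ++ ls' ++ ls = (cs' ++ hs') ++ (ls' ++ ls) := by simp
    have e2 : cs' ++ hs' ++ (ls ++ ls') = (cs' ++ hs') ++ (ls ++ ls') := rfl
    rw [e1, e2]
    exact List.Perm.append_left _ List.perm_append_comm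

/-- the squares of the first `m` modules -/
def Pm (tab cnt : ℕ → ℕ) (m : ℕ) : Finset ℕ :=
  (Finset.range m).biUnion (fun i => (Finset.range (cnt i)).biUnion (Iset (tab i)))

theorem Pm_succ (tab cnt : ℕ → ℕ) (m : ℕ) :
    Pm tab cnt (m + 1) = Pm tab cnt m ∪ (Finset.range (cnt m)).biUnion (Iset (tab m)) := by
  unfold Pm
  rw [Finset.range_add_one, Finset.biUnion_insert, Finset.union_comm]

/-- **the chain of the modules** -/
theorem chainM {M nr N1 : ℕ} {Gs : List ℕ} {tab cnt R C sp tot : ℕ → ℕ} {p : ℕ → Pf}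
    {D : ℕ → Dl} {S Th : ℕ → List It}
    (hrun : ∀ i < M, runM (tab i) (fin (S (i + 1)) (Th (i + 1)) (p i) (sp i) (tot i) 0) (D i)
      (S i) (Th i) P00 0 0 (2 ^ cnt i - 1) = true)
    (hcov : ∀ i < M, covL i (cnt i) Gs (tab i) (R i) (C i) 0 = true)
    (hM : M ≤ 2048) (hn : ∑ i ∈ Finset.range M, cnt i = nr) (hb : covB Gs = true)
    (h0 : gS Gs 0 = 2) (h1 : gS Gs nr = N1) (hl : Gs.length = nr / 1024 + 1)
    (hl2 : Gs.getD (nr / 1024) 0 < 2 ^ (40 * (nr % 1024 + 1))) (hN : 2 ≤ N1)
    {W H : ℝ} (hst : CSt W H (S 0) (Th 0) (Finset.Ico 1 2) 0 0 0) :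
    CSt W H (S M) (Th M) (Finset.Ico 1 N1) (∑ i ∈ Finset.range M, flat (p i))
      (∑ i ∈ Finset.range M, sp i) (∑ i ∈ Finset.range M, tot i) := by
  obtain ⟨hk, hdis, hun⟩ := cover hcov hM hn hb h0 h1 hl hl2
  have hge : ∀ i < M, ∀ r < cnt i, Disjoint (Iset (tab i) r) (Finset.Ico 1 2) := by
    intro i hi r hr
    rw [Finset.disjoint_left]
    intro k hk1 hk2
    have h2 : k ∈ Finset.Ico 2 N1 := by
      rw [← hun, Finset.mem_biUnion]
      refine ⟨i, Finset.mem_range.2 hi, ?_⟩
      rw [Finset.mem_biUnion]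
      exact ⟨r, Finset.mem_range.2 hr, hk1⟩
    rw [Finset.mem_Ico] at h2 hk2
    omega
  have key : ∀ m, m ≤ M → CSt W H (S m) (Th m) (Finset.Ico 1 2 ∪ Pm tab cnt m)
      (∑ i ∈ Finset.range m, flat (p i)) (∑ i ∈ Finset.range m, sp i)
      (∑ i ∈ Finset.range m, tot i) := by
    intro m
    induction m with
    | zero =>
      intro _
      have e : Finset.Ico 1 2 ∪ Pm tab cnt 0 = Finset.Ico 1 2 := by
        unfold Pm
        simp
      rw [e]
      simpa using hst
    | succ m ih =>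
      intro hm
      have h2 := ih (by omega)
      have h3 := h2.step (hrun m (by omega)) (hk m (by omega)) (by
        intro r hr
        rw [Finset.disjoint_union_right]
        refine ⟨hge m (by omega) r hr, ?_⟩
        unfold Pm
        rw [Finset.disjoint_biUnion_right]
        intro i hi
        rw [Finset.mem_range] at hi
        rw [Finset.disjoint_biUnion_right]
        intro r' hr'
        rw [Finset.mem_range] at hr'
        refine hdis m (by omega) r hr i (by omega) r' hr' ?_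
        intro e
        have := (Prod.ext_iff.1 e).1
        simp only at this
        omega) (by
        intro r hr r' hr' hne
        refine hdis m (by omega) r hr m (by omega) r' hr' ?_
        intro e
        exact hne (Prod.ext_iff.1 e).2)
      rw [Finset.union_assoc, ← Pm_succ] at h3
      rw [Finset.sum_range_succ, Finset.sum_range_succ, Finset.sum_range_succ]
      exact h3
  have h2 := key M le_rfl
  have e : Finset.Ico 1 2 ∪ Pm tab cnt M = Finset.Ico 1 N1 := by
    unfold Pm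
    rw [hun]
    exact Finset.Ico_union_Ico_eq_Ico (by norm_num) hN
  rw [e] at h2
  exact h2

end Pool.Agent.LibM73
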