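import Pool.Agent.LibM73.FinA
import Pool.Agent.LibMoserT.LedFin
import Pool.Agent.LibMoserT.Init
import Pool.Agent.LibMoserT.FatSplit
set_option autoImplicit false
/-!
# From the final state of the certificate to the start of the tail  (FIN-B)
-/
namespace Pool.Agent.LibM73
open Pool.Agent.LibMoser5 Pool.Agent.LibMoserF

/-! ### the cells of the two descriptions -/

theorem blt_t {a b : ℕ} (h : a < b) : Nat.blt a b = true := by rw [Nat.blt_eq]; exact h
theorem blt_f {a b : ℕ} (h : b ≤ a) : Nat.blt a b = false := by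
  rw [Bool.eq_false_iff, Ne, Nat.blt_eq]; omega

theorem cell_key {q r e K P st : ℕ} (h1 : q ≤ 11) (h2 : e + q ≤ 71) (hK : K = 40 + e)
    (hr : r < 2 ^ q) (hP : P = 4096 - 2 ^ (11 - q) * r) (hst : st = 2 ^ (11 - q)) :
    (2 ^ (q + 1) - r) * 2 ^ (71 - e - q) * 2 ^ K = P * 2 ^ 100 ∧
      (2 ^ (q + 1) - 1 - r) * 2 ^ (71 - e - q) * 2 ^ K = (P - st) * 2 ^ 100 := by
  have e1 : 2 ^ (71 - e - q) * 2 ^ K = 2 ^ (11 - q) * 2 ^ 100 := by
    rw [← pow_add, ← pow_add, hK]
    congr 1
    omega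
  have e2 : 2 ^ (11 - q) * 2 ^ (q + 1) = 4096 := by
    rw [← pow_add]
    have : 11 - q + (q + 1) = 12 := by omega
    rw [this]; norm_num
  constructor
  · rw [mul_assoc, e1, hP, ← mul_assoc]
    congr 1
    rw [mul_comm, Nat.mul_sub, e2]
  · rw [mul_assoc, e1, hP, hst, ← mul_assoc]
    congr 1
    rw [mul_comm, Nat.mul_sub, Nat.mul_sub, e2, mul_one]
    omega

/-- abstract form of the cell data -/
def CellD (c q r e : ℕ) : Prop :=
  cE c = e ∧ cR c = r ∧ qe e = q ∧ LibMoserT.KC c = 40 + e ∧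
    LibMoserT.PPC c = 4096 - 2 ^ (11 - q) * r ∧ LibMoserT.stC c = 2 ^ (11 - q) ∧ q ≤ 11 ∧
    e + q ≤ 71 ∧ r < 2 ^ q

theorem cellD1 {c : ℕ} (h1 : c < 24576) : CellD c 11 (c % 2048) (c / 2048) := by
  have a3 : c / 2048 < 12 := by omega
  refine ⟨?_, ?_, ?_, ?_, ?_, ?_, le_rfl, by omega, by omega⟩
  · rw [cE, if_pos h1]
  · rw [cR, if_pos h1]
  · rw [qe, if_pos a3]
  · rw [LibMoserT.KC, blt_t h1, cond_true]
  · rw [LibMoserT.PPC, blt_t h1, cond_true, Nat.sub_self, pow_zero, one_mul]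
  · rw [LibMoserT.stC, blt_t h1, cond_true, Nat.sub_self, pow_zero]

theorem cellD2 {c : ℕ} (h1 : 24576 ≤ c) (h2 : c < 26624) :
    CellD c 9 ((c - 24576) % 512) (12 + (c - 24576) / 512) := by
  have a3 : 12 + (c - 24576) / 512 < 16 := by omega
  refine ⟨?_, ?_, ?_, ?_, ?_, ?_, by omega, by omega, by omega⟩
  · rw [cE, if_neg (not_lt.2 h1), if_pos h2]
  · rw [cR, if_neg (not_lt.2 h1), if_pos h2]
  · rw [qe, if_neg (by omega), if_pos a3]
  · rw [LibMoserT.KC, blt_f h1, cond_false, blt_t h2, cond_true]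
  · rw [LibMoserT.PPC, blt_f h1, cond_false, blt_t h2, cond_true,
      show 2 ^ (11 - 9) = 4 from by norm_num]
  · rw [LibMoserT.stC, blt_f h1, cond_false, blt_t h2, cond_true,
      show 2 ^ (11 - 9) = 4 from by norm_num]

theorem cellD3 {c : ℕ} (h2 : 26624 ≤ c) (h3 : c < 27648) :
    CellD c 8 ((c - 26624) % 256) (16 + (c - 26624) / 256) := by
  have h1 : 24576 ≤ c := by omega
  have a3 : 16 + (c - 26624) / 256 < 20 := by omega
  refine ⟨?_, ?_, ?_, ?_, ?_, ?_, by omega, by omega, by omega⟩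
  · rw [cE, if_neg (not_lt.2 h1), if_neg (not_lt.2 h2), if_pos h3]
  · rw [cR, if_neg (not_lt.2 h1), if_neg (not_lt.2 h2), if_pos h3]
  · rw [qe, if_neg (by omega), if_neg (by omega), if_pos a3]
  · rw [LibMoserT.KC, blt_f h1, cond_false, blt_f h2, cond_false, blt_t h3, cond_true]
  · rw [LibMoserT.PPC, blt_f h1, cond_false, blt_f h2, cond_false, blt_t h3, cond_true,
      show 2 ^ (11 - 8) = 8 from by norm_num]
  · rw [LibMoserT.stC, blt_f h1, cond_false, blt_f h2, cond_false, blt_t h3, cond_true,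
      show 2 ^ (11 - 8) = 8 from by norm_num]

theorem cellD4 {c : ℕ} (h3 : 27648 ≤ c) (h4 : c < 29184) :
    CellD c 7 ((c - 27648) % 128) (20 + (c - 27648) / 128) := by
  have h1 : 24576 ≤ c := by omega
  have h2 : 26624 ≤ c := by omega
  refine ⟨?_, ?_, ?_, ?_, ?_, ?_, by omega, by omega, by omega⟩
  · rw [cE, if_neg (not_lt.2 h1), if_neg (not_lt.2 h2), if_neg (not_lt.2 h3)]
  · rw [cR, if_neg (not_lt.2 h1), if_neg (not_lt.2 h2), if_neg (not_lt.2 h3)]
  · rw [qe, if_neg (by omega), if_neg (by omega), if_neg (by omega)]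
  · rw [LibMoserT.KC, blt_f h1, cond_false, blt_f h2, cond_false, blt_f h3, cond_false]
  · rw [LibMoserT.PPC, blt_f h1, cond_false, blt_f h2, cond_false, blt_f h3, cond_false,
      show 2 ^ (11 - 7) = 16 from by norm_num]
  · rw [LibMoserT.stC, blt_f h1, cond_false, blt_f h2, cond_false, blt_f h3, cond_false,
      show 2 ^ (11 - 7) = 16 from by norm_num]

theorem cellD {c : ℕ} (hc : c < NC) : ∃ q r e, CellD c q r e := by
  have hc' : c < 29184 := hc
  rcases Nat.lt_or_ge c 24576 with h1 | h1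
  · exact ⟨_, _, _, cellD1 h1⟩
  · rcases Nat.lt_or_ge c 26624 with h2 | h2
    · exact ⟨_, _, _, cellD2 h1 h2⟩
    · rcases Nat.lt_or_ge c 27648 with h3 | h3
      · exact ⟨_, _, _, cellD3 h2 h3⟩
      · exact ⟨_, _, _, cellD4 h3 hc'⟩

theorem cell_nat {c : ℕ} (hc : c < NC) :
    up c * 2 ^ LibMoserT.KC c = LibMoserT.PPC c * 2 ^ 100 ∧
      lo c * 2 ^ LibMoserT.KC c = (LibMoserT.PPC c - LibMoserT.stC c) * 2 ^ 100 := by
  obtain ⟨q, r, e, a1, a2, a3, a4, a5, a6, a7, a8, a9⟩ := cellD hc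
  unfold up lo
  rw [a1, a2, a3]
  exact cell_key a7 a8 a4 a9 a5 a6

theorem cell_pmx (T : LibMoserT.OTab) {c : ℕ} (hc : c < NC) {x : ℝ} (h : U * x ≤ up c) :
    x ≤ (T.oc c).pmx := by
  have h1 := (cell_nat hc).1
  have h2 : (up c : ℝ) * 2 ^ LibMoserT.KC c = LibMoserT.PPC c * 2 ^ 100 := by exact_mod_cast h1
  have h3 : (T.oc c).pmx = (LibMoserT.PPC c : ℝ) / 2 ^ LibMoserT.KC c := rfl
  rw [h3, le_div_iff₀ (by positivity)]
  have h4 : U * x * 2 ^ LibMoserT.KC c ≤ up c * 2 ^ LibMoserT.KC c :=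
    mul_le_mul_of_nonneg_right h (by positivity)
  rw [h2] at h4
  have h5 : (U : ℝ) = 2 ^ 100 := rfl
  rw [h5] at h4
  have h6 : (0 : ℝ) < 2 ^ 100 := by positivity
  nlinarith

theorem cell_pmn (T : LibMoserT.OTab) {c : ℕ} (hc : c < NC) {x : ℝ}
    (h : (lo c : ℝ) * (1 - 1 / 2 ^ 14) < U * x) : (T.oc c).pmn < x := by
  have h1 := (cell_nat hc).2
  have h2 : (lo c : ℝ) * 2 ^ LibMoserT.KC c =
      ((LibMoserT.PPC c - LibMoserT.stC c : ℕ) : ℝ) * 2 ^ 100 := by exact_mod_cast h1
  have h3 : (T.oc c).pmn = (((LibMoserT.PPC c - LibMoserT.stC c : ℕ) : ℝ) * 16383) /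
      2 ^ (LibMoserT.KC c + 14) := rfl
  rw [h3, div_lt_iff₀ (by positivity), pow_add]
  have h4 : (lo c : ℝ) * (1 - 1 / 2 ^ 14) * 2 ^ LibMoserT.KC c <
      U * x * 2 ^ LibMoserT.KC c := mul_lt_mul_of_pos_right h (by positivity)
  have e : (lo c : ℝ) * (1 - 1 / 2 ^ 14) * 2 ^ LibMoserT.KC c =
      (lo c : ℝ) * 2 ^ LibMoserT.KC c * (1 - 1 / 2 ^ 14) := by ring
  rw [e, h2] at h4
  have h5 : (U : ℝ) = 2 ^ 100 := rfl
  rw [h5] at h4
  have h6 : (0 : ℝ) < 2 ^ 100 := by positivity
  have h7 : ((LibMoserT.PPC c - LibMoserT.stC c : ℕ) : ℝ) * (1 - 1 / 2 ^ 14) <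
      x * 2 ^ LibMoserT.KC c := by
    refine lt_of_mul_lt_mul_left ?_ h6.le
    nlinarith
  have e2 : ((LibMoserT.PPC c - LibMoserT.stC c : ℕ) : ℝ) * 16383 =
      ((LibMoserT.PPC c - LibMoserT.stC c : ℕ) : ℝ) * (1 - 1 / 2 ^ 14) * 2 ^ 14 := by
    ring
  rw [e2, ← mul_assoc]
  exact mul_lt_mul_of_pos_right h7 (by positivity)

/-! ### sorting by cells -/

theorem perm_range {α : Type} (key : α → ℕ) (L : List α) (n : ℕ) :
    (L.filter (fun z => decide (key z < n))).Perm
      ((List.range n).flatMap (fun c => L.filter (fun z => decide (key z = c)))) := by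
  induction n with
  | zero => simp
  | succ n ih =>
    rw [List.range_succ, List.flatMap_append, List.flatMap_singleton]
    have h1 := List.filter_append_perm (fun z => decide (key z < n))
      (L.filter (fun z => decide (key z < n + 1)))
    refine h1.symm.trans ?_
    refine List.Perm.append ?_ ?_
    · rw [List.filter_filter]
      have e : (fun z => decide (key z < n) && decide (key z < n + 1)) =
          fun z => decide (key z < n) := by
        funext z
        by_cases h : key z < n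
        · have : key z < n + 1 := by omega
          simp [h, this]
        · simp [h]
      rw [e]
      exact ih
    · rw [List.filter_filter]
      have e : (fun z => (!decide (key z < n)) && decide (key z < n + 1)) =
          fun z => decide (key z = n) := by
        funext z
        by_cases h : key z = n
        · simp [h]
        · by_cases h2 : key z < n
          · simp [h, h2]
          · have : ¬ key z < n + 1 := by omega
            simp [h, this]
      rw [e]

open Classical in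
/-- the positive entries in the cell `c` -/
noncomputable def inCell (L : List (ℕ × ℝ × ℝ)) (c : ℕ) : List (ℝ × ℝ) :=
  ((L.filter (fun z => decide (0 < z.2.1 ∧ 0 < z.2.2))).filter (fun z => decide (z.1 = c))).map
    Prod.snd

theorem msum_inCell (L : List (ℕ × ℝ × ℝ)) (hL : ∀ z ∈ L, 0 ≤ z.2.1 ∧ 0 ≤ z.2.2) (c : ℕ) :
    2 ^ 34 * LibMoserT.msum (inCell L c) ≤ mC L c := by
  induction L with
  | nil => simp [inCell, LibMoserT.msum, mC]
  | cons z L ih =>
    have h0 := hL z List.mem_cons_self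
    have ih' := ih (fun w hw => hL w (List.mem_cons_of_mem _ hw))
    have hm : 0 ≤ ms z.2 := by
      unfold ms
      have : 0 ≤ z.2.2 + 13 / 16 * z.2.1 := by linarith [h0.1, h0.2]
      positivity
    have e1 : mC (z :: L) c = (if z.1 = c then ms z.2 else 0) + mC L c := by
      simp [mC]
    rw [e1]
    by_cases hp : 0 < z.2.1 ∧ 0 < z.2.2
    · by_cases hc : z.1 = c
      · have e2 : inCell (z :: L) c = z.2 :: inCell L c := by
          unfold inCell
          rw [List.filter_cons_of_pos (by simpa using hp), List.filter_cons_of_pos (by simpa using hc),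
            List.map_cons]
        rw [e2, if_pos hc]
        have e3 : LibMoserT.msum (z.2 :: inCell L c) =
            LibMoserT.ms z.2 + LibMoserT.msum (inCell L c) := by
          simp [LibMoserT.msum]
        rw [e3, mul_add]
        have : 2 ^ 34 * LibMoserT.ms z.2 ≤ ms z.2 := by
          unfold LibMoserT.ms ms
          nlinarith [h0.1]
        linarith
      · have e2 : inCell (z :: L) c = inCell L c := by
          unfold inCell
          rw [List.filter_cons_of_pos (by simpa using hp), List.filter_cons_of_neg (by simpa using hc)]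
        rw [e2, if_neg hc]
        linarith
    · have e2 : inCell (z :: L) c = inCell L c := by
        unfold inCell
        rw [List.filter_cons_of_neg (by simpa using hp)]
      rw [e2]
      split_ifs <;> linarith

theorem thk_posT (l : List (ℝ × ℝ)) (hl : ∀ z ∈ l, 0 ≤ z.1 ∧ 0 ≤ z.2) :
    ((posT l).map Prod.fst).sum ≤ thk l := by
  induction l with
  | nil => simp [posT, thk]
  | cons z l ih =>
    have h0 := hl z List.mem_cons_self
    have ih' := ih (fun w hw => hl w (List.mem_cons_of_mem _ hw))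
    have e1 : thk (z :: l) = z.1 + thk l := by simp [thk]
    rw [e1]
    unfold posT at ih' ⊢
    rw [List.filter_cons]
    split_ifs
    · rw [List.map_cons, List.sum_cons]
      linarith
    · linarith [h0.1]

theorem mC_ge {L : List (ℕ × ℝ × ℝ)} (hL : ∀ z ∈ L, 0 ≤ z.2.1 ∧ 0 ≤ z.2.2) {z : ℕ × ℝ × ℝ}
    (hz : z ∈ L) : ms z.2 ≤ mC L z.1 := by
  have hm : ∀ w ∈ L, 0 ≤ ms w.2 := by
    intro w hw
    have h0 := hL w hw
    unfold ms
    have : 0 ≤ w.2.2 + 13 / 16 * w.2.1 := by linarith [h0.1, h0.2]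
    positivity
  unfold mC
  refine List.single_le_sum ?_ _ ?_
  · intro x hx
    obtain ⟨w, hw, rfl⟩ := List.mem_map.1 hx
    split_ifs
    · exact hm w hw
    · exact le_rfl
  · refine List.mem_map.2 ⟨z, hz, ?_⟩
    rw [if_pos rfl]

/-- the digits of the packed table -/
theorem Acc_digit {f : ℕ → ℕ} {p tot : ℕ} (hp : pk f = p) (ht : tt f = tot)
    (htot : tot < 2 ^ 36) {c : ℕ} (hc : c ≤ NC) : p / 2 ^ (36 * c) % 2 ^ 36 = f c := by
  have hg : ∀ c, (if c ≤ NC then f c else 0) < 2 ^ 36 := by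
    intro c
    split_ifs with h
    · refine lt_of_le_of_lt ?_ htot
      rw [← ht]
      exact Finset.single_le_sum (f := f) (fun _ _ => Nat.zero_le _)
        (Finset.mem_range.2 (by omega))
    · positivity
  have h1 := digit (2 ^ 36) (fun c => if c ≤ NC then f c else 0) hg (NC + 1) c (by omega)
  have e : ∑ c ∈ Finset.range (NC + 1), (if c ≤ NC then f c else 0) * (2 ^ 36) ^ c = p := by
    rw [← hp]
    unfold pk
    refine Finset.sum_congr rfl (fun x hx => ?_)
    have h2 : x ≤ NC := by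
      have := Finset.mem_range.1 hx
      omega
    rw [if_pos h2, ← pow_mul]
  rw [e, if_pos hc, ← pow_mul] at h1
  exact h1

/-- **FIN-B**: the final state of the certificate gives the start of the tail -/
theorem finB {T : LibMoserT.OTab} {ar lam : ℕ → ℝ} {mJ0 Sp W H : ℝ} {a A b B P sp tot : ℕ}
    (hc : CSt W H [] [It.rc a A b B] (Finset.Ico 1 LibMoserT.N41) P sp tot)
    (ht : tot < 2 ^ 36) (hnO : T.nO ≤ NC)
    (hM : ∀ c < T.nO, P / 2 ^ (36 * c) % 2 ^ 36 ≤ LibMoserT.rM (T.rc c))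
    (hZ : ∀ c, T.nO ≤ c → c < NC → P / 2 ^ (36 * c) % 2 ^ 36 = 0)
    (hJ : ((P / 2 ^ (36 * NC) % 2 ^ 36 : ℕ) : ℝ) ≤ 2 ^ 34 * mJ0)
    (hS : (sp : ℝ) ≤ 2 ^ 100 * Sp) (ha : 0 < a) (hb : 0 < b)
    (hf : (A ≤ b ∧ 25 * B ≤ 26 * a) ∨ (B ≤ a ∧ 25 * A ≤ 26 * b)) :
    ∃ (OL : ℕ → List (ℝ × ℝ)) (FL J0 : List (ℝ × ℝ)),
      LibMoserT.Start (LibMoserT.D41 T ar lam mJ0 Sp) OL W H FL J0 := by
  obtain ⟨cs, hs, ls, h1, h2, hA, hth, hPC⟩ := hc
  cases h1
  obtain ⟨C1, hs', hC1, hr, rfl⟩ := List.forall₂_cons_left_iff.1 h2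
  cases hr
  obtain ⟨x, y, rfl, hx, hy⟩ := hC1
  obtain ⟨L, f, hperm, hLeaf, hmc, hpk, htt⟩ := hA
  have hU : (0 : ℝ) < U := by unfold U; positivity
  have hUe : (U : ℝ) = 2 ^ 100 := rfl
  have haR : (0 : ℝ) < a := by exact_mod_cast ha
  have hbR : (0 : ℝ) < b := by exact_mod_cast hb
  have hx0 : 0 < x := by
    have : 0 < U * x := haR.trans_le hx.1
    exact (mul_pos_iff_of_pos_left hU).1 this
  have hy0 : 0 < y := by
    have : 0 < U * y := hbR.trans_le hy.1
    exact (mul_pos_iff_of_pos_left hU).1 this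
  have hls : ∀ z ∈ ls.flatten, 0 ≤ z.1 ∧ 0 ≤ z.2 := by
    intro z hz
    obtain ⟨c, hc1, hc2⟩ := List.mem_flatten.1 hz
    exact (hPC.ok c (by simp [hc1])).1 z hc2
  have hL0 : ∀ z ∈ L, 0 ≤ z.2.1 ∧ 0 ≤ z.2.2 := by
    intro z hz
    exact hls z.2 (hperm.subset (List.mem_map.2 ⟨z, hz, rfl⟩))
  have hPT := hPC.toPT
  have e1 : posT (([] ++ [[(x, y)]] ++ ls : List Cb)).flatten = (x, y) :: posT ls.flatten := by
    rw [List.nil_append, List.singleton_append, List.flatten_cons, List.singleton_append]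
    unfold posT
    rw [List.filter_cons_of_pos (by simp [hx0, hy0])]
  rw [e1] at hPT
  -- the positive rows, cell by cell
  set L' := L.filter (fun z => decide (0 < z.2.1 ∧ 0 < z.2.2)) with hL'
  have hmem : ∀ z ∈ L', z ∈ L ∧ 0 < z.2.1 ∧ 0 < z.2.2 := by
    intro z hz
    rw [hL', List.mem_filter] at hz
    exact ⟨hz.1, by simpa using hz.2⟩
  have hcell : ∀ z ∈ L', z.1 < T.nO ∨ z.1 = NC := by
    intro z hz
    obtain ⟨hz1, hz2, hz3⟩ := hmem z hz
    rcases (hLeaf z hz1).1 with h | h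
    · by_cases h3 : z.1 < T.nO
      · exact Or.inl h3
      · exfalso
        have h4 := hZ z.1 (not_lt.1 h3) h.1
        rw [Acc_digit hpk htt ht h.1.le] at h4
        have h5 := hmc z.1
        rw [h4] at h5
        have h6 := mC_ge hL0 hz1
        have h7 : 0 < ms z.2 := by
          unfold ms
          positivity
        rw [Nat.cast_zero] at h5
        linarith
    · exact Or.inr h.1
  have hposT : (posT ls.flatten).Perm (L'.map Prod.snd) := by
    have h3 : (posT ls.flatten).Perm (posT (L.map Prod.snd)) := by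
      unfold posT
      exact (hperm.symm).filter _
    have h4 : posT (L.map Prod.snd) = L'.map Prod.snd := by
      unfold posT
      rw [List.filter_map, hL']
      rfl
    rw [← h4]
    exact h3
  have hsplit : (L'.map Prod.snd).Perm
      ((List.range T.nO).flatMap (inCell L) ++ inCell L NC) := by
    have h3 := List.filter_append_perm (fun z : ℕ × ℝ × ℝ => decide (z.1 < T.nO)) L'
    have h4 : L'.filter (fun z => !decide (z.1 < T.nO)) =
        L'.filter (fun z => decide (z.1 = NC)) := by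
      refine List.filter_congr (fun z hz => ?_)
      rcases hcell z hz with h | h
      · have : ¬ z.1 = NC := by omega
        simp [h, this]
      · have : ¬ z.1 < T.nO := by omega
        simp [h, hnO]
    have h5 := perm_range (fun z : ℕ × ℝ × ℝ => z.1) L' T.nO
    have h6 : L'.Perm ((List.range T.nO).flatMap (fun c => L'.filter (fun z => decide (z.1 = c))) ++
        L'.filter (fun z => decide (z.1 = NC))) := by
      refine h3.symm.trans ?_
      rw [h4]
      exact h5.append_right _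
    have h7 := h6.map Prod.snd
    rw [List.map_append, List.map_flatMap] at h7
    exact h7
  have hall := hposT.trans hsplit
  have hPT2 : PT W H ((x, y) :: ((List.range T.nO).flatMap (inCell L) ++ inCell L NC))
      (Finset.Ico 1 LibMoserT.N41) := hPT.perm (List.Perm.cons _ hall)
  -- the fat rectangle
  have hfat : ∃ FL : List (ℝ × ℝ), LibMoserT.Fat (26 / 25) (2 * 2) FL ∧
      PT W H (FL ++ ((List.range T.nO).flatMap (inCell L) ++ inCell L NC))
        (Finset.Ico 1 LibMoserT.N41) := by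
    have key : ∀ {a A b B : ℕ} {x y : ℝ}, 0 < x → Iv a A x → Iv b B y → A ≤ b →
        25 * B ≤ 26 * a → x ≤ y ∧ y ≤ 26 / 25 * x := by
      intro a A b B x y _ hx hy h1 h2
      have h1' : (A : ℝ) ≤ b := by exact_mod_cast h1
      have h2' : 25 * (B : ℝ) ≤ 26 * a := by exact_mod_cast h2
      constructor
      · have : U * x ≤ U * y := hx.2.trans (h1'.trans hy.1)
        exact le_of_mul_le_mul_left this hU
      · have h3 : U * y ≤ U * (26 / 25 * x) := by
          have h4 : ∀ u v α β : ℝ, v ≤ β → 25 * β ≤ 26 * α → α ≤ u → v ≤ 26 / 25 * u := by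
            intro u v α β q1 q2 q3
            linarith
          have h5 := h4 (U * x) (U * y) a B hy.2 h2' hx.1
          have h6 : 26 / 25 * (U * x) = U * (26 / 25 * x) := by ring
          rw [← h6]
          exact h5
        exact le_of_mul_le_mul_left h3 hU
    rcases hf with hf | hf
    · obtain ⟨k1, k2⟩ := key hx0 hx hy hf.1 hf.2
      obtain ⟨FL, g1, g2, _⟩ := LibMoserT.fat_split hx0 k1 k2 2 (by norm_num) hPT2
      exact ⟨FL, g1, g2⟩
    · obtain ⟨k1, k2⟩ := key hy0 hy hx hf.1 hf.2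
      obtain ⟨FL, g1, g2, _⟩ := LibMoserT.fat_split hy0 k1 k2 2 (by norm_num) hPT2.swap
      exact ⟨FL, g1, g2⟩
  obtain ⟨FL, hF1, hF2⟩ := hfat
  have hin : ∀ c, ∀ z ∈ inCell L c, ∃ w ∈ L, w.1 = c ∧ w.2 = z ∧ 0 < z.1 ∧ 0 < z.2 := by
    intro c z hz
    unfold inCell at hz
    obtain ⟨w, hw, rfl⟩ := List.mem_map.1 hz
    rw [List.mem_filter] at hw
    obtain ⟨k1, k2, k3⟩ := hmem w hw.1
    exact ⟨w, k1, by simpa using hw.2, rfl, k2, k3⟩
  have hmass : ∀ c ≤ NC, 2 ^ 34 * LibMoserT.msum (inCell L c) ≤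
      ((P / 2 ^ (36 * c) % 2 ^ 36 : ℕ) : ℝ) := by
    intro c hc
    rw [Acc_digit hpk htt ht hc]
    exact (msum_inCell L hL0 c).trans (hmc c)
  refine ⟨inCell L, FL, inCell L NC, ?_, ?_, ?_, ?_, ?_, ?_, ?_⟩
  · exact hF2
  · exact hF1
  · intro c hc z hz
    have hcN : c < NC := lt_of_lt_of_le hc hnO
    obtain ⟨w, hw, rfl, rfl, k1, k2⟩ := hin c z hz
    have hl := hLeaf w hw
    rcases hl.1 with h | h
    · exact ⟨cell_pmn T hcN h.2.1, cell_pmx T hcN h.2.2, hl.2⟩
    · omega
  · intro c hc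
    have hcN : c < NC := lt_of_lt_of_le hc hnO
    have h3 := hmass c hcN.le
    have h4 : ((P / 2 ^ (36 * c) % 2 ^ 36 : ℕ) : ℝ) ≤ (LibMoserT.rM (T.rc c) : ℝ) := by
      exact_mod_cast hM c hc
    have h5 : (LibMoserT.D41 T ar lam mJ0 Sp).MO c = (LibMoserT.rM (T.rc c) : ℝ) / 2 ^ 34 := rfl
    rw [h5, le_div_iff₀ (by positivity)]
    linarith
  · intro z hz
    obtain ⟨w, hw, hwc, rfl, k1, k2⟩ := hin NC z hz
    have hl := hLeaf w hw
    refine ⟨k1, ?_, hl.2⟩
    rcases hl.1 with h | h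
    · omega
    · have h3 : U * w.2.1 ≤ 2 ^ 56 := h.2
      rw [hUe] at h3
      have h4 : LibMoserT.th (LibMoserT.D41 T ar lam mJ0 Sp).q
          ((LibMoserT.D41 T ar lam mJ0 Sp).l0 - 64) = 2048 / (8128 : ℝ) ^ 3 := by
        have e3 : (LibMoserT.D41 T ar lam mJ0 Sp).l0 - 64 = 8128 := rfl
        have e4 : (LibMoserT.D41 T ar lam mJ0 Sp).q = 2048 := by
          show ((2048 : ℕ) : ℝ) = 2048
          norm_num
        rw [e3, e4]
        unfold LibMoserT.th
        norm_num
      rw [h4]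
      have h5 : (2 : ℝ) ^ 56 / 2 ^ 100 ≤ 2048 / (8128 : ℝ) ^ 3 := by norm_num
      refine le_trans ?_ h5
      rw [le_div_iff₀ (by positivity)]
      linarith
  · have h3 := hmass NC le_rfl
    have h4 : (LibMoserT.D41 T ar lam mJ0 Sp).mJ0 = mJ0 := rfl
    rw [h4]
    have h5 := h3.trans hJ
    exact le_of_mul_le_mul_left h5 (by positivity)
  · have h3 := (hall.map Prod.fst).sum_eq
    rw [List.map_append, List.sum_append] at h3
    have h4 := thk_posT ls.flatten hls
    have h5 : (LibMoserT.D41 T ar lam mJ0 Sp).Sp = Sp := rfl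
    have h6 : (LibMoserT.D41 T ar lam mJ0 Sp).nO = T.nO := rfl
    rw [h5, h6, ← h3]
    refine h4.trans ?_
    have h7 := hth.trans hS
    rw [hUe] at h7
    exact le_of_mul_le_mul_left h7 (by positivity)

end Pool.Agent.LibM73
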