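import Pool.Agent.LibM73.Brec
set_option autoImplicit false
/-!
# Real combs  (TASK GEO)
-/
namespace Pool.Agent.LibM73
open Pool.Agent.LibMoser5 Pool.Agent.LibMoserF

section
variable {W H : ℝ} {C : List Cb} {P : Finset ℕ}

theorem cbT_zero (θ : ℝ) (S ℓ : ℕ → ℝ) (ρ : ℝ) : cbT θ S ℓ 0 ρ = [(θ - S 0, ℓ 0 + ρ)] := by
  simp [cbT]

theorem cbT_succ (θ : ℝ) (S ℓ : ℕ → ℝ) (k : ℕ) (ρ : ℝ) :
    cbT θ S ℓ (k + 1) ρ = (θ - S (k + 1), ℓ (k + 1) + ρ) :: cbT θ S ℓ k 0 := by
  simp [cbT, List.range_succ]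

/-- a comb without carry is the reversed list of its teeth -/
theorem cbT_eq (θ : ℝ) (S ℓ : ℕ → ℝ) (k : ℕ) :
    cbT θ S ℓ k 0 = ((List.range (k + 1)).map (fun i => (θ - S i, ℓ i))).reverse := by
  simp [cbT, List.range_succ]

/-- the comb above a row -/
theorem child_sc (θ : ℝ) (n k : ℕ) : child θ (List.range' n (k + 1)) = scT θ n k 0 := by
  unfold scT
  rw [cbT_eq, child_eq, List.range'_eq_map_range, List.map_map]
  rfl

/-- the thinnest tooth at the end -/
theorem cbT_end (θ : ℝ) (S ℓ S' ℓ' : ℕ → ℝ) (hS : ∀ i, S' i = S (i + 1))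
    (hℓ : ∀ i, ℓ' i = ℓ (i + 1)) (k : ℕ) (ρ : ℝ) :
    cbT θ S ℓ (k + 1) ρ = cbT θ S' ℓ' k ρ ++ [(θ - S 0, ℓ 0)] := by
  induction k generalizing ρ with
  | zero =>
    rw [cbT_succ, cbT_zero, cbT_zero, hS, hℓ]
    simp
  | succ k ih =>
    rw [cbT_succ, ih, cbT_succ, hS, hℓ]
    rfl

theorem gcT_end (θ : ℝ) (n e d c f k : ℕ) (ρ : ℝ) :
    gcT θ n e d c f (k + 1) ρ = gcT θ (n + e) e d c f k ρ ++ [(θ - SS d n c, sd (n + f))] := by
  unfold gcT
  rw [cbT_end θ (fun i => SS d (n + e * i) c) (fun i => sd (n + e * i + f))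
    (fun i => SS d (n + e + e * i) c) (fun i => sd (n + e + e * i + f))]
  · rw [Nat.mul_zero, Nat.add_zero]
  · intro i
    have : n + e + e * i = n + e * (i + 1) := by ring
    rw [this]
  · intro i
    have : n + e + e * i = n + e * (i + 1) := by ring
    rw [this]

theorem PX_run (M n0 j : ℕ) :
    PX (LibMoserF.run n0 (M + 1)) (M + 1) j = SS 1 (n0 + (M + 1) * j) (M + 1) := by
  unfold PX SS LibMoserF.run
  refine Finset.sum_congr rfl fun l _ => ?_
  congr 1
  ring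

theorem BY_run (H : ℝ) (M R n0 i : ℕ) :
    BY (LibMoserF.run n0 (M + 1)) H R i 0 = H - SS (M + 1) (n0 + i) (R + 1) := by
  unfold BY SS LibMoserF.run
  rw [← Finset.range_eq_Ico]
  congr 1
  refine Finset.sum_congr rfl fun l _ => ?_
  congr 1
  ring

theorem walls_gc (W : ℝ) (M R n0 : ℕ) :
    walls W M R (LibMoserF.run n0 (M + 1)) = gcT W n0 (M + 1) 1 (M + 1) M R 0 := by
  unfold gcT
  rw [cbT_eq]
  unfold walls
  congr 1
  refine List.map_congr_left fun j _ => ?_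
  rw [PX_run]
  congr 2
  unfold LibMoserF.run
  ring

theorem bots_gc (H : ℝ) (M R n0 : ℕ) :
    bots H M R (LibMoserF.run n0 (M + 1)) = gcT H n0 1 (M + 1) (R + 1) 0 M 0 := by
  unfold gcT
  rw [cbT_eq]
  unfold bots
  congr 1
  refine List.map_congr_left fun j _ => ?_
  rw [BY_run, Nat.one_mul]
  congr 2
  unfold LibMoserF.run
  ring

/-- `[th,th'] × len` cut across the thickness -/
theorem PC.cutT {th l a : ℝ} (h : PC W H ([(th, l)] :: C) P) (ha : 0 ≤ a) (hal : a ≤ th) :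
    PC W H ([(a, l)] :: [(th - a, l)] :: C) P := by
  have h1 := (LibMoserF.PC.swap h).cut (c := []) ha hal
  have h2 := LibMoserF.PC.swap h1
  have h3 := LibMoserF.PC.swap (h2.perm (List.Perm.swap _ _ _))
  exact h3.perm (List.Perm.swap _ _ _)

/-- **block without trimming**, `H × W` exactly the rectangle; the four forms of the machine.
`fh = true`: the comb below has its thinnest tooth (else `H = SS M n0 R`); `fw` the same for the
walls and the corner. -/
theorem PC.blockM {Hh Ww : ℝ} {M R n0 : ℕ} (h : PC W H ([(Hh, Ww)] :: C) P) (hM : 2 ≤ M)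
    (hR : 2 ≤ R) (hH : SS M n0 R ≤ Hh) (hW : SS 1 n0 M ≤ Ww)
    (hP : Disjoint P (Finset.Ico n0 (n0 + M * R))) (fh fw : Bool)
    (h1 : fh = false → Hh = SS M n0 R) (h2 : fw = false → Ww = SS 1 n0 M) :
    PC W H ((if fw = true then
        [[(Hh - SS M (n0 + (M - 1)) R, Ww - SS 1 n0 M)], gcT Ww n0 M 1 M (M - 1) (R - 1) 0]
        else [gcT Ww (n0 + M) M 1 M (M - 1) (R - 2) 0]) ++
      ((if fh = true then gcT Hh n0 1 M R 0 (M - 1) 0 else gcT Hh (n0 + 1) 1 M R 0 (M - 2) 0) ::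
      (LibMoserF.holes Hh (M - 1) (R - 1) (LibMoserF.run n0 M) ++ C)))
      (P ∪ Finset.Ico n0 (n0 + M * R)) := by
  obtain ⟨m, rfl⟩ : ∃ m, M = m + 2 := ⟨M - 2, by omega⟩
  obtain ⟨r, rfl⟩ : ∃ r, R = r + 2 := ⟨R - 2, by omega⟩
  have em1 : m + 2 - 1 = m + 1 := by omega
  have em2 : m + 2 - 2 = m := by omega
  have er1 : r + 2 - 1 = r + 1 := by omega
  have er2 : r + 2 - 2 = r := by omega
  rw [em1, em2, er1, er2]
  have g : HB Ww Hh (m + 1) (r + 1) (LibMoserF.run n0 (m + 1 + 1)) := by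
    apply HB.run
    · unfold SS at hW
      simpa using hW
    · unfold SS at hH
      refine le_trans (le_of_eq ?_) hH
      refine Finset.sum_congr rfl fun l _ => ?_
      congr 1
      ring
  have h3 := h.block g (by
    intro i hi j hj hm
    rw [Finset.disjoint_left] at hP
    apply hP hm
    have h4 : LibMoserF.run n0 (m + 1 + 1) i j ∈ hset (m + 1) (r + 1) (LibMoserF.run n0 (m + 1 + 1)) :=
      mem_hset.2 ⟨(i, j), hi, hj, rfl⟩
    rw [hset_run] at h4
    have e : (r + 1 + 1) * (m + 1 + 1) = (m + 2) * (r + 2) := by ring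
    rwa [e] at h4)
  rw [hset_run] at h3
  have e : (r + 1 + 1) * (m + 1 + 1) = (m + 2) * (r + 2) := by ring
  rw [e, walls_gc, bots_gc, BY_run, PX_run, Nat.mul_zero, Nat.add_zero] at h3
  -- now bring the parts into the right form
  obtain ⟨Hl, hHl⟩ : ∃ Hl, Hl = LibMoserF.holes Hh (m + 1) (r + 1) (LibMoserF.run n0 (m + 1 + 1)) :=
    ⟨_, rfl⟩
  rw [← hHl] at h3
  have hHl' : LibMoserF.holes Hh (m + 1) (r + 1) (LibMoserF.run n0 (m + 2)) = Hl := hHl.symm
  rw [hHl']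
  obtain ⟨P', hP'⟩ : ∃ P', P' = P ∪ Finset.Ico n0 (n0 + (m + 2) * (r + 2)) := ⟨_, rfl⟩
  rw [← hP'] at h3 ⊢
  -- the comb below
  have h4 : PC W H ((if fh = true then gcT Hh n0 1 (m + 2) (r + 2) 0 (m + 1) 0 else
      gcT Hh (n0 + 1) 1 (m + 2) (r + 2) 0 m 0) ::
      gcT Ww n0 (m + 2) 1 (m + 2) (m + 1) (r + 1) 0 ::
      [(Hh - SS (m + 2) (n0 + (m + 1)) (r + 2), Ww - SS 1 n0 (m + 2))] :: (Hl ++ C)) P' := by
    have h5 := h3.perm (List.Perm.swap _ _ _)
    by_cases hf : fh = true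
    · rw [if_pos hf]
      exact h5
    · rw [if_neg hf]
      have hf' : fh = false := by simpa using hf
      rw [gcT_end] at h5
      refine h5.dropEnd ?_
      rw [ar_cons, ar_nil, h1 hf']
      simp
  -- the walls and the corner
  by_cases hf : fw = true
  · rw [if_pos hf]
    refine h4.perm ?_
    simp only [List.cons_append, List.nil_append]
    refine (List.Perm.swap _ _ _).trans ?_
    refine (List.Perm.cons _ (List.Perm.swap _ _ _)).trans ?_
    exact List.Perm.swap _ _ _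
  · rw [if_neg hf]
    have hf' : fw = false := by simpa using hf
    have hz : Ww - SS 1 n0 (m + 2) = 0 := by rw [h2 hf', sub_self]
    have h6 := h4.perm (List.Perm.swap _ _ _)
    rw [gcT_end] at h6
    have h7 := h6.dropEnd (by
      rw [ar_cons, ar_nil, hz]
      simp)
    have h8 : PC W H ([(Hh - SS (m + 2) (n0 + (m + 1)) (r + 2), Ww - SS 1 n0 (m + 2))] ::
        gcT Ww (n0 + (m + 2)) (m + 2) 1 (m + 2) (m + 1) r 0 ::
        (if fh = true then gcT Hh n0 1 (m + 2) (r + 2) 0 (m + 1) 0 else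
          gcT Hh (n0 + 1) 1 (m + 2) (r + 2) 0 m 0) :: (Hl ++ C)) P' := by
      refine h7.perm ?_
      refine (List.Perm.cons _ (List.Perm.swap _ _ _)).trans ?_
      exact List.Perm.swap _ _ _
    have h9 := h8.dropZ (by
      rw [ar_cons, ar_nil, hz]
      simp)
    exact h9

end

end Pool.Agent.LibM73
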