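import Pool.Agent.LibM73.Spec
set_option autoImplicit false
/-!
# Holes of a block: analysis  (TASK HOLEA)

Block of `M × R` squares `n0 + j*M + i` (`i < M`, `j < R`); hole `(i,j)`, `i < M-1`, `j < R-1`.
`hX` = length, `hY` = thickness.  With `u = R-1-j`, `a = 2*n0+2+(2*j+1)*M`,
`b = 2*n0+2+(2*R-1)*M`: `4u/((a+2i)(b+2i)) (1 - M^2/(4 n0^2)) ≤ hY ≤ 4u/((a+2i)(b+2i))`.
-/
namespace Pool.Agent.LibM73
open Pool.Agent.LibMoser5 Pool.Agent.LibMoserF

noncomputable section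

/-- length of the hole `(i,j)` -/
def hX (n0 M i j : ℕ) : ℝ :=
  ∑ k ∈ Finset.range (i + 1), (sd (n0 + j * M + k) - sd (n0 + (j + 1) * M + k))

/-- thickness of the hole `(i,j)` -/
def hY (n0 M R i j : ℕ) : ℝ :=
  ∑ l ∈ Finset.Ico (j + 1) R, (sd (n0 + l * M + i) - sd (n0 + l * M + (i + 1)))

/-- the holes of helper5's block rule are these -/
theorem holes_hXY {n0 M R : ℕ} {H : ℝ} {i j : ℕ} (hi : i < M) (hj : j < R) :
    BY (LibMoserF.run n0 (M + 1)) H R (i + 1) (j + 1) -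
      BY (LibMoserF.run n0 (M + 1)) H R i (j + 1) = hY n0 (M + 1) (R + 1) i j ∧
    PX (LibMoserF.run n0 (M + 1)) (i + 1) j - PX (LibMoserF.run n0 (M + 1)) (i + 1) (j + 1) =
      hX n0 (M + 1) i j := by
  constructor
  · unfold BY hY LibMoserF.run
    rw [Finset.sum_sub_distrib]
    ring
  · unfold PX hX LibMoserF.run
    rw [Finset.sum_sub_distrib]

theorem sd_form51 (n : ℕ) : sd n = 2 / (2 * n + 1) := by
  unfold sd
  have h : ((n : ℝ) + 1 / 2) ≠ 0 := by positivity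
  have h' : (2 * (n : ℝ) + 1) ≠ 0 := by positivity
  field_simp

/-- difference of two sides -/
theorem sd_diff51 (n m : ℕ) : sd n - sd (n + m) = 4 * m / ((2 * n + 1) * (2 * (n + m) + 1)) := by
  rw [sd_form51, sd_form51]
  have h1 : (2 * (n : ℝ) + 1) ≠ 0 := by positivity
  have h2 : (2 * ((n : ℝ) + m) + 1) ≠ 0 := by positivity
  push_cast
  field_simp
  ring

/-- the term of `hY` -/
theorem hY_term (n0 M i l : ℕ) : sd (n0 + l * M + i) - sd (n0 + l * M + (i + 1)) =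
    4 / ((2 * (n0 : ℝ) + 2 + 2 * i + 2 * l * M) ^ 2 - 1) := by
  have h := sd_diff51 (n0 + l * M + i) 1
  rw [show n0 + l * M + (i + 1) = n0 + l * M + i + 1 by ring, h]
  congr 1
  · push_cast; ring
  · push_cast; ring

/-- the telescoping function -/
def gh (n0 M i l : ℕ) : ℝ := 2 * n0 + 2 + 2 * i + (2 * (l : ℝ) - 1) * M

theorem gh_pos {n0 M i l : ℕ} (hl : 1 ≤ l) : 0 < gh n0 M i l := by
  unfold gh
  have h : (1 : ℝ) ≤ l := by exact_mod_cast hl
  have h2 : (0 : ℝ) ≤ (2 * (l : ℝ) - 1) * M := by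
    apply mul_nonneg
    · linarith
    · positivity
  have : (0 : ℝ) ≤ n0 := by positivity
  have : (0 : ℝ) ≤ i := by positivity
  linarith

theorem gh_succ (n0 M i l : ℕ) : gh n0 M i (l + 1) = gh n0 M i l + 2 * M := by
  unfold gh; push_cast; ring

theorem gh_mul (n0 M i l : ℕ) : gh n0 M i l * gh n0 M i (l + 1) =
    (2 * (n0 : ℝ) + 2 + 2 * i + 2 * l * M) ^ 2 - M ^ 2 := by
  unfold gh; push_cast; ring

theorem gh_sum {n0 M i j R : ℕ} (hj : j + 1 ≤ R) :
    ∑ l ∈ Finset.Ico (j + 1) R, 4 / (gh n0 M i l * gh n0 M i (l + 1)) =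
      4 * ((R : ℝ) - 1 - j) / (gh n0 M i (j + 1) * gh n0 M i R) := by
  induction R, hj using Nat.le_induction with
  | base =>
    simp
  | succ k hk ih =>
    rw [Finset.sum_Ico_succ_top hk, ih]
    have h1 : gh n0 M i (j + 1) ≠ 0 := (gh_pos (by omega)).ne'
    have h2 : gh n0 M i k ≠ 0 := (gh_pos (by omega)).ne'
    have h3 : gh n0 M i (k + 1) ≠ 0 := (gh_pos (by omega)).ne'
    have e1 : gh n0 M i (k + 1) = gh n0 M i k + 2 * M := gh_succ _ _ _ _
    have e2 : gh n0 M i (j + 1) = gh n0 M i k - 2 * M * ((k : ℝ) - 1 - j) := by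
      unfold gh; push_cast; ring
    rw [div_add_div _ _ (mul_ne_zero h1 h2) (mul_ne_zero h2 h3),
      div_eq_div_iff (mul_ne_zero (mul_ne_zero h1 h2) (mul_ne_zero h2 h3)) (mul_ne_zero h1 h3)]
    rw [e1, e2]
    push_cast
    ring

theorem gh_close {n0 M R i j : ℕ} (hj : j + 1 ≤ R) :
    4 * ((R : ℝ) - 1 - j) / (gh n0 M i (j + 1) * gh n0 M i R) =
      4 * ((R - 1 - j : ℕ) : ℝ) /
      ((2 * n0 + 2 + (2 * j + 1) * M + 2 * i) * (2 * n0 + 2 + (2 * R - 1) * M + 2 * i)) := by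
  have e : ((R - 1 - j : ℕ) : ℝ) = (R : ℝ) - 1 - j := by
    rw [Nat.sub_sub, Nat.cast_sub (by omega)]
    push_cast
    ring
  rw [e]
  congr 1
  unfold gh
  push_cast
  ring

theorem hY_up {n0 M R i j : ℕ} (hM : 1 ≤ M) (hj : j + 1 ≤ R) :
    hY n0 M R i j ≤ 4 * ((R - 1 - j : ℕ) : ℝ) /
      ((2 * n0 + 2 + (2 * j + 1) * M + 2 * i) * (2 * n0 + 2 + (2 * R - 1) * M + 2 * i)) := by
  rw [← gh_close hj, ← gh_sum hj]
  unfold hY
  refine Finset.sum_le_sum (fun l hl => ?_)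
  rw [Finset.mem_Ico] at hl
  rw [hY_term]
  have hp : 0 < gh n0 M i l * gh n0 M i (l + 1) := mul_pos (gh_pos (by omega)) (gh_pos (by omega))
  refine div_le_div_of_nonneg_left (by norm_num) hp ?_
  rw [gh_mul]
  have hM' : (1 : ℝ) ≤ M := by exact_mod_cast hM
  nlinarith

theorem hY_lo {n0 M R i j : ℕ} (hM : 1 ≤ M) (hn : 128 * M ≤ n0) (hj : j + 1 ≤ R) :
    4 * ((R - 1 - j : ℕ) : ℝ) /
      ((2 * n0 + 2 + (2 * j + 1) * M + 2 * i) * (2 * n0 + 2 + (2 * R - 1) * M + 2 * i)) *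
        (1 - 1 / 2 ^ 16) ≤ hY n0 M R i j := by
  rw [← gh_close hj, ← gh_sum hj, Finset.sum_mul]
  unfold hY
  refine Finset.sum_le_sum (fun l hl => ?_)
  rw [Finset.mem_Ico] at hl
  rw [hY_term]
  have hp : 0 < gh n0 M i l * gh n0 M i (l + 1) := mul_pos (gh_pos (by omega)) (gh_pos (by omega))
  rw [gh_mul] at hp ⊢
  have hM' : (1 : ℝ) ≤ M := by exact_mod_cast hM
  have hn' : 128 * (M : ℝ) ≤ n0 := by exact_mod_cast hn
  have hc : 256 * (M : ℝ) ≤ 2 * (n0 : ℝ) + 2 + 2 * i + 2 * l * M := by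
    have h1 : (0 : ℝ) ≤ 2 * i := by positivity
    have h2 : (0 : ℝ) ≤ 2 * l * M := by positivity
    linarith
  have hc2 : (256 * (M : ℝ)) ^ 2 ≤ (2 * (n0 : ℝ) + 2 + 2 * i + 2 * l * M) ^ 2 := by
    apply pow_le_pow_left₀ (by positivity) hc
  have hM2 : (1 : ℝ) ≤ (M : ℝ) ^ 2 := by nlinarith
  have hp2 : 0 < (2 * (n0 : ℝ) + 2 + 2 * i + 2 * l * M) ^ 2 - 1 := by nlinarith
  rw [div_mul_eq_mul_div, div_le_div_iff₀ hp hp2]
  nlinarith

theorem hX_term_nonneg (n0 M j k : ℕ) :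
    0 ≤ sd (n0 + j * M + k) - sd (n0 + (j + 1) * M + k) := by
  have : sd (n0 + (j + 1) * M + k) ≤ sd (n0 + j * M + k) := by
    apply LibMoserF.sd_anti
    have : j * M ≤ (j + 1) * M := Nat.mul_le_mul_right _ (by omega)
    omega
  linarith

theorem hX_up {n0 M i j : ℕ} (hM : 1 ≤ M) :
    hX n0 M i j ≤ (i + 1) * (4 * M / ((2 * n0 + 1) * (2 * (n0 + M) + 1))) := by
  have h : ∀ k ∈ Finset.range (i + 1), sd (n0 + j * M + k) - sd (n0 + (j + 1) * M + k) ≤
      4 * M / ((2 * n0 + 1) * (2 * (n0 + M) + 1)) := by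
    intro k _
    rw [show n0 + (j + 1) * M + k = n0 + j * M + k + M by ring, sd_diff51]
    have h1 : (0 : ℝ) ≤ (j : ℝ) * M := by positivity
    have h2 : (0 : ℝ) ≤ (k : ℝ) := by positivity
    have h3 : (0 : ℝ) ≤ (n0 : ℝ) := by positivity
    have h4 : (0 : ℝ) ≤ (M : ℝ) := by positivity
    refine div_le_div_of_nonneg_left (by positivity) (by positivity) ?_
    push_cast
    apply mul_le_mul
    · linarith
    · linarith
    · positivity
    · positivity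
  unfold hX
  refine (Finset.sum_le_sum h).trans ?_
  rw [Finset.sum_const, Finset.card_range, nsmul_eq_mul]
  push_cast
  exact le_rfl

theorem hY_nonneg {n0 M R i j : ℕ} : 0 ≤ hY n0 M R i j := by
  unfold hY
  refine Finset.sum_nonneg (fun l _ => ?_)
  have : sd (n0 + l * M + (i + 1)) ≤ sd (n0 + l * M + i) := by
    apply LibMoserF.sd_anti
    omega
  linarith

/-- the ratio -/
theorem h_ratio {n0 M R i j : ℕ} (hM : 1 ≤ M) (hj : j + 1 < R) (hR : 6 * (R - 1) ≤ 5 * M) :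
    6 / 5 * hY n0 M R i j ≤ hX n0 M i j := by
  -- lower bound of `hX` by its last term
  have h1 : sd (n0 + j * M + i) - sd (n0 + (j + 1) * M + i) ≤ hX n0 M i j := by
    unfold hX
    exact Finset.single_le_sum (f := fun k => sd (n0 + j * M + k) - sd (n0 + (j + 1) * M + k))
      (fun k _ => hX_term_nonneg n0 M j k) (Finset.mem_range.2 (Nat.lt_succ_self i))
  have h2 : sd (n0 + j * M + i) - sd (n0 + (j + 1) * M + i) =
      4 * M / ((2 * ((n0 : ℝ) + j * M + i) + 1) * (2 * ((n0 : ℝ) + j * M + i + M) + 1)) := by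
    rw [show n0 + (j + 1) * M + i = n0 + j * M + i + M by ring, sd_diff51]
    push_cast
    rfl
  -- upper bound of the terms of `hY`
  have h3 : ∀ l ∈ Finset.Ico (j + 1) R, sd (n0 + l * M + i) - sd (n0 + l * M + (i + 1)) ≤
      4 / ((2 * ((n0 : ℝ) + j * M + i) + 1) * (2 * ((n0 : ℝ) + j * M + i + M) + 1)) := by
    intro l hl
    rw [Finset.mem_Ico] at hl
    rw [show n0 + l * M + (i + 1) = n0 + l * M + i + 1 by ring, sd_diff51]
    have h0 : (0 : ℝ) ≤ (j : ℝ) * M := by positivity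
    have hl' : ((j : ℝ) + 1) * M ≤ (l : ℝ) * M := by
      apply mul_le_mul_of_nonneg_right _ (by positivity)
      exact_mod_cast hl.1
    have hn : (0 : ℝ) ≤ (n0 : ℝ) := by positivity
    have hi : (0 : ℝ) ≤ (i : ℝ) := by positivity
    have hm : (0 : ℝ) ≤ (M : ℝ) := by positivity
    have e1 : (4 * ((1 : ℕ) : ℝ)) = 4 := by norm_num
    rw [e1]
    refine div_le_div_of_nonneg_left (by norm_num) (by positivity) ?_
    push_cast
    apply mul_le_mul
    · linarith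
    · linarith
    · positivity
    · positivity
  have h4 : hY n0 M R i j ≤ ((R - (j + 1) : ℕ) : ℝ) *
      (4 / ((2 * ((n0 : ℝ) + j * M + i) + 1) * (2 * ((n0 : ℝ) + j * M + i + M) + 1))) := by
    unfold hY
    refine (Finset.sum_le_sum h3).trans ?_
    rw [Finset.sum_const, Nat.card_Ico, nsmul_eq_mul]
  have h5 : 6 * ((R - (j + 1) : ℕ) : ℝ) ≤ 5 * M := by
    have : 6 * (R - (j + 1)) ≤ 5 * M := by omega
    exact_mod_cast this
  rw [h2] at h1
  have hD : 0 < (2 * ((n0 : ℝ) + j * M + i) + 1) * (2 * ((n0 : ℝ) + j * M + i + M) + 1) := by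
    positivity
  have h6 : 6 / 5 * (((R - (j + 1) : ℕ) : ℝ) *
      (4 / ((2 * ((n0 : ℝ) + j * M + i) + 1) * (2 * ((n0 : ℝ) + j * M + i + M) + 1)))) ≤
      4 * M / ((2 * ((n0 : ℝ) + j * M + i) + 1) * (2 * ((n0 : ℝ) + j * M + i + M) + 1)) := by
    rw [mul_div_assoc', mul_div_assoc', div_le_div_iff_of_pos_right hD]
    linarith
  linarith

end

end Pool.Agent.LibM73
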