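import Pool.Agent.LibM73.Brec
set_option autoImplicit false
/-!
# Profiles  (TASK PROF)
-/
namespace Pool.Agent.LibM73

theorem flat_mk (a0 a1 a2 a3 a4 a5 a6 a7 : ℕ) : flat (Pf.mk a0 a1 a2 a3 a4 a5 a6 a7) =
    a0 + a1 * 2 ^ (36 * 4096) + a2 * 2 ^ (36 * 8192) +
      a3 * 2 ^ (36 * 12288) + a4 * 2 ^ (36 * 16384) + a5 * 2 ^ (36 * 20480) +
      a6 * 2 ^ (36 * 24576) + a7 * 2 ^ (36 * 28672) := rfl

theorem flat_zero : flat P00 = 0 := by
  unfold P00
  rw [flat_mk]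
  simp only [Nat.zero_mul, Nat.add_zero]

theorem addG_sound {j y : ℕ} {P : Pf} {K : Pf → Bool} (hj : j ≤ 7) (h : addG j y P K = true) :
    ∃ P' : Pf, K P' = true ∧ flat P' = flat P + y * 2 ^ (36 * (4096 * j)) := by
  obtain ⟨a0, a1, a2, a3, a4, a5, a6, a7⟩ := P
  have e0 : 36 * (4096 * 0) = 0 := rfl
  have e1 : 36 * (4096 * 1) = 36 * 4096 := rfl
  have e2 : 36 * (4096 * 2) = 36 * 8192 := rfl
  have e3 : 36 * (4096 * 3) = 36 * 12288 := rfl
  have e4 : 36 * (4096 * 4) = 36 * 16384 := rfl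
  have e5 : 36 * (4096 * 5) = 36 * 20480 := rfl
  have e6 : 36 * (4096 * 6) = 36 * 24576 := rfl
  have e7 : 36 * (4096 * 7) = 36 * 28672 := rfl
  interval_cases j
  · refine ⟨Pf.mk (Nat.add a0 y) a1 a2 a3 a4 a5 a6 a7, h, ?_⟩
    rw [flat_mk, flat_mk, e0, pow_zero, Nat.mul_one, show Nat.add a0 y = a0 + y from rfl]
    generalize 2 ^ (36 * 4096) = w1
    generalize 2 ^ (36 * 8192) = w2
    generalize 2 ^ (36 * 12288) = w3
    generalize 2 ^ (36 * 16384) = w4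
    generalize 2 ^ (36 * 20480) = w5
    generalize 2 ^ (36 * 24576) = w6
    generalize 2 ^ (36 * 28672) = w7
    ring
  · refine ⟨Pf.mk a0 (Nat.add a1 y) a2 a3 a4 a5 a6 a7, h, ?_⟩
    rw [flat_mk, flat_mk, e1, show Nat.add a1 y = a1 + y from rfl]
    generalize 2 ^ (36 * 4096) = w1
    generalize 2 ^ (36 * 8192) = w2
    generalize 2 ^ (36 * 12288) = w3
    generalize 2 ^ (36 * 16384) = w4
    generalize 2 ^ (36 * 20480) = w5
    generalize 2 ^ (36 * 24576) = w6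
    generalize 2 ^ (36 * 28672) = w7
    ring
  · refine ⟨Pf.mk a0 a1 (Nat.add a2 y) a3 a4 a5 a6 a7, h, ?_⟩
    rw [flat_mk, flat_mk, e2, show Nat.add a2 y = a2 + y from rfl]
    generalize 2 ^ (36 * 4096) = w1
    generalize 2 ^ (36 * 8192) = w2
    generalize 2 ^ (36 * 12288) = w3
    generalize 2 ^ (36 * 16384) = w4
    generalize 2 ^ (36 * 20480) = w5
    generalize 2 ^ (36 * 24576) = w6
    generalize 2 ^ (36 * 28672) = w7
    ring
  · refine ⟨Pf.mk a0 a1 a2 (Nat.add a3 y) a4 a5 a6 a7, h, ?_⟩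
    rw [flat_mk, flat_mk, e3, show Nat.add a3 y = a3 + y from rfl]
    generalize 2 ^ (36 * 4096) = w1
    generalize 2 ^ (36 * 8192) = w2
    generalize 2 ^ (36 * 12288) = w3
    generalize 2 ^ (36 * 16384) = w4
    generalize 2 ^ (36 * 20480) = w5
    generalize 2 ^ (36 * 24576) = w6
    generalize 2 ^ (36 * 28672) = w7
    ring
  · refine ⟨Pf.mk a0 a1 a2 a3 (Nat.add a4 y) a5 a6 a7, h, ?_⟩
    rw [flat_mk, flat_mk, e4, show Nat.add a4 y = a4 + y from rfl]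
    generalize 2 ^ (36 * 4096) = w1
    generalize 2 ^ (36 * 8192) = w2
    generalize 2 ^ (36 * 12288) = w3
    generalize 2 ^ (36 * 16384) = w4
    generalize 2 ^ (36 * 20480) = w5
    generalize 2 ^ (36 * 24576) = w6
    generalize 2 ^ (36 * 28672) = w7
    ring
  · refine ⟨Pf.mk a0 a1 a2 a3 a4 (Nat.add a5 y) a6 a7, h, ?_⟩
    rw [flat_mk, flat_mk, e5, show Nat.add a5 y = a5 + y from rfl]
    generalize 2 ^ (36 * 4096) = w1
    generalize 2 ^ (36 * 8192) = w2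
    generalize 2 ^ (36 * 12288) = w3
    generalize 2 ^ (36 * 16384) = w4
    generalize 2 ^ (36 * 20480) = w5
    generalize 2 ^ (36 * 24576) = w6
    generalize 2 ^ (36 * 28672) = w7
    ring
  · refine ⟨Pf.mk a0 a1 a2 a3 a4 a5 (Nat.add a6 y) a7, h, ?_⟩
    rw [flat_mk, flat_mk, e6, show Nat.add a6 y = a6 + y from rfl]
    generalize 2 ^ (36 * 4096) = w1
    generalize 2 ^ (36 * 8192) = w2
    generalize 2 ^ (36 * 12288) = w3
    generalize 2 ^ (36 * 16384) = w4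
    generalize 2 ^ (36 * 20480) = w5
    generalize 2 ^ (36 * 24576) = w6
    generalize 2 ^ (36 * 28672) = w7
    ring
  · refine ⟨Pf.mk a0 a1 a2 a3 a4 a5 a6 (Nat.add a7 y), h, ?_⟩
    rw [flat_mk, flat_mk, e7, show Nat.add a7 y = a7 + y from rfl]
    generalize 2 ^ (36 * 4096) = w1
    generalize 2 ^ (36 * 8192) = w2
    generalize 2 ^ (36 * 12288) = w3
    generalize 2 ^ (36 * 16384) = w4
    generalize 2 ^ (36 * 20480) = w5
    generalize 2 ^ (36 * 24576) = w6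
    generalize 2 ^ (36 * 28672) = w7
    ring

theorem addP_sound {i x : ℕ} {P : Pf} {K : Pf → Bool} (h : addP i x P K = true) (hi : i ≤ NC) :
    ∃ P' : Pf, K P' = true ∧ flat P' = flat P + Nat.shiftLeft x (36 * i) := by
  have h0 : i ≤ 29184 := hi
  have h1 : i >>> 12 = i / 4096 := by
    rw [Nat.shiftRight_eq_div_pow]
  have hj : i >>> 12 ≤ 7 := by
    rw [h1]
    omega
  obtain ⟨P', h2, h3⟩ := addG_sound (j := i >>> 12)
    (y := Nat.shiftLeft x (Nat.mul 36 (Nat.mod i 4096))) hj h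
  refine ⟨P', h2, ?_⟩
  rw [h3]
  have h4 : Nat.shiftLeft x (Nat.mul 36 (Nat.mod i 4096)) = x * 2 ^ (36 * (i % 4096)) :=
    Nat.shiftLeft_eq x _
  have h5 : Nat.shiftLeft x (36 * i) = x * 2 ^ (36 * i) := Nat.shiftLeft_eq x _
  have h6 : 36 * i = 36 * (i % 4096) + 36 * (4096 * (i >>> 12)) := by
    rw [h1]
    omega
  rw [h4, h5, Nat.mul_assoc, ← pow_add, ← h6]

theorem eqP_eq {P Q : Pf} (h : eqP P Q = true) : P = Q := by
  obtain ⟨a0, a1, a2, a3, a4, a5, a6, a7⟩ := P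
  obtain ⟨b0, b1, b2, b3, b4, b5, b6, b7⟩ := Q
  have h' : (Nat.beq a0 b0 && (Nat.beq a1 b1 && (Nat.beq a2 b2 && (Nat.beq a3 b3 &&
      (Nat.beq a4 b4 && (Nat.beq a5 b5 && (Nat.beq a6 b6 && Nat.beq a7 b7))))))) = true := h
  simp only [Bool.and_eq_true, beq_iff] at h'
  obtain ⟨h0, h1, h2, h3, h4, h5, h6, h7⟩ := h'
  subst h0 h1 h2 h3 h4 h5 h6 h7
  rfl

end Pool.Agent.LibM73
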