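import Pool.Agent.LibM73.HoleA
import Pool.Agent.LibM73.Cell
import Pool.Agent.LibM73.AccL
import Pool.Agent.LibM73.Prof
set_option autoImplicit false
/-!
# Holes of a block: the table  (TASK HOLEB)
-/
namespace Pool.Agent.LibM73
open Pool.Agent.LibMoser5 Pool.Agent.LibMoserF

/-- all holes of the block -/
noncomputable def holeL (n0 M R : ℕ) : List (ℝ × ℝ) :=
  (prs (M - 1) (R - 1)).map (fun q => (hY n0 M R q.1 q.2, hX n0 M q.1 q.2))

/-! ### rows -/

/-- the pairs of the rows `0 .. q-1`, the last row first -/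
def rowsP (m : ℕ) : ℕ → List (ℕ × ℕ)
  | 0 => []
  | q + 1 => (List.range m).map (fun i => (i, q)) ++ rowsP m q

theorem mem_rowsP {m q : ℕ} {p : ℕ × ℕ} : p ∈ rowsP m q ↔ p.1 < m ∧ p.2 < q := by
  induction q with
  | zero => simp [rowsP]
  | succ q ih =>
    rw [rowsP, List.mem_append, ih, List.mem_map]
    constructor
    · rintro (⟨i, hi, rfl⟩ | h)
      · rw [List.mem_range] at hi
        exact ⟨hi, Nat.lt_succ_self q⟩
      · omega
    · rintro ⟨h1, h2⟩
      rcases Nat.lt_or_ge p.2 q with h | h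
      · exact Or.inr ⟨h1, h⟩
      · refine Or.inl ⟨p.1, List.mem_range.2 h1, ?_⟩
        refine Prod.ext rfl ?_
        simp only
        omega

theorem rowsP_nodup (m q : ℕ) : (rowsP m q).Nodup := by
  induction q with
  | zero => simp [rowsP]
  | succ q ih =>
    rw [rowsP, List.nodup_append]
    refine ⟨?_, ih, ?_⟩
    · refine List.Nodup.map ?_ List.nodup_range
      intro a b h
      exact (Prod.ext_iff.1 h).1
    · intro a ha b hb e
      subst e
      rw [List.mem_map] at ha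
      obtain ⟨i, _, rfl⟩ := ha
      have := (mem_rowsP.1 hb).2
      simp only at this
      omega

theorem rowsP_perm (m r : ℕ) : (rowsP m r).Perm (prs m r) := by
  rw [List.perm_ext_iff_of_nodup (rowsP_nodup m r) (prs_nodup m r)]
  intro p
  rw [mem_rowsP, mem_prs]

/-! ### bounds -/

section
variable {n0 M R : ℕ}

theorem cast_2R {R : ℕ} (hR : 1 ≤ R) : (((2 * R - 1 : ℕ)) : ℝ) = 2 * R - 1 := by
  rw [Nat.cast_sub (by omega)]
  push_cast
  ring

/-- upper bound of the thickness in the unit -/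
theorem hY_lt {i j a b : ℕ} (hM : 1 ≤ M) (hj : j + 1 ≤ R)
    (ha : a ≤ 2 * n0 + 2 + (2 * j + 1) * M) (ha0 : 0 < a)
    (hb : b = 2 * n0 + 2 + (2 * R - 1) * M) (u : ℕ) (hu : R - 1 - j ≤ u) :
    U * hY n0 M R i j ≤ ((2 ^ 102 * u / (a * b) + 1 : ℕ) : ℝ) := by
  have h1 := hY_up (n0 := n0) (i := i) hM hj
  have hb0 : 0 < b := by rw [hb]; omega
  have h2 := lt_div' (2 ^ 102 * u) (a * b) (Nat.mul_pos ha0 hb0)
  have hbr : (b : ℝ) = 2 * n0 + 2 + (2 * R - 1) * M := by
    rw [hb]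
    push_cast [cast_2R (show 1 ≤ R by omega)]
    ring
  have har : (a : ℝ) ≤ 2 * n0 + 2 + (2 * j + 1) * M := by exact_mod_cast ha
  have ha0' : (0 : ℝ) < a := by exact_mod_cast ha0
  have hb0' : (0 : ℝ) < b := by exact_mod_cast hb0
  have hu' : ((R - 1 - j : ℕ) : ℝ) ≤ u := by exact_mod_cast hu
  have hi : (0 : ℝ) ≤ 2 * (i : ℝ) := by positivity
  have h3 : 4 * ((R - 1 - j : ℕ) : ℝ) /
      ((2 * n0 + 2 + (2 * j + 1) * M + 2 * i) * (2 * n0 + 2 + (2 * R - 1) * M + 2 * i)) ≤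
      4 * (u : ℝ) / (a * b) := by
    refine div_le_div₀ (by positivity) (by linarith) (by positivity) ?_
    apply mul_le_mul
    · linarith
    · rw [hbr]; linarith
    · exact hb0'.le
    · linarith
  have h4 : U * (4 * (u : ℝ) / (a * b)) = ((2 ^ 102 * u : ℕ) : ℝ) / ((a * b : ℕ) : ℝ) := by
    unfold U
    push_cast
    ring
  have h5 : U * hY n0 M R i j ≤ U * (4 * (u : ℝ) / (a * b)) :=
    mul_le_mul_of_nonneg_left (h1.trans h3) (by unfold U; positivity)
  rw [h4] at h5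
  push_cast at h5 h2 ⊢
  linarith

/-- lower bound of the thickness in the unit -/
theorem hY_gt {i j a b c : ℕ} (hM : 2 ≤ M) (hn : 128 * M ≤ n0) (hj : j + 1 ≤ R) (hi : i + 2 ≤ M)
    (ha : a = 2 * n0 + 2 + (2 * j + 1) * M)
    (hb : b = 2 * n0 + 2 + (2 * R - 1) * M) (hc : c = 2 * (M - 2)) (v : ℕ)
    (hv : v = 2 ^ 102 * (R - 1 - j) / ((a + c) * (b + c))) :
    (v : ℝ) - v / 2 ^ 15 ≤ U * hY n0 M R i j := by
  have h1 := hY_lo (n0 := n0) (i := i) (by omega : 1 ≤ M) hn hj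
  have ha0 : 0 < a + c := by omega
  have hb0 : 0 < b + c := by omega
  have h2 : (v : ℝ) ≤ ((2 ^ 102 * (R - 1 - j) : ℕ) : ℝ) / (((a + c) * (b + c) : ℕ) : ℝ) := by
    rw [hv]
    exact div_le' (2 ^ 102 * (R - 1 - j)) ((a + c) * (b + c)) (Nat.mul_pos ha0 hb0)
  have hbr : (b : ℝ) = 2 * n0 + 2 + (2 * R - 1) * M := by
    rw [hb]
    push_cast [cast_2R (show 1 ≤ R by omega)]
    ring
  have har : (a : ℝ) = 2 * n0 + 2 + (2 * j + 1) * M := by
    rw [ha]; push_cast; ring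
  have hci : 2 * (i : ℝ) ≤ c := by
    have : 2 * i ≤ c := by omega
    exact_mod_cast this
  have hi0 : (0 : ℝ) ≤ 2 * (i : ℝ) := by positivity
  have ha1 : (0 : ℝ) < 2 * n0 + 2 + (2 * j + 1) * M := by positivity
  have hb1 : (0 : ℝ) < 2 * n0 + 2 + (2 * R - 1) * M := by
    rw [← hbr]
    have : 0 < b := by omega
    exact_mod_cast this
  have h3 : 4 * ((R - 1 - j : ℕ) : ℝ) / (((a : ℝ) + c) * (b + c)) ≤
      4 * ((R - 1 - j : ℕ) : ℝ) /
      ((2 * n0 + 2 + (2 * j + 1) * M + 2 * i) * (2 * n0 + 2 + (2 * R - 1) * M + 2 * i)) := by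
    refine div_le_div_of_nonneg_left (by positivity) (by positivity) ?_
    rw [har, hbr]
    apply mul_le_mul
    · linarith
    · linarith
    · positivity
    · have : (0 : ℝ) ≤ c := by positivity
      linarith
  have h4 : U * (4 * ((R - 1 - j : ℕ) : ℝ) / (((a : ℝ) + c) * (b + c))) =
      ((2 ^ 102 * (R - 1 - j) : ℕ) : ℝ) / (((a + c) * (b + c) : ℕ) : ℝ) := by
    unfold U
    push_cast
    ring
  have hU : (0 : ℝ) < U := by unfold U; positivity
  have h5 : U * (4 * ((R - 1 - j : ℕ) : ℝ) / (((a : ℝ) + c) * (b + c))) * (1 - 1 / 2 ^ 16) ≤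
      U * hY n0 M R i j := by
    rw [mul_assoc]
    refine mul_le_mul_of_nonneg_left ?_ hU.le
    refine le_trans (mul_le_mul_of_nonneg_right h3 (by norm_num)) h1
  rw [h4] at h5
  have hv0 : (0 : ℝ) ≤ v := by positivity
  have h6 : (v : ℝ) - v / 2 ^ 15 ≤ v * (1 - 1 / 2 ^ 16) := by
    have : (v : ℝ) / 2 ^ 16 ≤ v / 2 ^ 15 :=
      div_le_div_of_nonneg_left hv0 (by norm_num) (by norm_num)
    have e : (v : ℝ) * (1 - 1 / 2 ^ 16) = v - v / 2 ^ 16 := by ring
    rw [e]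
    linarith
  have h7 : (v : ℝ) * (1 - 1 / 2 ^ 16) ≤
      ((2 ^ 102 * (R - 1 - j) : ℕ) : ℝ) / (((a + c) * (b + c) : ℕ) : ℝ) * (1 - 1 / 2 ^ 16) :=
    mul_le_mul_of_nonneg_right h2 (by norm_num)
  linarith

/-- upper bound of the length in the unit -/
theorem hX_lt {i j X : ℕ} (hM : 1 ≤ M)
    (hX' : X = 2 ^ 102 * M / ((2 * n0 + 1) * (2 * (n0 + M) + 1)) + 1) :
    U * hX n0 M i j ≤ (i + 1) * X := by
  have h1 := hX_up (n0 := n0) (i := i) (j := j) hM
  have h2 := lt_div' (2 ^ 102 * M) ((2 * n0 + 1) * (2 * (n0 + M) + 1)) (by positivity)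
  have h3 : U * (4 * (M : ℝ) / ((2 * n0 + 1) * (2 * (n0 + M) + 1))) ≤ X := by
    have e : U * (4 * (M : ℝ) / ((2 * n0 + 1) * (2 * (n0 + M) + 1))) =
        ((2 ^ 102 * M : ℕ) : ℝ) / (((2 * n0 + 1) * (2 * (n0 + M) + 1) : ℕ) : ℝ) := by
      unfold U
      push_cast
      ring
    rw [e, hX']
    push_cast at h2 ⊢
    linarith
  have hU : (0 : ℝ) ≤ U := by unfold U; positivity
  calc U * hX n0 M i j ≤ U * ((i + 1) * (4 * M / ((2 * n0 + 1) * (2 * (n0 + M) + 1)))) :=
        mul_le_mul_of_nonneg_left h1 hU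
    _ = (i + 1) * (U * (4 * M / ((2 * n0 + 1) * (2 * (n0 + M) + 1)))) := by ring
    _ ≤ (i + 1) * X := mul_le_mul_of_nonneg_left h3 (by positivity)

end

/-! ### packed numbers -/

theorem shl51 (a b : ℕ) : Nat.shiftLeft a b = a * 2 ^ b := Nat.shiftLeft_eq a b

theorem rep_mod51 {s : ℕ} (hs : s ≤ 6) :
    Nat.mod 105312291670089682238806217287227634487740603451533764832385826817
      (Nat.shiftLeft 1 (36 * (s + 1))) = ∑ t ∈ Finset.range (s + 1), 2 ^ (36 * t) := by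
  rw [shl51]
  interval_cases s <;> decide

theorem pack_range {m i i' : ℕ} (h1 : i ≤ i') (h2 : i' ≤ i + 6) :
    Nat.shiftLeft (m *
        (Nat.mod 105312291670089682238806217287227634487740603451533764832385826817
          (Nat.shiftLeft 1 (36 * (i' - i + 1))))) (36 * i) =
      ∑ c ∈ Finset.Icc i i', Nat.shiftLeft m (36 * c) := by
  rw [rep_mod51 (by omega : i' - i ≤ 6)]
  simp only [shl51]
  obtain ⟨s, rfl⟩ := Nat.exists_eq_add_of_le h1
  rw [show i + s - i = s by omega]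
  rw [Finset.mul_sum, Finset.sum_mul]
  rw [← Finset.Ico_succ_right_eq_Icc, Finset.sum_Ico_eq_sum_range]
  rw [show Order.succ (i + s) - i = s + 1 by
    simp only [Nat.succ_eq_succ, Nat.succ_eq_add_one]; omega]
  refine Finset.sum_congr rfl (fun t _ => ?_)
  rw [mul_assoc, ← pow_add]
  congr 2
  ring

/-! ### one row -/

/-- the pieces of the row `j` -/
noncomputable def rowH (n0 M R j : ℕ) : List (ℝ × ℝ) :=
  ((List.range (M - 1)).map (fun i => (i, j))).map
    (fun q => (hY n0 M R q.1 q.2, hX n0 M q.1 q.2))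

theorem mem_rowH {n0 M R j : ℕ} {x : ℝ × ℝ} (hx : x ∈ rowH n0 M R j) :
    ∃ i, i < M - 1 ∧ x = (hY n0 M R i j, hX n0 M i j) := by
  unfold rowH at hx
  rw [List.map_map, List.mem_map] at hx
  obtain ⟨i, hi, rfl⟩ := hx
  exact ⟨i, List.mem_range.1 hi, rfl⟩

theorem slr51 (m : ℕ) (f : ℕ → ℝ) :
    ((List.range m).map f).sum = ∑ i ∈ Finset.range m, f i := by
  induction m with
  | zero => simp
  | succ m ih => rw [List.range_succ, List.map_append, List.sum_append, ih, Finset.sum_range_succ]; simp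

theorem row_mass {n0 M R V X j : ℕ} (hM : 2 ≤ M) (hj : j + 1 < R)
    (hV : V = 2 ^ 102 * (R - 1) / ((2 * n0 + 2 + M) * (2 * n0 + 2 + (2 * R - 1) * M)) + 1)
    (hX' : X = 2 ^ 102 * M / ((2 * n0 + 1) * (2 * (n0 + M) + 1)) + 1) :
    ((rowH n0 M R j).map ms).sum ≤ msT (X * (M * (M - 1) / 2)) ((M - 1) * V) := by
  apply msT_le
  · have e : (rowH n0 M R j).map Prod.snd = (List.range (M - 1)).map (fun i => hX n0 M i j) := by
      unfold rowH
      rw [List.map_map, List.map_map]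
      rfl
    rw [e, slr51, Finset.mul_sum]
    have h1 : ∑ i ∈ Finset.range (M - 1), U * hX n0 M i j ≤
        ∑ i ∈ Finset.range (M - 1), ((i : ℝ) + 1) * X :=
      Finset.sum_le_sum (fun i _ => hX_lt (by omega) hX')
    refine h1.trans ?_
    rw [← Finset.sum_mul]
    have h2 : ∑ i ∈ Finset.range (M - 1), ((i : ℝ) + 1) = ((M * (M - 1) / 2 : ℕ) : ℝ) := by
      obtain ⟨m, rfl⟩ : ∃ m, M = m + 1 := ⟨M - 1, by omega⟩
      rw [Nat.add_sub_cancel]
      have h3 : ∑ i ∈ Finset.range m, (i + 1) = (m + 1) * m / 2 := by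
        have := Finset.sum_range_id (m + 1)
        rw [Finset.sum_range_succ'] at this
        simpa using this
      rw [← h3]
      push_cast
      rfl
    rw [h2]
    push_cast
    rw [mul_comm]
  · have e : (rowH n0 M R j).map Prod.fst = (List.range (M - 1)).map (fun i => hY n0 M R i j) := by
      unfold rowH
      rw [List.map_map, List.map_map]
      rfl
    rw [e, slr51, Finset.mul_sum]
    have h1 : ∑ i ∈ Finset.range (M - 1), U * hY n0 M R i j ≤
        ∑ _i ∈ Finset.range (M - 1), (V : ℝ) := by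
      refine Finset.sum_le_sum (fun i _ => ?_)
      have := hY_lt (n0 := n0) (M := M) (R := R) (i := i) (j := j) (a := 2 * n0 + 2 + M)
        (by omega) (by omega) (by nlinarith) (by omega) rfl (R - 1) (by omega)
      rw [← hV] at this
      exact this
    refine h1.trans ?_
    rw [Finset.sum_const, Finset.card_range, nsmul_eq_mul]
    push_cast
    exact le_rfl

theorem row_acc {n0 M R m j e e' V' v a b c : ℕ} (hM : 2 ≤ M) (hj : j + 1 < R)
    (h6 : 6 * (R - 1) ≤ 5 * M) (hn : 128 * M ≤ n0)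
    (hm : ((rowH n0 M R j).map ms).sum ≤ m) (he : e < 32) (he' : e' < 32)
    (ha : a = 2 * n0 + 2 + (2 * j + 1) * M)
    (hb : b = 2 * n0 + 2 + (2 * R - 1) * M) (hc : c = 2 * (M - 2))
    (hV' : V' = 2 ^ 102 * (R - 1 - j) / (a * b) + 1)
    (hv' : v = 2 ^ 102 * (R - 1 - j) / ((a + c) * (b + c)))
    (hV : V' >>> oc e = 1) (hv : v >>> oc e' = 1) (hi : ix e V' ≤ ix e' v) :
    Acc (rowH n0 M R j) (∑ c ∈ Finset.Icc (ix e V') (ix e' v), Nat.shiftLeft m (36 * c))
      (m * (ix e' v - ix e V' + 1)) := by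
  refine acc_range hi (ix_spec he' hv).1 ?_ hm
  intro x hx
  obtain ⟨i, hi2, rfl⟩ := mem_rowH hx
  refine ⟨?_, h_ratio (by omega) hj h6⟩
  refine ix_between he he' hV hv hi ?_ ?_
  · exact hY_gt hM hn (by omega) (by omega) ha hb hc v hv'
  · rw [hV']
    exact hY_lt (by omega) (by omega) ha.le (by omega) hb _ le_rfl

/-! ### the loop -/

theorem hols_zero (m M b c : ℕ) (K : Pf → ℕ → Bool) (u a g : ℕ) (P : Pf) (tot : ℕ) :
    hols m M b c K 0 u a g P tot = K P tot := rfl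

theorem hols_succ (m M b c : ℕ) (K : Pf → ℕ → Bool) (q u a g : ℕ) (P : Pf) (tot : ℕ) :
    hols m M b c K (q + 1) u a g P tot =
      holR (hols m M b c K q) m (2 ^ 102 * u / (a * b) + 1)
        (2 ^ 102 * u / ((a + c) * (b + c))) (g % 32) (g >>> 5 % 32)
        (ix (g % 32) (2 ^ 102 * u / (a * b) + 1))
        (ix (g >>> 5 % 32) (2 ^ 102 * u / ((a + c) * (b + c))))
        (u + 1) (a - 2 * M) (g >>> 10) P tot := rfl

theorem holR_iff {ih : ℕ → ℕ → ℕ → Pf → ℕ → Bool} {m V v e e' i i' u a g : ℕ} {P : Pf}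
    {tot : ℕ} :
    holR ih m V v e e' i i' u a g P tot = true ↔
      V >>> oc e = 1 ∧ v >>> oc e' = 1 ∧ (i ≤ i' ∧ i' ≤ i + 6) ∧
        addP i (m *
        (Nat.mod 105312291670089682238806217287227634487740603451533764832385826817
          (Nat.shiftLeft 1 (36 * (i' - i + 1))))) P
          (fun P => ih u a g P (tot + m * (i' - i + 1))) = true := by
  unfold holR
  rw [bf, bf, bf]
  rw [beq_iff, beq_iff, Bool.and_eq_true, ble_iff, ble_iff]
  exact Iff.rfl

theorem hols_sound {n0 M R m b c : ℕ} (hM : 2 ≤ M)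
    (h6 : 6 * (R - 1) ≤ 5 * M) (hn : 128 * M ≤ n0)
    (hm : ∀ j, j + 1 < R → ((rowH n0 M R j).map ms).sum ≤ m)
    (hb : b = 2 * n0 + 2 + (2 * R - 1) * M) (hc : c = 2 * (M - 2)) (K : Pf → ℕ → Bool) :
    ∀ (q u a g : ℕ) (P : Pf) (tot : ℕ), q < R → u = R - q →
      (∀ j, q = j + 1 → a = 2 * n0 + 2 + (2 * j + 1) * M) →
      hols m M b c K q u a g P tot = true →
      ∃ (P' : Pf) (t x : ℕ), K P' (tot + t) = true ∧ flat P' = flat P + x ∧
        Acc ((rowsP (M - 1) q).map (fun q => (hY n0 M R q.1 q.2, hX n0 M q.1 q.2))) x t := by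
  intro q
  induction q with
  | zero =>
    intro u a g P tot _ _ _ h
    rw [hols_zero] at h
    refine ⟨P, 0, 0, ?_, (Nat.add_zero _).symm, ?_⟩
    · rw [Nat.add_zero]; exact h
    · rw [rowsP, List.map_nil]; exact Acc.nil
  | succ j ih =>
    intro u a g P tot hq hu ha h
    rw [hols_succ, holR_iff] at h
    obtain ⟨h1, h2, ⟨h4, h5⟩, h7⟩ := h
    have hu' : u = R - 1 - j := by omega
    have ha' : a = 2 * n0 + 2 + (2 * j + 1) * M := ha j rfl
    have hrow := row_acc (m := m) (e := g % 32) (e' := g >>> 5 % 32) hM hq h6 hn (hm j hq)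
      (Nat.mod_lt _ (by norm_num)) (Nat.mod_lt _ (by norm_num)) ha' hb hc
      (V' := 2 ^ 102 * u / (a * b) + 1) (v := 2 ^ 102 * u / ((a + c) * (b + c)))
      (by rw [hu']) (by rw [hu']) h1 h2 h4
    have hi : ix (g % 32) (2 ^ 102 * u / (a * b) + 1) ≤ NC :=
      (lt_of_le_of_lt h4 (ix_spec (Nat.mod_lt _ (by norm_num)) h2).1).le
    obtain ⟨P1, hP1, hf1⟩ := addP_sound h7 hi
    rw [pack_range h4 h5] at hf1
    obtain ⟨P', t, x, hK, hf, hA⟩ := ih (u + 1) (a - 2 * M) (g >>> 10) P1 _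
      (by omega) (by omega) (by
        intro j' hj'
        subst hj'
        rw [ha']
        have e1 : (2 * (j' + 1) + 1) * M = (2 * j' + 1) * M + 2 * M := by ring
        rw [e1]
        omega) hP1
    have hAA := Acc.append hrow hA
    rw [Nat.add_assoc] at hK
    rw [hf1, Nat.add_assoc] at hf
    refine ⟨P', _, _, hK, hf, ?_⟩
    rw [rowsP, List.map_append]
    exact hAA

theorem holT_eq (gw n0 M R V X : ℕ) (P : Pf) (K : KC) : holT gw n0 M R V X P K =
    hols (msT (X * (M * (M - 1) / 2)) ((M - 1) * V)) M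
      (2 * n0 + 2 + (2 * R - 1) * M) (2 * (M - 2))
      (fun P tot => K P tot ((M - 1) * (R - 1) * V))
      (R - 1) 1 (2 * n0 + 2 + (2 * R - 3) * M) gw P 0 := rfl

/-- **holes of a late block** (`V`, `X` as in `op10`) -/
theorem holT_sound {gw n0 M R V X : ℕ} {P : Pf} {K : KC} (h : holT gw n0 M R V X P K = true)
    (hM : 2 ≤ M) (hR : 2 ≤ R) (h6 : 6 * (R - 1) ≤ 5 * M) (hn : 128 * M ≤ n0)
    (hV : V = 2 ^ 102 * (R - 1) / ((2 * n0 + 2 + M) * (2 * n0 + 2 + (2 * R - 1) * M)) + 1)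
    (hX' : X = 2 ^ 102 * M / ((2 * n0 + 1) * (2 * (n0 + M) + 1)) + 1) :
    ∃ (P' : Pf) (m s : ℕ), K P' m s = true ∧
      (∃ c, flat P' = flat P + c ∧ Acc (holeL n0 M R) c m) ∧ U * thk (holeL n0 M R) ≤ s := by
  rw [holT_eq] at h
  obtain ⟨P', t, x, hK, hf, hA⟩ := hols_sound hM h6 hn (fun j hj => row_mass hM hj hV hX') rfl rfl _
    (R - 1) 1 _ _ P 0 (by omega) (by omega) (by
      intro j hj
      have e : 2 * R - 3 = 2 * j + 1 := by omega
      rw [e]) h
  refine ⟨P', _, _, hK, ⟨x, hf, ?_⟩, ?_⟩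
  · rw [Nat.zero_add]
    exact Acc.perm hA ((rowsP_perm (M - 1) (R - 1)).map _)
  · unfold thk holeL
    rw [List.map_map]
    have h1 : ((prs (M - 1) (R - 1)).map
        (Prod.fst ∘ fun q : ℕ × ℕ => (hY n0 M R q.1 q.2, hX n0 M q.1 q.2))).sum =
        ∑ i ∈ Finset.range (M - 1), ∑ j ∈ Finset.range (R - 1), hY n0 M R i j :=
      prs_sum (M - 1) (R - 1) (fun q => hY n0 M R q.1 q.2)
    rw [h1, Finset.mul_sum]
    have h2 : ∑ i ∈ Finset.range (M - 1), U * ∑ j ∈ Finset.range (R - 1), hY n0 M R i j ≤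
        ∑ _i ∈ Finset.range (M - 1), ∑ _j ∈ Finset.range (R - 1), (V : ℝ) := by
      refine Finset.sum_le_sum (fun i _ => ?_)
      rw [Finset.mul_sum]
      refine Finset.sum_le_sum (fun j hj => ?_)
      rw [Finset.mem_range] at hj
      have := hY_lt (n0 := n0) (M := M) (R := R) (i := i) (j := j) (a := 2 * n0 + 2 + M)
        (by omega) (by omega) (by nlinarith) (by omega) rfl (R - 1) (by omega)
      rw [← hV] at this
      exact this
    refine h2.trans ?_
    simp only [Finset.sum_const, Finset.card_range, nsmul_eq_mul]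
    push_cast
    rw [mul_assoc]

end Pool.Agent.LibM73
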