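import Pool.Agent.LibM73.Cell
import Pool.Agent.LibM73.AccL
import Pool.Agent.LibM73.Prof
set_option autoImplicit false
/-!
# Leaves: general combs  (TASK LEAFC)
-/
namespace Pool.Agent.LibM73
open Pool.Agent.LibMoser5 Pool.Agent.LibMoserF

noncomputable section

/-- the teeth `0 .. j-1` of the comb `xs`, the tooth `j-1` is longer by `ρ` -/
def lcL (xs : ℕ → ℝ × ℝ) (j : ℕ) (ρ : ℝ) : List (ℝ × ℝ) :=
  match j with
  | 0 => []
  | k + 1 => ((xs k).1, (xs k).2 + ρ) :: (List.range k).map xs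

/-- the teeth `a .. a+g` of the comb `xs`, the last one is longer by `ρ` -/
def lcS (xs : ℕ → ℝ × ℝ) (a g : ℕ) (ρ : ℝ) : List (ℝ × ℝ) :=
  ((xs (a + g)).1, (xs (a + g)).2 + ρ) :: (List.range g).map (fun i => xs (a + i))

theorem lcL_zero (xs : ℕ → ℝ × ℝ) (j : ℕ) : (lcL xs j 0).Perm ((List.range j).map xs) := by
  cases j with
  | zero => exact List.Perm.nil
  | succ k =>
    show (((xs k).1, (xs k).2 + 0) :: (List.range k).map xs).Perm _
    rw [List.range_succ, List.map_append, add_zero]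
    exact (List.perm_append_comm (l₁ := [xs k])).trans (List.Perm.refl _)

theorem lcL_split (xs : ℕ → ℝ × ℝ) (a g : ℕ) (ρ : ℝ) :
    (lcL xs (a + (g + 1)) ρ).Perm (lcS xs a g ρ ++ lcL xs a 0) := by
  refine List.Perm.trans ?_ ((lcL_zero xs a).symm.append_left _)
  show (((xs (a + g)).1, (xs (a + g)).2 + ρ) :: (List.range (a + g)).map xs).Perm _
  unfold lcS
  rw [List.cons_append]
  refine List.Perm.cons _ ?_
  rw [List.range_add, List.map_append, List.map_map]
  exact List.perm_append_comm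

/-- facts on the teeth `0 .. k` -/
structure LcF (xs : ℕ → ℝ × ℝ) (Sf Lf : ℕ → ℕ) (T er k : ℕ) : Prop where
  pos : ∀ i ≤ k, 0 ≤ (xs i).1
  up : ∀ i ≤ k, U * (xs i).1 ≤ ((T - Sf i : ℕ) : ℝ)
  low : ∀ i ≤ k, ((T - Sf i : ℕ) : ℝ) - er ≤ U * (xs i).1
  mono : ∀ i j, i ≤ j → j ≤ k → (xs i).1 ≤ (xs j).1
  anti : ∀ i j, i ≤ j → j ≤ k → (xs j).2 ≤ (xs i).2
  len : ∀ i ≤ k, U * (xs i).2 ≤ Lf i + 1
  rat : ∀ i ≤ k, 6 / 5 * (xs i).1 ≤ (xs i).2

theorem lc_ms {xs : ℕ → ℝ × ℝ} {Sf Lf : ℕ → ℕ} {T er k : ℕ} (F : LcF xs Sf Lf T er k)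
    {a i b : ℕ} (h1 : a ≤ i) (h2 : i ≤ b) (h3 : b ≤ k) :
    ms (xs i) ≤ msT (Lf a + 1) (T - Sf b) := by
  have e : ms (xs i) = (([xs i] : List (ℝ × ℝ)).map ms).sum := by simp
  rw [e]
  have hU : (0 : ℝ) ≤ U := by unfold U; positivity
  refine msT_le ?_ ?_
  · simp only [List.map_cons, List.map_nil, List.sum_cons, List.sum_nil, add_zero]
    have := F.len a (by omega)
    have h4 := mul_le_mul_of_nonneg_left (F.anti a i h1 (by omega)) hU
    push_cast
    linarith
  · simp only [List.map_cons, List.map_nil, List.sum_cons, List.sum_nil, add_zero]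
    have := F.up b h3
    have h4 := mul_le_mul_of_nonneg_left (F.mono i b h2 h3) hU
    linarith

theorem ms_add (x y ρ : ℝ) : ms (x, y + ρ) = ms (x, y) + 2 ^ 34 * ρ := by
  unfold ms; ring

theorem thk_lcS (xs : ℕ → ℝ × ℝ) (a g : ℕ) (ρ : ℝ) :
    thk (lcS xs a g ρ) = ∑ i ∈ Finset.range (g + 1), (xs (a + i)).1 := by
  unfold thk lcS
  rw [List.map_cons, List.sum_cons, List.map_map, Finset.sum_range_succ, add_comm]
  congr 1

theorem lc_sum (f : ℕ → ℝ) (g : ℕ) : ((List.range g).map f).sum = ∑ i ∈ Finset.range g, f i := rfl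

/-- one cell for the whole segment -/
theorem lc_cell {xs : ℕ → ℝ × ℝ} {Sf Lf : ℕ → ℕ} {T er k : ℕ} (F : LcF xs Sf Lf T er k)
    {a g c ex : ℕ} {ρ : ℝ} (hk : a + g ≤ k) (hρ : 0 ≤ ρ) (hex : 2 ^ 34 * ρ ≤ ex)
    (hc : c ≤ NC) (hin : ∀ i, a ≤ i → i ≤ a + g → InC c (U * (xs i).1)) :
    Acc (lcS xs a g ρ)
      (Nat.shiftLeft ((g + 1) * msT (Lf a + 1) (T - Sf (a + g)) + ex) (36 * c))
      ((g + 1) * msT (Lf a + 1) (T - Sf (a + g)) + ex) := by
  set m := msT (Lf a + 1) (T - Sf (a + g)) with hm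
  refine acc_cell hc ?_ ?_
  · intro x hx
    unfold lcS at hx
    rw [List.mem_cons] at hx
    rcases hx with rfl | hx
    · refine ⟨hin (a + g) (by omega) le_rfl, ?_⟩
      have := F.rat (a + g) hk
      dsimp only
      linarith
    · rw [List.mem_map] at hx
      obtain ⟨i, hi, rfl⟩ := hx
      rw [List.mem_range] at hi
      exact ⟨hin (a + i) (by omega) (by omega), F.rat _ (by omega)⟩
  · unfold lcS
    rw [List.map_cons, List.sum_cons, ms_add, List.map_map]
    have h1 := lc_ms F (show a ≤ a + g by omega) le_rfl hk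
    have h2 : ((List.range g).map (ms ∘ fun i => xs (a + i))).sum ≤ g * (m : ℝ) := by
      have h3 : ∀ y ∈ (List.range g).map (ms ∘ fun i => xs (a + i)), y ≤ (m : ℝ) := by
        intro y hy
        rw [List.mem_map] at hy
        obtain ⟨i, hi, rfl⟩ := hy
        rw [List.mem_range] at hi
        exact lc_ms F (show a ≤ a + i by omega) (show a + i ≤ a + g by omega) hk
      have h4 := List.sum_le_card_nsmul _ _ h3
      rw [List.length_map, List.length_range, nsmul_eq_mul] at h4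
      exact h4
    have h5 : ms ((xs (a + g)).1, (xs (a + g)).2) ≤ m := h1
    push_cast
    linarith

theorem lc_thk {xs : ℕ → ℝ × ℝ} {Sf Lf : ℕ → ℕ} {T er k : ℕ} (F : LcF xs Sf Lf T er k)
    {a g : ℕ} {ρ : ℝ} (hk : a + g ≤ k) :
    U * thk (lcS xs a g ρ) ≤ (((g + 1) * (T - Sf (a + g)) : ℕ) : ℝ) := by
  have hU : (0 : ℝ) ≤ U := by unfold U; positivity
  rw [thk_lcS, Finset.mul_sum]
  have h1 : ∀ i ∈ Finset.range (g + 1), U * (xs (a + i)).1 ≤ ((T - Sf (a + g) : ℕ) : ℝ) := by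
    intro i hi
    rw [Finset.mem_range] at hi
    have := F.up (a + g) hk
    have h4 := mul_le_mul_of_nonneg_left (F.mono (a + i) (a + g) (by omega) hk) hU
    linarith
  have h2 := Finset.sum_le_card_nsmul _ _ _ h1
  rw [Finset.card_range, nsmul_eq_mul] at h2
  push_cast at h2 ⊢
  exact h2

/-- the loop -/
theorem lc_loopC_eq {Sf : ℕ → ℕ} {T i0 e m : ℕ} {K : ℕ → ℕ → Bool} (g : ℕ) :
    ∀ (a acc sp : ℕ), loopC Sf T i0 e m K g a acc sp = true →
      (∀ i < g, (T - Sf (a + i)) >>> oc e = 1 ∧ i0 ≤ ix e (T - Sf (a + i))) ∧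
      K (acc + ∑ i ∈ Finset.range g,
          Nat.shiftLeft m (36 * (ix e (T - Sf (a + i)) - i0)))
        (sp + ∑ i ∈ Finset.range g, (T - Sf (a + i))) = true := by
  induction g with
  | zero =>
    intro a acc sp h
    refine ⟨fun i hi => absurd hi (Nat.not_lt_zero _), ?_⟩
    rw [Finset.sum_range_zero, Finset.sum_range_zero]
    exact h
  | succ g ih =>
    intro a acc sp h
    have h1 : (Bool.rec (motive := fun _ => Bool) false
        (Bool.rec (motive := fun _ => Bool) false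
          (loopC Sf T i0 e m K g (Nat.succ a) (acc + Nat.shiftLeft m
            (36 * (ix e (T - Sf a) - i0))) (sp + (T - Sf a)))
          (Nat.ble i0 (ix e (T - Sf a))))
        (Nat.beq ((T - Sf a) >>> oc e) 1)) = true := h
    rw [bf, bf, beq_iff, ble_iff] at h1
    obtain ⟨h2, h3, h4⟩ := h1
    obtain ⟨h5, h6⟩ := ih (a + 1) _ _ h4
    constructor
    · intro i hi
      cases i with
      | zero => exact ⟨h2, h3⟩
      | succ i =>
        have := h5 i (by omega)
        have e1 : a + 1 + i = a + (i + 1) := by ring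
        rw [e1] at this
        exact this
    · rw [Finset.sum_range_succ', Finset.sum_range_succ']
      have e1 : ∀ i, a + 1 + i = a + (i + 1) := fun i => by ring
      simp only [e1] at h6
      rw [Nat.add_zero]
      have e2 : ∀ x y z : ℕ, x + (y + z) = x + z + y := fun x y z => by ring
      rw [e2, e2]
      exact h6

theorem lc_shl_add (a b s : ℕ) : Nat.shiftLeft (a + b) s = Nat.shiftLeft a s + Nat.shiftLeft b s := by
  show (a + b) <<< s = a <<< s + b <<< s
  rw [Nat.shiftLeft_eq, Nat.shiftLeft_eq, Nat.shiftLeft_eq, Nat.add_mul]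

theorem lc_shl_shl (a i i0 : ℕ) (h : i0 ≤ i) :
    Nat.shiftLeft (Nat.shiftLeft a (36 * (i - i0))) (36 * i0) = Nat.shiftLeft a (36 * i) := by
  show (a <<< (36 * (i - i0))) <<< (36 * i0) = a <<< (36 * i)
  rw [← Nat.shiftLeft_add]
  congr 1
  omega

theorem lc_shl_sum {ι : Type} (s : Finset ι) (f : ι → ℕ) (t : ℕ) :
    Nat.shiftLeft (∑ i ∈ s, f i) t = ∑ i ∈ s, Nat.shiftLeft (f i) t := by
  show (∑ i ∈ s, f i) <<< t = ∑ i ∈ s, f i <<< t
  simp only [Nat.shiftLeft_eq]
  rw [Finset.sum_mul]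

/-- the teeth one by one -/
theorem lc_loop {xs : ℕ → ℝ × ℝ} {Sf Lf : ℕ → ℕ} {T er k : ℕ} (F : LcF xs Sf Lf T er k)
    {a g e ex i0 : ℕ} {ρ : ℝ} (hk : a + g ≤ k) (hρ : 0 ≤ ρ) (hex : 2 ^ 34 * ρ ≤ ex)
    (he : e < 32) (her : er ≤ 2 ^ oc e >>> 15)
    (h1 : ∀ i < g + 1, (T - Sf (a + i)) >>> oc e = 1 ∧ i0 ≤ ix e (T - Sf (a + i))) :
    Acc (lcS xs a g ρ)
      (Nat.shiftLeft (Nat.shiftLeft ex (36 * (ix e (T - Sf (a + g)) - i0)) +
        ∑ i ∈ Finset.range (g + 1), Nat.shiftLeft (msT (Lf a + 1) (T - Sf (a + g)))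
          (36 * (ix e (T - Sf (a + i)) - i0))) (36 * i0))
      ((g + 1) * msT (Lf a + 1) (T - Sf (a + g)) + ex) := by
  set m := msT (Lf a + 1) (T - Sf (a + g)) with hm
  have hin : ∀ i < g + 1, InC (ix e (T - Sf (a + i))) (U * (xs (a + i)).1) := by
    intro i hi
    obtain ⟨h2, _⟩ := h1 i hi
    refine put_in he h2 ?_ (F.up _ (by omega)) (F.low _ (by omega))
    refine her.trans ?_
    rw [Nat.shiftRight_eq_div_pow, Nat.shiftRight_eq_div_pow]
    refine Nat.div_le_div_right ?_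
    rw [Nat.shiftRight_eq_div_pow] at h2
    have h3 : 1 ≤ (T - Sf (a + i)) / 2 ^ oc e := by omega
    rw [Nat.le_div_iff_mul_le (by positivity)] at h3
    omega
  have hA : Acc [((xs (a + g)).1, (xs (a + g)).2 + ρ)]
      (Nat.shiftLeft (m + ex) (36 * ix e (T - Sf (a + g)))) (m + ex) := by
    refine acc_single (hin g (by omega)) ?_ ?_
    · have := F.rat (a + g) hk
      linarith
    · rw [ms_add]
      have := lc_ms F (show a ≤ a + g by omega) le_rfl hk
      have h5 : ms ((xs (a + g)).1, (xs (a + g)).2) ≤ m := this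
      push_cast
      linarith
  have hB := acc_list (List.range g) (fun i => xs (a + i)) (fun i => ix e (T - Sf (a + i))) m
    (by
      intro i hi
      rw [List.mem_range] at hi
      exact ⟨hin i (by omega), F.rat _ (by omega),
        lc_ms F (show a ≤ a + i by omega) (show a + i ≤ a + g by omega) hk⟩)
  have hAB := Acc.append hA hB
  have e0 : [((xs (a + g)).1, (xs (a + g)).2 + ρ)] ++ (List.range g).map (fun i => xs (a + i)) =
      lcS xs a g ρ := rfl
  rw [e0, List.length_range] at hAB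
  have e1 : Nat.shiftLeft (m + ex) (36 * ix e (T - Sf (a + g))) +
      ((List.range g).map (fun i => Nat.shiftLeft m (36 * ix e (T - Sf (a + i))))).sum =
      Nat.shiftLeft (Nat.shiftLeft ex (36 * (ix e (T - Sf (a + g)) - i0)) +
        ∑ i ∈ Finset.range (g + 1), Nat.shiftLeft m
          (36 * (ix e (T - Sf (a + i)) - i0))) (36 * i0) := by
    rw [lc_shl_add (Nat.shiftLeft ex _), lc_shl_sum, lc_shl_shl _ _ _ (h1 g (by omega)).2, lc_shl_add]
    have e2 : ∑ i ∈ Finset.range (g + 1), Nat.shiftLeft (Nat.shiftLeft m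
        (36 * (ix e (T - Sf (a + i)) - i0))) (36 * i0) =
        ∑ i ∈ Finset.range (g + 1), Nat.shiftLeft m (36 * ix e (T - Sf (a + i))) := by
      refine Finset.sum_congr rfl fun i hi => ?_
      rw [Finset.mem_range] at hi
      exact lc_shl_shl _ _ _ (h1 i hi).2
    rw [e2, Finset.sum_range_succ]
    have e3 : ((List.range g).map (fun i => Nat.shiftLeft m (36 * ix e (T - Sf (a + i))))).sum =
        ∑ i ∈ Finset.range g, Nat.shiftLeft m (36 * ix e (T - Sf (a + i))) := rfl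
    rw [e3]
    ring
  have e4 : m + ex + g * m = (g + 1) * m + ex := by ring
  rw [e1, e4] at hAB
  exact hAB

/-- result of a leaf -/
def LcR (K : KC) (l : List (ℝ × ℝ)) (P : Pf) (tot sp : ℕ) : Prop :=
  ∃ (P' : Pf) (b m s : ℕ), K P' (tot + m) (sp + s) = true ∧
    flat P' = flat P + b ∧ Acc l b m ∧ U * thk l ≤ s

theorem lc_thk_app (l l' : List (ℝ × ℝ)) : thk (l ++ l') = thk l + thk l' := by
  unfold thk
  rw [List.map_append, List.sum_append]

theorem lc_thk_perm {l l' : List (ℝ × ℝ)} (h : l.Perm l') : thk l = thk l' := by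
  unfold thk
  exact (h.map _).sum_eq

/-- the pieces of a segment are added -/
theorem LcR.add {K : KC} {l l' l'' : List (ℝ × ℝ)} {P P1 : Pf} {tot sp b m s : ℕ}
    (h : LcR K l' P1 (tot + m) (sp + s)) (hP : flat P1 = flat P + b)
    (h1 : Acc l b m) (h2 : U * thk l ≤ s)
    (hp : l''.Perm (l ++ l')) : LcR K l'' P tot sp := by
  obtain ⟨P', b', m', s', h3, h3', h4, h5⟩ := h
  refine ⟨P', b + b', m + m', s + s', ?_, ?_, ?_, ?_⟩
  · rw [← add_assoc, ← add_assoc]
    exact h3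
  · exact (h3'.trans (congrArg (· + b') hP)).trans (Nat.add_assoc _ _ _)
  · exact Acc.perm (Acc.append h1 h4) hp.symm
  · rw [lc_thk_perm hp, lc_thk_app, mul_add]
    push_cast
    linarith

/-- one segment -/
theorem segC1_sound {xs : ℕ → ℝ × ℝ} {Sf Lf : ℕ → ℕ} {T er k : ℕ} (F : LcF xs Sf Lf T er k)
    {ih : ℕ → ℕ → ℕ → Pf → ℕ → ℕ → Bool} {K : KC} {j g w' ex tot sp e md : ℕ} {P : Pf}
    (hih : ∀ j w P tot sp, j ≤ k + 1 → ih j w 0 P tot sp = true →
      LcR K (lcL xs j 0) P tot sp)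
    (hj : j ≤ k + 1) (hg : 1 ≤ g) (he : e < 32) {ρ : ℝ} (hρ : 0 ≤ ρ) (hex : 2 ^ 34 * ρ ≤ ex)
    (h : segC1 ih Sf T er j (j - g) g w' ex P tot sp (T - Sf (j - g)) (T - Sf (j - 1)) e md
      (msT (Lf (j - g) + 1) (T - Sf (j - 1))) = true) :
    LcR K (lcL xs j ρ) P tot sp := by
  unfold segC1 at h
  rw [bf, ble_iff] at h
  obtain ⟨hgj, h⟩ := h
  obtain ⟨a, rfl⟩ : ∃ a, j = a + g := ⟨j - g, by omega⟩
  obtain ⟨g, rfl⟩ : ∃ g', g = g' + 1 := ⟨g - 1, by omega⟩
  rw [Nat.add_sub_cancel, show a + (g + 1) - 1 = a + g from rfl] at h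
  have hk : a + g ≤ k := by omega
  set v := T - Sf (a + g) with hv
  set m := msT (Lf a + 1) v with hm
  have hUv : ∀ i, a ≤ i → i ≤ a + g → U * (xs i).1 ≤ (v : ℝ) := by
    intro i _ h2
    have hU : (0 : ℝ) ≤ U := by unfold U; positivity
    have h3 := F.up (a + g) hk
    have h4 := mul_le_mul_of_nonneg_left (F.mono i (a + g) h2 hk) hU
    linarith
  have hL : ∀ i, a ≤ i → i ≤ a + g → ((T - Sf a : ℕ) : ℝ) - er ≤ U * (xs i).1 := by
    intro i h1 h2
    have hU : (0 : ℝ) ≤ U := by unfold U; positivity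
    have h3 := F.low a (by omega)
    have h4 := mul_le_mul_of_nonneg_left (F.mono a i h1 (by omega)) hU
    linarith
  -- common end for one cell
  have key : ∀ c : ℕ, c ≤ NC → (∀ i, a ≤ i → i ≤ a + g → InC c (U * (xs i).1)) →
      addP c ((g + 1) * m + ex) P (fun P => ih a w' 0 P (tot + ((g + 1) * m + ex))
        (sp + (g + 1) * v)) = true → LcR K (lcL xs (a + (g + 1)) ρ) P tot sp := by
    intro c hc hin h1
    obtain ⟨P1, h2, h3⟩ := addP_sound h1 hc
    have h4 := hih a w' _ _ _ (by omega) h2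
    have h5 := lc_cell F hk hρ hex hc hin
    rw [← hv, ← hm] at h5
    exact LcR.add h4 h3 h5 (lc_thk F hk) (lcL_split xs a g ρ)
  rw [bi] at h
  split_ifs at h with h1
  · -- dust
    unfold putD at h
    rw [bf, beq_iff] at h
    obtain ⟨h2, h3⟩ := h
    exact key 29184 le_rfl (fun i h4 h5 => dust_in h2 (hUv i h4 h5)) h3
  · rw [bf, ble_iff, bi] at h
    obtain ⟨her, h⟩ := h
    have her' : er ≤ 2 ^ oc e >>> 15 := by
      have e1 : Nat.shiftRight (Nat.shiftLeft 1 (oc e)) 15 = 2 ^ oc e >>> 15 := by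
        show (1 <<< oc e) >>> 15 = _
        rw [Nat.shiftLeft_eq, one_mul]
      rw [← e1]
      exact her
    split_ifs at h with h2
    · unfold put2 put at h
      rw [bf, bf, beq_iff, beq_iff] at h
      obtain ⟨h3, h4, h5⟩ := h
      rw [ct_sh he] at h3
      exact key (ix e v) (ix_spec he h4).1.le
        (fun i h6 h7 => in_same he h4 h3 (Or.inr her') (hUv i h6 h7) (hL i h6 h7)) h5
    · rw [bf, beq_iff] at h
      obtain ⟨h3, h5⟩ := h
      obtain ⟨h6, h7⟩ := lc_loopC_eq (g + 1) a _ _ h5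
      obtain ⟨P1, h8, h8'⟩ := addP_sound h7 (ix_spec he h3).1.le
      have h10 := hih a w' _ _ _ (by omega) h8
      have h9 := lc_loop F hk hρ hex he her' h6
      rw [← hv, ← hm] at h9
      have e2 : Nat.add (0 + ∑ i ∈ Finset.range (g + 1),
          Nat.shiftLeft m (36 * (ix e (T - Sf (a + i)) - ix e v))) ex =
          Nat.shiftLeft ex (36 * (ix e v - ix e v)) + ∑ i ∈ Finset.range (g + 1),
          Nat.shiftLeft m (36 * (ix e (T - Sf (a + i)) - ix e v)) := by
        have e3 : Nat.shiftLeft ex (36 * (ix e v - ix e v)) = ex := by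
          rw [Nat.sub_self, Nat.mul_zero]
          rfl
        rw [e3, Nat.zero_add]
        exact Nat.add_comm _ _
      rw [e2] at h8'
      refine LcR.add (m := (g + 1) * m + ex)
        (s := ∑ i ∈ Finset.range (g + 1), (T - Sf (a + i))) h10 h8' h9 ?_ (lcL_split xs a g ρ)
      rw [thk_lcS, Finset.mul_sum]
      push_cast
      refine Finset.sum_le_sum fun i hi => ?_
      rw [Finset.mem_range] at hi
      exact F.up _ (by omega)

theorem segC_sound {xs : ℕ → ℝ × ℝ} {Sf Lf : ℕ → ℕ} {T er k : ℕ} (F : LcF xs Sf Lf T er k)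
    {K : KC} (ns : ℕ) : ∀ (j w ex : ℕ) (P : Pf) (tot sp : ℕ) (ρ : ℝ), j ≤ k + 1 → 0 ≤ ρ →
      2 ^ 34 * ρ ≤ ex → segC Sf Lf T er K ns j w ex P tot sp = true →
      LcR K (lcL xs j ρ) P tot sp := by
  induction ns with
  | zero =>
    intro j w ex P tot sp ρ hj hρ hex h
    have h1 : (Bool.rec (motive := fun _ => Bool) false
      (K P tot sp) (Nat.beq j 0)) = true := h
    rw [bf, beq_iff] at h1
    obtain ⟨rfl, h2⟩ := h1
    refine ⟨P, 0, 0, 0, h2, (Nat.add_zero _).symm, Acc.nil, ?_⟩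
    show U * thk [] ≤ _
    unfold thk
    simp
  | succ ns ih =>
    intro j w ex P tot sp ρ hj hρ hex h
    refine segC1_sound (g := gdec w) F
      (fun j w P tot sp hj h => ih j w 0 P tot sp 0 hj le_rfl (by simp) h)
      hj (Nat.succ_pos _) (Nat.mod_lt _ (by norm_num)) hρ hex h

/-- the teeth of a general comb -/
def lcX (θ : ℝ) (n e d c f i : ℕ) : ℝ × ℝ := (θ - SS d (n + e * i) c, sd (n + e * i + f))

theorem lcX_fact {t T n e d c f k : ℕ} (hc : c ≤ 2 ^ 20) {θ : ℝ} (hθ : Iv t T θ)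
    (h0 : SS d n c ≤ θ)
    (hr : 6 * (T - ap d (n + e * k) c) ≤ 5 * sl (n + e * k + f)) :
    LcF (lcX θ n e d c f) (fun i => ap d (n + e * i) c) (fun i => sl (n + e * i + f)) T
      (T - t + T >>> 71 + 3 * c) k := by
  have hU : (0 : ℝ) < U := by unfold U; positivity
  have hanti : ∀ i j, i ≤ j → SS d (n + e * j) c ≤ SS d (n + e * i) c := by
    intro i j h
    refine Finset.sum_le_sum fun _ _ => sd_anti ?_
    have := Nat.mul_le_mul_left e h
    omega
  have h0' : ∀ i, SS d (n + e * i) c ≤ θ := fun i =>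
    (hanti 0 i (Nat.zero_le _)).trans (by simpa using h0)
  have hle : ∀ i, ap d (n + e * i) c ≤ T := by
    intro i
    have h1 : ((ap d (n + e * i) c : ℕ) : ℝ) ≤ U * SS d (n + e * i) c := ap_le hc
    have h2 := mul_le_mul_of_nonneg_left (h0' i) hU.le
    have h3 : ((ap d (n + e * i) c : ℕ) : ℝ) ≤ (T : ℝ) := h1.trans (h2.trans hθ.2)
    exact_mod_cast h3
  have hup : ∀ i, U * (θ - SS d (n + e * i) c) ≤ ((T - ap d (n + e * i) c : ℕ) : ℝ) := by
    intro i
    rw [Nat.cast_sub (hle i), mul_sub]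
    have h1 : ((ap d (n + e * i) c : ℕ) : ℝ) ≤ U * SS d (n + e * i) c := ap_le hc
    linarith [hθ.2]
  have hmono : ∀ i j, i ≤ j → (lcX θ n e d c f i).1 ≤ (lcX θ n e d c f j).1 := by
    intro i j h
    have := hanti i j h
    show θ - SS d (n + e * i) c ≤ θ - SS d (n + e * j) c
    linarith
  have hant : ∀ i j, i ≤ j → (lcX θ n e d c f j).2 ≤ (lcX θ n e d c f i).2 := by
    intro i j h
    show sd (n + e * j + f) ≤ sd (n + e * i + f)
    refine sd_anti ?_
    have := Nat.mul_le_mul_left e h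
    omega
  have hrat : 6 / 5 * (lcX θ n e d c f k).1 ≤ (lcX θ n e d c f k).2 := by
    show 6 / 5 * (θ - SS d (n + e * k) c) ≤ sd (n + e * k + f)
    have h1 := hup k
    have h2 : 6 * ((T - ap d (n + e * k) c : ℕ) : ℝ) ≤ 5 * (sl (n + e * k + f) : ℝ) := by
      exact_mod_cast hr
    have h3 := sl_le (n + e * k + f)
    have h4 : U * (6 / 5 * (θ - SS d (n + e * k) c)) ≤ U * sd (n + e * k + f) := by
      have e1 : U * (6 / 5 * (θ - SS d (n + e * k) c)) =
          6 / 5 * (U * (θ - SS d (n + e * k) c)) := by ring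
      rw [e1]
      linarith
    exact le_of_mul_le_mul_left h4 hU
  refine ⟨?_, fun i _ => hup i, ?_, fun i j h _ => hmono i j h, fun i j h _ => hant i j h, ?_, ?_⟩
  · intro i _
    show 0 ≤ θ - SS d (n + e * i) c
    have := h0' i
    linarith
  · intro i _
    show ((T - ap d (n + e * i) c : ℕ) : ℝ) - _ ≤ U * (θ - SS d (n + e * i) c)
    have h1 : U * SS d (n + e * i) c ≤ (hi (ap d (n + e * i) c) c : ℕ) := ap_hi hc
    rw [hi_eq] at h1
    have h2 : (ap d (n + e * i) c) / 2 ^ 71 ≤ T / 2 ^ 71 := Nat.div_le_div_right (hle i)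
    have h3 : (((ap d (n + e * i) c) / 2 ^ 71 : ℕ) : ℝ) ≤ ((T / 2 ^ 71 : ℕ) : ℝ) := by
      exact_mod_cast h2
    have h4 : t ≤ T := by
      have := hθ.1.trans hθ.2
      exact_mod_cast this
    rw [Nat.shiftRight_eq_div_pow, Nat.cast_sub (hle i)]
    push_cast [Nat.cast_sub h4] at h1 ⊢
    have h5 := hθ.1
    have h6 := hθ.2
    push_cast at h3
    rw [mul_sub]
    linarith
  · intro i _
    have := sl_lt (n + e * i + f)
    exact this.le
  · intro i hi
    have h1 := hmono i k hi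
    have h2 := hant i k hi
    linarith

theorem gcT_perm (θ : ℝ) (n e d c f k : ℕ) (ρ : ℝ) :
    (gcT θ n e d c f k ρ).Perm (lcL (lcX θ n e d c f) (k + 1) ρ) :=
  List.Perm.cons _ (List.reverse_perm _)

/-- **leaf comb** (general).  Use `ap_bd` (Num.lean); the true thicknesses `θ - SS d (n+e*i) c` are
increasing in `i`, the computed ones need not be. -/
theorem leafC_sound {gw ns t T n e d c f k x ex : ℕ} {P : Pf} {K : KC}
    (h : leafC gw ns t T n e d c f k x ex P K = true) (hx : x = ap d (n + e * k) c)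
    (hc : c ≤ 2 ^ 20) {θ ρ : ℝ} (hθ : Iv t T θ) (h0 : SS d n c ≤ θ) (hρ : 0 ≤ ρ)
    (hex : 2 ^ 34 * ρ ≤ ex) :
    ∃ (P' : Pf) (m s : ℕ), K P' m s = true ∧
      (∃ p, flat P' = flat P + p ∧ Acc (gcT θ n e d c f k ρ) p m) ∧
      U * thk (gcT θ n e d c f k ρ) ≤ s := by
  subst hx
  unfold leafC at h
  rw [bf, ble_iff] at h
  obtain ⟨h1, h2⟩ := h
  obtain ⟨P', b, m, s, h3, h3', h4, h5⟩ := segC_sound (lcX_fact hc hθ h0 h1) ns (k + 1) _ _ P 0 0 ρ
    le_rfl hρ hex h2
  have hp := gcT_perm θ n e d c f k ρ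
  rw [zero_add, zero_add] at h3
  exact ⟨P', m, s, h3, ⟨b, h3', Acc.perm h4 hp.symm⟩, by rw [lc_thk_perm hp]; exact h5⟩

end

end Pool.Agent.LibM73
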