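import Pool.Agent.LibM73.LinP
set_option autoImplicit false
/-!
# Linear segments  (TASK LIN)

Teeth `j' ≤ a < j`, true thickness (unit `2^-100`) `x_a = U θ - U sd (n+a)`, increasing in `a`; cells
`r = 0 .. k` (`k = u - u0`), thickest first, `L_r = (u - r) 2^s` = lower edge of cell `r`.  The number
of teeth in the cells `0 .. r` is `N_r = ⌊Y_r⌋`, `Y_r = (A0 + B r) / 2^f` for `r < k`, `N_k = g`.
Tooth `a = j-1-q` is in cell `r` iff `N_{r-1} ≤ q < N_r`.

* upper edge: need `x_a ≤ L_{r-1}` for `a ≤ j-1-N_{r-1}`, i.e. `n+a+1/2 ≤ U/D`, `D = U θ - L_{r-1}`.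
  With `σ = S/2^32`: `U/D ≥ 2σ - σ² D/U` (square), `D ≤ D_0 + r 2^s`, `D_0 = T - L_0`; the definitions of
  `A0`, `B` give `Y_r ≥ j+n+1/2 - 2σ + σ² D_r/U`, and `N_r > Y_r - 1`.
* lower edge (tolerance `2^-14`): need `x_a > L_r (1 - 2^-14)` for `a ≥ j - N_r`, `r < k`, i.e.
  `U < (j+n+1/2-Y_r) (U θ - L_r (1-2^-14))`: the right side is a concave quadratic polynomial of `r`
  and the two checks of `linC` are the cases `r = 0`, `r = k-1`.
  For `r = k` it follows from `v0 ≥ u0 2^s` and the precision.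
-/
namespace Pool.Agent.LibM73
open Pool.Agent.LibMoser5 Pool.Agent.LibMoserF

/-- tangent from above -/
theorem lin_up {u D σ c Y X : ℝ} (hu : 0 < u) (hD : 0 < D) (hY : c - 2 * σ + σ ^ 2 * D / u ≤ Y)
    (hX : X < c - Y) : X < u / D := by
  have h1 : X < 2 * σ - σ ^ 2 * D / u := by linarith
  refine lt_of_lt_of_le h1 ?_
  rw [le_div_iff₀ hD]
  have h2 : (2 * σ - σ ^ 2 * D / u) * D = u - u * (1 - σ * D / u) ^ 2 := by
    field_simp
    ring
  rw [h2]
  have h3 : 0 ≤ u * (1 - σ * D / u) ^ 2 := by positivity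
  linarith

/-- concave quadratic polynomial -/
theorem lin_low {α β γ δ K r u : ℝ} (hβ : 0 ≤ β) (hδ : 0 ≤ δ) (hr : 0 ≤ r) (hrK : r ≤ K)
    (h0 : u < α * γ) (hK : u < (α - β * K) * (γ + δ * K)) : u < (α - β * r) * (γ + δ * r) := by
  rcases eq_or_lt_of_le (hr.trans hrK) with h | h
  · have : r = 0 := le_antisymm (by linarith) hr
    rw [this]
    simpa using h0
  · have h1 : 0 ≤ β * δ * r * (K - r) :=
      mul_nonneg (mul_nonneg (mul_nonneg hβ hδ) hr) (by linarith)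
    have h2 : K * ((α - β * r) * (γ + δ * r)) = (K - r) * (α * γ) +
        r * ((α - β * K) * (γ + δ * K)) + K * (β * δ * r * (K - r)) := by ring
    have h3 : K * u < K * ((α - β * r) * (γ + δ * r)) := by
      rw [h2]
      have h4 : 0 ≤ K * (β * δ * r * (K - r)) := mul_nonneg h.le h1
      rcases eq_or_lt_of_le hr with h5 | h5
      · rw [← h5] at *
        nlinarith
      · have h6 : r * u < r * ((α - β * K) * (γ + δ * K)) := mul_lt_mul_of_pos_left hK h5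
        have h7 : (K - r) * u ≤ (K - r) * (α * γ) := mul_le_mul_of_nonneg_left h0.le (by linarith)
        nlinarith
    exact lt_of_mul_lt_mul_left h3 h.le

/-! ### the distribution of the teeth -/

/-- cell of the tooth with number `q` (thickest = 0) -/
def kq (N : ℕ → ℕ) (k q : ℕ) : ℕ := ((Finset.range k).filter (fun r => N r ≤ q)).card

theorem kq_eq {N : ℕ → ℕ} {k q r : ℕ} (hN : ∀ a b, a ≤ b → b < k → N a ≤ N b) (hr : r ≤ k)
    (h1 : ∀ r', r' + 1 = r → N r' ≤ q) (h2 : r < k → q < N r) : kq N k q = r := by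
  have h : (Finset.range k).filter (fun r' => N r' ≤ q) = Finset.range r := by
    ext r'
    rw [Finset.mem_filter, Finset.mem_range, Finset.mem_range]
    constructor
    · rintro ⟨h3, h4⟩
      by_contra hcon
      rw [not_lt] at hcon
      have h5 := hN r r' hcon h3
      have h6 := h2 (by omega)
      omega
    · intro h3
      refine ⟨by omega, ?_⟩
      have h4 := h1 (r - 1) (by omega)
      have h5 := hN r' (r - 1) (by omega) (by omega)
      omega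
  unfold kq
  rw [h, Finset.card_range]

/-- properties of the cell of a tooth -/
theorem kq_spec {N : ℕ → ℕ} {k q : ℕ} (hN : ∀ a b, a ≤ b → b < k → N a ≤ N b) :
    kq N k q ≤ k ∧ (∀ r', r' + 1 = kq N k q → N r' ≤ q) ∧ (kq N k q < k → q < N (kq N k q)) := by
  -- the largest `r` such that all smaller ones satisfy `N r' ≤ q`
  have hex : ∃ r, r ≤ k ∧ (∀ r', r' + 1 = r → N r' ≤ q) ∧ (r < k → q < N r) := by
    by_cases h : ∃ r, r < k ∧ q < N r
    · obtain ⟨h1, h2⟩ := Nat.find_spec h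
      refine ⟨Nat.find h, h1.le, ?_, fun _ => h2⟩
      intro r' hr'
      by_contra hcon
      rw [not_le] at hcon
      exact Nat.find_min h (show r' < Nat.find h by omega) ⟨by omega, hcon⟩
    · refine ⟨k, le_rfl, ?_, fun h' => absurd h' (lt_irrefl _)⟩
      intro r' hr'
      by_contra hcon
      rw [not_le] at hcon
      exact h ⟨r', by omega, hcon⟩
  obtain ⟨r, h1, h2, h3⟩ := hex
  rw [kq_eq hN h1 h2 h3]
  exact ⟨h1, h2, h3⟩

/-- the sum over the teeth, cell by cell -/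
theorem kq_sum {N : ℕ → ℕ} {k g m : ℕ} (hN : ∀ a b, a ≤ b → b < k → N a ≤ N b)
    (hg : ∀ r < k, N r ≤ g) :
    ∑ q ∈ Finset.range g, m * 2 ^ (36 * kq N k q) =
      ∑ r ∈ Finset.range (k + 1),
        (((if r < k then N r else g) - (if r = 0 then 0 else N (r - 1))) * m) * 2 ^ (36 * r) := by
  have key : ∀ R, R ≤ k + 1 → ∑ q ∈ Finset.range (if R = 0 then 0 else if R ≤ k then N (R - 1)
      else g), m * 2 ^ (36 * kq N k q) = ∑ r ∈ Finset.range R,
        (((if r < k then N r else g) - (if r = 0 then 0 else N (r - 1))) * m) * 2 ^ (36 * r) := by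
    intro R
    induction R with
    | zero => intro _; simp
    | succ R ih =>
      intro hR
      rw [Finset.sum_range_succ, ← ih (by omega), if_neg (Nat.succ_ne_zero R), Nat.add_sub_cancel]
      have e1 : (if R + 1 ≤ k then N R else g) = (if R < k then N R else g) := rfl
      rw [e1]
      have e2 : (if R = 0 then 0 else if R ≤ k then N (R - 1) else g) =
          (if R = 0 then 0 else N (R - 1)) := by
        split_ifs <;> first | rfl | omega
      rw [e2]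
      have hle : (if R = 0 then 0 else N (R - 1)) ≤ (if R < k then N R else g) := by
        split_ifs with h1 h2
        · exact Nat.zero_le _
        · exact Nat.zero_le _
        · exact hN _ _ (by omega) (by omega)
        · exact hg _ (by omega)
      rw [← Finset.sum_range_add_sum_Ico _ hle]
      congr 1
      have h3 : ∀ q ∈ Finset.Ico (if R = 0 then 0 else N (R - 1)) (if R < k then N R else g),
          m * 2 ^ (36 * kq N k q) = m * 2 ^ (36 * R) := by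
        intro q hq
        rw [Finset.mem_Ico] at hq
        rw [kq_eq hN (by omega : R ≤ k)]
        · intro r' hr'
          have h4 := hq.1
          rw [if_neg (by omega)] at h4
          have : R - 1 = r' := by omega
          rw [this] at h4
          exact h4
        · intro h4
          have h5 := hq.2
          rw [if_pos h4] at h5
          exact h5
      rw [Finset.sum_congr rfl h3, Finset.sum_const, Nat.card_Ico, smul_eq_mul]
      ring
  have h := key (k + 1) le_rfl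
  rw [if_neg (Nat.succ_ne_zero k), if_neg (by omega)] at h
  exact h

theorem lin_pow {f : ℕ} (hf : f < 64) : (2 : ℝ) ^ (164 - f) * 2 ^ f = 2 ^ 164 := by
  rw [← pow_add]
  congr 1
  omega

theorem lin_pow2 {f s : ℕ} (hf : f < 64) (hs : s ≤ 64) :
    (2 : ℝ) ^ (164 - f - s) * (2 ^ f * 2 ^ s) = 2 ^ 164 := by
  rw [← pow_add, ← pow_add]
  congr 1
  omega

theorem lin_sub (a b : ℕ) : (a : ℝ) - b ≤ ((a - b : ℕ) : ℝ) := by
  rcases Nat.le_total b a with h | h
  · rw [Nat.cast_sub h]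
  · have : (a : ℝ) ≤ b := by exact_mod_cast h
    have h2 : (0 : ℝ) ≤ ((a - b : ℕ) : ℝ) := Nat.cast_nonneg _
    linarith

theorem lin_div (x e : ℕ) : (x : ℝ) / 2 ^ e ≤ ((x / 2 ^ e + 1 : ℕ) : ℝ) := by
  have h := lt_div' x (2 ^ e) (by positivity)
  push_cast at h ⊢
  exact h.le

theorem lin_A0 {c S D0 f : ℕ} (hf : f < 64) :
    (2 : ℝ) ^ f * ((c : ℝ) / 2 - 2 * ((S : ℝ) / 2 ^ 32) + ((S : ℝ) / 2 ^ 32) ^ 2 * D0 / U) ≤
      ((((c * 2 ^ 163 + S * S * D0) - S * 2 ^ 133) / 2 ^ (164 - f) + 1 : ℕ) : ℝ) := by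
  refine le_trans ?_ (lin_div _ _)
  have h1 := lin_sub (c * 2 ^ 163 + S * S * D0) (S * 2 ^ 133)
  obtain ⟨X, hX⟩ : ∃ X : ℕ, X = (c * 2 ^ 163 + S * S * D0) - S * 2 ^ 133 := ⟨_, rfl⟩
  rw [← hX] at h1 ⊢
  have h2 := lin_pow hf
  obtain ⟨p, hp⟩ : ∃ p : ℝ, p = 2 ^ f := ⟨_, rfl⟩
  obtain ⟨Q, hQ⟩ : ∃ Q : ℝ, Q = 2 ^ (164 - f) := ⟨_, rfl⟩
  rw [← hp, ← hQ] at h2
  rw [← hp, ← hQ]
  have hp0 : 0 < p := by rw [hp]; positivity
  have hQ0 : 0 < Q := by rw [hQ]; positivity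
  clear hp hQ hX
  rw [le_div_iff₀ hQ0]
  have e : p * ((c : ℝ) / 2 - 2 * ((S : ℝ) / 2 ^ 32) + ((S : ℝ) / 2 ^ 32) ^ 2 * D0 / U) * Q =
      (Q * p) * ((c : ℝ) / 2 - 2 * ((S : ℝ) / 2 ^ 32) + ((S : ℝ) / 2 ^ 32) ^ 2 * D0 / U) := by ring
  rw [e, h2]
  push_cast at h1
  refine le_trans (le_of_eq ?_) h1
  unfold U
  ring

theorem lin_B {S f s : ℕ} (hf : f < 64) (hs : s ≤ 64) :
    (2 : ℝ) ^ f * (((S : ℝ) / 2 ^ 32) ^ 2 * 2 ^ s / U) ≤
      ((S * S / 2 ^ (164 - f - s) + 1 : ℕ) : ℝ) := by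
  refine le_trans ?_ (lin_div _ _)
  have h2 := lin_pow2 hf hs
  have hQ0 : (0 : ℝ) < 2 ^ (164 - f - s) := by positivity
  rw [le_div_iff₀ hQ0]
  have e : (2 : ℝ) ^ f * (((S : ℝ) / 2 ^ 32) ^ 2 * 2 ^ s / U) * 2 ^ (164 - f - s) =
      (2 ^ (164 - f - s) * (2 ^ f * 2 ^ s)) * ((S : ℝ) / 2 ^ 32) ^ 2 / U := by ring
  rw [e, h2]
  push_cast
  refine le_of_eq ?_
  unfold U
  ring

theorem lin_chk {c f A t L : ℕ}
    (h : 2 ^ (101 + f) + 1 ≤ (c * 2 ^ f - 2 * A) * ((t - L) + L / 2 ^ 14)) (hL : L ≤ t) :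
    0 < (c : ℝ) / 2 - A / 2 ^ f ∧
      U < ((c : ℝ) / 2 - A / 2 ^ f) * ((t : ℝ) - L * (1 - 1 / 2 ^ 14)) := by
  have hz : 0 < c * 2 ^ f - 2 * A := by
    rcases Nat.eq_zero_or_pos (c * 2 ^ f - 2 * A) with h1 | h1
    · rw [h1, Nat.zero_mul] at h
      exact absurd h (Nat.not_succ_le_zero _)
    · exact h1
  obtain ⟨z, hz'⟩ : ∃ z, z = c * 2 ^ f - 2 * A := ⟨_, rfl⟩
  obtain ⟨e, he⟩ : ∃ e, e = (t - L) + L / 2 ^ 14 := ⟨_, rfl⟩
  have hzr : (z : ℝ) = c * 2 ^ f - 2 * A := by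
    rw [hz', Nat.cast_sub (by omega)]
    push_cast
    ring
  rw [← hz', ← he] at h
  rw [← hz'] at hz
  have hzp : (0 : ℝ) < z := by exact_mod_cast hz
  have her : (e : ℝ) ≤ t - L * (1 - 1 / 2 ^ 14) := by
    have h1 : ((L / 2 ^ 14 : ℕ) : ℝ) ≤ (L : ℝ) / ((2 ^ 14 : ℕ) : ℝ) := Nat.cast_div_le
    rw [he]
    push_cast [Nat.cast_sub hL] at h1 ⊢
    linarith
  have h1 : (2 : ℝ) ^ (101 + f) + 1 ≤ z * e := by exact_mod_cast h
  have h2 : (z : ℝ) * e ≤ z * (t - L * (1 - 1 / 2 ^ 14)) := mul_le_mul_of_nonneg_left her hzp.le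
  have hF : (0 : ℝ) < 2 ^ f := by positivity
  have e1 : (z : ℝ) = 2 * 2 ^ f * ((c : ℝ) / 2 - A / 2 ^ f) := by
    rw [hzr]
    field_simp
  have e2 : (2 : ℝ) ^ (101 + f) = 2 * 2 ^ f * U := by
    unfold U
    rw [pow_add]
    ring
  constructor
  · rw [e1] at hzp
    exact pos_of_mul_pos_right hzp (by positivity)
  · rw [e1] at h1 h2
    have h3 : 2 * 2 ^ f * U < 2 * 2 ^ f * (((c : ℝ) / 2 - A / 2 ^ f) *
        ((t : ℝ) - L * (1 - 1 / 2 ^ 14))) := by
      rw [← e2]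
      have e3 : 2 * 2 ^ f * (((c : ℝ) / 2 - A / 2 ^ f) * ((t : ℝ) - L * (1 - 1 / 2 ^ 14))) =
        2 * 2 ^ f * ((c : ℝ) / 2 - A / 2 ^ f) * ((t : ℝ) - L * (1 - 1 / 2 ^ 14)) := by ring
      rw [e3]
      linarith
    exact lt_of_mul_lt_mul_left h3 (by positivity)

/-- geometry of the linear segment -/
theorem lin_geo {T t n j j' u u0 V D0 A0 B : ℕ} {N : ℕ → ℕ} {F σ θ : ℝ}
    (hF : 0 < F) (hV : 0 < V) (hθ : Iv t T θ)
    (hNm : ∀ a b, a ≤ b → b < u - u0 → N a ≤ N b)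
    (hNlo : ∀ r : ℕ, (N r : ℝ) * F ≤ A0 + B * r)
    (hNhi : ∀ r : ℕ, (A0 : ℝ) + B * r < (N r + 1) * F)
    (hu0 : u0 * V ≤ T - sl (n + j')) (hu0p : 0 < u0 * V)
    (hu2 : T - sl (n + (j - 1)) < (u + 1) * V) (huu : u0 ≤ u)
    (hslT : sl (n + j') ≤ T)
    (her : T - t + 1 ≤ (T - sl (n + j')) / 2 ^ 15)
    (hD0 : (D0 : ℝ) = T - u * (V : ℝ)) (hD0p : 0 < D0)
    (hA0 : F * ((n : ℝ) + j + 1 / 2 - 2 * σ + σ ^ 2 * D0 / U) ≤ A0)
    (hB : F * (σ ^ 2 * (V : ℝ) / U) ≤ B)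
    (q1 : 0 < (n : ℝ) + j + 1 / 2 - A0 / F)
    (q2 : U < ((n : ℝ) + j + 1 / 2 - A0 / F) * ((t : ℝ) - ((u * V : ℕ) : ℝ) * (1 - 1 / 2 ^ 14)))
    (q3 : 0 < (n : ℝ) + j + 1 / 2 - ((A0 + B * (u - u0 - 1) : ℕ) : ℝ) / F)
    (q4 : U < ((n : ℝ) + j + 1 / 2 - ((A0 + B * (u - u0 - 1) : ℕ) : ℝ) / F) *
      ((t : ℝ) - (((u - (u - u0 - 1)) * V : ℕ) : ℝ) * (1 - 1 / 2 ^ 14)))
    {a : ℕ} (ha1 : j' ≤ a) (ha2 : a < j) :
    kq N (u - u0) (j - 1 - a) ≤ u - u0 ∧
      (((u - kq N (u - u0) (j - 1 - a)) * V : ℕ) : ℝ) * (1 - 1 / 2 ^ 14) < U * (θ - sd (n + a)) ∧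
      U * (θ - sd (n + a)) ≤ (((u - kq N (u - u0) (j - 1 - a) + 1) * V : ℕ) : ℝ) := by
  obtain ⟨h1, h2, h3⟩ := kq_spec (N := N) (k := u - u0) (q := j - 1 - a) hNm
  obtain ⟨r, hr⟩ : ∃ r, r = kq N (u - u0) (j - 1 - a) := ⟨_, rfl⟩
  rw [← hr] at h1 h2 h3 ⊢
  have hU : (0 : ℝ) < U := by unfold U; positivity
  have hVp : (0 : ℝ) < V := by exact_mod_cast hV
  have hBp : (0 : ℝ) ≤ B := Nat.cast_nonneg _
  -- the side
  obtain ⟨X, hX⟩ : ∃ X : ℝ, X = (n : ℝ) + a + 1 / 2 := ⟨_, rfl⟩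
  have hX0 : 0 < X := by rw [hX]; positivity
  have hsd : U * sd (n + a) = U / X := by
    unfold sd
    rw [hX]
    push_cast
    ring
  have haj : ((j - 1 - a : ℕ) : ℝ) = j - 1 - a := by
    rw [Nat.cast_sub (by omega), Nat.cast_sub (by omega)]
    push_cast
    ring
  have hru : r ≤ u := by omega
  have c1 : (((u - r) * V : ℕ) : ℝ) = (u : ℝ) * V - r * V := by
    rw [Nat.cast_mul, Nat.cast_sub hru]
    ring
  have c2 : (((u - r + 1) * V : ℕ) : ℝ) = (u : ℝ) * V - r * V + V := by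
    rw [Nat.cast_mul, Nat.cast_add, Nat.cast_sub hru]
    push_cast
    ring
  rw [mul_sub U, hsd]
  refine ⟨h1, ?_, ?_⟩
  · -- lower edge
    rcases Nat.lt_or_ge r (u - u0) with h4 | h4
    · have h5 : ((j - 1 - a : ℕ) : ℝ) + 1 ≤ N r := by
        have := h3 h4
        exact_mod_cast this
      have h6 := hNlo r
      have h7 : (n : ℝ) + j + 1 / 2 - A0 / F - B / F * r ≤ X := by
        have h8 : (N r : ℝ) ≤ A0 / F + B / F * r := by
          have e : A0 / F + B / F * r = (A0 + B * r) / F := by ring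
          rw [e, le_div_iff₀ hF]
          exact h6
        rw [hX]
        rw [haj] at h5
        linarith
      have hrK : (r : ℝ) ≤ ((u - u0 - 1 : ℕ) : ℝ) := by
        have : r ≤ u - u0 - 1 := by omega
        exact_mod_cast this
      have hβ : 0 ≤ B / F := by positivity
      have hδ : (0 : ℝ) ≤ V * (1 - 1 / 2 ^ 14) := mul_nonneg hVp.le (by norm_num)
      have e4 : ((A0 + B * (u - u0 - 1) : ℕ) : ℝ) / F = A0 / F + B / F * ((u - u0 - 1 : ℕ) : ℝ) := by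
        rw [Nat.cast_add, Nat.cast_mul]
        ring
      have e5 : (((u - (u - u0 - 1)) * V : ℕ) : ℝ) = (u : ℝ) * V - ((u - u0 - 1 : ℕ) : ℝ) * V := by
        rw [Nat.cast_mul, Nat.cast_sub (by omega : u - u0 - 1 ≤ u)]
        ring
      rw [e4, e5] at q4
      rw [e4] at q3
      rw [Nat.cast_mul] at q2
      have key := lin_low (α := (n : ℝ) + j + 1 / 2 - A0 / F) (β := B / F)
        (γ := (t : ℝ) - (u : ℝ) * V * (1 - 1 / 2 ^ 14)) (δ := V * (1 - 1 / 2 ^ 14))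
        (K := ((u - u0 - 1 : ℕ) : ℝ)) (r := (r : ℝ)) (u := U) hβ hδ (Nat.cast_nonneg _) hrK q2
        (by
          refine lt_of_lt_of_eq q4 ?_
          ring)
      have hpos : 0 < (n : ℝ) + j + 1 / 2 - A0 / F - B / F * r := by
        have := mul_le_mul_of_nonneg_left hrK hβ
        linarith
      have h9 : U / X ≤ U / ((n : ℝ) + j + 1 / 2 - A0 / F - B / F * r) :=
        div_le_div_of_nonneg_left hU.le hpos h7
      have h10 : U / ((n : ℝ) + j + 1 / 2 - A0 / F - B / F * r) <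
          (t : ℝ) - (u : ℝ) * V * (1 - 1 / 2 ^ 14) + V * (1 - 1 / 2 ^ 14) * r := by
        rw [div_lt_iff₀ hpos, mul_comm]
        exact key
      rw [c1]
      have h11 := hθ.1
      have e6 : ((u : ℝ) * V - r * V) * (1 - 1 / 2 ^ 14) =
        (u : ℝ) * V * (1 - 1 / 2 ^ 14) - V * (1 - 1 / 2 ^ 14) * r := by ring
      rw [e6]
      linarith
    · -- last cell
      have hr' : r = u - u0 := le_antisymm h1 h4
      have e : u - r = u0 := by omega
      rw [e]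
      have h5 : U / X ≤ U * sd (n + j') := by
        rw [← hsd]
        exact mul_le_mul_of_nonneg_left (sd_anti (by omega)) hU.le
      have h6 := sl_lt (n + j')
      have h7 := hθ.1
      have h8 : ((T - sl (n + j') : ℕ) : ℝ) = T - sl (n + j') := Nat.cast_sub hslT
      have htT : t ≤ T := by
        have := hθ.1.trans hθ.2
        exact_mod_cast this
      have h9 : ((T - t + 1 : ℕ) : ℝ) ≤ ((T - sl (n + j') : ℕ) : ℝ) / 2 ^ 15 := by
        have h10 : ((T - t + 1 : ℕ) : ℝ) ≤ (((T - sl (n + j')) / 2 ^ 15 : ℕ) : ℝ) := by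
          exact_mod_cast her
        refine h10.trans ?_
        have h11 : (((T - sl (n + j')) / 2 ^ 15 : ℕ) : ℝ) ≤
          ((T - sl (n + j') : ℕ) : ℝ) / ((2 ^ 15 : ℕ) : ℝ) := Nat.cast_div_le
        refine h11.trans (le_of_eq ?_)
        norm_num
      have h12 : ((u0 * V : ℕ) : ℝ) ≤ ((T - sl (n + j') : ℕ) : ℝ) := by exact_mod_cast hu0
      have h13 : (0 : ℝ) < ((u0 * V : ℕ) : ℝ) := by exact_mod_cast hu0p
      rw [Nat.cast_add, Nat.cast_sub htT, Nat.cast_one] at h9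
      obtain ⟨v0, hv0⟩ : ∃ v : ℝ, v = ((T - sl (n + j') : ℕ) : ℝ) := ⟨_, rfl⟩
      rw [← hv0] at h8 h9 h12
      obtain ⟨w, hw⟩ : ∃ w : ℝ, w = ((u0 * V : ℕ) : ℝ) := ⟨_, rfl⟩
      rw [← hw] at h12 h13 ⊢
      have h14 : w * (1 - 1 / 2 ^ 14) < v0 - v0 / 2 ^ 15 := by
        have e1 : v0 - v0 / 2 ^ 15 = v0 * (1 - 1 / 2 ^ 15) := by ring
        rw [e1]
        have h15 : w * (1 - 1 / 2 ^ 14) < w * (1 - 1 / 2 ^ 15) :=
          mul_lt_mul_of_pos_left (by norm_num) h13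
        have h16 : w * (1 - 1 / 2 ^ 15) ≤ v0 * (1 - 1 / 2 ^ 15) :=
          mul_le_mul_of_nonneg_right h12 (by norm_num)
        linarith
      linarith
  · -- upper edge
    have h11 := hθ.2
    rcases Nat.eq_zero_or_pos r with h4 | h4
    · have h5 : U * sd (n + (j - 1)) ≤ U / X := by
        rw [← hsd]
        exact mul_le_mul_of_nonneg_left (sd_anti (by omega)) hU.le
      have h6 := sl_le (n + (j - 1))
      have h7 : (T : ℝ) - sl (n + (j - 1)) ≤ ((T - sl (n + (j - 1)) : ℕ) : ℝ) := lin_sub _ _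
      have h8 : ((T - sl (n + (j - 1)) : ℕ) : ℝ) ≤ (((u + 1) * V : ℕ) : ℝ) := by
        exact_mod_cast hu2.le
      rw [c2, h4]
      push_cast at h8 ⊢
      linarith
    · obtain ⟨r', rfl⟩ : ∃ r', r = r' + 1 := ⟨r - 1, by omega⟩
      have h5 : (N r' : ℝ) ≤ ((j - 1 - a : ℕ) : ℝ) := by
        have := h2 r' rfl
        exact_mod_cast this
      have h6 := hNhi r'
      have hD : 0 < (D0 : ℝ) + r' * V := by
        have h7 : (0 : ℝ) < D0 := by exact_mod_cast hD0p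
        positivity
      have h8 : (n : ℝ) + j + 1 / 2 - 2 * σ + σ ^ 2 * (D0 + r' * V) / U ≤
          (A0 + B * r') / F := by
        rw [le_div_iff₀ hF]
        have h9 := mul_le_mul_of_nonneg_right hB (Nat.cast_nonneg r' : (0 : ℝ) ≤ r')
        have e : ((n : ℝ) + j + 1 / 2 - 2 * σ + σ ^ 2 * (D0 + r' * V) / U) * F =
            F * ((n : ℝ) + j + 1 / 2 - 2 * σ + σ ^ 2 * D0 / U) +
            F * (σ ^ 2 * (V : ℝ) / U) * r' := by ring
        rw [e]
        linarith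
      have h9 : X < (n : ℝ) + j + 1 / 2 - (A0 + B * r') / F := by
        have h10 : (A0 + B * r') / F < N r' + 1 := by
          rw [div_lt_iff₀ hF]
          exact h6
        rw [hX]
        rw [haj] at h5
        linarith
      have h10 := lin_up hU hD h8 h9
      have h12 : (D0 : ℝ) + r' * V < U / X := by
        rw [lt_div_iff₀ hX0]
        rw [lt_div_iff₀ hD] at h10
        linarith
      rw [c2]
      push_cast
      linarith

/-! ### the segment -/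

theorem linC_iff {K : Bool} {t u k g f c s A0 A1 : ℕ} : linC K t u k g f c s A0 A1 = true ↔
    A1 ≤ 68719476735 ∧ (A1 / 2 ^ f ≤ g ∧ 2 ^ f ≤ A0) ∧
    2 ^ (101 + f) + 1 ≤ (c * 2 ^ f - 2 * A0) * ((t - u * 2 ^ s) + (u * 2 ^ s) / 2 ^ 14) ∧
    2 ^ (101 + f) + 1 ≤ (c * 2 ^ f - 2 * A1) *
      ((t - (u - (k - 1)) * 2 ^ s) + ((u - (k - 1)) * 2 ^ s) / 2 ^ 14) ∧
    k ≤ 2048 ∧ K = true := by
  have e1 : ∀ a b : ℕ, Nat.shiftLeft a b = a * 2 ^ b := fun a b => Nat.shiftLeft_eq a b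
  have e2 : ∀ a b : ℕ, Nat.shiftRight a b = a / 2 ^ b := fun a b => Nat.shiftRight_eq_div_pow a b
  unfold linC
  rw [bf, bf, bf, bf, bf]
  simp only [ble_iff, e1, e2]
  have e3 : ∀ a b : Bool, (and a b = true) ↔ (a = true ∧ b = true) := fun a b => by simp
  rw [e3, ble_iff, ble_iff, Nat.one_mul, Nat.one_mul]
  exact Iff.rfl

/-- **linear segment** -/
theorem segLi_sound {ih : ℕ → ℕ → ℕ → Pf → ℕ → Bool} {T t n j j' g w' ex : ℕ} {P : Pf}
    {tot s u0 u i m f : ℕ}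
    (h : segLi ih T t n j j' g w' ex P tot s u0 u i m f = true)
    (hg : j' + g = j) (hg0 : 0 < g) (h0 : u0 = (T - sl (n + j')) >>> s)
    (hu : u = (T - sl (n + (j - 1))) >>> s) (hT : 0 < u0) (hs : s ≤ 64) (hf : f < 64)
    (her : T - t + 1 ≤ (T - sl (n + j')) >>> 15)
    (hr : 6 * (T - sl (n + (j - 1))) ≤ 5 * sl (n + (j - 1))) {θ : ℝ} (hθ : Iv t T θ) :
    ∃ (κ : ℕ → ℕ) (A : ℕ), segE ih j' w' ex P tot i A (g * m) = true ∧
      A = ∑ a ∈ Finset.Ico j' j, Nat.shiftLeft m (36 * κ a) ∧ κ (j - 1) = 0 ∧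
      ∀ a, j' ≤ a → a < j → κ a ≤ u - u0 ∧
        (((u - κ a) * 2 ^ s : ℕ) : ℝ) * (1 - 1 / 2 ^ 14) < U * (θ - sd (n + a)) ∧
        U * (θ - sd (n + a)) ≤ (((u - κ a + 1) * 2 ^ s : ℕ) : ℝ) := by
  have e1 : ∀ a b : ℕ, Nat.shiftLeft a b = a * 2 ^ b := fun a b => Nat.shiftLeft_eq a b
  have e2 : ∀ a b : ℕ, Nat.shiftRight a b = a / 2 ^ b := fun a b => Nat.shiftRight_eq_div_pow a b
  obtain ⟨k, hk⟩ : ∃ x, x = u - u0 := ⟨_, rfl⟩
  obtain ⟨c, hc⟩ : ∃ x, x = 2 * (n + j) + 1 := ⟨_, rfl⟩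
  obtain ⟨D0, hD0⟩ : ∃ x, x = T - u * 2 ^ s := ⟨_, rfl⟩
  obtain ⟨S, hS⟩ : ∃ x, x = 5444517870735015415413993718908291383296 /
    (D0 + (u - u0) / 2 * 2 ^ s) := ⟨_, rfl⟩
  obtain ⟨A0, hA0⟩ : ∃ x, x = ((c * 2 ^ 163 + S * S * D0) - S * 2 ^ 133) / 2 ^ (164 - f) + 1 :=
    ⟨_, rfl⟩
  obtain ⟨B, hB⟩ : ∃ x, x = S * S / 2 ^ (164 - f - s) + 1 := ⟨_, rfl⟩
  have h1 : linC (segE ih j' w' ex P tot i (linA k g m (linN k f (A0 + B * (k - 1)) B)) (g * m))
      t u k g f c s A0 (A0 + B * (k - 1)) = true := by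
    have h2 := h
    unfold segLi linB at h2
    simp only [e1, e2] at h2
    have h3 : ∀ x, Nat.div 5444517870735015415413993718908291383296 x =
      5444517870735015415413993718908291383296 / x := fun x => rfl
    rw [hA0, hB, hS, hD0, hc, hk]
    exact h2
  rw [linC_iff] at h1
  obtain ⟨c1, ⟨c2, c3⟩, c4, c5, c6, c7⟩ := h1
  obtain ⟨N, hN⟩ : ∃ N : ℕ → ℕ, N = fun r => (A0 + B * r) / 2 ^ f := ⟨_, rfl⟩
  have hp2 : 0 < 2 ^ f := by positivity
  have hps : 0 < 2 ^ s := by positivity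
  have hNm : ∀ a b, a ≤ b → b < k → N a ≤ N b := by
    intro a b hab _
    rw [hN]
    exact Nat.div_le_div_right (Nat.add_le_add_left (Nat.mul_le_mul_left B hab) A0)
  have hNg : ∀ r < k, N r ≤ g := by
    intro r hr'
    refine le_trans ?_ c2
    rw [hN]
    exact Nat.div_le_div_right (Nat.add_le_add_left (Nat.mul_le_mul_left B (by omega)) A0)
  have hN1 : ∀ r, 1 ≤ N r := by
    intro r
    rw [hN]
    show 1 ≤ (A0 + B * r) / 2 ^ f
    rw [Nat.le_div_iff_mul_le hp2, Nat.one_mul]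
    exact le_trans c3 (Nat.le_add_right _ _)
  -- the number of the machine
  have hA : linA k g m (linN k f (A0 + B * (k - 1)) B) =
      ∑ q ∈ Finset.range g, m * 2 ^ (36 * kq N k q) := by
    rw [linN_eq c6 (by omega) (Nat.le_add_left _ _), kq_sum hNm hNg]
    have e3 : ∑ r ∈ Finset.range k, ((A0 + B * (k - 1) - B * (k - 1 - r)) >>> f) * 2 ^ (36 * r) =
        ∑ r ∈ Finset.range k, N r * 2 ^ (36 * r) := by
      refine Finset.sum_congr rfl fun r hr' => ?_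
      rw [Finset.mem_range] at hr'
      rw [Nat.shiftRight_eq_div_pow, hN]
      have e4 : A0 + B * (k - 1) - B * (k - 1 - r) = A0 + B * r := by
        obtain ⟨d, hd⟩ : ∃ d, k - 1 = r + d := ⟨k - 1 - r, by omega⟩
        rw [hd, Nat.add_sub_cancel_left, Nat.mul_add]
        omega
      rw [e4]
    rw [e3]
    exact linA_eq (fun r h' => hNm r (r + 1) (by omega) h') (fun h' => hNg _ (by omega))
  refine ⟨fun a => kq N k (j - 1 - a), _, c7, ?_, ?_, ?_⟩
  · rw [hA, Finset.sum_Ico_eq_sum_range]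
    have e3 : j - j' = g := by omega
    rw [e3, ← Finset.sum_range_reflect]
    refine Finset.sum_congr rfl fun q hq => ?_
    rw [Finset.mem_range] at hq
    show m * 2 ^ (36 * kq N k (g - 1 - q)) = Nat.shiftLeft m (36 * kq N k (j - 1 - (j' + q)))
    have e4 : j - 1 - (j' + q) = g - 1 - q := by omega
    rw [e4, e1]
  · show kq N k (j - 1 - (j - 1)) = 0
    rw [Nat.sub_self]
    refine kq_eq hNm (Nat.zero_le _) (fun r' hr' => absurd hr' (Nat.succ_ne_zero _)) (fun _ => ?_)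
    have := hN1 0
    omega
  · -- geometry
    have hsl : sl (n + (j - 1)) ≤ sl (n + j') := sl_anti (by omega)
    have hv0T : sl (n + j') ≤ T := by
      by_contra hcon
      rw [not_le] at hcon
      rw [Nat.sub_eq_zero_of_le hcon.le, Nat.zero_shiftRight] at h0
      omega
    rw [Nat.shiftRight_eq_div_pow] at h0 hu her
    have hu0 : u0 * 2 ^ s ≤ T - sl (n + j') := by rw [h0]; exact Nat.div_mul_le_self _ _
    have hu1 : u * 2 ^ s ≤ T - sl (n + (j - 1)) := by rw [hu]; exact Nat.div_mul_le_self _ _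
    have hu2 : T - sl (n + (j - 1)) < (u + 1) * 2 ^ s := by
      rw [hu, Nat.add_mul, Nat.one_mul, Nat.mul_comm]
      exact Nat.lt_mul_div_succ _ hps |>.trans_eq (by ring)
    have huu : u0 ≤ u := by
      rw [h0, hu]
      exact Nat.div_le_div_right (by omega)
    have hu0p : 0 < u0 * 2 ^ s := Nat.mul_pos hT hps
    have huup : u0 * 2 ^ s ≤ u * 2 ^ s := Nat.mul_le_mul_right _ huu
    have hdiv : (T - sl (n + j')) / 2 ^ 15 ≤ (T - sl (n + (j - 1))) / 2 ^ 15 :=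
      Nat.div_le_div_right (by omega)
    have hdiv2 : (T - sl (n + (j - 1))) / 2 ^ 15 ≤ T - sl (n + (j - 1)) := Nat.div_le_self _ _
    have htT : t ≤ T := by
      have := hθ.1.trans hθ.2
      exact_mod_cast this
    have hut : u * 2 ^ s ≤ t := by omega
    have hD0p : 0 < D0 := by omega
    have hD0r : (D0 : ℝ) = T - u * 2 ^ s := by
      rw [hD0, Nat.cast_sub (by omega)]
      push_cast
      ring
    have hU : (0 : ℝ) < U := by unfold U; positivity
    have hF : (0 : ℝ) < 2 ^ f := by positivity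
    have hW : (0 : ℝ) < 2 ^ s := by positivity
    have hA0r := lin_A0 (c := c) (S := S) (D0 := D0) hf
    have hBr := lin_B (S := S) hf hs
    rw [← hA0] at hA0r
    rw [← hB] at hBr
    have hNlo : ∀ r : ℕ, (N r : ℝ) * 2 ^ f ≤ A0 + B * r := by
      intro r
      have h2 : N r * 2 ^ f ≤ A0 + B * r := by
        rw [hN]
        exact Nat.div_mul_le_self _ _
      exact_mod_cast h2
    have hNhi : ∀ r : ℕ, (A0 : ℝ) + B * r < (N r + 1) * 2 ^ f := by
      intro r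
      have h2 : A0 + B * r < 2 ^ f * ((A0 + B * r) / 2 ^ f + 1) := Nat.lt_mul_div_succ _ hp2
      have h3 : A0 + B * r < (N r + 1) * 2 ^ f := by
        rw [hN]
        show A0 + B * r < ((A0 + B * r) / 2 ^ f + 1) * 2 ^ f
        rw [Nat.mul_comm ((A0 + B * r) / 2 ^ f + 1)]
        exact h2
      exact_mod_cast h3
    clear hA0 hB hS hN c7 c6 c1 c2 c3 h e1 e2 hA hNg
    have hLk : (u - (k - 1)) * 2 ^ s ≤ t :=
      (Nat.mul_le_mul_right _ (Nat.sub_le _ _)).trans hut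
    obtain ⟨q1, q2⟩ := lin_chk c4 hut
    obtain ⟨q3, q4⟩ := lin_chk c5 hLk
    clear c4 c5
    have hcr : (c : ℝ) / 2 = n + j + 1 / 2 := by rw [hc]; push_cast; ring
    rw [hcr] at hA0r q1 q2 q3 q4
    have hVr : ((2 ^ s : ℕ) : ℝ) = 2 ^ s := by push_cast; rfl
    rw [← hVr] at hBr hD0r
    rw [hk] at q3 q4 hNm ⊢
    intro a ha1 ha2
    exact lin_geo hF hps hθ hNm hNlo hNhi hu0 hu0p hu2 huu hv0T her hD0r hD0p hA0r hBr q1 q2 q3
      q4 ha1 ha2

end Pool.Agent.LibM73
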