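import Pool.Agent.LibM73.LoopS
import Pool.Agent.LibM73.AccL
import Pool.Agent.LibM73.Lin
import Pool.Agent.LibM73.Prof
set_option autoImplicit false
/-!
# Leaves: simple combs
-/
namespace Pool.Agent.LibM73
open Pool.Agent.LibMoser5 Pool.Agent.LibMoserF

theorem sum_map_range {M : Type*} [AddCommMonoid M] (f : ℕ → M) (g : ℕ) :
    ((List.range g).map f).sum = ∑ i ∈ Finset.range g, f i := by
  induction g with
  | zero => simp
  | succ g ih => rw [List.range_succ, List.map_append, List.sum_append, ih, Finset.sum_range_succ]; simp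

/-- thickness and length of a tooth -/
noncomputable def tooth (θ : ℝ) (n i : ℕ) : ℝ × ℝ := (θ - sd (n + i), sd (n + i))

/-- the teeth `j' ≤ a < j` in the cells `κ a` -/
theorem seg_acc {θ ρ : ℝ} {n j' g j k m ex : ℕ} (κ : ℕ → ℕ) (hj : j' + g = j) (hk : j = k + 1)
    (hg : 0 < g) (hρ : 0 ≤ ρ) (hex : 2 ^ 34 * ρ ≤ ex)
    (hin : ∀ a, j' ≤ a → a < j → InC (κ a) (U * (θ - sd (n + a))))
    (h65 : ∀ a, a < j → 6 / 5 * (θ - sd (n + a)) ≤ sd (n + a))
    (hm : ∀ a, j' ≤ a → a < j → ms (tooth θ n a) ≤ m) :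
    Acc ((θ - sd (n + k), sd (n + k) + ρ) :: (List.range (g - 1)).map (fun i => tooth θ n (j' + i)))
      ((∑ a ∈ Finset.Ico j' j, Nat.shiftLeft m (36 * κ a)) + Nat.shiftLeft ex (36 * κ k))
      (g * m + ex) := by
  have A1 : Acc [(θ - sd (n + k), sd (n + k) + ρ)] (Nat.shiftLeft (m + ex) (36 * κ k)) (m + ex) := by
    refine acc_single (hin k (by omega) (by omega)) ?_ ?_
    · have := h65 k (by omega)
      linarith
    · have h1 := hm k (by omega) (by omega)
      unfold ms tooth at h1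
      unfold ms
      push_cast
      simp only at h1 ⊢
      linarith
  have A2 := acc_list (List.range (g - 1)) (fun i => tooth θ n (j' + i)) (fun i => κ (j' + i)) m
    (fun i hi => by
      rw [List.mem_range] at hi
      exact ⟨hin _ (by omega) (by omega), h65 _ (by omega), hm _ (by omega) (by omega)⟩)
  have A3 := A1.append A2
  have e1 : Nat.shiftLeft (m + ex) (36 * κ k) +
      ((List.range (g - 1)).map (fun i => Nat.shiftLeft m (36 * κ (j' + i)))).sum =
      (∑ a ∈ Finset.Ico j' j, Nat.shiftLeft m (36 * κ a)) + Nat.shiftLeft ex (36 * κ k) := by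
    rw [sum_map_range, hk, Finset.sum_Ico_succ_top (by omega), Finset.sum_Ico_eq_sum_range]
    have e2 : k - j' = g - 1 := by omega
    rw [e2]
    simp only [shl_eq]
    ring
  have e2 : m + ex + (List.range (g - 1)).length * m = g * m + ex := by
    rw [List.length_range]
    obtain ⟨g', rfl⟩ : ∃ g', g = g' + 1 := ⟨g - 1, by omega⟩
    simp only [Nat.add_sub_cancel]
    ring
  rw [e1, e2] at A3
  exact A3

theorem shl_le_shl {a b s : ℕ} (h : a ≤ b) : a >>> s ≤ b >>> s := by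
  rw [Nat.shiftRight_eq_div_pow, Nat.shiftRight_eq_div_pow]
  exact Nat.div_le_div_right h

section
variable {t T n : ℕ} {θ : ℝ}

/-- bounds of the thickness of a tooth -/
theorem tooth_iv (hθ : Iv t T θ) {a : ℕ} (h0 : sd (n + a) ≤ θ) :
    sl (n + a) ≤ T ∧ U * (θ - sd (n + a)) ≤ (T - sl (n + a) : ℕ) ∧
      ((T - sl (n + a) : ℕ) : ℝ) - ((T - t + 1 : ℕ) : ℝ) ≤ U * (θ - sd (n + a)) := by
  have hU : (0 : ℝ) < U := by unfold U; positivity
  obtain ⟨h1, h2⟩ := hθ
  have h3 := sl_le (n + a)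
  have h4 := sl_lt (n + a)
  have h5 : U * sd (n + a) ≤ U * θ := mul_le_mul_of_nonneg_left h0 hU.le
  have h6 : (sl (n + a) : ℝ) ≤ T := by linarith
  have h7 : sl (n + a) ≤ T := by exact_mod_cast h6
  have h8 : t ≤ T := by
    have : (t : ℝ) ≤ T := by linarith
    exact_mod_cast this
  refine ⟨h7, ?_, ?_⟩
  · rw [Nat.cast_sub h7, mul_sub]
    linarith
  · rw [Nat.cast_sub h7, mul_sub]
    push_cast [Nat.cast_sub h8]
    linarith

/-- mass of a tooth -/
theorem tooth_ms (hθ : Iv t T θ) {j' a k : ℕ} (h0 : ∀ i, i ≤ k → sd (n + i) ≤ θ) (h1 : j' ≤ a)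
    (h2 : a ≤ k) : ms (tooth θ n a) ≤ msT (sl (n + j') + 1) (T - sl (n + k)) := by
  have h3 := msT_le (l := [tooth θ n a]) (tl := sl (n + j') + 1) (tv := T - sl (n + k)) ?_ ?_
  · simpa using h3
  · have h4 := (sl_lt (n + a)).le
    have h5 : ((sl (n + a) : ℕ) : ℝ) ≤ (sl (n + j') : ℕ) := by
      exact_mod_cast sl_mono (show n + j' ≤ n + a by omega)
    simp only [tooth, List.map_cons, List.map_nil, List.sum_cons, List.sum_nil, add_zero]
    push_cast
    linarith
  · obtain ⟨g1, g2, g3⟩ := tooth_iv hθ (h0 a h2)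
    have h5 : T - sl (n + a) ≤ T - sl (n + k) := by
      have := sl_mono (show n + a ≤ n + k by omega)
      omega
    have h6 : ((T - sl (n + a) : ℕ) : ℝ) ≤ ((T - sl (n + k) : ℕ) : ℝ) := by exact_mod_cast h5
    simp only [tooth, List.map_cons, List.map_nil, List.sum_cons, List.sum_nil, add_zero]
    linarith

end

theorem segE_sound {ih : ℕ → ℕ → ℕ → Pf → ℕ → Bool} {j' w' ex : ℕ} {P : Pf} {tot i a m : ℕ}
    (h : segE ih j' w' ex P tot i a m = true) (hi : i ≤ NC) :
    ∃ P' : Pf, ih j' w' 0 P' (tot + (m + ex)) = true ∧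
      flat P' = flat P + (a + ex) * 2 ^ (36 * i) := by
  unfold segE at h
  obtain ⟨P', h1, h2⟩ := addP_sound h hi
  refine ⟨P', h1, ?_⟩
  rw [h2, shl_eq]
  rfl

/-- the upper edge of the cell of a tooth is at most `T + 1` -/
theorem cell_room {t T n k e : ℕ} (_he : e < 32) {θ : ℝ} (hθ : Iv t T θ) (h0 : sd (n + k) ≤ θ)
    (h65 : 6 / 5 * (θ - sd (n + k)) ≤ sd (n + k)) (hv : (T - sl (n + k)) >>> oc e = 1)
    (her : T - t + 1 ≤ (T - sl (n + k)) >>> 15) :
    ((T - sl (n + k)) >>> sh e + 1) * 2 ^ sh e ≤ T + 1 := by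
  obtain ⟨g1, g2, g3⟩ := tooth_iv hθ h0
  have hU : (0 : ℝ) < U := by unfold U; positivity
  set v := T - sl (n + k) with hvd
  rw [Nat.shiftRight_eq_div_pow] at hv her ⊢
  have k1 : 2 ^ oc e ≤ v := by
    have := Nat.div_add_mod v (2 ^ oc e)
    rw [hv] at this
    omega
  have k2 : 2 ^ sh e ≤ 2 ^ oc e := Nat.pow_le_pow_right (by norm_num) (by unfold sh; rw [oc_eq]; omega)
  have k3 : v / 2 ^ sh e * 2 ^ sh e ≤ v := Nat.div_mul_le_self _ _
  have k4 : ((T - t + 1 : ℕ) : ℝ) ≤ (v : ℝ) / 2 ^ 15 := by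
    have h1 : ((T - t + 1 : ℕ) : ℝ) ≤ ((v / 2 ^ 15 : ℕ) : ℝ) := by exact_mod_cast her
    refine h1.trans ((div_le' v (2 ^ 15) (by positivity)).trans_eq ?_)
    norm_num
  have k5 := sl_lt (n + k)
  have k6 : 6 / 5 * (U * (θ - sd (n + k))) ≤ U * sd (n + k) := by
    have := mul_le_mul_of_nonneg_left h65 hU.le
    linarith
  have k7 : (v : ℝ) < sl (n + k) + 1 := by
    have hv0 : (0 : ℝ) ≤ v := Nat.cast_nonneg v
    have : 6 / 5 * ((v : ℝ) - v / 2 ^ 15) < sl (n + k) + 1 := by linarith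
    have h2 : (v : ℝ) ≤ 6 / 5 * ((v : ℝ) - v / 2 ^ 15) := by
      norm_num
      linarith
    linarith
  have k8 : v < sl (n + k) + 1 := by exact_mod_cast k7
  rw [Nat.add_mul, Nat.one_mul]
  omega

/-- the cells of an octave -/
theorem ix_add_in {e v κ : ℕ} {x : ℝ} (he : e < 32) (hv : v >>> oc e = 1)
    (hκ : 2 ^ qe e + κ ≤ v >>> sh e)
    (h1 : (((v >>> sh e - κ) * 2 ^ sh e : ℕ) : ℝ) * (1 - 1 / 2 ^ 14) < x)
    (h2 : x ≤ (((v >>> sh e - κ + 1) * 2 ^ sh e : ℕ) : ℝ)) : InC (ix e v + κ) x := by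
  obtain ⟨h3, h4⟩ := uu_bd he hv
  have hr : 2 ^ (qe e + 1) - 1 - v >>> sh e + κ < 2 ^ qe e := by
    have : 2 ^ (qe e + 1) = 2 * 2 ^ qe e := by ring
    omega
  obtain ⟨h5, h6, h7⟩ := cell_num he hr
  have e0 : cBase e + (2 ^ (qe e + 1) - 1 - v >>> sh e + κ) = ix e v + κ := by
    rw [ix_eq he hv]
    ring
  rw [e0] at h5 h6 h7
  refine Or.inl ⟨h5, ?_, ?_⟩
  · have e1 : lo (ix e v + κ) = (v >>> sh e - κ) * 2 ^ sh e := by
      unfold lo
      rw [h6, h7]
      have e1 : 71 - e - qe e = sh e := rfl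
      rw [e1]
      congr 1
      omega
    rw [e1]
    exact h1
  · have e1 : up (ix e v + κ) = (v >>> sh e - κ + 1) * 2 ^ sh e := by
      unfold up
      rw [h6, h7]
      have e1 : 71 - e - qe e = sh e := rfl
      rw [e1]
      congr 1
      omega
    rw [e1]
    exact h2

theorem putD_sound {v m : ℕ} {P : Pf} {K : KL} (h : putD v m P K = true) :
    v >>> 56 = 0 ∧ ∃ P' : Pf, K P' m = true ∧ flat P' = flat P + Nat.shiftLeft m (36 * NC) := by
  unfold putD at h
  rw [bf, beq_iff] at h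
  obtain ⟨h1, h2⟩ := h
  obtain ⟨P', h3, h4⟩ := addP_sound h2 (le_refl 29184)
  exact ⟨h1, P', h3, h4⟩

/-- the teeth of a segment in the cells `I + κ a` -/
theorem seg_done {ih : ℕ → ℕ → ℕ → Pf → ℕ → Bool} {n j j' g w' ex : ℕ} {P : Pf}
    {tot m k I A : ℕ} {κ : ℕ → ℕ} (hg : 0 < g) (hjj : j' + g = j) (hk : j = k + 1)
    {θ ρ : ℝ} (hρ : 0 ≤ ρ) (hex : 2 ^ 34 * ρ ≤ ex)
    (h65 : ∀ i < j, 6 / 5 * (θ - sd (n + i)) ≤ sd (n + i))
    (hms : ∀ a, j' ≤ a → a < j → ms (tooth θ n a) ≤ m) (hI : I ≤ NC)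
    (hin : ∀ a, j' ≤ a → a < j → InC (I + κ a) (U * (θ - sd (n + a)))) (hκ : κ k = 0)
    (hA : A = ∑ a ∈ Finset.Ico j' j, Nat.shiftLeft m (36 * κ a))
    (h : segE ih j' w' ex P tot I A (g * m) = true) :
    ∃ P' : Pf, ih j' w' 0 P' (tot + (g * m + ex)) = true ∧ ∃ b : ℕ, flat P' = flat P + b ∧
      Acc ((θ - sd (n + k), sd (n + k) + ρ) :: (List.range (g - 1)).map (fun i => tooth θ n (j' + i)))
        b (g * m + ex) := by
  obtain ⟨P', h1, h2⟩ := segE_sound h hI
  refine ⟨P', h1, _, h2, ?_⟩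
  have h7 := seg_acc (κ := fun a => I + κ a) (θ := θ) (ρ := ρ) (n := n) (m := m) hjj
    hk hg hρ hex hin h65 hms
  have e1 : (∑ a ∈ Finset.Ico j' j, Nat.shiftLeft m (36 * (I + κ a))) +
      Nat.shiftLeft ex (36 * (I + κ k)) = (A + ex) * 2 ^ (36 * I) := by
    rw [hA, hκ, Nat.add_mul, Finset.sum_mul, shl_eq, Nat.add_zero]
    refine congrArg (· + ex * 2 ^ (36 * I)) (Finset.sum_congr rfl (fun a _ => ?_))
    rw [shl_eq, shl_eq, mul_assoc, ← pow_add, Nat.mul_add, Nat.add_comm (36 * I)]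
  rw [e1] at h7
  exact h7

/-- one segment -/
theorem seg1_sound {ih : ℕ → ℕ → ℕ → Pf → ℕ → Bool} {T t n j j' g w' ex : ℕ} {P : Pf}
    {tot e md f m k : ℕ}
    (he : e < 32) (hg : 0 < g) (hf : f < 64) (hj' : j' = j - g) (hk : j = k + 1)
    (h : seg1 ih T t n (T - t + 1) j j' g w' ex P tot (T - sl (n + j')) (T - sl (n + k)) e md f m =
      true) (hm : m = msT (sl (n + j') + 1) (T - sl (n + k))) {θ ρ : ℝ} (hθ : Iv t T θ)
    (hρ : 0 ≤ ρ) (hex : 2 ^ 34 * ρ ≤ ex) (h0 : ∀ i < j, sd (n + i) ≤ θ)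
    (h65 : ∀ i < j, 6 / 5 * (θ - sd (n + i)) ≤ sd (n + i))
    (hr : 6 * (T - sl (n + k)) ≤ 5 * sl (n + k)) :
    g ≤ j ∧ ∃ P' : Pf, ih j' w' 0 P' (tot + (g * m + ex)) = true ∧ ∃ b : ℕ, flat P' = flat P + b ∧
      Acc ((θ - sd (n + k), sd (n + k) + ρ) :: (List.range (g - 1)).map (fun i => tooth θ n (j' + i)))
        b (g * m + ex) := by
  unfold seg1 at h
  rw [bf, ble_iff] at h
  obtain ⟨h1, h⟩ := h
  refine ⟨h1, ?_⟩
  have hjj : j' + g = j := by omega
  have hms : ∀ a, j' ≤ a → a < j → ms (tooth θ n a) ≤ m := by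
    intro a ha ha'
    rw [hm]
    exact tooth_ms hθ (fun i hi => h0 i (by omega)) ha (by omega)
  rw [bi] at h
  split_ifs at h with hmd
  · -- dust
    obtain ⟨h2, P', h3, h4⟩ := putD_sound h
    refine ⟨P', h3, _, h4, ?_⟩
    have h5 := seg_acc (κ := fun _ => NC) (θ := θ) (ρ := ρ) (n := n) (m := m) hjj hk hg hρ hex ?_
      h65 hms
    · have e1 : (∑ a ∈ Finset.Ico j' j, Nat.shiftLeft m (36 * NC)) + Nat.shiftLeft ex (36 * NC) =
          Nat.shiftLeft (Nat.add (Nat.mul g m) ex) (36 * NC) := by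
        rw [Finset.sum_const, Nat.card_Ico, smul_eq_mul, shl_eq, shl_eq, shl_eq]
        have e2 : j - j' = g := by omega
        rw [e2]
        show g * (m * 2 ^ (36 * NC)) + ex * 2 ^ (36 * NC) = (g * m + ex) * 2 ^ (36 * NC)
        ring
      rw [e1] at h5
      exact h5
    · intro a ha ha'
      obtain ⟨g1, g2, g3⟩ := tooth_iv hθ (h0 a ha')
      refine dust_in h2 (g2.trans ?_)
      have := sl_mono (show n + a ≤ n + k by omega)
      exact_mod_cast (show T - sl (n + a) ≤ T - sl (n + k) by omega)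
  · rw [bf, bf, bf, beq_iff, beq_iff, ble_iff] at h
    obtain ⟨h2, h3, h4, h⟩ := h
    have hsh : Nat.mod (ct e) (nat_lit 128) = sh e := ct_sh he
    have hv : (T - sl (n + k)) >>> oc e = 1 := h2
    have hv0 : (T - sl (n + j')) >>> oc e = 1 := h3
    have her0 : T - t + 1 ≤ (T - sl (n + j')) >>> 15 := h4
    have hle : ∀ a, j' ≤ a → a < j → T - sl (n + j') ≤ T - sl (n + a) ∧
        T - sl (n + a) ≤ T - sl (n + k) := by
      intro a ha ha'
      have g1 := sl_mono (show n + a ≤ n + k by omega)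
      have g2 := sl_mono (show n + j' ≤ n + a by omega)
      omega
    have hva : ∀ a, j' ≤ a → a < j → (T - sl (n + a)) >>> oc e = 1 := by
      intro a ha ha'
      obtain ⟨g1, g2⟩ := hle a ha ha'
      have g3 := shl_le_shl (s := oc e) g1
      have g4 := shl_le_shl (s := oc e) g2
      omega
    have hT : ∀ a, j' ≤ a → a < j → sl (n + a) ≤ T := fun a _ ha' => (tooth_iv hθ (h0 a ha')).1
    have hix : ∀ a, j' ≤ a → a < j → ix e (T - sl (n + a)) = ix e (T - sl (n + k)) +
        ((T - sl (n + k)) >>> sh e - (T - sl (n + a)) >>> sh e) ∧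
        (T - sl (n + a)) >>> sh e ≤ (T - sl (n + k)) >>> sh e := fun a ha ha' =>
      ix_sub he hv (hva a ha ha') (hle a ha ha').2
    have hI : ix e (T - sl (n + k)) ≤ NC := (ix_spec he hv).1.le
    have hin : ∀ a, j' ≤ a → a < j → InC (ix e (T - sl (n + k)) +
        ((T - sl (n + k)) >>> sh e - (T - sl (n + a)) >>> sh e)) (U * (θ - sd (n + a))) := by
      intro a ha ha'
      obtain ⟨g1, g2, g3⟩ := tooth_iv hθ (h0 a ha')
      rw [← (hix a ha ha').1]
      exact put_in he (hva a ha ha') (her0.trans (shl_le_shl (hle a ha ha').1)) g2 g3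
    have hsl : sl (n + j') < T := by
      by_contra hcon
      have h9 : T - sl (n + j') = 0 := by omega
      rw [h9, Nat.zero_shiftRight] at hv0
      omega
    rw [bi] at h
    split_ifs at h with hmd3
    · -- linear
      have h6 : segLi ih T t n j j' g w' ex P tot (sh e) ((T - sl (n + j')) >>> sh e)
          ((T - sl (n + k)) >>> sh e) (ix e (T - sl (n + k))) m f = true := by
        rw [hsh] at h
        exact h
      obtain ⟨hu0, hu0'⟩ := uu_bd he hv0
      have hu0p : 0 < (T - sl (n + j')) >>> sh e := lt_of_lt_of_le (by positivity) hu0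
      have hs64 : sh e ≤ 64 := by
        unfold sh qe
        split_ifs <;> omega
      have hkj : j - 1 = k := by omega
      obtain ⟨κ, A, k1, k2, k3, k4⟩ := segLi_sound h6 hjj hg rfl (by rw [hk]; rfl) hu0p hs64 hf her0
        (by rw [hkj]; exact hr) hθ
      rw [hkj] at k3
      refine seg_done hg hjj hk hρ hex h65 hms hI ?_ k3 k2 k1
      intro a ha ha'
      obtain ⟨k5, k6, k7⟩ := k4 a ha ha'
      have h8 := shl_le_shl (s := sh e) (hle j' le_rfl (by omega)).2
      exact ix_add_in he hv (by omega) k6 k7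
    · -- exact
      have hval : segE ih j' w' ex P tot (ix e (T - sl (n + k)))
          (∑ a ∈ Finset.Ico j' j, Nat.shiftLeft m (36 * ((T - sl (n + k)) >>> sh e -
            (T - sl (n + a)) >>> sh e))) (g * m) = true := by
        rw [bi] at h
        split_ifs at h with hmd0
        · rw [segDe_eq hjj hg (by rw [hsh]; rfl) (by rw [hsh, hk]; rfl) hsl, hsh] at h
          exact h
        · rw [segSp_eq hjj ?_ hT ?_, hsh] at h
          · exact h
          · intro a ha ha'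
            rw [hsh]
            exact (hix a ha ha').2
          · rw [hsh]
            exact cell_room he hθ (h0 k (by omega)) (h65 k (by omega)) hv
              (her0.trans (shl_le_shl (hle k (by omega) (by omega)).1))
      exact seg_done hg hjj hk hρ hex h65 hms hI hin (Nat.sub_self _) rfl hval

theorem scT_perm (θ : ℝ) (n k : ℕ) (ρ : ℝ) : (scT θ n k ρ).Perm
    ((θ - sd (n + k), sd (n + k) + ρ) :: (List.range k).map (tooth θ n)) := by
  unfold scT cbT
  exact (List.reverse_perm _).cons _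

/-- the teeth below `j` -/
noncomputable def tl (θ : ℝ) (n : ℕ) (ρ : ℝ) : ℕ → Cb
  | 0 => []
  | k + 1 => scT θ n k ρ

theorem tl_perm (θ : ℝ) (n j : ℕ) : (tl θ n 0 j).Perm ((List.range j).map (tooth θ n)) := by
  cases j with
  | zero => exact List.Perm.refl _
  | succ k =>
    refine (scT_perm θ n k 0).trans ?_
    rw [add_zero, List.range_succ, List.map_append, List.map_cons, List.map_nil]
    exact (List.perm_append_singleton _ _).symm

theorem tl_glue (θ ρ : ℝ) (n j' g k : ℕ) (hk : j' + g = k + 1) (hg : 0 < g) :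
    (((θ - sd (n + k), sd (n + k) + ρ) :: (List.range (g - 1)).map (fun i => tooth θ n (j' + i))) ++
      tl θ n 0 j').Perm (scT θ n k ρ) := by
  refine List.Perm.trans ?_ (scT_perm θ n k ρ).symm
  rw [List.cons_append]
  refine List.Perm.cons _ ?_
  have hkk : k = j' + (g - 1) := by omega
  rw [hkk, List.range_add, List.map_append, List.map_map]
  exact ((tl_perm θ n j').append_left _).trans List.perm_append_comm

theorem segs_succ (T t n er : ℕ) (K : KL) (ns j w ex : ℕ) (P : Pf) (tot : ℕ) :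
    segs T t n er K (ns + 1) j w ex P tot =
      seg1 (segs T t n er K ns) T t n er j (j - gdec w) (gdec w) (w >>> 34) ex P tot
        (T - sl (n + (j - gdec w))) (T - sl (n + (j - 1))) ((w >>> 2) % 32) (w % 4)
        ((w >>> 28) % 64)
        (msT (sl (n + (j - gdec w)) + 1) (T - sl (n + (j - 1)))) := rfl

/-- segments: the teeth `0 .. j-1` (the thickest one, `j-1`, is longer by `ρ`) -/
theorem segs_sound {T t n : ℕ} {K : KL} (ns : ℕ) {θ : ℝ} (hθ : Iv t T θ) :
    ∀ (j w ex : ℕ) (P : Pf) (tot : ℕ) (ρ : ℝ),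
    segs T t n (T - t + 1) K ns j w ex P tot = true → 0 ≤ ρ → 2 ^ 34 * ρ ≤ ex →
    (∀ i < j, sd (n + i) ≤ θ) → (∀ i < j, 6 / 5 * (θ - sd (n + i)) ≤ sd (n + i)) →
    (∀ i < j, 6 * (T - sl (n + i)) ≤ 5 * sl (n + i)) → (j = 0 → ex = 0) →
    ∃ (P' : Pf) (m : ℕ), K P' (tot + m) = true ∧ ∃ c, flat P' = flat P + c ∧
      Acc (match j with
        | 0 => []
        | k + 1 => scT θ n k ρ) c m := by
  suffices h : ∀ (ns j w ex : ℕ) (P : Pf) (tot : ℕ) (ρ : ℝ),
      segs T t n (T - t + 1) K ns j w ex P tot = true → 0 ≤ ρ → 2 ^ 34 * ρ ≤ ex →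
      (∀ i < j, sd (n + i) ≤ θ) → (∀ i < j, 6 / 5 * (θ - sd (n + i)) ≤ sd (n + i)) →
      (∀ i < j, 6 * (T - sl (n + i)) ≤ 5 * sl (n + i)) →
      ∃ (P' : Pf) (m : ℕ), K P' (tot + m) = true ∧ ∃ c, flat P' = flat P + c ∧
        Acc (tl θ n ρ j) c m by
    intro j w ex P tot ρ h1 h2 h3 h4 h5 hr _
    obtain ⟨P', m, h6, c, h7, h8⟩ := h ns j w ex P tot ρ h1 h2 h3 h4 h5 hr
    refine ⟨P', m, h6, c, h7, ?_⟩
    cases j with
    | zero => exact h8
    | succ k => exact h8
  intro ns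
  induction ns with
  | zero =>
    intro j w ex P tot ρ h1 h2 h3 h4 h5 hr
    have h6 : Bool.rec (motive := fun _ => Bool) false
        (K P tot) (Nat.beq j (nat_lit 0)) = true := h1
    rw [bf, beq_iff] at h6
    obtain ⟨h7, h8⟩ := h6
    subst h7
    exact ⟨P, 0, h8, 0, (Nat.add_zero _).symm, Acc.nil⟩
  | succ ns ih =>
    intro j w ex P tot ρ h1 h2 h3 h4 h5 hr
    rw [segs_succ] at h1
    have hg : 0 < gdec w := Nat.succ_pos _
    rcases Nat.eq_zero_or_pos j with hj | hj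
    · -- no teeth
      exfalso
      unfold seg1 at h1
      rw [bf, ble_iff] at h1
      omega
    obtain ⟨k, rfl⟩ : ∃ k, j = k + 1 := ⟨j - 1, by omega⟩
    obtain ⟨k1, P1, k2, b, k3, k3'⟩ := seg1_sound (k := k) (Nat.mod_lt _ (by norm_num)) hg
      (Nat.mod_lt _ (by norm_num)) rfl rfl h1 rfl hθ h2 h3 h4 h5 (hr k (by omega))
    obtain ⟨P2, m, k4, c, k5, k5'⟩ := ih _ _ _ _ _ 0 k2 le_rfl (by norm_num)
      (fun i hi => h4 i (by omega)) (fun i hi => h5 i (by omega)) (fun i hi => hr i (by omega))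
    have k6 := (k3'.append k5').perm (tl_glue θ ρ n _ (gdec w) k (by omega) hg)
    rw [Nat.add_assoc] at k4
    rw [k3, Nat.add_assoc] at k5
    exact ⟨P2, _, k4, b + c, k5, k6⟩

theorem sub_cast_le (a b : ℕ) : (a : ℝ) - b ≤ ((a - b : ℕ) : ℝ) := by
  rcases le_total b a with h | h
  · rw [Nat.cast_sub h]
  · rw [Nat.sub_eq_zero_of_le h]
    have : (a : ℝ) ≤ b := by exact_mod_cast h
    push_cast
    linarith

theorem sd_le_of_le {n m : ℕ} (h : n ≤ m) : sd m ≤ sd n := by
  unfold sd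
  have : (n : ℝ) ≤ m := by exact_mod_cast h
  exact one_div_le_one_div_of_le (by positivity) (by linarith)

theorem put_sound {e v m : ℕ} {P : Pf} {K : KL} (he : e < 32) (h : put e v m P K = true) :
    v >>> oc e = 1 ∧ ∃ P' : Pf, K P' m = true ∧
      flat P' = flat P + Nat.shiftLeft m (36 * ix e v) := by
  unfold put at h
  rw [bf, beq_iff] at h
  obtain ⟨h1, h2⟩ := h
  have h1' : v >>> oc e = 1 := h1
  obtain ⟨P', h3, h4⟩ := addP_sound h2 (ix_spec he h1').1.le
  exact ⟨h1', P', h3, h4⟩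

theorem put2_sound {e v0 v m : ℕ} {P : Pf} {K : KL} (he : e < 32)
    (h : put2 e v0 v m P K = true) :
    v >>> oc e = 1 ∧ v0 >>> sh e = v >>> sh e ∧ ∃ P' : Pf, K P' m = true ∧
      flat P' = flat P + Nat.shiftLeft m (36 * ix e v) := by
  unfold put2 at h
  rw [bf, beq_iff] at h
  obtain ⟨h1, h2⟩ := h
  have hsh : Nat.mod (ct e) (nat_lit 128) = sh e := ct_sh he
  rw [hsh] at h1
  obtain ⟨h3, h4⟩ := put_sound he h2
  exact ⟨h3, h1, h4⟩

/-- masses of a simple comb -/
theorem scT_ms (θ : ℝ) (n k : ℕ) (ρ : ℝ) : ((scT θ n k ρ).map ms).sum =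
    (((List.range (k + 1)).map (tooth θ n)).map ms).sum + 2 ^ 34 * ρ := by
  rw [((scT_perm θ n k ρ).map ms).sum_eq, List.map_cons, List.sum_cons, List.range_succ,
    List.map_append, List.map_append, List.sum_append, List.map_cons, List.map_nil, List.map_cons,
    List.map_nil, List.sum_cons, List.sum_nil, add_zero]
  unfold ms tooth
  simp only
  ring

/-- **leaf comb** -/
theorem leafS_sound {gw ns e t T n k ex : ℕ} {P : Pf} {K : KL} (he : e < 32)
    (h : leafS gw ns e t T n (k + 1) k ex P K = true) {θ ρ : ℝ} (hθ : Iv t T θ)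
    (h0 : sd n ≤ θ) (hρ : 0 ≤ ρ) (hex : 2 ^ 34 * ρ ≤ ex) :
    ∃ (P' : Pf) (m : ℕ), K P' m = true ∧ ∃ c, flat P' = flat P + c ∧
      Acc (scT θ n k ρ) c m := by
  unfold leafS at h
  rw [bf, ble_iff] at h
  obtain ⟨h1, h⟩ := h
  have h1' : 6 * (T - sl (n + k)) ≤ 5 * sl (n + k) := h1
  have hU : (0 : ℝ) < U := by unfold U; positivity
  have h0' : ∀ i, sd (n + i) ≤ θ := fun i => (sd_le_of_le (Nat.le_add_right n i)).trans h0
  have h65' : ∀ i, i < k + 1 → 6 * (T - sl (n + i)) ≤ 5 * sl (n + i) := by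
    intro i hi
    have g4 := sl_mono (show n + i ≤ n + k by omega)
    omega
  have h65 : ∀ i, i < k + 1 → 6 / 5 * (θ - sd (n + i)) ≤ sd (n + i) := by
    intro i hi
    obtain ⟨g1, g2, g3⟩ := tooth_iv hθ (h0' i)
    have g5 := h65' i hi
    have g6 : (6 : ℝ) * ((T - sl (n + i) : ℕ) : ℝ) ≤ 5 * (sl (n + i) : ℝ) := by exact_mod_cast g5
    have g7 := sl_le (n + i)
    have g8 : U * (6 / 5 * (θ - sd (n + i))) ≤ U * sd (n + i) := by linarith
    exact le_of_mul_le_mul_left g8 hU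
  rw [bi] at h
  split_ifs at h with hns
  · rw [bf, ble_iff] at h
    obtain ⟨h2, h3⟩ := h
    obtain ⟨h4, h5, P', h6, h6'⟩ := put2_sound he h3
    refine ⟨P', _, h6, _, h6', ?_⟩
    refine acc_cell (ix_spec he h4).1.le ?_ ?_
    · intro x hx
      rw [(scT_perm θ n k ρ).mem_iff] at hx
      have hin : ∀ a, a ≤ k → InC (ix e (T - sl (n + k))) (U * (θ - sd (n + a))) := by
        intro a ha
        obtain ⟨g1, g2, g3⟩ := tooth_iv hθ (h0' a)
        refine in_same (v0 := T - sl n) (er := T - t + 1) he h4 h5 (Or.inl h2) ?_ ?_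
        · refine g2.trans ?_
          have := sl_mono (show n + a ≤ n + k by omega)
          exact_mod_cast (show T - sl (n + a) ≤ T - sl (n + k) by omega)
        · refine le_trans ?_ g3
          have := sl_mono (show n ≤ n + a by omega)
          have h9 : ((T - sl n : ℕ) : ℝ) ≤ ((T - sl (n + a) : ℕ) : ℝ) := by
            exact_mod_cast (show T - sl n ≤ T - sl (n + a) by omega)
          linarith
      rcases List.mem_cons.1 hx with hx | hx
      · subst hx
        refine ⟨hin k le_rfl, ?_⟩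
        have := h65 k (by omega)
        simp only
        linarith
      · obtain ⟨a, ha, rfl⟩ := List.mem_map.1 hx
        rw [List.mem_range] at ha
        exact ⟨hin a ha.le, h65 a (by omega)⟩
    · rw [scT_ms]
      have h7 := msT_le (l := (List.range (k + 1)).map (tooth θ n))
        (tl := (k + 1) * (sl n + 1)) (tv := (k + 1) * (T - sl (n + k))) ?_ ?_
      · have h8 : ((Nat.add (msT (Nat.mul (k + 1) (Nat.succ (sl n)))
            (Nat.mul (k + 1) (Nat.sub T (sl (Nat.add n k))))) ex : ℕ) : ℝ) =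
            (msT ((k + 1) * (sl n + 1)) ((k + 1) * (T - sl (n + k))) : ℝ) + (ex : ℝ) := by
          exact Nat.cast_add _ _
        exact (add_le_add h7 hex).trans_eq h8.symm
      · rw [List.map_map, sum_map_range, Finset.mul_sum]
        have h8 : ∀ i ∈ Finset.range (k + 1), U * (Prod.snd ∘ tooth θ n) i ≤ (sl n : ℝ) + 1 := by
          intro i _
          have g1 := (sl_lt n).le
          have g2 := mul_le_mul_of_nonneg_left (sd_le_of_le (Nat.le_add_right n i)) hU.le
          exact g2.trans g1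
        refine (Finset.sum_le_sum h8).trans ?_
        rw [Finset.sum_const, Finset.card_range, nsmul_eq_mul]
        push_cast
        exact le_rfl
      · rw [List.map_map, sum_map_range, Finset.mul_sum]
        have h8 : ∀ i ∈ Finset.range (k + 1), U * (Prod.fst ∘ tooth θ n) i ≤
            ((T - sl (n + k) : ℕ) : ℝ) := by
          intro i hi
          rw [Finset.mem_range] at hi
          obtain ⟨g1, g2, g3⟩ := tooth_iv hθ (h0' i)
          refine g2.trans ?_
          have := sl_mono (show n + i ≤ n + k by omega)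
          exact_mod_cast (show T - sl (n + i) ≤ T - sl (n + k) by omega)
        refine (Finset.sum_le_sum h8).trans ?_
        rw [Finset.sum_const, Finset.card_range, nsmul_eq_mul]
        push_cast
        exact le_rfl
  · obtain ⟨P', m, h2, c, h3, h4⟩ := segs_sound ns hθ (k + 1) _ ex P 0 ρ h hρ hex
      (fun i _ => h0' i) h65 h65' (by omega)
    rw [Nat.zero_add] at h2
    exact ⟨P', m, h2, c, h3, h4⟩

/-- total thickness of a simple comb -/
theorem scT_thk {T t n k : ℕ} (hk : k < 2 ^ 20) {θ ρ : ℝ} (hθ : Iv t T θ) (_h0 : sd n ≤ θ) :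
    U * thk (scT θ n k ρ) ≤ ((k + 1) * T - ap 1 n (k + 1) : ℕ) := by
  have hU : (0 : ℝ) < U := by unfold U; positivity
  have e1 : thk (scT θ n k ρ) = (k + 1) * θ - ∑ l ∈ Finset.range (k + 1), sd (n + 1 * l) := by
    unfold thk
    rw [((scT_perm θ n k ρ).map Prod.fst).sum_eq, List.map_cons, List.sum_cons, List.map_map,
      sum_map_range, Finset.sum_range_succ]
    have e2 : ∑ i ∈ Finset.range k, (Prod.fst ∘ tooth θ n) i =
        k * θ - ∑ l ∈ Finset.range k, sd (n + 1 * l) := by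
      simp only [Function.comp_def, tooth, Finset.sum_sub_distrib, Finset.sum_const,
        Finset.card_range, nsmul_eq_mul, one_mul]
    rw [e2, one_mul]
    ring
  have h1 := ap_le (d := 1) (n := n) (c := k + 1) (by omega)
  have h2 := sub_cast_le ((k + 1) * T) (ap 1 n (k + 1))
  refine le_trans ?_ h2
  rw [e1, mul_sub]
  push_cast
  have h3 : U * ((k + 1) * θ) ≤ (k + 1) * T := by
    have := mul_le_mul_of_nonneg_left hθ.2 (show (0 : ℝ) ≤ (k : ℝ) + 1 by positivity)
    linarith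
  linarith

end Pool.Agent.LibM73
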