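import Pool.Agent.LibM73.Cell
set_option autoImplicit false
/-!
# Packed arithmetic of the linear segments
-/
namespace Pool.Agent.LibM73

theorem repu_const : REPU * 68719476735 + 1 = 2 ^ (36 * 2048) := by
  have h : Nat.beq (Nat.add (Nat.mul REPU (nat_lit 68719476735)) (nat_lit 1))
    (Nat.pow (nat_lit 2) (nat_lit 73728)) = true := by decide +kernel
  have h2 := Nat.eq_of_beq_eq_true h
  exact h2

theorem ramp_const : RAMP * 68719476735 + 2048 = REPU := by
  have h : Nat.beq (Nat.add (Nat.mul RAMP (nat_lit 68719476735)) (nat_lit 2048))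
    REPU = true := by decide +kernel
  exact Nat.eq_of_beq_eq_true h

theorem geo_sum (n : ℕ) :
    (∑ r ∈ Finset.range n, 2 ^ (36 * r)) * 68719476735 + 1 = 2 ^ (36 * n) := by
  induction n with
  | zero => simp
  | succ n ih =>
    rw [Finset.sum_range_succ, Nat.add_mul, Nat.mul_add 36, pow_add]
    have e1 : (2 : ℕ) ^ (36 * 1) = 68719476735 + 1 := by norm_num
    rw [e1, Nat.mul_add, Nat.mul_one, Nat.add_right_comm, ih]
    exact Nat.add_comm _ _

theorem ramp_sum (n : ℕ) :
    (∑ r ∈ Finset.range n, (n - 1 - r) * 2 ^ (36 * r)) * 68719476735 + n =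
      ∑ r ∈ Finset.range n, 2 ^ (36 * r) := by
  induction n with
  | zero => simp
  | succ n ih =>
    have e1 : ∑ r ∈ Finset.range (n + 1), (n + 1 - 1 - r) * 2 ^ (36 * r) =
        (∑ r ∈ Finset.range n, (n - 1 - r) * 2 ^ (36 * r)) +
          ∑ r ∈ Finset.range n, 2 ^ (36 * r) := by
      rw [Finset.sum_range_succ, ← Finset.sum_add_distrib, Nat.add_sub_cancel, Nat.sub_self,
        Nat.zero_mul, Nat.add_zero]
      refine Finset.sum_congr rfl (fun r hr => ?_)
      rw [Finset.mem_range] at hr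
      have : n - r = (n - 1 - r) + 1 := by omega
      rw [this, Nat.add_mul, Nat.one_mul]
    rw [e1, Nat.add_mul, Finset.sum_range_succ, ← geo_sum n, ← ih]
    ring

theorem REPU_eq : REPU = ∑ r ∈ Finset.range 2048, 2 ^ (36 * r) := by
  have h1 := geo_sum 2048
  have h2 := repu_const
  have h3 : REPU * 68719476735 = (∑ r ∈ Finset.range 2048, 2 ^ (36 * r)) * 68719476735 := by
    have := h2.trans h1.symm
    exact Nat.add_right_cancel this
  exact Nat.eq_of_mul_eq_mul_right (by norm_num) h3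

theorem RAMP_eq : RAMP = ∑ r ∈ Finset.range 2048, (2048 - 1 - r) * 2 ^ (36 * r) := by
  have h1 := ramp_sum 2048
  have h2 := ramp_const
  rw [← REPU_eq] at h1
  have h3 := Nat.add_right_cancel (h2.trans h1.symm)
  exact Nat.eq_of_mul_eq_mul_right (by norm_num) h3

/-- packed numbers are small -/
theorem pack_lt {d : ℕ → ℕ} (k : ℕ) (hd : ∀ r < k, d r < 2 ^ 36) :
    ∑ r ∈ Finset.range k, d r * 2 ^ (36 * r) < 2 ^ (36 * k) := by
  induction k with
  | zero => simp
  | succ k ih =>
    rw [Finset.sum_range_succ, Nat.mul_add 36, pow_add]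
    have h1 := ih (fun r hr => hd r (by omega))
    have h2 : (d k + 1) * 2 ^ (36 * k) ≤ 2 ^ 36 * 2 ^ (36 * k) :=
      Nat.mul_le_mul_right _ (hd k (by omega))
    have e1 : (2 : ℕ) ^ (36 * 1) = 2 ^ 36 := by norm_num
    rw [e1, Nat.mul_comm (2 ^ (36 * k))]
    rw [Nat.add_mul, Nat.one_mul] at h2
    omega

theorem pack_shift {d : ℕ → ℕ} (a k : ℕ) (hd : ∀ r < a, d r < 2 ^ 36) :
    (∑ r ∈ Finset.range (a + k), d r * 2 ^ (36 * r)) >>> (36 * a) =
      ∑ r ∈ Finset.range k, d (a + r) * 2 ^ (36 * r) := by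
  rw [Finset.sum_range_add, Nat.shiftRight_eq_div_pow]
  have e1 : ∑ r ∈ Finset.range k, d (a + r) * 2 ^ (36 * (a + r)) =
      2 ^ (36 * a) * ∑ r ∈ Finset.range k, d (a + r) * 2 ^ (36 * r) := by
    rw [Finset.mul_sum]
    refine Finset.sum_congr rfl (fun r _ => ?_)
    rw [Nat.mul_add 36, pow_add]
    ring
  rw [e1, Nat.add_mul_div_left _ _ (by positivity), Nat.div_eq_of_lt (pack_lt a hd), Nat.zero_add]

/-- repunit -/
theorem repu_eq {k : ℕ} (hk : k ≤ 2048) : repu k = ∑ r ∈ Finset.range k, 2 ^ (36 * r) := by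
  have h1 : repu k = REPU >>> (36 * (2048 - k)) := rfl
  have h2 : REPU = ∑ r ∈ Finset.range (2048 - k + k), 1 * 2 ^ (36 * r) := by
    rw [Nat.sub_add_cancel hk, REPU_eq]
    simp only [Nat.one_mul]
  rw [h1, h2, pack_shift _ _ (fun _ _ => by norm_num)]
  simp only [Nat.one_mul]

theorem ramp_eq {k : ℕ} (hk : k ≤ 2048) :
    ramp k = ∑ r ∈ Finset.range k, (k - 1 - r) * 2 ^ (36 * r) := by
  have h1 : ramp k = RAMP >>> (36 * (2048 - k)) := rfl
  have h2 : RAMP = ∑ r ∈ Finset.range (2048 - k + k), (2048 - 1 - r) * 2 ^ (36 * r) := by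
    rw [Nat.sub_add_cancel hk, RAMP_eq]
  rw [h1, h2, pack_shift (d := fun r => 2048 - 1 - r) _ _ (fun r _ => by omega)]
  refine Finset.sum_congr rfl (fun r hr => ?_)
  congr 1
  omega

/-- bits of packed numbers -/
theorem pack_testBit {d : ℕ → ℕ} (k : ℕ) (hd : ∀ r < k, d r < 2 ^ 36) (i : ℕ) :
    (∑ r ∈ Finset.range k, d r * 2 ^ (36 * r)).testBit i =
      (decide (i < 36 * k) && (d (i / 36)).testBit (i % 36)) := by
  induction k with
  | zero => simp
  | succ k ih =>
    have h1 := ih (fun r hr => hd r (by omega))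
    have h2 := pack_lt k (fun r hr => hd r (by omega))
    rw [Finset.sum_range_succ, Nat.add_comm, Nat.mul_comm (d k),
      Nat.testBit_two_pow_mul_add _ h2, h1]
    by_cases h3 : i < 36 * k
    · rw [if_pos h3]
      simp [h3, show i < 36 * (k + 1) by omega]
    · rw [if_neg h3]
      by_cases h4 : i < 36 * (k + 1)
      · have e1 : i / 36 = k := by omega
        have e2 : i % 36 = i - 36 * k := by omega
        simp [h4, e1, e2]
      · have h5 : (d k).testBit (i - 36 * k) = false := by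
          refine Nat.testBit_lt_two_pow ((hd k (by omega)).trans_le ?_)
          exact Nat.pow_le_pow_right (by norm_num) (by omega)
        simp [h4, h5]

/-- shift of all digits at once -/
theorem pack_land {d : ℕ → ℕ} (k f : ℕ) (hd : ∀ r < k, d r < 2 ^ 36) :
    ((∑ r ∈ Finset.range k, d r * 2 ^ (36 * r)) >>> f) &&&
      (∑ r ∈ Finset.range k, (2 ^ (36 - f) - 1) * 2 ^ (36 * r)) =
      ∑ r ∈ Finset.range k, (d r >>> f) * 2 ^ (36 * r) := by
  have hM : ∀ r < k, (fun _ : ℕ => 2 ^ (36 - f) - 1) r < 2 ^ 36 := by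
    intro r _
    have : (2 : ℕ) ^ (36 - f) ≤ 2 ^ 36 := Nat.pow_le_pow_right (by norm_num) (by omega)
    have h2 : (0 : ℕ) < 2 ^ (36 - f) := by positivity
    simp only
    omega
  have hS : ∀ r < k, (fun r => d r >>> f) r < 2 ^ 36 := by
    intro r hr
    simp only
    rw [Nat.shiftRight_eq_div_pow]
    exact (Nat.div_le_self _ _).trans_lt (hd r hr)
  refine Nat.eq_of_testBit_eq (fun i => ?_)
  have e1 := pack_testBit k hM i
  have e2 := pack_testBit k hS i
  beta_reduce at e1 e2
  rw [Nat.testBit_and, Nat.testBit_shiftRight, pack_testBit k hd, e1, e2, Nat.testBit_shiftRight,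
    Nat.testBit_two_pow_sub_one]
  by_cases h1 : i % 36 < 36 - f
  · have e3 : (f + i) / 36 = i / 36 := by omega
    have e4 : (f + i) % 36 = f + i % 36 := by omega
    rw [e3, e4]
    by_cases h2 : i < 36 * k
    · have h3 : f + i < 36 * k := by omega
      simp [h1, h2, h3]
    · simp [h2]
  · by_cases h2 : i < 36 * k
    · have h3 : (d (i / 36)).testBit (f + i % 36) = false := by
        refine Nat.testBit_lt_two_pow ((hd (i / 36) (by omega)).trans_le ?_)
        exact Nat.pow_le_pow_right (by norm_num) (by omega)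
      simp [h1, h3]
    · simp [h2]

/-- floors of all digits at once -/
theorem linN_eq {k f A B : ℕ} (hk : k ≤ 2048) (hA : A < 2 ^ 36) (hB : B * (k - 1) ≤ A) :
    linN k f A B = ∑ r ∈ Finset.range k, ((A - B * (k - 1 - r)) >>> f) * 2 ^ (36 * r) := by
  have e1 : Nat.pred (Nat.shiftLeft 1 (36 - f)) = 2 ^ (36 - f) - 1 := by
    have h : Nat.shiftLeft 1 (36 - f) = 1 * 2 ^ (36 - f) := Nat.shiftLeft_eq _ _
    rw [h, Nat.one_mul]
    rfl
  have h1 : linN k f A B = ((A * repu k - B * ramp k) >>> f) &&&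
      (repu k * Nat.pred (Nat.shiftLeft 1 (36 - f))) := rfl
  have h2 : A * repu k - B * ramp k =
      ∑ r ∈ Finset.range k, (A - B * (k - 1 - r)) * 2 ^ (36 * r) := by
    have h3 : ∑ r ∈ Finset.range k, (A - B * (k - 1 - r)) * 2 ^ (36 * r) + B * ramp k =
        A * repu k := by
      rw [repu_eq hk, ramp_eq hk, Finset.mul_sum, Finset.mul_sum, ← Finset.sum_add_distrib]
      refine Finset.sum_congr rfl (fun r hr => ?_)
      have h4 : B * (k - 1 - r) ≤ A := (Nat.mul_le_mul_left B (by omega)).trans hB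
      rw [← Nat.mul_assoc, ← Nat.add_mul, Nat.sub_add_cancel h4]
    exact (Nat.eq_sub_of_add_eq h3).symm
  have h5 : repu k * (2 ^ (36 - f) - 1) =
      ∑ r ∈ Finset.range k, (2 ^ (36 - f) - 1) * 2 ^ (36 * r) := by
    rw [repu_eq hk, Finset.sum_mul]
    exact Finset.sum_congr rfl (fun r _ => Nat.mul_comm _ _)
  rw [h1, e1, h2, h5, pack_land (d := fun r => A - B * (k - 1 - r)) k f
    (fun r _ => (Nat.sub_le _ _).trans_lt hA)]

/-- differences -/
theorem linA_eq {k g m : ℕ} {N : ℕ → ℕ} (hN : ∀ r, r + 1 < k → N r ≤ N (r + 1))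
    (hg : 0 < k → N (k - 1) ≤ g) :
    linA k g m (∑ r ∈ Finset.range k, N r * 2 ^ (36 * r)) =
      ∑ r ∈ Finset.range (k + 1),
        (((if r < k then N r else g) - (if r = 0 then 0 else N (r - 1))) * m) * 2 ^ (36 * r) := by
  have h1 : linA k g m (∑ r ∈ Finset.range k, N r * 2 ^ (36 * r)) =
      m * ((∑ r ∈ Finset.range k, N r * 2 ^ (36 * r)) + Nat.shiftLeft g (36 * k) -
        Nat.shiftLeft (∑ r ∈ Finset.range k, N r * 2 ^ (36 * r)) 36) := rfl
  have s1 : Nat.shiftLeft g (36 * k) = g * 2 ^ (36 * k) := Nat.shiftLeft_eq _ _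
  have s2 : Nat.shiftLeft (∑ r ∈ Finset.range k, N r * 2 ^ (36 * r)) 36 =
      (∑ r ∈ Finset.range k, N r * 2 ^ (36 * r)) * 2 ^ 36 := Nat.shiftLeft_eq _ _
  have h2 : (∑ r ∈ Finset.range k, N r * 2 ^ (36 * r)) + g * 2 ^ (36 * k) =
      ∑ r ∈ Finset.range (k + 1), (if r < k then N r else g) * 2 ^ (36 * r) := by
    rw [Finset.sum_range_succ, if_neg (lt_irrefl k)]
    refine congrArg (· + g * 2 ^ (36 * k)) (Finset.sum_congr rfl (fun r hr => ?_))
    rw [Finset.mem_range] at hr
    rw [if_pos hr]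
  have h3 : (∑ r ∈ Finset.range k, N r * 2 ^ (36 * r)) * 2 ^ 36 =
      ∑ r ∈ Finset.range (k + 1), (if r = 0 then 0 else N (r - 1)) * 2 ^ (36 * r) := by
    rw [Finset.sum_range_succ', if_pos rfl, Nat.zero_mul, Nat.add_zero, Finset.sum_mul]
    refine Finset.sum_congr rfl (fun r _ => ?_)
    rw [if_neg (Nat.succ_ne_zero r), Nat.add_sub_cancel, Nat.mul_assoc, ← pow_add, Nat.mul_add 36]
  have h4 : (∑ r ∈ Finset.range (k + 1), ((if r < k then N r else g) -
        (if r = 0 then 0 else N (r - 1))) * 2 ^ (36 * r)) +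
      ∑ r ∈ Finset.range (k + 1), (if r = 0 then 0 else N (r - 1)) * 2 ^ (36 * r) =
      ∑ r ∈ Finset.range (k + 1), (if r < k then N r else g) * 2 ^ (36 * r) := by
    rw [← Finset.sum_add_distrib]
    refine Finset.sum_congr rfl (fun r hr => ?_)
    rw [Finset.mem_range] at hr
    rw [← Nat.add_mul, Nat.sub_add_cancel]
    rcases Nat.eq_zero_or_pos r with h0 | h0
    · rw [if_pos h0]
      exact Nat.zero_le _
    · rw [if_neg h0.ne']
      by_cases hr' : r < k
      · rw [if_pos hr']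
        have := hN (r - 1) (by omega)
        rw [Nat.sub_add_cancel h0] at this
        exact this
      · rw [if_neg hr']
        have : r = k := by omega
        subst this
        exact hg h0
  rw [h1, s1, s2, h2, h3, ← h4, Nat.add_sub_cancel, Finset.mul_sum]
  refine Finset.sum_congr rfl (fun r _ => ?_)
  ring

end Pool.Agent.LibM73
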