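import Pool.Agent.LibM73.Cell
set_option autoImplicit false
/-!
# The loops of simple combs

`v i = T - sl (n+i)` is the upper bound of the thickness of tooth `i`; all formulas are exact.
-/
namespace Pool.Agent.LibM73

theorem loopS_eq (B sh w : ℕ) (K : ℕ → ℕ → Bool) (g M acc : ℕ) :
    loopS B sh w K g M acc = K (M + 8 * g) (acc + ∑ i ∈ Finset.range (4 * g),
      Nat.shiftLeft w (36 * ((2 ^ 101 / (M + 2 * i) - B) >>> sh))) := by
  induction g generalizing M acc with
  | zero =>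
    simp only [Nat.mul_zero, Finset.range_zero, Finset.sum_empty, Nat.add_zero]
    rfl
  | succ g ih =>
    have h1 : loopS B sh w K (g + 1) M acc = loopS B sh w K g (M + 8)
        (acc + Nat.shiftLeft w (36 * ((2 ^ 101 / M - B) >>> sh)) +
          Nat.shiftLeft w (36 * ((2 ^ 101 / (M + 2) - B) >>> sh)) +
          Nat.shiftLeft w (36 * ((2 ^ 101 / (M + 4) - B) >>> sh)) +
          Nat.shiftLeft w (36 * ((2 ^ 101 / (M + 6) - B) >>> sh))) := rfl
    rw [h1, ih]
    have e1 : 4 * (g + 1) = 4 + 4 * g := by ring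
    have e2 : ∀ i, M + 2 * (4 + i) = M + 8 + 2 * i := fun i => by ring
    rw [e1, Finset.sum_range_add]
    simp only [e2]
    congr 1
    · ring
    · simp only [Finset.sum_range_succ, Finset.range_zero, Finset.sum_empty]
      simp only [Nat.mul_zero, Nat.add_zero, Nat.zero_add, Nat.mul_one]
      ring_nf

theorem loopS1_eq (B sh w : ℕ) (K : ℕ → Bool) (g M acc : ℕ) :
    loopS1 B sh w K g M acc = K (acc + ∑ i ∈ Finset.range g,
      Nat.shiftLeft w (36 * ((2 ^ 101 / (M + 2 * i) - B) >>> sh))) := by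
  induction g generalizing M acc with
  | zero =>
    simp only [Finset.range_zero, Finset.sum_empty, Nat.add_zero]
    rfl
  | succ g ih =>
    have h1 : loopS1 B sh w K (g + 1) M acc = loopS1 B sh w K g (M + 2)
        (acc + Nat.shiftLeft w (36 * ((2 ^ 101 / M - B) >>> sh))) := rfl
    have e2 : ∀ i, M + 2 * (i + 1) = M + 2 + 2 * i := fun i => by ring
    rw [h1, ih, Finset.sum_range_succ']
    simp only [e2, Nat.mul_zero, Nat.add_zero]
    congr 1
    ring

theorem shl_eq (a b : ℕ) : Nat.shiftLeft a b = a * 2 ^ b := Nat.shiftLeft_eq a b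

theorem sl_mono {a b : ℕ} (h : a ≤ b) : sl b ≤ sl a := sl_anti h

/-- the cell of the machine, exact formula -/
theorem cell_sub {T s u x : ℕ} (h1 : x ≤ T) (h2 : (T - x) >>> s ≤ u) (hs : (u + 1) * 2 ^ s ≤ T + 1) :
    (x - (T + 1 - (u + 1) * 2 ^ s)) >>> s = u - (T - x) >>> s := by
  rw [Nat.shiftRight_eq_div_pow, Nat.shiftRight_eq_div_pow] at *
  have hp : 0 < 2 ^ s := by positivity
  set q := (T - x) / 2 ^ s with hq
  set r := (T - x) % 2 ^ s with hr
  have h3 : 2 ^ s * q + r = T - x := Nat.div_add_mod _ _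
  have h4 : r < 2 ^ s := Nat.mod_lt _ hp
  obtain ⟨d, hd⟩ := Nat.exists_eq_add_of_le h2
  have h5 : x - (T + 1 - (u + 1) * 2 ^ s) = 2 ^ s * d + (2 ^ s - 1 - r) := by
    have e1 : (u + 1) * 2 ^ s = 2 ^ s * q + 2 ^ s * d + 2 ^ s := by
      rw [hd]; ring
    rw [e1] at hs ⊢
    omega
  rw [h5, hd, Nat.add_sub_cancel_left, Nat.mul_add_div hp,
    Nat.div_eq_of_lt (by omega), Nat.add_zero]

/-- sparse segment: exact value of the packed masses relative to the cell of the thickest tooth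
(`u = v >>> s` for the thickest tooth `j-1`) -/
theorem segSp_eq {ih : ℕ → ℕ → ℕ → Pf → ℕ → Bool} {T n j j' g w' ex : ℕ} {P : Pf}
    {tot s u i m : ℕ}
    (hg : j' + g = j) (hu : ∀ a, j' ≤ a → a < j → (T - sl (n + a)) >>> s ≤ u)
    (hT : ∀ a, j' ≤ a → a < j → sl (n + a) ≤ T) (hs : (u + 1) * 2 ^ s ≤ T + 1) :
    segSp ih T n j' g w' ex P tot s u i m =
      segE ih j' w' ex P tot i
        (∑ a ∈ Finset.Ico j' j, Nat.shiftLeft m (36 * (u - (T - sl (n + a)) >>> s))) (g * m) := by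
  unfold segSp
  rw [loopS_eq, loopS1_eq]
  have e0 : Nat.succ (Nat.mul 2 (Nat.add n j')) = 2 * (n + j') + 1 := rfl
  have e1 : Nat.sub (Nat.succ T) (Nat.shiftLeft (Nat.succ u) s) = T + 1 - (u + 1) * 2 ^ s := by
    rw [shl_eq]; rfl
  rw [e0, e1, Nat.zero_add]
  have e2 : ∀ i, 2 * (n + j') + 1 + 8 * Nat.div g 4 + 2 * i =
      2 * (n + j') + 1 + 2 * (4 * Nat.div g 4 + i) := fun i => by ring
  simp only [e2]
  rw [← Finset.sum_range_add (fun i => Nat.shiftLeft m (36 * ((2 ^ 101 / (2 * (n + j') + 1 + 2 * i) -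
    (T + 1 - (u + 1) * 2 ^ s)) >>> s)))]
  have e3 : 4 * Nat.div g 4 + Nat.mod g 4 = g := Nat.div_add_mod g 4
  rw [e3]
  have e4 : ∑ i ∈ Finset.range g, Nat.shiftLeft m (36 * ((2 ^ 101 / (2 * (n + j') + 1 + 2 * i) -
      (T + 1 - (u + 1) * 2 ^ s)) >>> s)) =
      ∑ a ∈ Finset.Ico j' j, Nat.shiftLeft m (36 * (u - (T - sl (n + a)) >>> s)) := by
    rw [Finset.sum_Ico_eq_sum_range]
    have e5 : j - j' = g := by omega
    rw [e5]
    refine Finset.sum_congr rfl (fun i hi => ?_)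
    rw [Finset.mem_range] at hi
    have e6 : 2 ^ 101 / (2 * (n + j') + 1 + 2 * i) = sl (n + (j' + i)) := by
      rw [sl_eq]
      congr 1
      ring
    rw [e6, cell_sub (hT _ (by omega) (by omega)) (hu _ (by omega) (by omega)) hs]
  rw [e4]
  rfl

/-! ### dense segments -/

theorem mu_iff {D N : ℕ} (hD : 0 < D) : (2 ^ 101 / D + 1) / 2 ≤ N ↔ sl N < D := by
  rw [sl_eq]
  have h1 : 2535301200456458802993406410752 / (2 * N + 1) < D ↔ 2 ^ 101 / D < 2 * N + 1 := by
    rw [Nat.div_lt_iff_lt_mul (by omega), Nat.div_lt_iff_lt_mul hD, Nat.mul_comm]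
    norm_num
  rw [h1]
  omega

theorem loopD_eq {T s m A Bn u : ℕ} {K : ℕ → ℕ → Bool} (hAB : A < Bn)
    (hu : u = (T - sl (Bn - 1)) / 2 ^ s) :
    ∀ g c μ acc, c + g = u → (T - sl A) / 2 ^ s ≤ c → A ≤ μ → μ < Bn →
      (∀ N, A ≤ N → N < μ → (T - sl N) / 2 ^ s < c) → (∀ N, μ ≤ N → c ≤ (T - sl N) / 2 ^ s) →
      acc = ∑ N ∈ Finset.Ico A μ, m * 2 ^ (36 * (c - 1 - (T - sl N) / 2 ^ s)) →
      ∃ μ' acc', loopD (2 ^ s) m K g (T + 1 - (c + 1) * 2 ^ s) μ acc = K μ' acc' ∧
        A ≤ μ' ∧ μ' < Bn ∧ (∀ N, A ≤ N → N < μ' → (T - sl N) / 2 ^ s < u) ∧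
        (∀ N, μ' ≤ N → u ≤ (T - sl N) / 2 ^ s) ∧
        acc' = ∑ N ∈ Finset.Ico A μ', m * 2 ^ (36 * (u - 1 - (T - sl N) / 2 ^ s)) := by
  have hp : 0 < 2 ^ s := by positivity
  intro g
  induction g with
  | zero =>
    intro c μ acc hc hA h1 h2 h3 h4 h5
    rw [Nat.add_zero] at hc
    subst hc
    exact ⟨μ, acc, rfl, h1, h2, h3, h4, h5⟩
  | succ g ih =>
    intro c μ acc hc hA h1 h2 h3 h4 h5
    set D := T + 1 - (c + 1) * 2 ^ s with hD
    set μ' := (2 ^ 101 / D + 1) / 2 with hμ'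
    have hcu : (c + 1) * 2 ^ s ≤ T - sl (Bn - 1) := by
      have : c + 1 ≤ (T - sl (Bn - 1)) / 2 ^ s := by omega
      exact (Nat.le_div_iff_mul_le hp).1 this
    have hslpos : (c + 1) * 2 ^ s ≤ T := by omega
    have hl0 : 0 < (c + 1) * 2 ^ s := by positivity
    have hD0 : 0 < D := by omega
    have key : ∀ N, μ' ≤ N ↔ c + 1 ≤ (T - sl N) / 2 ^ s := by
      intro N
      rw [hμ', mu_iff hD0, Nat.le_div_iff_mul_le hp]
      omega
    have hstep : loopD (2 ^ s) m K (g + 1) D μ acc =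
        loopD (2 ^ s) m K g (D - 2 ^ s) μ' (acc <<< 36 + (μ' - μ) * m) := rfl
    have hD' : D - 2 ^ s = T + 1 - (c + 1 + 1) * 2 ^ s := by
      have : (c + 1 + 1) * 2 ^ s = (c + 1) * 2 ^ s + 2 ^ s := by ring
      omega
    have hμμ : μ ≤ μ' := by
      by_contra hcon
      rw [not_le] at hcon
      rcases Nat.lt_or_ge μ' A with h6 | h6
      · have h7 := (key A).1 h6.le
        omega
      · have h7 := h3 μ' h6 hcon
        have h8 := (key μ').1 le_rfl
        omega
    rw [hstep, hD']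
    refine ih (c + 1) μ' _ (by omega) (by omega) (by omega) ?_ ?_ ?_ ?_
    · have : μ' ≤ Bn - 1 := (key _).2 (by omega)
      omega
    · intro N _ hN
      by_contra hcon
      rw [not_lt] at hcon
      have := (key N).2 hcon
      omega
    · intro N hN
      exact (key N).1 hN
    · rw [← Finset.sum_Ico_consecutive _ h1 hμμ, Nat.shiftLeft_eq, h5, Finset.sum_mul]
      congr 1
      · refine Finset.sum_congr rfl (fun N hN => ?_)
        rw [Finset.mem_Ico] at hN
        have h6 := h3 N hN.1 hN.2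
        have h7 : 36 * (c + 1 - 1 - (T - sl N) / 2 ^ s) =
            36 * (c - 1 - (T - sl N) / 2 ^ s) + 36 := by omega
        rw [h7, pow_add, mul_assoc]
      · have h8 : ∀ N ∈ Finset.Ico μ μ', m * 2 ^ (36 * (c + 1 - 1 - (T - sl N) / 2 ^ s)) = m := by
          intro N hN
          rw [Finset.mem_Ico] at hN
          have h6 := h4 N hN.1
          have h7 : c + 1 - 1 - (T - sl N) / 2 ^ s = 0 := by omega
          rw [h7]
          simp
        rw [Finset.sum_congr rfl h8, Finset.sum_const, Nat.card_Ico, smul_eq_mul]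

/-- dense segment: the same value (`u0`, `u` = values for the thinnest and the thickest tooth) -/
theorem segDe_eq {ih : ℕ → ℕ → ℕ → Pf → ℕ → Bool} {T n j j' g w' ex : ℕ} {P : Pf}
    {tot s u0 u i m : ℕ}
    (hg : j' + g = j) (hg0 : 0 < g) (h0 : u0 = (T - sl (n + j')) >>> s)
    (hu : u = (T - sl (n + (j - 1))) >>> s) (hT : sl (n + j') < T) :
    segDe ih T n j j' g w' ex P tot s u0 u i m =
      segE ih j' w' ex P tot i
        (∑ a ∈ Finset.Ico j' j, Nat.shiftLeft m (36 * (u - (T - sl (n + a)) >>> s))) (g * m) := by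
  have hp : 0 < 2 ^ s := by positivity
  rw [Nat.shiftRight_eq_div_pow] at h0 hu
  have hjn : n + (j - 1) = n + j - 1 := by omega
  have huu : u0 ≤ u := by
    rw [h0, hu]
    refine Nat.div_le_div_right ?_
    have := sl_mono (show n + j' ≤ n + (j - 1) by omega)
    omega
  have hlt : T - sl (n + j') < (u0 + 1) * 2 ^ s := by
    rw [h0, Nat.add_mul, Nat.one_mul, Nat.mul_comm]
    exact Nat.lt_mul_div_succ _ hp |>.trans_eq (by ring)
  have hmono : ∀ {N N' : ℕ}, N ≤ N' → (T - sl N) / 2 ^ s ≤ (T - sl N') / 2 ^ s := by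
    intro N N' h
    refine Nat.div_le_div_right ?_
    have := sl_mono h
    omega
  obtain ⟨μ, a, k1, k2, k3, k4, k5, k6⟩ := loopD_eq (T := T) (s := s) (m := m) (A := n + j')
    (Bn := n + j) (u := u) (K := fun μ a => segE ih j' w' ex P tot i
      (Nat.add (Nat.shiftLeft a 36) (Nat.mul (Nat.sub (Nat.add n j) μ) m)) (Nat.mul g m))
    (by omega) (by rw [hu, hjn]) (u - u0) u0 (n + j') 0 (by omega) (by rw [h0]) le_rfl (by omega)
    (fun N h1 h2 => absurd h1 (by omega)) (fun N h1 => by rw [h0]; exact hmono h1) (by simp)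
  have e1 : segDe ih T n j j' g w' ex P tot s u0 u i m =
      loopD (2 ^ s) m (fun μ a => segE ih j' w' ex P tot i
      (Nat.add (Nat.shiftLeft a 36) (Nat.mul (Nat.sub (Nat.add n j) μ) m)) (Nat.mul g m))
        (u - u0) (T + 1 - (u0 + 1) * 2 ^ s) (n + j') 0 := by
    unfold segDe
    rw [shl_eq, shl_eq]
    simp only [Nat.one_mul]
    rfl
  rw [e1, k1]
  have e2 : Nat.add (Nat.shiftLeft a 36) (Nat.mul (Nat.sub (Nat.add n j) μ) m) =
      ∑ a ∈ Finset.Ico j' j, Nat.shiftLeft m (36 * (u - (T - sl (n + a)) >>> s)) := by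
    have e3 : ∑ a ∈ Finset.Ico j' j, Nat.shiftLeft m (36 * (u - (T - sl (n + a)) >>> s)) =
        ∑ N ∈ Finset.Ico (n + j') (n + j), m * 2 ^ (36 * (u - (T - sl N) / 2 ^ s)) := by
      rw [Nat.add_comm n j', Nat.add_comm n j, ← Finset.sum_Ico_add']
      refine Finset.sum_congr rfl (fun a _ => ?_)
      rw [shl_eq, Nat.shiftRight_eq_div_pow, Nat.add_comm n a]
    rw [e3, ← Finset.sum_Ico_consecutive _ k2 k3.le, shl_eq, k6, Finset.sum_mul]
    show _ + (n + j - μ) * m = _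
    congr 1
    · refine Finset.sum_congr rfl (fun N hN => ?_)
      rw [Finset.mem_Ico] at hN
      have h6 := k4 N hN.1 hN.2
      have h7 : 36 * (u - (T - sl N) / 2 ^ s) =
          36 * (u - 1 - (T - sl N) / 2 ^ s) + 36 := by omega
      rw [h7, pow_add, mul_assoc]
    · have h8 : ∀ N ∈ Finset.Ico μ (n + j), m * 2 ^ (36 * (u - (T - sl N) / 2 ^ s)) = m := by
        intro N hN
        rw [Finset.mem_Ico] at hN
        have h6 := k5 N hN.1
        have h7 : u - (T - sl N) / 2 ^ s = 0 := by omega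
        rw [h7]
        simp
      rw [Finset.sum_congr rfl h8, Finset.sum_const, Nat.card_Ico, smul_eq_mul]
  rw [e2]
  rfl

end Pool.Agent.LibM73
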