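import Pool.Agent.LibM73.NumDefs
import Pool.Agent.LibMoser5.Defs
set_option autoImplicit false
/-! Soundness of the numeric layer. (`sd n = 1/(n+1/2)`, see LibMoser5.Defs) -/
namespace Pool.Agent.LibM73
open Pool.Agent.LibMoser5

/-- the unit -/
abbrev U : ℝ := 2 ^ 100

/-! ### floors -/

theorem div_le' (a b : ℕ) (_hb : 0 < b) : ((a / b : ℕ) : ℝ) ≤ (a : ℝ) / b := Nat.cast_div_le

theorem lt_div' (a b : ℕ) (hb : 0 < b) : (a : ℝ) / b < ((a / b : ℕ) : ℝ) + 1 := by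
  have hb' : (0 : ℝ) < b := by exact_mod_cast hb
  rw [div_lt_iff₀ hb']
  have h : a < a / b * b + b := Nat.lt_div_mul_add hb
  have h' : (a : ℝ) < ((a / b : ℕ) : ℝ) * b + b := by exact_mod_cast h
  linarith

theorem sl_eq (n : ℕ) : sl n = 2535301200456458802993406410752 / (2 * n + 1) := rfl

theorem sd_eq (n : ℕ) : U * sd n = 2535301200456458802993406410752 / (2 * n + 1) := by
  unfold sd U
  have h : ((n : ℝ) + 1 / 2) ≠ 0 := by positivity
  have h' : (2 * (n : ℝ) + 1) ≠ 0 := by positivity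
  field_simp
  norm_num

theorem sl_le (n : ℕ) : (sl n : ℝ) ≤ U * sd n := by
  rw [sl_eq, sd_eq]
  have h := div_le' 2535301200456458802993406410752 (2 * n + 1) (by positivity)
  push_cast at h ⊢
  exact h

theorem sl_lt (n : ℕ) : U * sd n < sl n + 1 := by
  rw [sl_eq, sd_eq]
  have h := lt_div' 2535301200456458802993406410752 (2 * n + 1) (by positivity)
  push_cast at h ⊢
  exact h

theorem sl_anti {m n : ℕ} (h : m ≤ n) : sl n ≤ sl m := by
  rw [sl_eq, sl_eq]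
  exact Nat.div_le_div_left (by omega) (by positivity)

/-! ### power sums over a symmetric progression -/

theorem odd_sum (c : ℕ) (j : ℕ) (hj : Odd j) :
    ∑ l ∈ Finset.range c, (2 * (l : ℝ) - ((c : ℝ) - 1)) ^ j = 0 := by
  have h := Finset.sum_range_reflect (fun l : ℕ => (2 * (l : ℝ) - ((c : ℝ) - 1)) ^ j) c
  have h2 : ∑ l ∈ Finset.range c, (2 * ((c - 1 - l : ℕ) : ℝ) - ((c : ℝ) - 1)) ^ j =
      ∑ l ∈ Finset.range c, -(2 * (l : ℝ) - ((c : ℝ) - 1)) ^ j := by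
    refine Finset.sum_congr rfl (fun l hl => ?_)
    rw [Finset.mem_range] at hl
    have h3 : ((c - 1 - l : ℕ) : ℝ) = (c : ℝ) - 1 - l := by
      rw [Nat.sub_sub, Nat.cast_sub (by omega)]
      push_cast
      ring
    rw [h3, ← hj.neg_pow]
    congr 1
    ring
  rw [h2, Finset.sum_neg_distrib] at h
  linarith

theorem sum2 (a : ℝ) (c : ℕ) : ∑ l ∈ Finset.range c, (2 * (l : ℝ) - a) ^ 2 =
    4 * ((c : ℝ) * (c - 1) * (2 * c - 1) / 6) - 4 * a * ((c : ℝ) * (c - 1) / 2) + a ^ 2 * c := by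
  induction c with
  | zero => simp
  | succ c ih =>
    rw [Finset.sum_range_succ, ih]
    push_cast
    ring

theorem sum4 (a : ℝ) (c : ℕ) : ∑ l ∈ Finset.range c, (2 * (l : ℝ) - a) ^ 4 =
    16 * ((c : ℝ) * (c - 1) * (2 * c - 1) * (3 * c ^ 2 - 3 * c - 1) / 30)
      - 32 * a * ((c : ℝ) * (c - 1) / 2) ^ 2
      + 24 * a ^ 2 * ((c : ℝ) * (c - 1) * (2 * c - 1) / 6)
      - 8 * a ^ 3 * ((c : ℝ) * (c - 1) / 2) + a ^ 4 * c := by
  induction c with
  | zero => simp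
  | succ c ih =>
    rw [Finset.sum_range_succ, ih]
    push_cast
    ring

theorem sum6 (a : ℝ) (c : ℕ) : ∑ l ∈ Finset.range c, (2 * (l : ℝ) - a) ^ 6 =
    64 * ((c : ℝ) * (c - 1) * (2 * c - 1) * (3 * c ^ 4 - 6 * c ^ 3 + 3 * c + 1) / 42)
      - 192 * a * ((c : ℝ) ^ 2 * (c - 1) ^ 2 * (2 * c ^ 2 - 2 * c - 1) / 12)
      + 240 * a ^ 2 * ((c : ℝ) * (c - 1) * (2 * c - 1) * (3 * c ^ 2 - 3 * c - 1) / 30)
      - 160 * a ^ 3 * ((c : ℝ) * (c - 1) / 2) ^ 2
      + 60 * a ^ 4 * ((c : ℝ) * (c - 1) * (2 * c - 1) / 6)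
      - 12 * a ^ 5 * ((c : ℝ) * (c - 1) / 2) + a ^ 6 * c := by
  induction c with
  | zero => simp
  | succ c ih =>
    rw [Finset.sum_range_succ, ih]
    push_cast
    ring

theorem ev2 (c : ℕ) : ∑ l ∈ Finset.range c, (2 * (l : ℝ) - ((c : ℝ) - 1)) ^ 2 =
    (c : ℝ) * ((c : ℝ) ^ 2 - 1) / 3 := by
  rw [sum2]; ring

theorem ev4 (c : ℕ) : ∑ l ∈ Finset.range c, (2 * (l : ℝ) - ((c : ℝ) - 1)) ^ 4 =
    (c : ℝ) * ((c : ℝ) ^ 2 - 1) * (3 * (c : ℝ) ^ 2 - 7) / 15 := by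
  rw [sum4]; ring

theorem ev6 (c : ℕ) : ∑ l ∈ Finset.range c, (2 * (l : ℝ) - ((c : ℝ) - 1)) ^ 6 =
    (c : ℝ) * ((c : ℝ) ^ 2 - 1) * (3 * (c : ℝ) ^ 4 - 18 * (c : ℝ) ^ 2 + 31) / 21 := by
  rw [sum6]; ring

/-! ### the series -/

/-- numerator of the `l`-th relative deviation -/
noncomputable def yy (N : ℝ) (d c : ℕ) (l : ℕ) : ℝ := (d : ℝ) / N * (2 * (l : ℝ) - ((c : ℝ) - 1))

theorem sum_yy (N : ℝ) (d c j : ℕ) : ∑ l ∈ Finset.range c, yy N d c l ^ j =
    ((d : ℝ) / N) ^ j * ∑ l ∈ Finset.range c, (2 * (l : ℝ) - ((c : ℝ) - 1)) ^ j := by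
  rw [Finset.mul_sum]
  refine Finset.sum_congr rfl (fun l _ => ?_)
  unfold yy
  rw [mul_pow]

section
variable {n d c : ℕ} {N : ℝ}

theorem term_eq (hN : N = 2 * n + 1 + d * ((c : ℝ) - 1)) (hN0 : 0 < N) (l : ℕ) :
    0 < 1 + yy N d c l ∧ sd (n + d * l) = 2 / N * (1 / (1 + yy N d c l)) := by
  have h1 : N * (1 + yy N d c l) = 2 * n + 1 + 2 * d * l := by
    unfold yy
    have hN1 : N ≠ 0 := hN0.ne'
    field_simp
    rw [hN]
    ring
  have h2 : (0 : ℝ) < 2 * n + 1 + 2 * d * l := by positivity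
  have h3 : 0 < 1 + yy N d c l := by
    rw [← h1] at h2
    exact (pos_iff_pos_of_mul_pos h2).1 hN0
  refine ⟨h3, ?_⟩
  have h4 : 2 / N * (1 / (1 + yy N d c l)) = 2 / (N * (1 + yy N d c l)) := by
    field_simp
  rw [h4, h1]
  unfold sd
  push_cast
  rw [div_eq_div_iff (by positivity) (by positivity)]
  ring

theorem geo3 {y : ℝ} (hy : 0 < 1 + y) : 1 / (1 + y) = 1 - y + y ^ 2 - y ^ 3 + y ^ 4 / (1 + y) := by
  field_simp
  ring

theorem geo7 {y : ℝ} (hy : 0 < 1 + y) : 1 / (1 + y) =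
    1 - y + y ^ 2 - y ^ 3 + y ^ 4 - y ^ 5 + y ^ 6 - y ^ 7 + y ^ 8 / (1 + y) := by
  field_simp
  ring

theorem sum_y_odd (j : ℕ) (hj : Odd j) : ∑ l ∈ Finset.range c, yy N d c l ^ j = 0 := by
  rw [sum_yy, odd_sum c j hj, mul_zero]

/-- two terms -/
theorem series1 (hN : N = 2 * n + 1 + d * ((c : ℝ) - 1)) (hN0 : 0 < N) :
    ∑ l ∈ Finset.range c, sd (n + d * l) =
      2 / N * ((c : ℝ) + ((d : ℝ) / N) ^ 2 * ((c : ℝ) * ((c : ℝ) ^ 2 - 1) / 3) +
        ∑ l ∈ Finset.range c, yy N d c l ^ 4 / (1 + yy N d c l)) := by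
  have h1 : ∀ l ∈ Finset.range c, sd (n + d * l) =
      2 / N * (1 - yy N d c l ^ 1 + yy N d c l ^ 2 - yy N d c l ^ 3 +
        yy N d c l ^ 4 / (1 + yy N d c l)) := by
    intro l _
    obtain ⟨h2, h3⟩ := term_eq hN hN0 l
    rw [h3, geo3 h2, pow_one]
  rw [Finset.sum_congr rfl h1, ← Finset.mul_sum]
  congr 1
  rw [Finset.sum_add_distrib, Finset.sum_sub_distrib, Finset.sum_add_distrib,
    Finset.sum_sub_distrib, sum_y_odd 1 (by decide), sum_y_odd 3 (by decide), sum_yy N d c 2, ev2]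
  simp

/-- four terms -/
theorem series3 (hN : N = 2 * n + 1 + d * ((c : ℝ) - 1)) (hN0 : 0 < N) :
    ∑ l ∈ Finset.range c, sd (n + d * l) =
      2 / N * ((c : ℝ) + ((d : ℝ) / N) ^ 2 * ((c : ℝ) * ((c : ℝ) ^ 2 - 1) / 3)
        + ((d : ℝ) / N) ^ 4 * ((c : ℝ) * ((c : ℝ) ^ 2 - 1) * (3 * (c : ℝ) ^ 2 - 7) / 15)
        + ((d : ℝ) / N) ^ 6 * ((c : ℝ) * ((c : ℝ) ^ 2 - 1) *
            (3 * (c : ℝ) ^ 4 - 18 * (c : ℝ) ^ 2 + 31) / 21) +
        ∑ l ∈ Finset.range c, yy N d c l ^ 8 / (1 + yy N d c l)) := by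
  have h1 : ∀ l ∈ Finset.range c, sd (n + d * l) =
      2 / N * (1 - yy N d c l ^ 1 + yy N d c l ^ 2 - yy N d c l ^ 3 + yy N d c l ^ 4
        - yy N d c l ^ 5 + yy N d c l ^ 6 - yy N d c l ^ 7 +
        yy N d c l ^ 8 / (1 + yy N d c l)) := by
    intro l _
    obtain ⟨h2, h3⟩ := term_eq hN hN0 l
    rw [h3, geo7 h2, pow_one]
  rw [Finset.sum_congr rfl h1, ← Finset.mul_sum]
  congr 1
  rw [Finset.sum_add_distrib, Finset.sum_sub_distrib, Finset.sum_add_distrib,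
    Finset.sum_sub_distrib, Finset.sum_add_distrib, Finset.sum_sub_distrib, Finset.sum_add_distrib,
    Finset.sum_sub_distrib, sum_y_odd 1 (by decide), sum_y_odd 3 (by decide),
    sum_y_odd 5 (by decide), sum_y_odd 7 (by decide), sum_yy N d c 2, ev2, sum_yy N d c 4, ev4,
    sum_yy N d c 6, ev6]
  simp

theorem yy_abs {r : ℝ} (hN0 : 0 < N) (hr : (d : ℝ) * c ≤ r * N) (l : ℕ) (hl : l < c) :
    |yy N d c l| ≤ r := by
  have h1 : |2 * (l : ℝ) - ((c : ℝ) - 1)| ≤ c := by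
    have : (l : ℝ) + 1 ≤ c := by exact_mod_cast hl
    have h0 : (0 : ℝ) ≤ l := Nat.cast_nonneg l
    rw [abs_le]
    constructor <;> linarith
  unfold yy
  rw [abs_mul, abs_of_nonneg (by positivity)]
  calc (d : ℝ) / N * |2 * (l : ℝ) - ((c : ℝ) - 1)| ≤ (d : ℝ) / N * c :=
        mul_le_mul_of_nonneg_left h1 (by positivity)
    _ ≤ r := by
        rw [div_mul_eq_mul_div, div_le_iff₀ hN0]
        exact hr

theorem rem_bounds {r e : ℝ} {j : ℕ} (hj : Even j) (hN : N = 2 * n + 1 + d * ((c : ℝ) - 1))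
    (hN0 : 0 < N) (hr : (d : ℝ) * c ≤ r * N) (hr0 : 0 ≤ r) (hr1 : r < 1)
    (he : r ^ j ≤ e * (1 - r)) :
    0 ≤ ∑ l ∈ Finset.range c, yy N d c l ^ j / (1 + yy N d c l) ∧
      ∑ l ∈ Finset.range c, yy N d c l ^ j / (1 + yy N d c l) ≤ c * e := by
  constructor
  · refine Finset.sum_nonneg (fun l _ => ?_)
    exact div_nonneg (hj.pow_nonneg _) (term_eq hN hN0 l).1.le
  · have h1 : ∀ l ∈ Finset.range c, yy N d c l ^ j / (1 + yy N d c l) ≤ e := by
      intro l hl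
      rw [Finset.mem_range] at hl
      have h2 := yy_abs hN0 hr l hl
      have h3 := (term_eq hN hN0 l).1
      rw [div_le_iff₀ h3]
      have h4 : yy N d c l ^ j ≤ r ^ j := by
        rw [← hj.pow_abs]
        exact pow_le_pow_left₀ (abs_nonneg _) h2 j
      have h5 := (abs_le.1 h2).1
      have he0 : 0 ≤ e := by
        by_contra hc
        rw [not_le] at hc
        have : e * (1 - r) < 0 := mul_neg_of_neg_of_pos hc (by linarith)
        have : 0 ≤ r ^ j := pow_nonneg hr0 j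
        linarith
      calc yy N d c l ^ j ≤ r ^ j := h4
        _ ≤ e * (1 - r) := he
        _ ≤ e * (1 + yy N d c l) := mul_le_mul_of_nonneg_left (by linarith) he0
    refine (Finset.sum_le_sum h1).trans ?_
    rw [Finset.sum_const, Finset.card_range, nsmul_eq_mul]

end

/-! ### the upper bound -/

/-- the sum `S` (in units) is between `x` and `hi x c` -/
def Bd (x c : ℕ) (S : ℝ) : Prop := (x : ℝ) ≤ S ∧ S ≤ hi x c

theorem hi_eq (x c : ℕ) : hi x c = x + x / 2 ^ 71 + 3 * c := by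
  have : hi x c = x + x >>> 71 + 3 * c := rfl
  rw [this, Nat.shiftRight_eq_div_pow]

theorem Bd_of {x c : ℕ} {S : ℝ} (hc : 1 ≤ c) (h1 : (x : ℝ) ≤ S)
    (h2 : S ≤ (x + 1) * (1 + 1 / 2 ^ 71)) : Bd x c S := by
  refine ⟨h1, h2.trans ?_⟩
  rw [hi_eq]
  have h3 := lt_div' x (2 ^ 71) (by positivity)
  have h4 : (1 : ℝ) ≤ c := by exact_mod_cast hc
  push_cast at h3 ⊢
  have h5 : ((x : ℝ) + 1) * (1 + 1 / 2 ^ 71) = x + x / 2 ^ 71 + (1 + 1 / 2 ^ 71) := by ring
  rw [h5]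
  have h6 : (1 : ℝ) + 1 / 2 ^ 71 ≤ 2 := by norm_num
  linarith

theorem Bd_add {x y c c' : ℕ} {S S' : ℝ} (h : Bd x c S) (h' : Bd y c' S') :
    Bd (x + y) (c + c') (S + S') := by
  obtain ⟨h1, h2⟩ := h
  obtain ⟨h3, h4⟩ := h'
  refine ⟨by push_cast; linarith, ?_⟩
  rw [hi_eq] at h2 h4 ⊢
  have h5 : x / 2 ^ 71 + y / 2 ^ 71 ≤ (x + y) / 2 ^ 71 := Nat.div_add_div_le_add_div
  have h6 : (((x / 2 ^ 71 : ℕ) : ℝ)) + ((y / 2 ^ 71 : ℕ) : ℝ) ≤ (((x + y) / 2 ^ 71 : ℕ) : ℝ) := by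
    exact_mod_cast h5
  push_cast at h2 h4 h6 ⊢
  linarith

theorem Bd_zero : Bd 0 0 0 := by
  refine ⟨by simp, ?_⟩
  rw [hi_eq]
  simp

theorem Bd_one (n : ℕ) : Bd (sl n) 1 (U * sd n) := by
  refine Bd_of le_rfl (sl_le n) ?_
  have h1 := sl_lt n
  have h2 : (0 : ℝ) ≤ (sl n : ℝ) + 1 := by positivity
  nlinarith [show (0 : ℝ) ≤ 1 / 2 ^ 71 by positivity]

/-- general step from the series to the bounds -/
theorem Bd_series {x c : ℕ} {M R N : ℝ} (hc : 1 ≤ c) (hN0 : 0 < N) (hM : (c : ℝ) ≤ M)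
    (hx : (x : ℝ) ≤ U * (2 / N * M)) (hx' : U * (2 / N * M) < x + 1)
    (hR : 0 ≤ R) (hR' : R ≤ c * (1 / 2 ^ 71)) : Bd x c (U * (2 / N * (M + R))) := by
  have hU : (0 : ℝ) < U * (2 / N) := by unfold U; positivity
  refine Bd_of hc ?_ ?_
  · refine hx.trans ?_
    rw [← mul_assoc, ← mul_assoc]
    exact mul_le_mul_of_nonneg_left (by linarith) hU.le
  · have h1 : M + R ≤ M * (1 + 1 / 2 ^ 71) := by
      have : (c : ℝ) * (1 / 2 ^ 71) ≤ M * (1 / 2 ^ 71) :=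
        mul_le_mul_of_nonneg_right hM (by positivity)
      linarith
    calc U * (2 / N * (M + R)) = U * (2 / N) * (M + R) := by ring
      _ ≤ U * (2 / N) * (M * (1 + 1 / 2 ^ 71)) := mul_le_mul_of_nonneg_left h1 hU.le
      _ = U * (2 / N * M) * (1 + 1 / 2 ^ 71) := by ring
      _ ≤ (x + 1) * (1 + 1 / 2 ^ 71) := mul_le_mul_of_nonneg_right hx'.le (by positivity)

/-! ### the two series -/

section
variable {n d c : ℕ}

theorem clo1_eq (c N qm : ℕ) : clo1 c N qm =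
    2535301200456458802993406410752 * c * (3 * (N * N) + qm) / (3 * (N * N) * N) := rfl

theorem clo3_eq (c N N2 q m w : ℕ) : clo3 c N N2 q m w =
    2535301200456458802993406410752 * c *
      (105 * (N2 * N2 * N2) + q * m * (35 * (N2 * N2) + q * (7 * N2 * (3 * w - 7) +
        q * (5 * ((3 * (w * w) + 31) - 18 * w))))) / (105 * (N2 * N2 * N2) * N) := rfl

/-- the number `N` -/
def nn (d n c : ℕ) : ℕ := 2 * n + 1 + d * (c - 1)

theorem nn_cast (hc : 1 ≤ c) : (nn d n c : ℝ) = 2 * n + 1 + d * ((c : ℝ) - 1) := by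
  unfold nn
  push_cast [Nat.cast_sub hc]
  ring

theorem nn_pos : 0 < nn d n c := by unfold nn; positivity

theorem bd1 (hc : 1 ≤ c) (h : 262144 * (d * c) ≤ nn d n c) :
    Bd (clo1 c (nn d n c) (d * d * (c * c - 1))) c (U * ∑ l ∈ Finset.range c, sd (n + d * l)) := by
  have hN := nn_cast (n := n) (d := d) hc
  have hN0 : (0 : ℝ) < nn d n c := by exact_mod_cast nn_pos
  have hNn := nn_pos (n := n) (d := d) (c := c)
  set K : ℕ := nn d n c with hK
  have hc' : (1 : ℝ) ≤ c := by exact_mod_cast hc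
  have hr : (d : ℝ) * c ≤ 1 / 262144 * K := by
    have : (262144 : ℝ) * (d * c) ≤ K := by exact_mod_cast h
    linarith
  obtain ⟨r1, r2⟩ := rem_bounds (e := 1 / 2 ^ 71) (j := 4) (by decide) hN hN0 hr (by norm_num)
    (by norm_num) (by norm_num)
  rw [series1 hN hN0]
  have hcc : 1 ≤ c * c := Nat.mul_pos hc hc
  have e1 : (((2535301200456458802993406410752 * c * (3 * (K * K) + d * d * (c * c - 1)) : ℕ)) : ℝ) /
      ((3 * (K * K) * K : ℕ) : ℝ) = U * (2 / K * ((c : ℝ) + ((d : ℝ) / K) ^ 2 *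
        ((c : ℝ) * ((c : ℝ) ^ 2 - 1) / 3))) := by
    push_cast [Nat.cast_sub hcc]
    unfold U
    field_simp
    ring
  refine Bd_series hc hN0 ?_ ?_ ?_ r1 r2
  · have : (0 : ℝ) ≤ (c : ℝ) ^ 2 - 1 := by nlinarith
    have h9 : 0 ≤ ((d : ℝ) / K) ^ 2 * ((c : ℝ) * ((c : ℝ) ^ 2 - 1) / 3) := by positivity
    linarith
  · rw [clo1_eq, ← e1]
    exact div_le' _ _ (by positivity)
  · rw [clo1_eq, ← e1]
    exact lt_div' _ _ (by positivity)

theorem bd3 (hc : 1 ≤ c) (h : 512 * (d * c) ≤ nn d n c) :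
    Bd (clo3 c (nn d n c) (nn d n c * nn d n c) (d * d) (c * c - 1) (c * c)) c
      (U * ∑ l ∈ Finset.range c, sd (n + d * l)) := by
  have hN := nn_cast (n := n) (d := d) hc
  have hN0 : (0 : ℝ) < nn d n c := by exact_mod_cast nn_pos
  have hNn := nn_pos (n := n) (d := d) (c := c)
  set K : ℕ := nn d n c with hK
  have hc' : (1 : ℝ) ≤ c := by exact_mod_cast hc
  have hr : (d : ℝ) * c ≤ 1 / 512 * K := by
    have : (512 : ℝ) * (d * c) ≤ K := by exact_mod_cast h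
    linarith
  obtain ⟨r1, r2⟩ := rem_bounds (e := 1 / 2 ^ 71) (j := 8) (by decide) hN hN0 hr (by norm_num)
    (by norm_num) (by norm_num)
  rw [series3 hN hN0]
  have hcc : 1 ≤ c * c := Nat.mul_pos hc hc
  -- the truncated differences
  have t1 : ((c * c - 1 : ℕ) : ℝ) * ((3 * (c * c) - 7 : ℕ) : ℝ) =
      ((c : ℝ) ^ 2 - 1) * (3 * (c : ℝ) ^ 2 - 7) := by
    rcases hc.eq_or_lt with h1 | h1
    · rw [← h1]; norm_num
    · have h2 : 4 ≤ c * c := by nlinarith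
      rw [Nat.cast_sub hcc, Nat.cast_sub (by omega)]
      push_cast
      ring
  have t2 : (((3 * (c * c * (c * c)) + 31) - 18 * (c * c) : ℕ) : ℝ) =
      3 * (c : ℝ) ^ 4 - 18 * (c : ℝ) ^ 2 + 31 := by
    have h2 : 18 * (c * c) ≤ 3 * (c * c * (c * c)) + 31 := by
      have : (0 : ℤ) ≤ 3 * (c * c * (c * c)) + 31 - 18 * (c * c) := by
        nlinarith [sq_nonneg ((c : ℤ) * c - 3)]
      have h3 : ((18 * (c * c) : ℕ) : ℤ) ≤ ((3 * (c * c * (c * c)) + 31 : ℕ) : ℤ) := by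
        push_cast
        linarith
      exact_mod_cast h3
    rw [Nat.cast_sub h2]
    push_cast
    ring
  have t3 : ((c * c - 1 : ℕ) : ℝ) = (c : ℝ) ^ 2 - 1 := by
    rw [Nat.cast_sub hcc]; push_cast; ring
  have e1 : (((2535301200456458802993406410752 * c *
      (105 * (K * K * (K * K) * (K * K)) + d * d * (c * c - 1) *
        (35 * (K * K * (K * K)) + d * d * (7 * (K * K) * (3 * (c * c) - 7) +
          d * d * (5 * ((3 * (c * c * (c * c)) + 31) - 18 * (c * c)))))) : ℕ)) : ℝ) /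
      ((105 * (K * K * (K * K) * (K * K)) * K : ℕ) : ℝ) =
      U * (2 / K * ((c : ℝ) + ((d : ℝ) / K) ^ 2 * ((c : ℝ) * ((c : ℝ) ^ 2 - 1) / 3)
        + ((d : ℝ) / K) ^ 4 * ((c : ℝ) * ((c : ℝ) ^ 2 - 1) * (3 * (c : ℝ) ^ 2 - 7) / 15)
        + ((d : ℝ) / K) ^ 6 * ((c : ℝ) * ((c : ℝ) ^ 2 - 1) *
            (3 * (c : ℝ) ^ 4 - 18 * (c : ℝ) ^ 2 + 31) / 21))) := by
    have e2 : (((105 * (K * K * (K * K) * (K * K)) + d * d * (c * c - 1) *
        (35 * (K * K * (K * K)) + d * d * (7 * (K * K) * (3 * (c * c) - 7) +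
          d * d * (5 * ((3 * (c * c * (c * c)) + 31) - 18 * (c * c)))))) : ℕ) : ℝ) =
        105 * (K : ℝ) ^ 6 + (d : ℝ) ^ 2 * (((c : ℝ) ^ 2 - 1) * (35 * (K : ℝ) ^ 4)) +
          (d : ℝ) ^ 4 * (7 * (K : ℝ) ^ 2 * (((c : ℝ) ^ 2 - 1) * (3 * (c : ℝ) ^ 2 - 7))) +
          (d : ℝ) ^ 6 * (5 * (((c : ℝ) ^ 2 - 1) * (3 * (c : ℝ) ^ 4 - 18 * (c : ℝ) ^ 2 + 31))) := by
      rw [← t1, ← t2, ← t3]
      push_cast
      ring
    rw [Nat.cast_mul, e2]
    push_cast
    unfold U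
    field_simp
    ring
  refine Bd_series hc hN0 ?_ ?_ ?_ r1 r2
  · have h7 : (0 : ℝ) ≤ (c : ℝ) ^ 2 - 1 := by nlinarith
    have h8 : (0 : ℝ) ≤ ((c : ℝ) ^ 2 - 1) * (3 * (c : ℝ) ^ 2 - 7) := by
      rw [← t1]; positivity
    have h8' : (0 : ℝ) ≤ 3 * (c : ℝ) ^ 4 - 18 * (c : ℝ) ^ 2 + 31 := by
      rw [← t2]; positivity
    have h9 : 0 ≤ ((d : ℝ) / K) ^ 2 * ((c : ℝ) * ((c : ℝ) ^ 2 - 1) / 3) := by positivity
    have h10 : 0 ≤ ((d : ℝ) / K) ^ 4 *
        ((c : ℝ) * ((c : ℝ) ^ 2 - 1) * (3 * (c : ℝ) ^ 2 - 7) / 15) := by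
      rw [mul_assoc (c : ℝ)]
      positivity
    have h11 : 0 ≤ ((d : ℝ) / K) ^ 6 * ((c : ℝ) * ((c : ℝ) ^ 2 - 1) *
            (3 * (c : ℝ) ^ 4 - 18 * (c : ℝ) ^ 2 + 31) / 21) := by positivity
    linarith
  · rw [clo3_eq, ← e1]
    exact div_le' _ _ (by positivity)
  · rw [clo3_eq, ← e1]
    exact lt_div' _ _ (by positivity)

end

/-! ### the recursion -/

theorem apl_zero (d n c : ℕ) : apl 0 d n c = c * sl n := rfl

theorem brec (b : Bool) (x y : ℕ) :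
    Bool.rec (motive := fun _ => ℕ) x y b = bif b then y else x := by
  cases b <;> rfl

theorem apl_succ (f d n c : ℕ) : apl (f + 1) d n c =
    bif Nat.ble (262144 * (d * c)) (nn d n c) then clo1 c (nn d n c) (d * d * (c * c - 1))
    else bif Nat.ble (512 * (d * c)) (nn d n c) then
      clo3 c (nn d n c) (nn d n c * nn d n c) (d * d) (c * c - 1) (c * c)
    else bif Nat.ble c 1 then c * sl n
    else apl f d n (c / 2) + apl f d (n + d * (c / 2)) (c - c / 2) := by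
  have h : apl (f + 1) d n c =
      Bool.rec (motive := fun _ => ℕ)
        (Bool.rec (motive := fun _ => ℕ)
          (Bool.rec (motive := fun _ => ℕ)
            (apl f d n (c / 2) + apl f d (n + d * (c / 2)) (c - c / 2))
            (c * sl n) (Nat.ble c 1))
          (clo3 c (nn d n c) (nn d n c * nn d n c) (d * d) (c * c - 1) (c * c))
          (Nat.ble (512 * (d * c)) (nn d n c)))
        (clo1 c (nn d n c) (d * d * (c * c - 1)))
        (Nat.ble (262144 * (d * c)) (nn d n c)) := rfl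
  rw [h, brec, brec, brec]

theorem ap_eq (d n c : ℕ) : ap d n c =
    bif Nat.ble (262144 * (d * c)) (nn d n c) then clo1 c (nn d n c) (d * d * (c * c - 1))
    else apl 20 d n c := by
  have h : ap d n c = Bool.rec (motive := fun _ => ℕ) (apl 20 d n c)
      (clo1 c (nn d n c) (d * d * (c * c - 1)))
      (Nat.ble (262144 * (d * c)) (nn d n c)) := rfl
  rw [h, brec]

theorem clo1_zero (N qm : ℕ) : clo1 0 N qm = 0 := by
  rw [clo1_eq]; simp

theorem clo3_zero (N N2 q m w : ℕ) : clo3 0 N N2 q m w = 0 := by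
  rw [clo3_eq]; simp

theorem bd_small {d n c : ℕ} (hc : c ≤ 1) :
    Bd (c * sl n) c (U * ∑ l ∈ Finset.range c, sd (n + d * l)) := by
  rcases Nat.le_one_iff_eq_zero_or_eq_one.1 hc with rfl | rfl
  · simpa using Bd_zero
  · simpa using Bd_one n

theorem bd1' {d n c : ℕ} (h : 262144 * (d * c) ≤ nn d n c) :
    Bd (clo1 c (nn d n c) (d * d * (c * c - 1))) c (U * ∑ l ∈ Finset.range c, sd (n + d * l)) := by
  rcases Nat.eq_zero_or_pos c with rfl | hc
  · rw [clo1_zero]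
    simpa using Bd_zero
  · exact bd1 hc h

theorem bd3' {d n c : ℕ} (h : 512 * (d * c) ≤ nn d n c) :
    Bd (clo3 c (nn d n c) (nn d n c * nn d n c) (d * d) (c * c - 1) (c * c)) c
      (U * ∑ l ∈ Finset.range c, sd (n + d * l)) := by
  rcases Nat.eq_zero_or_pos c with rfl | hc
  · rw [clo3_zero]
    simpa using Bd_zero
  · exact bd3 hc h

theorem apl_bd (f : ℕ) : ∀ {d n c : ℕ}, c ≤ 2 ^ f →
    Bd (apl f d n c) c (U * ∑ l ∈ Finset.range c, sd (n + d * l)) := by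
  induction f with
  | zero =>
    intro d n c hc
    rw [apl_zero]
    exact bd_small hc
  | succ f ih =>
    intro d n c hc
    rw [apl_succ]
    rcases h1 : Nat.ble (262144 * (d * c)) (nn d n c) with _ | _
    · rcases h2 : Nat.ble (512 * (d * c)) (nn d n c) with _ | _
      · rcases h3 : Nat.ble c 1 with _ | _
        · simp only [cond_false]
          have hp : 2 ^ (f + 1) = 2 * 2 ^ f := by ring
          have i1 := ih (d := d) (n := n) (c := c / 2) (by omega)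
          have i2 := ih (d := d) (n := n + d * (c / 2)) (c := c - c / 2) (by omega)
          have h4 := Bd_add i1 i2
          have e1 : c / 2 + (c - c / 2) = c := by omega
          have e2 : ∑ l ∈ Finset.range c, sd (n + d * l) =
              ∑ l ∈ Finset.range (c / 2), sd (n + d * l) +
                ∑ l ∈ Finset.range (c - c / 2), sd (n + d * (c / 2) + d * l) := by
            have h5 := Finset.sum_range_add (fun l => sd (n + d * l)) (c / 2) (c - c / 2)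
            rw [e1] at h5
            rw [h5]
            congr 1
            refine Finset.sum_congr rfl (fun l _ => ?_)
            congr 1
            ring
          rw [e1] at h4
          rw [e2, mul_add]
          exact h4
        · simp only [cond_false, cond_true]
          exact bd_small (Nat.le_of_ble_eq_true h3)
      · simp only [cond_false, cond_true]
        exact bd3' (Nat.le_of_ble_eq_true h2)
    · simp only [cond_true]
      exact bd1' (Nat.le_of_ble_eq_true h1)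

theorem ap_bd {d n c : ℕ} (hc : c ≤ 2 ^ 20) :
    Bd (ap d n c) c (U * ∑ l ∈ Finset.range c, sd (n + d * l)) := by
  rw [ap_eq]
  rcases h1 : Nat.ble (262144 * (d * c)) (nn d n c) with _ | _
  · simp only [cond_false]
    exact apl_bd 20 hc
  · simp only [cond_true]
    exact bd1' (Nat.le_of_ble_eq_true h1)

/-- the lower bound -/
theorem ap_le {d n c : ℕ} (hc : c ≤ 2 ^ 20) :
    (ap d n c : ℝ) ≤ U * ∑ l ∈ Finset.range c, sd (n + d * l) := (ap_bd hc).1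

/-- the upper bound -/
theorem ap_hi {d n c : ℕ} (hc : c ≤ 2 ^ 20) :
    U * ∑ l ∈ Finset.range c, sd (n + d * l) ≤ hi (ap d n c) c := (ap_bd hc).2

/-- the same for `apl` -/
theorem apl_le {d n c f : ℕ} (hc : c ≤ 2 ^ f) :
    (apl f d n c : ℝ) ≤ U * ∑ l ∈ Finset.range c, sd (n + d * l) := (apl_bd f hc).1

theorem apl_hi {d n c f : ℕ} (hc : c ≤ 2 ^ f) :
    U * ∑ l ∈ Finset.range c, sd (n + d * l) ≤ hi (apl f d n c) c := (apl_bd f hc).2

end Pool.Agent.LibM73
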