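
set_option autoImplicit false
/-!
# Checking machine for the explicit phase: numeric layer

Interval arithmetic in units `2^-100`.  Everything is written with `Nat.div` etc. and direct
recursors, so that the kernel evaluates it quickly.
-/
namespace Pool.Agent.LibM73

noncomputable section

/-- lower bound of `sd n` (`sd n = 2/(2n+1)`) in units `2^-100` -/
def sl (n : Nat) : Nat :=
  Nat.div (nat_lit 2535301200456458802993406410752) (Nat.succ (Nat.mul (nat_lit 2) n))

/-- two terms of the series for a sum over an arithmetic progression;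
`N = 2n+1+d(c-1)`, `qm = d^2 (c^2-1)` -/
def clo1 (c N qm : Nat) : Nat :=
  Nat.div
    (Nat.mul (Nat.mul (nat_lit 2535301200456458802993406410752) c)
      (Nat.add (Nat.mul (nat_lit 3) (Nat.mul N N)) qm))
    (Nat.mul (Nat.mul (nat_lit 3) (Nat.mul N N)) N)

/-- four terms of the series; `N2 = N*N`, `q = d*d`, `m = c*c-1`, `w = c*c` -/
def clo3 (c N N2 q m w : Nat) : Nat :=
  Nat.div
    (Nat.mul (Nat.mul (nat_lit 2535301200456458802993406410752) c)
      (Nat.add (Nat.mul (nat_lit 105) (Nat.mul (Nat.mul N2 N2) N2))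
        (Nat.mul (Nat.mul q m)
          (Nat.add (Nat.mul (nat_lit 35) (Nat.mul N2 N2))
            (Nat.mul q
              (Nat.add (Nat.mul (Nat.mul (nat_lit 7) N2) (Nat.sub (Nat.mul (nat_lit 3) w) (nat_lit 7)))
                (Nat.mul q
                  (Nat.mul (nat_lit 5)
                    (Nat.sub (Nat.add (Nat.mul (nat_lit 3) (Nat.mul w w)) (nat_lit 31))
                      (Nat.mul (nat_lit 18) w))))))))))
    (Nat.mul (Nat.mul (nat_lit 105) (Nat.mul (Nat.mul N2 N2) N2)) N)

/-- lower bound of `∑_{l<c} sd (n+d*l)`, for `c ≤ 2^fuel` -/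
def apl (fuel d n c : Nat) : Nat :=
  Nat.rec (motive := fun _ => Nat → Nat → Nat)
    (fun n c => Nat.mul c (sl n))
    (fun _ ih n c =>
      Bool.rec (motive := fun _ => Nat)
        (Bool.rec (motive := fun _ => Nat)
          (Bool.rec (motive := fun _ => Nat)
            (Nat.add (ih n (Nat.div c (nat_lit 2)))
              (ih (Nat.add n (Nat.mul d (Nat.div c (nat_lit 2)))) (Nat.sub c (Nat.div c (nat_lit 2)))))
            (Nat.mul c (sl n))
            (Nat.ble c (nat_lit 1)))
          (clo3 c (Nat.add (Nat.succ (Nat.mul (nat_lit 2) n)) (Nat.mul d (Nat.pred c)))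
            (Nat.mul (Nat.add (Nat.succ (Nat.mul (nat_lit 2) n)) (Nat.mul d (Nat.pred c)))
              (Nat.add (Nat.succ (Nat.mul (nat_lit 2) n)) (Nat.mul d (Nat.pred c))))
            (Nat.mul d d) (Nat.pred (Nat.mul c c)) (Nat.mul c c))
          (Nat.ble (Nat.mul (nat_lit 512) (Nat.mul d c))
            (Nat.add (Nat.succ (Nat.mul (nat_lit 2) n)) (Nat.mul d (Nat.pred c)))))
        (clo1 c (Nat.add (Nat.succ (Nat.mul (nat_lit 2) n)) (Nat.mul d (Nat.pred c)))
          (Nat.mul (Nat.mul d d) (Nat.pred (Nat.mul c c))))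
        (Nat.ble (Nat.mul (nat_lit 262144) (Nat.mul d c))
          (Nat.add (Nat.succ (Nat.mul (nat_lit 2) n)) (Nat.mul d (Nat.pred c)))))
    fuel n c

/-- lower bound of `∑_{l<c} sd (n+d*l)` (quick path first) -/
def ap (d n c : Nat) : Nat :=
  Bool.rec (motive := fun _ => Nat)
    (apl (nat_lit 20) d n c)
    (clo1 c (Nat.add (Nat.succ (Nat.mul (nat_lit 2) n)) (Nat.mul d (Nat.pred c)))
      (Nat.mul (Nat.mul d d) (Nat.pred (Nat.mul c c))))
    (Nat.ble (Nat.mul (nat_lit 262144) (Nat.mul d c))
      (Nat.add (Nat.succ (Nat.mul (nat_lit 2) n)) (Nat.mul d (Nat.pred c))))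

/-- upper bound for the sum with lower bound `x` and `c` terms -/
def hi (x c : Nat) : Nat :=
  Nat.add (Nat.add x (Nat.shiftRight x (nat_lit 71))) (Nat.mul (nat_lit 3) c)

end

end Pool.Agent.LibM73
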