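import Pool.Agent.LibM73.OpX
set_option autoImplicit false
/-!
# Operations 2, 6, 7, 8 (pop, thick, swap, half)  (TASK OPA, helper68)
-/
namespace Pool.Agent.LibM73
open Pool.Agent.LibMoser5 Pool.Agent.LibMoserF

theorem op6_sound (E : Env) : Sound E (fun K => op6 K) := by
  intro K S Th p sp tot rk h hI
  obtain ⟨a, A, b, B, S', rfl, h'⟩ := onRc_data h
  refine ⟨S', It.rc a A b B :: Th, p, sp, tot, rk, h', ?_⟩
  obtain ⟨hb, cs, hs, ls, h1, h2, h3, h4, h5⟩ := hI
  obtain ⟨x, y, cs', rfl, hS', hx, hy⟩ := rc_head h1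
  refine ⟨hb, cs', [(x, y)] :: hs, ls, hS', List.Forall₂.cons ⟨x, y, rfl, hx, hy⟩ h2, h3, h4, ?_⟩
  refine h5.perm ?_
  simp only [List.append_assoc, List.cons_append]
  exact (List.perm_middle).symm

theorem op7_sound (E : Env) : Sound E (fun K => op7 K) := by
  intro K S Th p sp tot rk h hI
  obtain ⟨a, A, b, B, S', rfl, h'⟩ := onRc_data h
  refine ⟨It.rc b B a A :: S', Th, p, sp, tot, rk, h', ?_⟩
  obtain ⟨hb, cs, hs, ls, h1, h2, h3, h4, h5⟩ := hI
  obtain ⟨x, y, cs', rfl, hS', hx, hy⟩ := rc_head h1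
  refine ⟨hb, [(y, x)] :: cs', hs, ls, List.Forall₂.cons ⟨y, x, rfl, hy, hx⟩ hS', h2, h3, h4, ?_⟩
  simp only [List.cons_append] at h5 ⊢
  exact h5.swap

theorem xiv_half {b B : ℕ} {y : ℝ} (h : Iv b B y) : Iv (b / 2) ((B + 1) / 2) (y / 2) := by
  have e : U * (y / 2) = U * y / 2 := by ring
  constructor
  · rw [e]
    have h1 : ((b / 2 : ℕ) : ℝ) ≤ (b : ℝ) / (2 : ℕ) := Nat.cast_div_le
    have h2 := h.1
    push_cast at h1
    linarith
  · rw [e]
    have h1 : B ≤ 2 * ((B + 1) / 2) := by omega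
    have h2 : (B : ℝ) ≤ 2 * (((B + 1) / 2 : ℕ) : ℝ) := by exact_mod_cast h1
    have h3 := h.2
    linarith

theorem op8_sound (E : Env) : Sound E (fun K => op8 K) := by
  intro K S Th p sp tot rk h hI
  obtain ⟨a, A, b, B, S', rfl, h'⟩ := onRc_data h
  refine ⟨It.rc a A (b / 2) ((B + 1) / 2) :: It.rc a A (b / 2) ((B + 1) / 2) :: S', Th, p, sp, tot,
    rk, h', ?_⟩
  obtain ⟨hb, cs, hs, ls, h1, h2, h3, h4, h5⟩ := hI
  obtain ⟨x, y, cs', rfl, hS', hx, hy⟩ := rc_head h1
  have hy2 := xiv_half hy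
  have hok := (h5.ok _ (by simp : ([(x, y)] : Cb) ∈ ([(x, y)] :: cs' ++ hs ++ ls ++ E.C0))).head
  refine ⟨hb, [(x, y / 2)] :: [(x, y / 2)] :: cs', hs, ls,
    List.Forall₂.cons ⟨x, y / 2, rfl, hx, hy2⟩ (List.Forall₂.cons ⟨x, y / 2, rfl, hx, hy2⟩ hS'),
    h2, h3, h4, ?_⟩
  simp only [List.cons_append] at h5 ⊢
  have h6 := PC.cut (a := y / 2) h5 (by have := hok.2; simp only at this; linarith)
    (by have := hok.2; simp only at this; linarith)
  have e : y - y / 2 = y / 2 := by ring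
  rw [e] at h6
  exact h6

/-- the head tooth of a simple comb becomes a rectangle -/
theorem op2_sound (E : Env) : Sound E (fun K => op2 K) := by
  intro K S Th p sp tot rk h hI
  cases S with
  | nil => exact absurd (show false = true from h) Bool.false_ne_true
  | cons i S' =>
    cases i with
    | rc a A b B => exact absurd (show false = true from h) Bool.false_ne_true
    | sc t T n k x r R =>
      cases k with
      | zero =>
        refine ⟨It.rc (t - (x + 1)) (T - x) (x + r) (x + 1 + R) :: S', Th, p, sp, tot, rk, h, ?_⟩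
        obtain ⟨hb, cs, hs, ls, h1, h2, h3, h4, h5⟩ := hI
        rw [List.forall₂_cons_left_iff] at h1
        obtain ⟨c, cs', ⟨hx, hk, θ, ρ, rfl, hθ, hρ⟩, hS', rfl⟩ := h1
        have hok := h5.ok (scT θ n 0 ρ) (by simp)
        unfold scT at hok h5
        rw [cbT_zero] at hok h5
        have h6 := hok.head
        simp only [Nat.add_zero] at hx h6 h5
        refine ⟨hb, [(θ - sd n, sd n + ρ)] :: cs', hs, ls,
          List.Forall₂.cons ⟨_, _, rfl, ?_, ?_⟩ hS', h2, h3, h4, h5⟩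
        · rw [hx]
          exact xiv_sub hθ (sl_le n) (by have := sl_lt n; push_cast; linarith) h6.1
        · rw [hx]
          exact xiv_add hρ (sl_le n) (by have := sl_lt n; push_cast; linarith)
      | succ k1 =>
        refine ⟨It.rc (t - (x + 1)) (T - x) (x + r) (x + 1 + R) ::
          It.sc t T n k1 (sl (n + k1)) 0 0 :: S', Th, p, sp, tot, rk, h, ?_⟩
        obtain ⟨hb, cs, hs, ls, h1, h2, h3, h4, h5⟩ := hI
        rw [List.forall₂_cons_left_iff] at h1
        obtain ⟨c, cs', ⟨hx, hk, θ, ρ, rfl, hθ, hρ⟩, hS', rfl⟩ := h1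
        have hok := h5.ok (scT θ n (k1 + 1) ρ) (by simp)
        have e : scT θ n (k1 + 1) ρ = [(θ - sd (n + (k1 + 1)), sd (n + (k1 + 1)) + ρ)] ++
            scT θ n k1 0 := by
          unfold scT
          rw [cbT_succ]
          rfl
        rw [e] at hok h5
        have h6 := hok.head
        refine ⟨hb, [(θ - sd (n + (k1 + 1)), sd (n + (k1 + 1)) + ρ)] :: scT θ n k1 0 :: cs', hs, ls,
          List.Forall₂.cons ⟨_, _, rfl, ?_, ?_⟩ (List.Forall₂.cons
            ⟨rfl, by omega, θ, 0, rfl, hθ, xiv_zero⟩ hS'), h2, h3, h4, ?_⟩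
        · rw [hx]
          exact xiv_sub hθ (sl_le _) (by have := sl_lt (n + (k1 + 1)); push_cast at this ⊢; linarith) h6.1
        · rw [hx]
          exact xiv_add hρ (sl_le _) (by have := sl_lt (n + (k1 + 1)); push_cast at this ⊢; linarith)
        · simp only [List.cons_append] at h5 ⊢
          exact PC.split (c1 := [(θ - sd (n + (k1 + 1)), sd (n + (k1 + 1)) + ρ)]) h5
    | cb t T n e d c f k x r R =>
      cases k with
      | zero =>
        refine ⟨It.rc (t - hi x c) (T - x) (sl (n + e * 0 + f) + r) (sl (n + e * 0 + f) + 1 + R) ::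
          S', Th, p, sp, tot, rk, h, ?_⟩
        obtain ⟨hb, cs, hs, ls, h1, h2, h3, h4, h5⟩ := hI
        rw [List.forall₂_cons_left_iff] at h1
        obtain ⟨c', cs', ⟨hx, hc, θ, ρ, rfl, hθ, hρ⟩, hS', rfl⟩ := h1
        have hok := h5.ok (gcT θ n e d c f 0 ρ) (by simp)
        unfold gcT at hok h5
        rw [cbT_zero] at hok h5
        have h6 := hok.head
        refine ⟨hb, [(θ - SS d (n + e * 0) c, sd (n + e * 0 + f) + ρ)] :: cs', hs, ls,
          List.Forall₂.cons ⟨_, _, rfl, ?_, ?_⟩ hS', h2, h3, h4, h5⟩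
        · rw [hx]
          exact xiv_sub hθ (ap_le hc) (ap_hi hc) h6.1
        · exact xiv_add hρ (sl_le _) (by have := sl_lt (n + e * 0 + f); push_cast at this ⊢; linarith)
      | succ k1 =>
        refine ⟨It.rc (t - hi x c) (T - x) (sl (n + e * (k1 + 1) + f) + r)
          (sl (n + e * (k1 + 1) + f) + 1 + R) ::
          It.cb t T n e d c f k1 (ap d (n + e * k1) c) 0 0 :: S', Th, p, sp, tot, rk, h, ?_⟩
        obtain ⟨hb, cs, hs, ls, h1, h2, h3, h4, h5⟩ := hI
        rw [List.forall₂_cons_left_iff] at h1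
        obtain ⟨c', cs', ⟨hx, hc, θ, ρ, rfl, hθ, hρ⟩, hS', rfl⟩ := h1
        have hok := h5.ok (gcT θ n e d c f (k1 + 1) ρ) (by simp)
        have e1 : gcT θ n e d c f (k1 + 1) ρ =
            [(θ - SS d (n + e * (k1 + 1)) c, sd (n + e * (k1 + 1) + f) + ρ)] ++
            gcT θ n e d c f k1 0 := by
          unfold gcT
          rw [cbT_succ]
          rfl
        rw [e1] at hok h5
        have h6 := hok.head
        refine ⟨hb, [(θ - SS d (n + e * (k1 + 1)) c, sd (n + e * (k1 + 1) + f) + ρ)] ::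
            gcT θ n e d c f k1 0 :: cs', hs, ls,
          List.Forall₂.cons ⟨_, _, rfl, ?_, ?_⟩ (List.Forall₂.cons
            ⟨rfl, hc, θ, 0, rfl, hθ, xiv_zero⟩ hS'), h2, h3, h4, ?_⟩
        · rw [hx]
          exact xiv_sub hθ (ap_le hc) (ap_hi hc) h6.1
        · exact xiv_add hρ (sl_le _)
            (by have := sl_lt (n + e * (k1 + 1) + f); push_cast at this ⊢; linarith)
        · simp only [List.cons_append] at h5 ⊢
          exact PC.split (c1 := [(θ - SS d (n + e * (k1 + 1)) c, sd (n + e * (k1 + 1) + f) + ρ)]) h5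

end Pool.Agent.LibM73
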