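import Pool.Agent.LibM73.OpX
set_option autoImplicit false
/-!
# Operations 1, 3, 11 (rows)  (TASK OPB, helper68)
-/
namespace Pool.Agent.LibM73
open Pool.Agent.LibMoser5 Pool.Agent.LibMoserF

theorem rowP_data {a l L n0 k0 s : ℕ} {K : ℕ → ℕ → Bool} (h : rowP a l L n0 k0 s K = true) :
    K (l - hi s (k0 + 1)) (L - s) = true ∧
    ∀ K' : ℕ → ℕ → Bool, K' (l - hi s (k0 + 1)) (L - s) = true →
      rowP a l L n0 k0 s K' = true := by
  unfold rowP at h
  rw [bf, bf] at h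
  obtain ⟨h1, h2, h3⟩ := h
  refine ⟨h3, fun K' h' => ?_⟩
  unfold rowP
  rw [bf, bf]
  exact ⟨h1, h2, h'⟩

/-- the numbers of a row fit; the continuation is known -/
theorem rowP_real {a l L n0 k0 : ℕ} {K : ℕ → ℕ → Bool} (hk : k0 < 2 ^ 20)
    (h : rowP a l L n0 k0 (ap 1 n0 (k0 + 1)) K = true) {τ ln : ℝ} (hτ : (a : ℝ) ≤ U * τ)
    (hl : Iv l L ln) :
    (∀ m ∈ List.range' n0 (k0 + 1), sd m ≤ τ) ∧
      ((List.range' n0 (k0 + 1)).map sd).sum ≤ ln ∧
      Iv (l - hi (ap 1 n0 (k0 + 1)) (k0 + 1)) (L - ap 1 n0 (k0 + 1))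
        (ln - ((List.range' n0 (k0 + 1)).map sd).sum) := by
  obtain ⟨l', L', h1, h2, h3, h4⟩ := rowP_sound hk ((rowP_data h).2
    (fun l' L' => decide (l' = l - hi (ap 1 n0 (k0 + 1)) (k0 + 1) ∧ L' = L - ap 1 n0 (k0 + 1)))
    (by simp)) hτ hl
  obtain ⟨rfl, rfl⟩ := of_decide_eq_true h1
  exact ⟨h2, h3, h4⟩

theorem range'_pw (n k : ℕ) : (List.range' n k).Pairwise (fun m n => m ≤ n ∧ m ≠ n) := by
  have h : (List.range' n k).Pairwise (fun a b => a < b) := List.pairwise_lt_range'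
  exact h.imp (fun h => ⟨h.le, h.ne⟩)

theorem range'_toFinset (n k : ℕ) : (List.range' n k).toFinset = Finset.Ico n (n + k) := by
  ext m
  rw [List.mem_toFinset, List.mem_range'_1, Finset.mem_Ico]

theorem notMem_of {P : Finset ℕ} {n k : ℕ} (h : Disjoint P (Finset.Ico n (n + k))) :
    ∀ m ∈ List.range' n k, m ∉ P := by
  intro m hm hP
  rw [List.mem_range'_1] at hm
  exact Finset.disjoint_left.1 h hP (Finset.mem_Ico.2 hm)

section
variable {W H : ℝ} {C : List Cb} {P : Finset ℕ}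

/-- row on a rectangle -/
theorem PC.rowRect {x y : ℝ} {n k : ℕ} (h : PC W H ([(x, y)] :: C) P)
    (hth : ∀ m ∈ List.range' n k, sd m ≤ x) (hsum : ((List.range' n k).map sd).sum ≤ y)
    (hP : Disjoint P (Finset.Ico n (n + k))) :
    PC W H (child x (List.range' n k) :: [(x, y - ((List.range' n k).map sd).sum)] :: C)
      (P ∪ Finset.Ico n (n + k)) := by
  have h1 := PC.row (c := []) (List.range' n k) h (range'_pw n k) hth hsum (notMem_of hP)
  rw [range'_toFinset] at h1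
  have h2 := h1.perm (List.Perm.swap _ _ _)
  exact h2.dropZ (by simp [ar])

end

theorem sc_end (θ : ℝ) (n k : ℕ) (ρ : ℝ) :
    scT θ n (k + 1) ρ = scT θ (n + 1) k ρ ++ [(θ - sd n, sd n)] := by
  unfold scT
  exact cbT_end θ (fun i => sd (n + i)) (fun i => sd (n + i)) (fun i => sd (n + 1 + i))
    (fun i => sd (n + 1 + i)) (fun i => by congr 1; omega)
    (fun i => by congr 1; omega) k ρ

theorem onPass_data {S : List It}
    {F : ℕ → ℕ → ℕ → ℕ → ℕ → ℕ → (ℕ → ℕ → It) → List It → Bool} (h : onPass S F = true) :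
    ∃ (a A l L v er : ℕ) (Rf : ℕ → ℕ → It) (S' : List It), F a A l L v er Rf S' = true ∧
      ∀ F' : ℕ → ℕ → ℕ → ℕ → ℕ → ℕ → (ℕ → ℕ → It) → List It → Bool,
        F' a A l L v er Rf S' = true → onPass S F' = true := by
  cases S with
  | nil => exact absurd (show false = true from h) Bool.false_ne_true
  | cons i S' =>
    cases i with
    | rc a A b B => exact absurd (show false = true from h) Bool.false_ne_true
    | sc t T n k x r R =>
      cases k with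
      | zero => exact absurd (show false = true from h) Bool.false_ne_true
      | succ k1 => exact ⟨_, _, _, _, _, _, _, _, h, fun F' h' => h'⟩
    | cb t T n e d c f k x r R =>
      cases k with
      | zero => exact absurd (show false = true from h) Bool.false_ne_true
      | succ k1 => exact ⟨_, _, _, _, _, _, _, _, h, fun F' h' => h'⟩

/-- the data of a pass row, uniformly in the real combs -/
theorem onPass_real {S : List It}
    {F : ℕ → ℕ → ℕ → ℕ → ℕ → ℕ → (ℕ → ℕ → It) → List It → Bool} (h : onPass S F = true) :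
    ∃ (a A l L v er : ℕ) (Rf : ℕ → ℕ → It) (S' : List It), F a A l L v er Rf S' = true ∧
      ∀ cs : List Cb, List.Forall₂ Rep S cs → (∀ c ∈ cs, CbOK c) →
      ∃ (τ ln τ' ln' : ℝ) (tl : Cb) (cs' : List Cb), cs = ((τ, ln) :: (τ', ln') :: tl) :: cs' ∧
      List.Forall₂ Rep S' cs' ∧ Iv a A τ ∧ Iv l L ln ∧ Iv (v - er) v (τ - τ') ∧
      (∀ (l' L' : ℕ) (ρ : ℝ), Iv l' L' ρ → Rep (Rf l' L') ((τ', ρ + ln') :: tl)) := by
  classical
  obtain ⟨a, A, l, L, v, er, Rf, S', h1, h2⟩ := onPass_data h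
  refine ⟨a, A, l, L, v, er, Rf, S', h1, ?_⟩
  intro cs hS hok
  obtain ⟨a1, A1, l1, L1, v1, er1, Rf1, S1, τ, ln, τ', ln', tl, cs', k1, k2, k3, k4, k5, k6, k7⟩ :=
    onPass_sound (h2 (fun a1 A1 l1 L1 v1 er1 Rf1 S1 => decide (a1 = a ∧ A1 = A ∧ l1 = l ∧ L1 = L ∧
      v1 = v ∧ er1 = er ∧ Rf1 = Rf ∧ S1 = S')) (by simp)) hS hok
  obtain ⟨rfl, rfl, rfl, rfl, rfl, rfl, rfl, rfl⟩ := of_decide_eq_true k1
  exact ⟨τ, ln, τ', ln', tl, cs', k2, k3, k4, k5, k6, k7⟩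

theorem op3_sound (E : Env) (w : ℕ) :
    Sound E (fun K => op3 E.tab w K) := by
  intro K S Th p sp tot rk h hI
  obtain ⟨h1, hU⟩ := useR_sound h
  obtain ⟨a, A, b, B, S', rfl, h2⟩ := onRc_data h1
  obtain ⟨h3, h4⟩ := rowP_data h2
  refine ⟨_, _, _, _, _, _, h3, ?_⟩
  obtain ⟨hb, cs, hs, ls, g1, g2, g3, g4, g5⟩ := hI
  obtain ⟨hr0, hb', hDj, hDe⟩ := hU E hb
  obtain ⟨x, y, cs', rfl, hS', hx, hy⟩ := rc_head g1
  obtain ⟨r1, r2, r3⟩ := rowP_real (E.hk _ hr0) h2 hx.1 hy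
  simp only [List.cons_append] at g5
  have g6 := PC.rowRect g5 r1 r2 hDj
  rw [child_sc] at g6
  have g7 := (PC.swap (g6.perm (List.Perm.swap _ _ _))).perm (List.Perm.swap _ _ _)
  refine ⟨hb', scT x (en (ent E.tab (wi w))) (ek (ent E.tab (wi w))) 0 :: [(_, x)] :: cs', hs, ls,
    List.Forall₂.cons (rep_child (E.hk _ hr0) hx) (List.Forall₂.cons ⟨_, x, rfl, r3, hx⟩ hS'),
    g2, g3, g4, ?_⟩
  rw [← hDe]
  simp only [List.cons_append]
  exact g7

theorem op1_sound (E : Env) (w : ℕ) :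
    Sound E (fun K => op1 E.tab w K) := by
  intro K S Th p sp tot rk h hI
  obtain ⟨h1, hU⟩ := useR_sound h
  obtain ⟨a, A, l, L, v, er, Rf, S', h2, hr⟩ := onPass_real h1
  obtain ⟨h3, h4⟩ := rowP_data h2
  refine ⟨_, _, _, _, _, _, h3, ?_⟩
  obtain ⟨hb, cs, hs, ls, g1, g2, g3, g4, g5⟩ := hI
  obtain ⟨hr0, hb', hDj, hDe⟩ := hU E hb
  obtain ⟨τ, ln, τ', ln', tl, cs', rfl, hS', hτ, hln, hv, hRf⟩ := hr cs g1
    (fun c hc => g5.ok c (by
      simp only [List.mem_append]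
      exact Or.inl (Or.inl (Or.inl hc))))
  obtain ⟨r1, r2, r3⟩ := rowP_real (E.hk _ hr0) h2 hτ.1 hln
  simp only [List.cons_append] at g5
  have g6 := PC.rowPass _ g5 (range'_pw _ _) r1 r2 (notMem_of hDj)
  rw [range'_toFinset, child_sc] at g6
  have g7 := g6.perm (List.Perm.cons _ (List.Perm.swap _ _ _))
  refine ⟨hb', scT τ (en (ent E.tab (wi w))) (ek (ent E.tab (wi w))) 0 :: [(τ - τ', _)] ::
    ((τ', _ + ln') :: tl) :: cs', hs, ls,
    List.Forall₂.cons (rep_child (E.hk _ hr0) hτ) (List.Forall₂.cons ⟨_, _, rfl, hv, r3⟩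
      (List.Forall₂.cons (hRf _ _ _ r3) hS')), g2, g3, g4, ?_⟩
  rw [← hDe]
  simp only [List.cons_append]
  exact g7

theorem xiv_sd (n : ℕ) : Iv (sl n) (sl n + 1) (sd n) :=
  ⟨sl_le n, by have := sl_lt n; push_cast; linarith⟩

theorem op11_sound (E : Env) (w : ℕ) :
    Sound E (fun K => op11 E.tab w K) := by
  intro K S Th p sp tot rk h hI
  obtain ⟨h1, hU⟩ := useR_sound h
  obtain ⟨a, A, b, B, S', rfl, h2⟩ := onRc_data h1
  obtain ⟨h3, h4⟩ := rowP_data h2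
  refine ⟨_, _, _, _, _, _, h3, ?_⟩
  obtain ⟨hb, cs, hs, ls, g1, g2, g3, g4, g5⟩ := hI
  obtain ⟨hr0, hb', hDj, hDe⟩ := hU E hb
  obtain ⟨x, y, cs', rfl, hS', hx, hy⟩ := rc_head g1
  obtain ⟨r1, r2, r3⟩ := rowP_real (E.hk _ hr0) h2 hx.1 hy
  have hk := E.hk (wi w) hr0
  generalize hn : en (ent E.tab (wi w)) = n at *
  generalize hkk : ek (ent E.tab (wi w)) = k at *
  have hI' : Iset E.tab (wi w) = Finset.Ico n (n + (k + 1)) := by
    unfold Iset
    rw [hn, hkk]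
  rw [hI'] at hDj hDe
  have hsd : sd n ≤ x := r1 n (by rw [List.mem_range'_1]; omega)
  have hs0 := (sd_pos n).le
  simp only [List.cons_append] at g5
  have g6 := PC.cutT g5 hs0 hsd
  have r1' : ∀ m ∈ List.range' n (k + 1), sd m ≤ sd n := by
    intro m hm
    rw [List.mem_range'_1] at hm
    exact sd_anti hm.1
  have g7 := PC.rowRect g6 r1' r2 hDj
  rw [child_sc] at g7
  have hxs : Iv (a - (sl n + 1)) (A - sl n) (x - sd n) :=
    xiv_sub hx (sl_le n) (xiv_sd n).2 (by linarith)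
  rw [hDe] at g7
  cases k with
  | zero =>
    have g8 := g7.dropZ (by simp [scT, cbT, ar])
    have g9 := g8.perm (List.Perm.swap _ _ _)
    exact ⟨hb', [(x - sd n, y)] :: [(sd n, _)] :: cs', hs, ls,
      List.Forall₂.cons ⟨_, _, rfl, hxs, hy⟩ (List.Forall₂.cons ⟨_, _, rfl, xiv_sd n, r3⟩ hS'),
      g2, g3, g4, g9⟩
  | succ k1 =>
    rw [sc_end] at g7
    have g8 := g7.dropEnd (by simp [ar])
    have g9 := g8.perm (List.Perm.cons _ (List.Perm.swap _ _ _))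
    exact ⟨hb', scT (sd n) (n + 1) k1 0 :: [(x - sd n, y)] :: [(sd n, _)] :: cs', hs, ls,
      List.Forall₂.cons (rep_child (by omega) (xiv_sd n)) (List.Forall₂.cons ⟨_, _, rfl, hxs, hy⟩
        (List.Forall₂.cons ⟨_, _, rfl, xiv_sd n, r3⟩ hS')),
      g2, g3, g4, g9⟩

end Pool.Agent.LibM73
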