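import Pool.Agent.LibM73.OpU
import Pool.Agent.LibM73.LeafS
import Pool.Agent.LibM73.LeafC
set_option autoImplicit false
/-!
# Operations 0, 4, 5 (leaves)  (TASK OPC)
-/
namespace Pool.Agent.LibM73
open Pool.Agent.LibMoser5 Pool.Agent.LibMoserF

theorem thk_append (l l' : List (ℝ × ℝ)) : thk (l ++ l') = thk l + thk l' := by
  simp [thk]

theorem we_lt (w : ℕ) : we w < 32 := Nat.mod_lt _ (by decide)
theorem we2_lt (w : ℕ) : we2 w < 32 := Nat.mod_lt _ (by decide)

/-- squares of an entry as a list -/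
theorem Iset_range' (tab r : ℕ) : (List.range' (en (ent tab r)) (ek (ent tab r) + 1)).toFinset =
    Iset tab r := by
  ext m
  rw [List.mem_toFinset, List.mem_range'_1]
  exact Finset.mem_Ico.symm

/-- combs become leaves -/
theorem sta_leaf {E : Env} {S' Th : List It} {p p' : Pf} {sp tot rk q m s : ℕ}
    {cs' hs ls D : List Cb}
    (hb : ∀ r, rk.testBit r = true → r < E.cnt) (h1 : List.Forall₂ Rep S' cs')
    (h2 : List.Forall₂ Rep Th hs) (h3 : Acc ls.flatten (flat p) tot) (h4 : U * thk ls.flatten ≤ sp)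
    (h5 : PC E.W E.H (D ++ (cs' ++ hs ++ ls ++ E.C0)) (E.P0 ∪ Pset E.tab E.cnt rk))
    (hq : flat p' = flat p + q)
    (hA : Acc D.flatten q m) (ht : U * thk D.flatten ≤ s) :
    Sta E S' Th p' (sp + s) (tot + m) rk := by
  refine ⟨hb, cs', hs, ls ++ D, h1, h2, ?_, ?_, ?_⟩
  · rw [List.flatten_append, hq]
    exact Acc.append h3 hA
  · rw [List.flatten_append, thk_append, mul_add]
    push_cast
    linarith
  · refine h5.perm ?_
    have e : cs' ++ hs ++ (ls ++ D) ++ E.C0 = (cs' ++ hs ++ ls) ++ D ++ E.C0 := by simp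
    rw [e, ← List.append_assoc]
    exact (List.perm_append_comm).append_right _

theorem msT_carry {R : ℕ} {ρ : ℝ} (h : U * ρ ≤ R) : 2 ^ 34 * ρ ≤ msT R 0 := by
  have e : msT R 0 = 16 * R / 2 ^ 70 + 1 := by
    have e1 : msT R 0 = (16 * R + 0) >>> 70 + 1 := rfl
    rw [e1, Nat.shiftRight_eq_div_pow]
    simp
  rw [e]
  have h1 := lt_div' (16 * R) (2 ^ 70) (by positivity)
  push_cast at h1 ⊢
  unfold U at h
  have h2 : 2 ^ 34 * ρ ≤ 16 * (R : ℝ) / 2 ^ 70 := by
    rw [le_div_iff₀ (by positivity)]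
    have e1 : 2 ^ 34 * ρ * 2 ^ 70 = 16 * (2 ^ 100 * ρ) := by ring
    rw [e1]
    linarith
  norm_num at h2 ⊢
  linarith

theorem iv_nonneg {r R : ℕ} {ρ : ℝ} (h : Iv r R ρ) : 0 ≤ ρ := by
  have hU : (0 : ℝ) < U := by unfold U; positivity
  have h1 : (0 : ℝ) ≤ U * ρ := le_trans (Nat.cast_nonneg _) h.1
  exact nonneg_of_mul_nonneg_right h1 hU

theorem cbT_first {θ : ℝ} {S ℓ : ℕ → ℝ} {k : ℕ} {ρ : ℝ} (h : CbOK (cbT θ S ℓ k ρ)) :
    S 0 ≤ θ := by
  have h1 : ∃ l, (θ - S 0, l) ∈ cbT θ S ℓ k ρ := by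
    cases k with
    | zero => exact ⟨_, List.mem_cons_self⟩
    | succ k =>
      refine ⟨ℓ 0, List.mem_cons_of_mem _ ?_⟩
      rw [List.mem_reverse, List.mem_map]
      exact ⟨0, List.mem_range.2 (Nat.succ_pos k), rfl⟩
  obtain ⟨l, hl⟩ := h1
  have := (h.1 _ hl).1
  dsimp only at this
  linarith

theorem op4_sound (E : Env) (w : ℕ) : Sound E (fun K => op4 w K) := by
  intro K S Th p sp tot rk h hI
  obtain ⟨hb, cs, hs, ls, h1, h2, h3, h4, h5⟩ := hI
  obtain ⟨a, A, b, B, S', x, y, cs', h6, rfl, hS', hx, hy⟩ :=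
    onRc_sound (show onRc S _ = true from h) h1
  have hU : (0 : ℝ) < U := by unfold U; positivity
  have h5' : PC E.W E.H ([[(x, y)]] ++ (cs' ++ hs ++ ls ++ E.C0))
      (E.P0 ∪ Pset E.tab E.cnt rk) := by
    refine h5.perm (List.Perm.of_eq ?_)
    simp
  have ht : U * thk [[(x, y)]].flatten ≤ A := by
    have e : thk [[(x, y)]].flatten = x := by simp [thk]
    rw [e]
    exact hx.2
  have key : ∀ (p' : Pf) c m, flat p' = flat p + c → Acc [(x, y)] c m →
      K S' Th p' (sp + A) (tot + m) rk = true →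
      ∃ S' Th' p' sp' tot' rk', K S' Th' p' sp' tot' rk' = true ∧ Sta E S' Th' p' sp' tot' rk' := by
    intro p' c m hq hA hK
    exact ⟨_, _, _, _, _, _, hK, sta_leaf hb hS' h2 h3 h4 h5' hq (by simpa using hA) ht⟩
  rw [bi] at h6
  split_ifs at h6 with h7
  · obtain ⟨p', m, hK, c, hq, hA⟩ := thinP_sound (we_lt w) h6 (x := x) (ln := y) (by
      have h8 : a ≤ A := by
        have := hx.1.trans hx.2
        exact_mod_cast this
      have e : A - Nat.sub A a = a := Nat.sub_sub_self h8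
      rw [e]
      exact hx) hy
    exact key p' c m hq hA hK
  · unfold putD at h6
    rw [bf, bf, ble_iff, beq_iff] at h6
    obtain ⟨h8, h9, h10⟩ := h6
    have h8' : 6 * (A : ℝ) ≤ 5 * b := by exact_mod_cast h8
    have h12 : 6 / 5 * x ≤ y := by
      have : U * (6 / 5 * x) ≤ U * y := by
        have := hx.2
        have := hy.1
        nlinarith
      exact le_of_mul_le_mul_left this hU
    have h13 : ms (x, y) ≤ msT B A := by
      have := msT_le (l := [(x, y)]) (tl := B) (tv := A) (by simpa using hy.2)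
        (by simpa using hx.2)
      simpa using this
    obtain ⟨p', h11, hq⟩ := addP_sound h10 (le_refl 29184)
    exact key p' _ _ hq (acc_single (c := NC) (dust_in h9 hx.2) h12 h13) h11

theorem op5_sound (E : Env) (G w : ℕ) : Sound E (fun K => op5 G w K) := by
  intro K S Th p sp tot rk h hI
  cases S with
  | nil => exact absurd (show false = true from h) Bool.false_ne_true
  | cons i S' =>
    obtain ⟨hb, cs, hs, ls, h1, h2, h3, h4, h5⟩ := hI
    rw [List.forall₂_cons_left_iff] at h1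
    obtain ⟨c, cs', hR, hS', rfl⟩ := h1
    have h5' : PC E.W E.H ([c] ++ (cs' ++ hs ++ ls ++ E.C0)) (E.P0 ∪ Pset E.tab E.cnt rk) := by
      refine h5.perm (List.Perm.of_eq ?_)
      simp
    have hok := h5'.ok c (by simp)
    have ef : ([c] : List Cb).flatten = c := by simp
    cases i with
    | rc a A b B => exact absurd (show false = true from h) Bool.false_ne_true
    | sc t T n k x r R =>
      obtain ⟨hx, hk, θ, ρ, rfl, hθ, hρ⟩ := hR
      have h0 : sd n ≤ θ := by
        have := cbT_first hok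
        simpa using this
      obtain ⟨p', m, hK, q, hq, hA⟩ := leafS_sound (we_lt w)
        (show leafS (Nat.shiftRight G (wg w)) (wn w)
        (we w) t T n (k + 1) k (msT R 0) p _ = true from h) hθ h0 (iv_nonneg hρ) (msT_carry hρ.2)
      exact ⟨_, _, _, _, _, _, hK, sta_leaf hb hS' h2 h3 h4 h5' hq (by rw [ef]; exact hA)
        (by rw [ef]; exact scT_thk hk hθ h0)⟩
    | cb t T n e d c f k x r R =>
      obtain ⟨hx, hc, θ, ρ, rfl, hθ, hρ⟩ := hR
      have h0 : SS d n c ≤ θ := by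
        have := cbT_first hok
        simpa using this
      obtain ⟨p', m, s, hK, ⟨q, hq, hA⟩, hs'⟩ := leafC_sound
        (show leafC (Nat.shiftRight G (wg w)) (wn w)
        t T n e d c f k x (msT R 0) p _ = true from h) hx hc hθ h0 (iv_nonneg hρ) (msT_carry hρ.2)
      exact ⟨_, _, _, _, _, _, hK, sta_leaf hb hS' h2 h3 h4 h5' hq (by rw [ef]; exact hA)
        (by rw [ef]; exact hs')⟩

theorem op0_sound (E : Env) (G w : ℕ) :
    Sound E (fun K => op0 E.tab G w K) := by
  intro K S Th p sp tot rk h hinv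
  obtain ⟨hb, cs, hs, ls, hS, hT, hacc, hsp, hPC⟩ := hinv
  obtain ⟨h1, hu⟩ := useR_sound h
  obtain ⟨hr, hb', hdis, hset⟩ := hu E hb
  obtain ⟨a, A, l, L, v, er, Rf, S', τ, ln, τ', ln', tl, cs', h2, rfl, hS', hτ, hln, hv, hRf⟩ :=
    onPass_sound h1 hS (fun c hc => hPC.ok c (by
      simp only [List.mem_append]
      exact Or.inl (Or.inl (Or.inl hc))))
  have hk := E.hk _ hr
  obtain ⟨l', L', h3, r1, r2, r3⟩ := rowP_sound hk (show rowP a l L (en (ent E.tab (wi w)))
    (ek (ent E.tab (wi w))) (ap 1 (en (ent E.tab (wi w))) (ek (ent E.tab (wi w)) + 1)) _ = true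
    from h2) hτ.1 hln
  obtain ⟨p2, m2, h4, c2, hq2, hA2⟩ := thinP_sound (we2_lt w) h3 hv r3
  have h0 : sd (en (ent E.tab (wi w))) ≤ τ := r1 _ (by rw [List.mem_range'_1]; omega)
  obtain ⟨p1, m1, h5, c1, hq1, hA1⟩ := leafS_sound (ρ := 0) (we_lt w)
    (show leafS (Nat.shiftRight G (wg w))
    (wn w) (we w) a A (en (ent E.tab (wi w))) (ek (ent E.tab (wi w)) + 1)
    (ek (ent E.tab (wi w))) 0 p2 _ = true from h4) hτ h0 le_rfl (by simp)
  have hq : flat p1 = flat p + (c1 + c2) := by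
    rw [hq1, hq2, Nat.add_assoc, Nat.add_comm c2 c1]
  simp only [List.cons_append] at hPC
  have hpw : (List.range' (en (ent E.tab (wi w))) (ek (ent E.tab (wi w)) + 1)).Pairwise
      (fun m n => m ≤ n ∧ m ≠ n) := by
    have h : (List.range' (en (ent E.tab (wi w))) (ek (ent E.tab (wi w)) + 1)).Pairwise
      (fun a b => a < b) := List.pairwise_lt_range'
    exact h.imp (fun h => ⟨h.le, h.ne⟩)
  have hnm : ∀ m ∈ List.range' (en (ent E.tab (wi w))) (ek (ent E.tab (wi w)) + 1),
      m ∉ E.P0 ∪ Pset E.tab E.cnt rk := by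
    intro m hm hP
    rw [← List.mem_toFinset, Iset_range'] at hm
    exact Finset.disjoint_left.1 hdis hP hm
  have g6 := PC.rowPass _ hPC hpw r1 r2 hnm
  rw [Iset_range', hset, child_sc] at g6
  have hsta := sta_leaf (E := E) (S' := Rf l' L' :: S') (Th := Th) (p := p) (p' := p1)
    (sp := sp) (tot := tot)
    (rk := rk - 2 ^ wi w) (q := c1 + c2) (m := m1 + m2)
    (s := v + ((ek (ent E.tab (wi w)) + 1) * A -
      ap 1 (en (ent E.tab (wi w))) (ek (ent E.tab (wi w)) + 1)))
    (D := [scT τ (en (ent E.tab (wi w))) (ek (ent E.tab (wi w))) 0, [(τ - τ', ln -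
      ((List.range' (en (ent E.tab (wi w))) (ek (ent E.tab (wi w)) + 1)).map sd).sum)]])
    (cs' := ((τ', (ln - ((List.range' (en (ent E.tab (wi w)))
      (ek (ent E.tab (wi w)) + 1)).map sd).sum) + ln') :: tl) :: cs') (hs := hs) (ls := ls)
    hb' (List.Forall₂.cons (hRf l' L' _ r3) hS') hT hacc hsp ?_ hq ?_ ?_
  · exact ⟨_, _, _, _, _, _, h5, hsta⟩
  · refine g6.perm ?_
    simp only [List.cons_append, List.nil_append]
    exact List.Perm.cons _ (List.Perm.swap _ _ _)
  · have e : ([scT τ (en (ent E.tab (wi w))) (ek (ent E.tab (wi w))) 0, [(τ - τ', ln -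
      ((List.range' (en (ent E.tab (wi w))) (ek (ent E.tab (wi w)) + 1)).map sd).sum)]] :
        List Cb).flatten = scT τ (en (ent E.tab (wi w))) (ek (ent E.tab (wi w))) 0 ++
        [(τ - τ', ln - ((List.range' (en (ent E.tab (wi w)))
          (ek (ent E.tab (wi w)) + 1)).map sd).sum)] := by simp
    rw [e]
    exact Acc.append hA1 hA2
  · have e : ([scT τ (en (ent E.tab (wi w))) (ek (ent E.tab (wi w))) 0, [(τ - τ', ln -
      ((List.range' (en (ent E.tab (wi w))) (ek (ent E.tab (wi w)) + 1)).map sd).sum)]] :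
        List Cb).flatten = scT τ (en (ent E.tab (wi w))) (ek (ent E.tab (wi w))) 0 ++
        [(τ - τ', ln - ((List.range' (en (ent E.tab (wi w)))
          (ek (ent E.tab (wi w)) + 1)).map sd).sum)] := by simp
    rw [e, thk_append, mul_add]
    have h7 := scT_thk (ρ := 0) hk hτ h0
    have h8 : thk [(τ - τ', ln - ((List.range' (en (ent E.tab (wi w)))
          (ek (ent E.tab (wi w)) + 1)).map sd).sum)] = τ - τ' := by simp [thk]
    rw [h8, Nat.cast_add]
    have := hv.2
    linarith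

end Pool.Agent.LibM73
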