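import Pool.Agent.LibM73.OpU
import Pool.Agent.LibM73.HoleA
set_option autoImplicit false
/-!
# Operation 9 (blocks)  (TASK OPD)
-/
namespace Pool.Agent.LibM73
open Pool.Agent.LibMoser5 Pool.Agent.LibMoserF

/-! ### intervals -/

theorem iv_le {a A : ℕ} {x : ℝ} (h : Iv a A x) : a ≤ A := by
  have := h.1.trans h.2
  exact_mod_cast this

theorem ivD_sub {a A b B : ℕ} {x y : ℝ} (hx : Iv a A x) (hy : Iv b B y) (hxy : y ≤ x) :
    Iv (a - B) (A - b) (x - y) := by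
  have hU : (0 : ℝ) < U := by norm_num [U]
  obtain ⟨h1, h2⟩ := hx
  obtain ⟨h3, h4⟩ := hy
  constructor
  · rcases Nat.le_total B a with h | h
    · rw [Nat.cast_sub h, mul_sub]
      linarith
    · rw [Nat.sub_eq_zero_of_le h, Nat.cast_zero]
      exact mul_nonneg hU.le (by linarith)
  · have h5 : (A : ℝ) ≤ ((A - b : ℕ) : ℝ) + b := by
      have : A ≤ (A - b) + b := by omega
      exact_mod_cast this
    rw [mul_sub]
    linarith

theorem iv_ap {d n c : ℕ} (hc : c ≤ 2 ^ 20) : Iv (ap d n c) (hi (ap d n c) c) (SS d n c) :=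
  ⟨ap_le hc, ap_hi hc⟩

theorem ivD_zero : Iv 0 0 0 := by
  unfold Iv
  simp

theorem le_of_iv {a A b B : ℕ} {x y : ℝ} (hx : Iv a A x) (hy : Iv b B y) (h : A ≤ b) : x ≤ y := by
  have hU : (0 : ℝ) < U := by norm_num [U]
  have h1 : (A : ℝ) ≤ b := by exact_mod_cast h
  have h2 := hx.2
  have h3 := hy.1
  have h4 : U * x ≤ U * y := by linarith
  exact le_of_mul_le_mul_left h4 hU

theorem SS_nonneg (d n c : ℕ) : 0 ≤ SS d n c :=
  Finset.sum_nonneg fun _ _ => (sd_pos _).le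

theorem SS_anti {d n n' c : ℕ} (h : n ≤ n') : SS d n' c ≤ SS d n c :=
  Finset.sum_le_sum fun _ _ => sd_anti (by omega)

theorem rep_mkcb {t T n e d c f k : ℕ} {θ : ℝ} (hc : c ≤ 2 ^ 20) (h : Iv t T θ) :
    Rep (mkcb t T n e d c f k) (gcT θ n e d c f k 0) :=
  ⟨rfl, hc, θ, 0, rfl, h, ivD_zero⟩

/-! ### the block -/

/-- the holes of a block -/
theorem holes_eq {n0 M R : ℕ} (hM : 2 ≤ M) (hR : 2 ≤ R) (Hh : ℝ) :
    LibMoserF.holes Hh (M - 1) (R - 1) (LibMoserF.run n0 M) =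
      (prs (M - 1) (R - 1)).map (fun q => [(hY n0 M R q.1 q.2, hX n0 M q.1 q.2)]) := by
  obtain ⟨m, rfl⟩ : ∃ m, M = m + 1 := ⟨M - 1, by omega⟩
  obtain ⟨r, rfl⟩ : ∃ r, R = r + 1 := ⟨R - 1, by omega⟩
  rw [Nat.add_sub_cancel, Nat.add_sub_cancel]
  unfold LibMoserF.holes
  refine List.map_congr_left fun q hq => ?_
  rw [mem_prs] at hq
  obtain ⟨h1, h2⟩ := holes_hXY (n0 := n0) (M := m) (R := r) (H := Hh) hq.1 hq.2
  rw [h1, h2]

/-- last part of the block -/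
theorem blk3_sound {KK : List It → ℕ → ℕ → ℕ → Bool} {fh fw : Bool} {hl hu wl wu M R n0 : ℕ}
    {S : List It} (h : blk3 KK fh fw hl hu wl wu n0 M R S = true) (hM : 2 ≤ M) (hR : 2 ≤ R)
    (hMR : M * R ≤ 2 ^ 20) {Hh Ww : ℝ} (h1 : Iv hl hu Hh) (h2 : Iv wl wu Ww)
    (hH : SS M n0 R ≤ Hh) (hW : SS 1 n0 M ≤ Ww)
    (e1 : fh = false → Hh = SS M n0 R) (e2 : fw = false → Ww = SS 1 n0 M) {cs : List Cb}
    (hS : List.Forall₂ Rep S cs) :
    ∃ (S' : List It) (cs' : List Cb), KK S' n0 M R = true ∧ List.Forall₂ Rep S' cs' ∧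
      ∀ (W H : ℝ) (C : List Cb) (P : Finset ℕ), PC W H ([(Hh, Ww)] :: (cs ++ C)) P →
        Disjoint P (Finset.Ico n0 (n0 + M * R)) →
        PC W H ((prs (M - 1) (R - 1)).map (fun q => [(hY n0 M R q.1 q.2, hX n0 M q.1 q.2)]) ++
          (cs' ++ C)) (P ∪ Finset.Ico n0 (n0 + M * R)) := by
  have hM20 : M ≤ 2 ^ 20 := by nlinarith
  have hR20 : R ≤ 2 ^ 20 := by nlinarith
  -- the comb below
  obtain ⟨bi, hbi⟩ : ∃ bi : It, bi = Bool.rec (motive := fun _ => It)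
      (mkcb hl hu (n0 + 1) 1 M R 0 (M - 2)) (mkcb hl hu n0 1 M R 0 (M - 1)) fh := ⟨_, rfl⟩
  obtain ⟨bc, hbc⟩ : ∃ bc : Cb, bc = if fh = true then gcT Hh n0 1 M R 0 (M - 1) 0 else
      gcT Hh (n0 + 1) 1 M R 0 (M - 2) 0 := ⟨_, rfl⟩
  have hb : Rep bi bc := by
    rw [hbi, hbc]
    cases fh
    · exact rep_mkcb hR20 h1
    · exact rep_mkcb hR20 h1
  have key : ∀ (its : List It) (ccs : List Cb), List.Forall₂ Rep its ccs →
      ccs = (if fw = true then
        [[(Hh - SS M (n0 + (M - 1)) R, Ww - SS 1 n0 M)], gcT Ww n0 M 1 M (M - 1) (R - 1) 0]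
        else [gcT Ww (n0 + M) M 1 M (M - 1) (R - 2) 0]) →
      KK (its ++ bi :: S) n0 M R = true →
      ∃ (S' : List It) (cs' : List Cb), KK S' n0 M R = true ∧ List.Forall₂ Rep S' cs' ∧
      ∀ (W H : ℝ) (C : List Cb) (P : Finset ℕ), PC W H ([(Hh, Ww)] :: (cs ++ C)) P →
        Disjoint P (Finset.Ico n0 (n0 + M * R)) →
        PC W H ((prs (M - 1) (R - 1)).map (fun q => [(hY n0 M R q.1 q.2, hX n0 M q.1 q.2)]) ++
          (cs' ++ C)) (P ∪ Finset.Ico n0 (n0 + M * R)) := by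
    intro its ccs hits hccs hK
    refine ⟨its ++ bi :: S, ccs ++ bc :: cs, hK,
      List.rel_append hits (List.Forall₂.cons hb hS), ?_⟩
    intro W H C P hP hd
    have h3 := PC.blockM hP hM hR hH hW hd fh fw e1 e2
    rw [← hccs, ← hbc, holes_eq hM hR] at h3
    refine h3.perm ?_
    -- ccs ++ bc :: (holes ++ (cs ++ C)) ~ holes ++ (ccs ++ bc :: cs ++ C)
    have p1 : (ccs ++ bc :: ((prs (M - 1) (R - 1)).map
        (fun q => [(hY n0 M R q.1 q.2, hX n0 M q.1 q.2)]) ++ (cs ++ C))) =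
        (ccs ++ [bc]) ++ ((prs (M - 1) (R - 1)).map
        (fun q => [(hY n0 M R q.1 q.2, hX n0 M q.1 q.2)]) ++ (cs ++ C)) := by simp
    have p2 : (ccs ++ bc :: cs ++ C) = (ccs ++ [bc]) ++ (cs ++ C) := by simp
    rw [p1, p2]
    exact List.perm_append_comm_assoc _ _ _
  cases fw
  · refine key [mkcb wl wu (n0 + M) M 1 M (M - 1) (R - 2)]
      [gcT Ww (n0 + M) M 1 M (M - 1) (R - 2) 0]
      (List.Forall₂.cons (rep_mkcb hM20 h2) List.Forall₂.nil) rfl ?_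
    rw [hbi]
    cases fh <;> exact h
  · have hc1 : SS M (n0 + (M - 1)) R ≤ Hh := (SS_anti (by omega)).trans hH
    refine key [It.rc (hl - hi (ap M (n0 + (M - 1)) R) R) (hu - ap M (n0 + (M - 1)) R)
        (wl - hi (ap 1 n0 M) M) (wu - ap 1 n0 M), mkcb wl wu n0 M 1 M (M - 1) (R - 1)]
      [[(Hh - SS M (n0 + (M - 1)) R, Ww - SS 1 n0 M)], gcT Ww n0 M 1 M (M - 1) (R - 1) 0]
      (List.Forall₂.cons ⟨_, _, rfl, ivD_sub h1 (iv_ap hR20) hc1, ivD_sub h2 (iv_ap hM20) hW⟩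
        (List.Forall₂.cons (rep_mkcb hM20 h2) List.Forall₂.nil)) rfl ?_
    rw [hbi]
    cases fh <;> exact h

/-- a block on a rectangle: the new stack without the holes -/
theorem blk_sound {KK : List It → ℕ → ℕ → ℕ → Bool} {fh fw : Bool} {hl hu wl wu M R E : ℕ}
    {S : List It} (h : blk KK fh fw hl hu wl wu M R E S = true) (hE : ek E < 2 ^ 20)
    {Hh Ww : ℝ} (h1 : Iv hl hu Hh) (h2 : Iv wl wu Ww) {cs : List Cb}
    (hS : List.Forall₂ Rep S cs) :
    2 ≤ M ∧ 2 ≤ R ∧ M * R = ek E + 1 ∧ ∃ (S' : List It) (cs' : List Cb),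
      KK S' (en E) M R = true ∧ List.Forall₂ Rep S' cs' ∧
      ∀ (W H : ℝ) (C : List Cb) (P : Finset ℕ), PC W H ([(Hh, Ww)] :: (cs ++ C)) P →
        Disjoint P (Finset.Ico (en E) (en E + (ek E + 1))) →
        PC W H ((prs (M - 1) (R - 1)).map (fun q => [(hY (en E) M R q.1 q.2, hX (en E) M q.1 q.2)]) ++
          (cs' ++ C)) (P ∪ Finset.Ico (en E) (en E + (ek E + 1))) := by
  unfold blk at h
  rw [bf, bf, bf] at h
  obtain ⟨hR, hM, hMR, h⟩ := h
  have hR := ble_iff.1 hR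
  have hM := ble_iff.1 hM
  have hMR : M * R = ek E + 1 := beq_iff.1 hMR
  refine ⟨hM, hR, hMR, ?_⟩
  have hMR20 : M * R ≤ 2 ^ 20 := by omega
  have hM20 : M ≤ 2 ^ 20 := by nlinarith
  have hR20 : R ≤ 2 ^ 20 := by nlinarith
  rw [← hMR]
  unfold blk2 at h
  rw [bf, bf] at h
  obtain ⟨hx, hy, h⟩ := h
  have hx := ble_iff.1 hx
  have hy := ble_iff.1 hy
  obtain ⟨n0, hn0⟩ : ∃ n0, n0 = en E := ⟨_, rfl⟩
  rw [← hn0] at h hx hy ⊢
  have ix : Iv (ap M n0 R) (hi (ap M n0 R) R) (SS M n0 R) := iv_ap hR20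
  have iy : Iv (ap 1 n0 M) (hi (ap 1 n0 M) M) (SS 1 n0 M) := iv_ap hM20
  have lx : SS M n0 R ≤ Hh := le_of_iv ix h1 hx
  have ly : SS 1 n0 M ≤ Ww := le_of_iv iy h2 hy
  cases fh
  · have r1 : Rep (It.rc (hl - hi (ap M n0 R) R) (hu - ap M n0 R) wl wu) [(Hh - SS M n0 R, Ww)] :=
      ⟨_, _, rfl, ivD_sub h1 ix lx, h2⟩
    cases fw
    · have r2 : Rep (It.rc (ap M n0 R) (hi (ap M n0 R) R) (wl - hi (ap 1 n0 M) M) (wu - ap 1 n0 M))
          [(SS M n0 R, Ww - SS 1 n0 M)] := ⟨_, _, rfl, ix, ivD_sub h2 iy ly⟩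
      obtain ⟨S', cs', a1, a2, a3⟩ := blk3_sound (fh := false) (fw := false) h hM hR hMR20 ix iy
        le_rfl le_rfl (fun _ => rfl) (fun _ => rfl)
        (List.Forall₂.cons r1 (List.Forall₂.cons r2 hS))
      refine ⟨S', cs', a1, a2, ?_⟩
      intro W H C P hP hd
      refine a3 W H C P ?_ hd
      have b1 := PC.cutT hP (SS_nonneg M n0 R) lx
      have b2 := b1.cut (c := []) (SS_nonneg 1 n0 M) ly
      refine b2.perm ?_
      exact List.Perm.cons _ (List.Perm.swap _ _ _)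
    · obtain ⟨S', cs', a1, a2, a3⟩ := blk3_sound (fh := false) (fw := true) h hM hR hMR20 ix h2
        le_rfl ly (fun _ => rfl) (fun hh => Bool.noConfusion hh) (List.Forall₂.cons r1 hS)
      refine ⟨S', cs', a1, a2, ?_⟩
      intro W H C P hP hd
      exact a3 W H C P (PC.cutT hP (SS_nonneg M n0 R) lx) hd
  · cases fw
    · have r2 : Rep (It.rc hl hu (wl - hi (ap 1 n0 M) M) (wu - ap 1 n0 M))
          [(Hh, Ww - SS 1 n0 M)] := ⟨_, _, rfl, h1, ivD_sub h2 iy ly⟩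
      obtain ⟨S', cs', a1, a2, a3⟩ := blk3_sound (fh := true) (fw := false) h hM hR hMR20 h1 iy
        lx le_rfl (fun hh => Bool.noConfusion hh) (fun _ => rfl) (List.Forall₂.cons r2 hS)
      refine ⟨S', cs', a1, a2, ?_⟩
      intro W H C P hP hd
      exact a3 W H C P (hP.cut (c := []) (SS_nonneg 1 n0 M) ly) hd
    · exact blk3_sound (fh := true) (fw := true) h hM hR hMR20 h1 h2
        lx ly (fun hh => Bool.noConfusion hh) (fun hh => Bool.noConfusion hh) hS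

/-! ### the holes -/

theorem hY_SS {n0 M R i j : ℕ} :
    hY n0 M R i j = SS M (n0 + (j + 1) * M + i) (R - 1 - j) -
      SS M (n0 + (j + 1) * M + (i + 1)) (R - 1 - j) := by
  unfold hY SS
  rw [Finset.sum_Ico_eq_sum_range, ← Finset.sum_sub_distrib]
  have e : R - (j + 1) = R - 1 - j := by omega
  rw [e]
  refine Finset.sum_congr rfl fun l _ => ?_
  have e1 : n0 + (j + 1 + l) * M + i = n0 + (j + 1) * M + i + M * l := by ring
  have e2 : n0 + (j + 1 + l) * M + (i + 1) = n0 + (j + 1) * M + (i + 1) + M * l := by ring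
  rw [e1, e2]

theorem hX_SS {n0 M i j : ℕ} :
    hX n0 M i j = SS 1 (n0 + j * M) (i + 1) - SS 1 (n0 + (j + 1) * M) (i + 1) := by
  unfold hX SS
  rw [← Finset.sum_sub_distrib]
  refine Finset.sum_congr rfl fun l _ => ?_
  rw [Nat.one_mul]

theorem hole_rep {n0 M R i j : ℕ} (hMR : M * R ≤ 2 ^ 20) (hM : 2 ≤ M) (hR : 2 ≤ R)
    (hi' : i < M - 1) :
    Rep (hole n0 M R i j) [(hY n0 M R i j, hX n0 M i j)] := by
  have hM20 : M ≤ 2 ^ 20 := by nlinarith
  have hR20 : R ≤ 2 ^ 20 := by nlinarith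
  refine ⟨hY n0 M R i j, hX n0 M i j, rfl, ?_, ?_⟩
  · rw [hY_SS]
    exact ivD_sub (iv_ap (d := M) (n := n0 + (j + 1) * M + i) (c := R - 1 - j) (by omega))
      (iv_ap (d := M) (n := n0 + (j + 1) * M + (i + 1)) (c := R - 1 - j) (by omega))
      (SS_anti (by omega))
  · rw [hX_SS]
    exact ivD_sub (iv_ap (d := 1) (n := n0 + j * M) (c := i + 1) (by omega))
      (iv_ap (d := 1) (n := n0 + (j + 1) * M) (c := i + 1) (by omega))
      (SS_anti (by nlinarith))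

/-- the holes are pushed -/
theorem pushH_rep {n0 M R : ℕ} (hM : 2 ≤ M) (hR : 2 ≤ R) (hMR : M * R ≤ 2 ^ 20) {S : List It}
    {cs : List Cb} (hS : List.Forall₂ Rep S cs) :
    ∃ hs : List Cb, List.Forall₂ Rep (pushH n0 M R ((M - 1) * (R - 1)) S) (hs ++ cs) ∧
      hs.Perm ((prs (M - 1) (R - 1)).map (fun q => [(hY n0 M R q.1 q.2, hX n0 M q.1 q.2)])) := by
  have hR1 : 0 < R - 1 := by omega
  have key : ∀ k, k ≤ (M - 1) * (R - 1) → List.Forall₂ Rep (pushH n0 M R k S)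
      (((List.range k).map (fun k => (k / (R - 1), k % (R - 1)))).reverse.map
        (fun q => [(hY n0 M R q.1 q.2, hX n0 M q.1 q.2)]) ++ cs) := by
    intro k
    induction k with
    | zero => intro _; simpa [pushH] using hS
    | succ k ih =>
      intro hk
      have h1 := ih (by omega)
      rw [List.range_succ, List.map_append, List.reverse_append]
      simp only [List.map_cons, List.map_nil, List.reverse_cons, List.reverse_nil, List.nil_append,
        List.cons_append]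
      have hi' : k / (R - 1) < M - 1 := by
        rw [Nat.div_lt_iff_lt_mul hR1]
        omega
      exact List.Forall₂.cons (hole_rep hMR hM hR hi') h1
  refine ⟨_, key _ le_rfl, ?_⟩
  apply List.Perm.map
  refine (List.reverse_perm _).trans ?_
  rw [List.perm_ext_iff_of_nodup]
  · intro q
    rw [mem_prs, List.mem_map]
    constructor
    · rintro ⟨k, hk, rfl⟩
      rw [List.mem_range] at hk
      refine ⟨?_, Nat.mod_lt _ hR1⟩
      show k / (R - 1) < M - 1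
      rw [Nat.div_lt_iff_lt_mul hR1]
      exact hk
    · rintro ⟨h1, h2⟩
      refine ⟨q.1 * (R - 1) + q.2, ?_, ?_⟩
      · rw [List.mem_range]
        have : (q.1 + 1) * (R - 1) ≤ (M - 1) * (R - 1) := Nat.mul_le_mul_right _ h1
        rw [Nat.add_mul] at this
        omega
      · have e1 : (q.1 * (R - 1) + q.2) / (R - 1) = q.1 := by
          rw [Nat.add_comm, Nat.add_mul_div_right _ _ hR1, Nat.div_eq_of_lt h2, Nat.zero_add]
        have e2 : (q.1 * (R - 1) + q.2) % (R - 1) = q.2 := by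
          rw [Nat.add_comm, Nat.add_mul_mod_self_right, Nat.mod_eq_of_lt h2]
        exact Prod.ext e1 e2
  · refine List.Nodup.map ?_ List.nodup_range
    intro a b hab
    have h1 : a / (R - 1) = b / (R - 1) := congrArg Prod.fst hab
    have h2 : a % (R - 1) = b % (R - 1) := congrArg Prod.snd hab
    rw [← Nat.div_add_mod a (R - 1), ← Nat.div_add_mod b (R - 1), h1, h2]
  · exact prs_nodup _ _

theorem op9_sound (E : Env) (w : ℕ) :
    Sound E (fun K => op9 E.tab w K) := by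
  intro K S Th p sp tot rk h hsta
  obtain ⟨h1, h2⟩ := useR_sound (show useR (wi w) rk _ = true from h)
  obtain ⟨hb, cs, hs, ls, hcs, hhs, hacc, hthk, hPC⟩ := hsta
  obtain ⟨hr, hb', hdis, hun⟩ := h2 E hb
  obtain ⟨a, A, b, B, S', x, y, cs', h3, rfl, hS', hx, hy⟩ := onRc_sound h1 hcs
  obtain ⟨hM, hR, hMR, S2, cs2, h4, hS2, h5⟩ := blk_sound h3 (E.hk _ hr) hx hy hS'
  have hE := E.hk _ hr
  obtain ⟨hh, h6, hperm⟩ := pushH_rep (n0 := en (ent E.tab (wi w))) hM hR (by omega) hS2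
  refine ⟨_, Th, p, sp, tot, rk - 2 ^ wi w, h4, hb', hh ++ cs2, hs, ls, h6, hhs, hacc, hthk, ?_⟩
  have h7 : PC E.W E.H ([(x, y)] :: (cs' ++ (hs ++ ls ++ E.C0)))
      (E.P0 ∪ Pset E.tab E.cnt rk) := by
    refine hPC.perm (List.Perm.of_eq ?_)
    simp
  have h8 := h5 E.W E.H (hs ++ ls ++ E.C0) _ h7 hdis
  have h9 : (E.P0 ∪ Pset E.tab E.cnt rk) ∪ Finset.Ico (en (ent E.tab (wi w)))
      (en (ent E.tab (wi w)) + (ek (ent E.tab (wi w)) + 1)) =
      E.P0 ∪ Pset E.tab E.cnt (rk - 2 ^ wi w) := hun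
  rw [h9] at h8
  refine h8.perm ?_
  have h10 := List.Perm.append_right (cs2 ++ (hs ++ ls ++ E.C0)) hperm.symm
  refine h10.trans (List.Perm.of_eq ?_)
  simp

end Pool.Agent.LibM73
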