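import Pool.Agent.LibM73.OpD
import Pool.Agent.LibM73.HoleB
set_option autoImplicit false
/-!
# Operation 10 (blocks, the holes go to the table)  (TASK OPE)
-/
namespace Pool.Agent.LibM73
open Pool.Agent.LibMoser5 Pool.Agent.LibMoserF

theorem flat51 {α β : Type} (l : List α) (f : α → β) :
    (l.map (fun q => [f q])).flatten = l.map f := by
  induction l with
  | nil => rfl
  | cons a l ih => rw [List.map_cons, List.flatten_cons, ih]; rfl

theorem thk_app51 (l l' : List (ℝ × ℝ)) : thk (l ++ l') = thk l + thk l' := by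
  unfold thk
  rw [List.map_append, List.sum_append]

theorem op10_sound (E : Env) (G w : ℕ) :
    Sound E (fun K => op10 E.tab G w K) := by
  intro K S Th p sp tot rk h hsta
  obtain ⟨h1, h2⟩ := useR_sound (show useR (wi w) rk _ = true from h)
  obtain ⟨hb, cs, hs, ls, hcs, hhs, hacc, hthk, hPC⟩ := hsta
  obtain ⟨hr, hb', hdis, hun⟩ := h2 E hb
  obtain ⟨a, A, b, B, S', x, y, cs', h3, rfl, hS', hx, hy⟩ := onRc_sound h1 hcs
  obtain ⟨hM, hR, hMR, S2, cs2, h4, hS2, h5⟩ := blk_sound h3 (E.hk _ hr) hx hy hS'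
  rw [bf, Bool.and_eq_true, ble_iff, ble_iff] at h4
  obtain ⟨⟨h6, h7⟩, h8⟩ := h4
  obtain ⟨p', m', s', hK, ⟨c', hf', hA⟩, hs'⟩ := holT_sound h8 hM hR h6 h7 rfl rfl
  have hfl : ((prs (wM w - 1) (wR w - 1)).map (fun q => [(hY (en (ent E.tab (wi w))) (wM w) (wR w)
      q.1 q.2, hX (en (ent E.tab (wi w))) (wM w) q.1 q.2)])).flatten =
      holeL (en (ent E.tab (wi w))) (wM w) (wR w) := flat51 _ _
  refine ⟨S2, Th, p', sp + s', tot + m', rk - 2 ^ wi w, hK, hb', cs2, hs,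
    ls ++ (prs (wM w - 1) (wR w - 1)).map (fun q => [(hY (en (ent E.tab (wi w))) (wM w) (wR w)
      q.1 q.2, hX (en (ent E.tab (wi w))) (wM w) q.1 q.2)]), hS2, hhs, ?_, ?_, ?_⟩
  · rw [List.flatten_append, hfl, hf']
    exact Acc.append hacc hA
  · rw [List.flatten_append, hfl, thk_app51, mul_add]
    push_cast
    linarith
  · have h9 : PC E.W E.H ([(x, y)] :: (cs' ++ (hs ++ ls ++ E.C0)))
        (E.P0 ∪ Pset E.tab E.cnt rk) := by
      refine hPC.perm (List.Perm.of_eq ?_)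
      simp
    have h10 := h5 E.W E.H (hs ++ ls ++ E.C0) _ h9 hdis
    have h11 : (E.P0 ∪ Pset E.tab E.cnt rk) ∪ Finset.Ico (en (ent E.tab (wi w)))
        (en (ent E.tab (wi w)) + (ek (ent E.tab (wi w)) + 1)) =
        E.P0 ∪ Pset E.tab E.cnt (rk - 2 ^ wi w) := hun
    rw [h11] at h10
    refine h10.perm ?_
    have h12 : cs2 ++ hs ++ (ls ++ (prs (wM w - 1) (wR w - 1)).map
        (fun q => [(hY (en (ent E.tab (wi w))) (wM w) (wR w)
        q.1 q.2, hX (en (ent E.tab (wi w))) (wM w) q.1 q.2)])) ++ E.C0 =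
        (cs2 ++ (hs ++ ls)) ++ ((prs (wM w - 1) (wR w - 1)).map
        (fun q => [(hY (en (ent E.tab (wi w))) (wM w) (wR w)
        q.1 q.2, hX (en (ent E.tab (wi w))) (wM w) q.1 q.2)]) ++ E.C0) := by
      simp
    rw [h12]
    refine List.Perm.trans ?_ (List.perm_append_comm_assoc _ _ _)
    refine List.Perm.of_eq ?_
    simp

end Pool.Agent.LibM73
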