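import Pool.Agent.LibM73.Geo
import Pool.Agent.LibM73.AccL
import Pool.Agent.LibM73.Cell
import Pool.Agent.LibM73.Prof
set_option autoImplicit false
/-!
# Operations: marks and rows  (TASK OPU)
-/
namespace Pool.Agent.LibM73
open Pool.Agent.LibMoser5 Pool.Agent.LibMoserF

theorem land_one (x : ℕ) : Nat.land x 1 = x % 2 := Nat.and_one_is_mod x

theorem testBit_split {rk r : ℕ} (h : rk.testBit r = true) : ∃ q m, m < 2 ^ r ∧
    rk = 2 ^ (r + 1) * q + (2 ^ r + m) := by
  have h2 : rk / 2 ^ r % 2 = 1 := by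
    rw [Nat.testBit_eq_decide_div_mod_eq, decide_eq_true_eq] at h
    exact h
  refine ⟨rk / 2 ^ r / 2, rk % 2 ^ r, Nat.mod_lt _ (by positivity), ?_⟩
  have h4 := Nat.div_add_mod rk (2 ^ r)
  have h5 := Nat.div_add_mod (rk / 2 ^ r) 2
  rw [h2] at h5
  generalize rk / 2 ^ r / 2 = q at *
  generalize rk % 2 ^ r = m at *
  rw [← h4, ← h5, pow_succ]
  ring

theorem testBit_sub {rk r : ℕ} (h : rk.testBit r = true) (s : ℕ) :
    (rk - 2 ^ r).testBit s = (!decide (s = r) && rk.testBit s) := by
  obtain ⟨q, m, hm, h3⟩ := testBit_split h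
  have hm1 : m < 2 ^ (r + 1) := by rw [pow_succ]; omega
  have hm2 : 2 ^ r * 1 + m < 2 ^ (r + 1) := by rw [pow_succ]; omega
  have h8 : rk = 2 ^ (r + 1) * q ||| (2 ^ r * 1 ||| m) := by
    rw [← Nat.two_pow_add_eq_or_of_lt hm 1, ← Nat.two_pow_add_eq_or_of_lt hm2 q]
    omega
  have h9 : rk - 2 ^ r = 2 ^ (r + 1) * q ||| m := by
    rw [← Nat.two_pow_add_eq_or_of_lt hm1 q]
    omega
  have h10 : ∀ j, r ≤ j → m.testBit j = false := fun j hj =>
    Nat.testBit_lt_two_pow (lt_of_lt_of_le hm (Nat.pow_le_pow_right (by norm_num) hj))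
  rw [h9, h8]
  simp only [Nat.testBit_or, Nat.testBit_two_pow_mul, Nat.testBit_two_pow, mul_one]
  by_cases h1 : s = r
  · subst h1
    simp [h10 s le_rfl]
  · have h1' : (r = s) = False := by simp only [eq_iff_iff, iff_false]; exact fun h => h1 h.symm
    simp [h1, h1']

theorem useR_def {r rk : ℕ} {K : ℕ → Bool} (h : useR r rk K = true) :
    rk.testBit r = true ∧ K (rk - 2 ^ r) = true := by
  unfold useR at h
  rw [bf, beq_iff] at h
  obtain ⟨h1, h2⟩ := h
  constructor
  · have h3 : (rk >>> r) &&& 1 = 1 := h1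
    rw [Nat.and_one_is_mod] at h3
    rw [Nat.testBit_eq_decide_div_mod_eq, decide_eq_true_eq]
    rw [Nat.shiftRight_eq_div_pow] at h3
    omega
  · have e : (Nat.sub rk (Nat.shiftLeft 1 r)) = rk - 2 ^ r := by
      show rk - 1 <<< r = _
      rw [Nat.one_shiftLeft]
    rw [e] at h2
    exact h2

/-- marking of an entry -/
theorem useR_sound {r rk : ℕ} {K : ℕ → Bool} (h : useR r rk K = true) :
    K (rk - 2 ^ r) = true ∧ ∀ E : Env, (∀ s, rk.testBit s = true → s < E.cnt) →
      r < E.cnt ∧ (∀ s, (rk - 2 ^ r).testBit s = true → s < E.cnt) ∧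
      Disjoint (E.P0 ∪ Pset E.tab E.cnt rk) (Iset E.tab r) ∧
      (E.P0 ∪ Pset E.tab E.cnt rk) ∪ Iset E.tab r = E.P0 ∪ Pset E.tab E.cnt (rk - 2 ^ r) := by
  obtain ⟨h0, h1⟩ := useR_def h
  refine ⟨h1, fun E hb => ?_⟩
  have ht := testBit_sub h0
  have hr := hb r h0
  refine ⟨hr, ?_, ?_, ?_⟩
  · intro s hs
    rw [ht, Bool.and_eq_true] at hs
    exact hb s hs.2
  · rw [Finset.disjoint_union_left]
    refine ⟨(E.hd r hr).symm, ?_⟩
    unfold Pset
    rw [Finset.disjoint_biUnion_left]
    intro s hs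
    rw [Finset.mem_range] at hs
    split_ifs with h2
    · exact Finset.disjoint_empty_left _
    · refine E.hd2 s hs r hr ?_
      rintro rfl
      exact h2 h0
  · rw [Finset.union_assoc]
    congr 1
    unfold Pset
    ext x
    simp only [Finset.mem_union, Finset.mem_biUnion, Finset.mem_range]
    constructor
    · rintro (⟨s, h2, h3⟩ | h2)
      · refine ⟨s, h2, ?_⟩
        split_ifs at h3 with h4
        · simp at h3
        · have : (rk - 2 ^ r).testBit s = false := by
            rw [ht, Bool.eq_false_iff.2 h4, Bool.and_false]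
          rw [this]
          exact h3
      · refine ⟨r, hr, ?_⟩
        have : (rk - 2 ^ r).testBit r = false := by rw [ht]; simp
        rw [this]
        exact h2
    · rintro ⟨s, h2, h3⟩
      split_ifs at h3 with h4
      · simp at h3
      · by_cases h5 : s = r
        · right; rw [← h5]; exact h3
        · left
          refine ⟨s, h2, ?_⟩
          have h6 : rk.testBit s = false := by
            rw [ht] at h4
            simpa [h5] using h4
          rw [h6]
          exact h3

theorem wi_lt (w : ℕ) : wi w < 8192 := Nat.mod_lt _ (by decide)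

theorem range'_sum (n k : ℕ) : ((List.range' n k).map sd).sum =
    ∑ l ∈ Finset.range k, sd (n + 1 * l) := by
  induction k with
  | zero => simp
  | succ k ih =>
    rw [List.range'_concat, List.map_append, List.sum_append, ih, Finset.sum_range_succ]
    simp

theorem cast_sub_ge (a b : ℕ) : (a : ℝ) - b ≤ ((a - b : ℕ) : ℝ) := by
  rcases Nat.le_total b a with h | h
  · rw [Nat.cast_sub h]
  · have : (a : ℝ) ≤ b := by exact_mod_cast h
    have h2 : (0 : ℝ) ≤ ((a - b : ℕ) : ℝ) := Nat.cast_nonneg _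
    linarith

/-- truncated subtraction as a lower bound -/
theorem cast_sub_le {a b : ℕ} {x : ℝ} (h : (a : ℝ) - b ≤ x) (h0 : 0 ≤ x) :
    ((a - b : ℕ) : ℝ) ≤ x := by
  rcases Nat.le_total b a with h1 | h1
  · rw [Nat.cast_sub h1]; exact h
  · rw [Nat.sub_eq_zero_of_le h1]; simpa using h0

/-- the numbers of a row fit -/
theorem rowP_sound {a l L n0 k0 : ℕ} {K : ℕ → ℕ → Bool} (hk : k0 < 2 ^ 20)
    (h : rowP a l L n0 k0 (ap 1 n0 (k0 + 1)) K = true) {τ ln : ℝ} (hτ : (a : ℝ) ≤ U * τ)
    (hl : Iv l L ln) :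
    ∃ l' L' : ℕ, K l' L' = true ∧ (∀ m ∈ List.range' n0 (k0 + 1), sd m ≤ τ) ∧
      ((List.range' n0 (k0 + 1)).map sd).sum ≤ ln ∧
      Iv l' L' (ln - ((List.range' n0 (k0 + 1)).map sd).sum) := by
  unfold rowP at h
  rw [bf, bf, ble_iff, ble_iff] at h
  obtain ⟨h1, h2, h3⟩ := h
  have hsum : ((List.range' n0 (k0 + 1)).map sd).sum =
      ∑ l ∈ Finset.range (k0 + 1), sd (n0 + 1 * l) := range'_sum n0 (k0 + 1)
  have hb := ap_bd (d := 1) (n := n0) (c := k0 + 1) (by omega)
  rw [← hsum] at hb
  obtain ⟨hb1, hb2⟩ := hb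
  have e1 : Nat.succ k0 = k0 + 1 := rfl
  rw [e1] at h2 h3
  have h2' : ((hi (ap 1 n0 (k0 + 1)) (k0 + 1) : ℕ) : ℝ) ≤ l := by exact_mod_cast h2
  have hU : (0 : ℝ) < U := by unfold U; positivity
  have hle : U * ((List.range' n0 (k0 + 1)).map sd).sum ≤ U * ln := by
    exact hb2.trans (h2'.trans hl.1)
  refine ⟨_, _, h3, ?_, ?_, ?_, ?_⟩
  · intro m hm
    rw [List.mem_range'_1] at hm
    have h4 : U * sd m < sl m + 1 := sl_lt m
    have h5 : sl m ≤ sl n0 := sl_anti hm.1
    have h6 : ((sl n0 + 1 : ℕ) : ℝ) ≤ a := by exact_mod_cast h1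
    have h7 : ((sl m : ℕ) : ℝ) ≤ sl n0 := by exact_mod_cast h5
    push_cast at h6
    have h8 : U * sd m ≤ U * τ := by linarith
    exact le_of_mul_le_mul_left h8 hU
  · exact le_of_mul_le_mul_left hle hU
  · show ((l - hi (ap 1 n0 (k0 + 1)) (k0 + 1) : ℕ) : ℝ) ≤ _
    rw [Nat.cast_sub h2, mul_sub]
    linarith [hl.1]
  · show U * _ ≤ ((L - ap 1 n0 (k0 + 1) : ℕ) : ℝ)
    have h9 : ((L : ℝ) - (ap 1 n0 (k0 + 1) : ℕ)) ≤ ((L - ap 1 n0 (k0 + 1) : ℕ) : ℝ) :=
      cast_sub_ge _ _
    rw [mul_sub]
    linarith [hl.2]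

/-- a rectangle on the top of the stack -/
theorem onRc_sound {S : List It} {F : ℕ → ℕ → ℕ → ℕ → List It → Bool} (h : onRc S F = true)
    {cs : List Cb} (hS : List.Forall₂ Rep S cs) :
    ∃ (a A b B : ℕ) (S' : List It) (x y : ℝ) (cs' : List Cb), F a A b B S' = true ∧
      cs = [(x, y)] :: cs' ∧ List.Forall₂ Rep S' cs' ∧ Iv a A x ∧ Iv b B y := by
  cases hS with
  | nil => exact absurd h (by simp [onRc])
  | cons h1 h2 =>
    rename_i i c S' cs'
    cases i with
    | rc a A b B =>
      obtain ⟨x, y, rfl, h3, h4⟩ := h1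
      exact ⟨a, A, b, B, S', x, y, cs', h, rfl, h2, h3, h4⟩
    | sc => exact absurd h (by simp [onRc])
    | cb => exact absurd h (by simp [onRc])

/-- a comb with at least two teeth on the top of the stack -/
theorem onPass_sound {S : List It}
    {F : ℕ → ℕ → ℕ → ℕ → ℕ → ℕ → (ℕ → ℕ → It) → List It → Bool} (h : onPass S F = true)
    {cs : List Cb} (hS : List.Forall₂ Rep S cs) (hok : ∀ c ∈ cs, CbOK c) :
    ∃ (a A l L v er : ℕ) (Rf : ℕ → ℕ → It) (S' : List It) (τ ln τ' ln' : ℝ) (tl : Cb)
      (cs' : List Cb), F a A l L v er Rf S' = true ∧ cs = ((τ, ln) :: (τ', ln') :: tl) :: cs' ∧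
      List.Forall₂ Rep S' cs' ∧ Iv a A τ ∧ Iv l L ln ∧ Iv (v - er) v (τ - τ') ∧
      (∀ (l' L' : ℕ) (ρ : ℝ), Iv l' L' ρ → Rep (Rf l' L') ((τ', ρ + ln') :: tl)) := by
  cases hS with
  | nil => exact absurd h (by simp [onPass])
  | cons h1 h2 =>
    rename_i i c S' cs'
    have hc := hok c List.mem_cons_self
    cases i with
    | rc a A b B => exact absurd h (by simp [onPass])
    | sc t T n k x r R =>
      obtain ⟨hx, hk, θ, ρ, hC, hθ, hρ⟩ := h1
      cases k with
      | zero => exact absurd h (by simp [onPass])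
      | succ k1 =>
        have hC' : c = (θ - sd (n + (k1 + 1)), sd (n + (k1 + 1)) + ρ) ::
            (θ - sd (n + k1), sd (n + k1)) ::
            ((List.range k1).map (fun i => (θ - sd (n + i), sd (n + i)))).reverse := by
          rw [hC]
          unfold scT
          rw [cbT_succ]
          unfold cbT
          simp
        rw [hC'] at hc
        have p1 := hc.head.1
        have p2 := (List.pairwise_cons.1 hc.2).1 _ List.mem_cons_self
        simp only at p1 p2
        have a1 := sl_le (n + (k1 + 1))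
        have a2 := sl_lt (n + (k1 + 1))
        have b1 := sl_le (n + k1)
        have b2 := sl_lt (n + k1)
        have hxr : (x : ℝ) = (sl (n + (k1 + 1)) : ℕ) := by exact_mod_cast hx
        have hU : (0 : ℝ) ≤ U := by unfold U; positivity
        refine ⟨_, _, _, _, _, _, _, S', _, _, _, _, _, cs', h, by rw [hC'], h2, ?_, ?_, ?_, ?_⟩
        · refine ⟨cast_sub_le ?_ (mul_nonneg hU p1), ?_⟩
          · push_cast
            rw [mul_sub]
            linarith [hθ.1]
          · refine le_trans ?_ (cast_sub_ge T x)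
            rw [mul_sub]
            linarith [hθ.2]
        · constructor
          · show ((x + r : ℕ) : ℝ) ≤ _
            push_cast
            rw [mul_add]
            linarith [hρ.1]
          · show _ ≤ ((x + 1 + R : ℕ) : ℝ)
            push_cast
            rw [mul_add]
            linarith [hρ.2]
        · have e : (θ - sd (n + (k1 + 1)) - (θ - sd (n + k1))) = sd (n + k1) - sd (n + (k1 + 1)) := by
            ring
          rw [e]
          constructor
          · show ((sl (n + k1) + 1 - x - 2 : ℕ) : ℝ) ≤ _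
            rw [Nat.sub_sub]
            refine cast_sub_le ?_ (mul_nonneg hU (by linarith))
            push_cast
            rw [mul_sub]
            linarith
          · refine le_trans ?_ (cast_sub_ge (sl (n + k1) + 1) x)
            push_cast
            rw [mul_sub]
            linarith
        · intro l' L' ρ' hρ'
          refine ⟨rfl, by omega, θ, ρ', ?_, hθ, hρ'⟩
          unfold scT cbT
          rw [add_comm ρ']
    | cb t T n e d c0 f k x r R =>
      obtain ⟨hx, hc20, θ, ρ, hC, hθ, hρ⟩ := h1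
      cases k with
      | zero => exact absurd h (by simp [onPass])
      | succ k1 =>
        have hC' : c = (θ - SS d (n + e * (k1 + 1)) c0, sd (n + e * (k1 + 1) + f) + ρ) ::
            (θ - SS d (n + e * k1) c0, sd (n + e * k1 + f)) ::
            ((List.range k1).map (fun i => (θ - SS d (n + e * i) c0, sd (n + e * i + f)))).reverse := by
          rw [hC]
          unfold gcT
          rw [cbT_succ]
          unfold cbT
          simp
        rw [hC'] at hc
        have p1 := hc.head.1
        have p2 := (List.pairwise_cons.1 hc.2).1 _ List.mem_cons_self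
        simp only at p1 p2
        obtain ⟨a1, a2⟩ := ap_bd (d := d) (n := n + e * (k1 + 1)) hc20
        obtain ⟨b1, b2⟩ := ap_bd (d := d) (n := n + e * k1) hc20
        have s1 := sl_le (n + e * (k1 + 1) + f)
        have s2 := sl_lt (n + e * (k1 + 1) + f)
        rw [← hx] at a1 a2
        change (x : ℝ) ≤ U * SS d (n + e * (k1 + 1)) c0 at a1
        change U * SS d (n + e * (k1 + 1)) c0 ≤ _ at a2
        change _ ≤ U * SS d (n + e * k1) c0 at b1
        change U * SS d (n + e * k1) c0 ≤ _ at b2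
        have hU : (0 : ℝ) ≤ U := by unfold U; positivity
        refine ⟨_, _, _, _, _, _, _, S', _, _, _, _, _, cs', h, by rw [hC'], h2, ?_, ?_, ?_, ?_⟩
        · refine ⟨cast_sub_le ?_ (mul_nonneg hU p1), ?_⟩
          · rw [mul_sub]
            linarith [hθ.1]
          · refine le_trans ?_ (cast_sub_ge T x)
            rw [mul_sub]
            linarith [hθ.2]
        · constructor
          · show ((sl (n + e * (k1 + 1) + f) + r : ℕ) : ℝ) ≤ _
            rw [Nat.cast_add, mul_add U]
            linarith [hρ.1]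
          · show _ ≤ ((sl (n + e * (k1 + 1) + f) + 1 + R : ℕ) : ℝ)
            rw [Nat.cast_add, Nat.cast_add, Nat.cast_one, mul_add U]
            linarith [hρ.2]
        · have e' : (θ - SS d (n + e * (k1 + 1)) c0 - (θ - SS d (n + e * k1) c0)) =
              SS d (n + e * k1) c0 - SS d (n + e * (k1 + 1)) c0 := by ring
          rw [e']
          set y := ap d (n + e * k1) c0
          have hy : y ≤ hi y c0 := by rw [hi_eq]; omega
          have hx' : x ≤ hi x c0 := by rw [hi_eq]; omega
          constructor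
          · show ((hi y c0 - x - ((hi y c0 - y) + (hi x c0 - x)) : ℕ) : ℝ) ≤ _
            have e2 : hi y c0 - x - ((hi y c0 - y) + (hi x c0 - x)) = y - hi x c0 := by omega
            rw [e2]
            refine cast_sub_le ?_ (mul_nonneg hU (by linarith))
            rw [mul_sub]
            linarith
          · refine le_trans ?_ (cast_sub_ge (hi y c0) x)
            rw [mul_sub]
            linarith
        · intro l' L' ρ' hρ'
          refine ⟨rfl, hc20, θ, ρ', ?_, hθ, hρ'⟩
          unfold gcT cbT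
          rw [add_comm ρ']

/-- the comb above a row, as an item -/
theorem rep_child {a A n k : ℕ} {θ : ℝ} (hk : k < 2 ^ 20) (h : Iv a A θ) :
    Rep (It.sc a A n k (sl (n + k)) 0 0) (scT θ n k 0) :=
  ⟨rfl, hk, θ, 0, rfl, h, by simp [Iv]⟩

/-- a thin piece -/
theorem thinP_sound {e v er l L : ℕ} {P : Pf} {K : KL} (he : e < 32)
    (h : thinP e v er l L P K = true)
    {x ln : ℝ} (hx : Iv (v - er) v x) (hl : Iv l L ln) :
    ∃ (P' : Pf) (m : ℕ), K P' m = true ∧ ∃ c, flat P' = flat P + c ∧ Acc [(x, ln)] c m := by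
  unfold thinP at h
  rw [bf, bf, ble_iff, ble_iff] at h
  obtain ⟨h1, h2, h3⟩ := h
  unfold put at h3
  rw [bf, beq_iff] at h3
  obtain ⟨h4, h5⟩ := h3
  obtain ⟨P', h6, h7⟩ := addP_sound h5 (ix_spec he h4).1.le
  refine ⟨P', _, h6, _, h7, ?_⟩
  have hU : (0 : ℝ) < U := by unfold U; positivity
  have h1' : 6 * (v : ℝ) ≤ 5 * l := by exact_mod_cast h1
  refine acc_single (c := ix e v) ?_ ?_ ?_
  · exact put_in he h4 h2 hx.2 ((cast_sub_ge v er).trans hx.1)
  · have : U * (6 / 5 * x) ≤ U * ln := by
      have := hx.2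
      have := hl.1
      nlinarith
    exact le_of_mul_le_mul_left this hU
  · have := msT_le (l := [(x, ln)]) (tl := L) (tv := v) (by simpa using hl.2) (by simpa using hx.2)
    simpa using this

end Pool.Agent.LibM73
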