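import Pool.Agent.LibM73.OpU
set_option autoImplicit false
/-!
# Tools for the operations (helper68)
-/
namespace Pool.Agent.LibM73
open Pool.Agent.LibMoser5 Pool.Agent.LibMoserF

theorem xU_pos : (0 : ℝ) < U := by unfold U; positivity

theorem onRc_data {S : List It} {F : ℕ → ℕ → ℕ → ℕ → List It → Bool} (h : onRc S F = true) :
    ∃ (a A b B : ℕ) (S' : List It), S = It.rc a A b B :: S' ∧ F a A b B S' = true := by
  cases S with
  | nil => exact absurd (show false = true from h) Bool.false_ne_true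
  | cons i S' =>
    cases i with
    | rc a A b B => exact ⟨a, A, b, B, S', rfl, h⟩
    | sc t T n k x r R => exact absurd (show false = true from h) Bool.false_ne_true
    | cb t T n e d c f k x r R => exact absurd (show false = true from h) Bool.false_ne_true

/-- the head rectangle -/
theorem rc_head {a A b B : ℕ} {S' : List It} {cs : List Cb}
    (hS : List.Forall₂ Rep (It.rc a A b B :: S') cs) :
    ∃ (x y : ℝ) (cs' : List Cb), cs = [(x, y)] :: cs' ∧ List.Forall₂ Rep S' cs' ∧
      Iv a A x ∧ Iv b B y := by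
  rw [List.forall₂_cons_left_iff] at hS
  obtain ⟨c, cs', h1, h2, rfl⟩ := hS
  obtain ⟨x, y, rfl, hx, hy⟩ := h1
  exact ⟨x, y, cs', rfl, h2, hx, hy⟩

theorem xiv_sub {t T x y : ℕ} {θ s : ℝ} (h : Iv t T θ) (h1 : (x : ℝ) ≤ U * s) (h2 : U * s ≤ y)
    (h0 : 0 ≤ θ - s) : Iv (t - y) (T - x) (θ - s) := by
  have hU := xU_pos
  have h3 : 0 ≤ U * (θ - s) := mul_nonneg hU.le h0
  have e : U * (θ - s) = U * θ - U * s := by ring
  constructor
  · rcases le_total y t with hy | hy
    · rw [Nat.cast_sub hy, e]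
      linarith [h.1]
    · rw [Nat.sub_eq_zero_of_le hy]
      simpa using h3
  · have h4 : (T : ℝ) - x ≤ ((T - x : ℕ) : ℝ) := by
      rcases le_total x T with hx | hx
      · rw [Nat.cast_sub hx]
      · have : (T : ℝ) ≤ x := by exact_mod_cast hx
        have h5 : (0 : ℝ) ≤ ((T - x : ℕ) : ℝ) := Nat.cast_nonneg _
        linarith
    rw [e]
    linarith [h.2]

theorem xiv_add {t T x y : ℕ} {ρ s : ℝ} (h : Iv t T ρ) (h1 : (x : ℝ) ≤ U * s) (h2 : U * s ≤ y) :
    Iv (x + t) (y + T) (s + ρ) := by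
  have e : U * (s + ρ) = U * s + U * ρ := by ring
  constructor
  · rw [e]; push_cast; linarith [h.1]
  · rw [e]; push_cast; linarith [h.2]

theorem xiv_zero : Iv 0 0 0 := by constructor <;> simp

end Pool.Agent.LibM73
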