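import Pool.Agent.LibM73.OpA
import Pool.Agent.LibM73.OpB
import Pool.Agent.LibM73.OpC
import Pool.Agent.LibM73.OpE
set_option autoImplicit false
/-!
# Soundness of a module  (TASK RUN, helper68)
-/
namespace Pool.Agent.LibM73
open Pool.Agent.LibMoser5 Pool.Agent.LibMoserF

theorem brec2 {P : Bool → Prop} {b x y : Bool} (hx : P x) (hy : P y) :
    P (Bool.rec (motive := fun _ => Bool) x y b) := by
  cases b
  · exact hx
  · exact hy

theorem stepM_sound (E : Env) (G w : ℕ) :
    Sound E (fun K => stepM E.tab G w K) := by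
  intro K S Th p sp tot rk h hI
  have key : ∀ b : Bool, (b = true → ∃ S' Th' p' sp' tot' rk',
      K S' Th' p' sp' tot' rk' = true ∧ Sta E S' Th' p' sp' tot' rk') →
      b = true → ∃ S' Th' p' sp' tot' rk',
      K S' Th' p' sp' tot' rk' = true ∧ Sta E S' Th' p' sp' tot' rk' := fun _ h => h
  have h11 := fun h => op11_sound E w K S Th p sp tot rk h hI
  have h10 := fun h => op10_sound E G w K S Th p sp tot rk h hI
  have h9 := fun h => op9_sound E w K S Th p sp tot rk h hI
  have h8 := fun h => op8_sound E K S Th p sp tot rk h hI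
  have h7 := fun h => op7_sound E K S Th p sp tot rk h hI
  have h6 := fun h => op6_sound E K S Th p sp tot rk h hI
  have h5 := fun h => op5_sound E G w K S Th p sp tot rk h hI
  have h4 := fun h => op4_sound E w K S Th p sp tot rk h hI
  have h3 := fun h => op3_sound E w K S Th p sp tot rk h hI
  have h2 := fun h => op2_sound E K S Th p sp tot rk h hI
  have h1 := fun h => op1_sound E w K S Th p sp tot rk h hI
  have h0 := fun h => op0_sound E G w K S Th p sp tot rk h hI
  have hn : K S Th p sp tot rk = true → ∃ S' Th' p' sp' tot' rk',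
      K S' Th' p' sp' tot' rk' = true ∧ Sta E S' Th' p' sp' tot' rk' :=
    fun h => ⟨S, Th, p, sp, tot, rk, h, hI⟩
  revert h
  show stepM E.tab G w K S Th p sp tot rk = true → _
  unfold stepM
  exact brec2 (P := fun b => b = true → _)
    (brec2 (P := fun b => b = true → _)
      (brec2 (P := fun b => b = true → _)
        (brec2 (P := fun b => b = true → _)
          (brec2 (P := fun b => b = true → _) hn h11)
          (brec2 (P := fun b => b = true → _) h10 h9))
        (brec2 (P := fun b => b = true → _)
          (brec2 (P := fun b => b = true → _) h8 h7) h6))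
      (brec2 (P := fun b => b = true → _)
        (brec2 (P := fun b => b = true → _) h5 h4)
        (brec2 (P := fun b => b = true → _) h3
          (brec2 (P := fun b => b = true → _) h2 h1))))
    h0

theorem runC_sound (E : Env) (G fuel w : ℕ) :
    Sound E (fun K => runC E.tab G K fuel w) := by
  induction fuel generalizing w with
  | zero =>
    intro K S Th p sp tot rk h hI
    exact ⟨S, Th, p, sp, tot, rk, h, hI⟩
  | succ fuel ih =>
    intro K S Th p sp tot rk h hI
    obtain ⟨S1, Th1, p1, sp1, tot1, rk1, h1, hI1⟩ := stepM_sound E G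
      (Nat.mod w (nat_lit 18446744073709551616))
      (runC E.tab G K fuel (Nat.shiftRight w (nat_lit 64))) S Th p sp tot rk h hI
    exact ih (Nat.shiftRight w (nat_lit 64)) K S1 Th1 p1 sp1 tot1 rk1 h1 hI1

theorem runM_sound (E : Env) (D : Dl) :
    Sound E (fun K => runM E.tab K D) := by
  induction D with
  | nil =>
    intro K S Th p sp tot rk h hI
    exact ⟨S, Th, p, sp, tot, rk, h, hI⟩
  | cons w g t ih =>
    intro K S Th p sp tot rk h hI
    obtain ⟨S1, Th1, p1, sp1, tot1, rk1, h1, hI1⟩ := runC_sound E g 32 w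
      (runM E.tab K t) S Th p sp tot rk h hI
    exact ih K S1 Th1 p1 sp1 tot1 rk1 h1 hI1

theorem and_iff' {a b : Bool} : and a b = true ↔ a = true ∧ b = true := Bool.and_eq_true _ _ ▸ Iff.rfl

theorem eqI_eq {x y : It} (h : eqI x y = true) : x = y := by
  cases x with
  | rc a A b B =>
    cases y with
    | rc a' A' b' B' =>
      have h' : and (Nat.beq a a') (and (Nat.beq A A') (and (Nat.beq b b') (Nat.beq B B'))) = true := h
      simp only [and_iff', beq_iff] at h'
      obtain ⟨rfl, rfl, rfl, rfl⟩ := h'
      rfl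
    | sc => exact absurd (show false = true from h) Bool.false_ne_true
    | cb => exact absurd (show false = true from h) Bool.false_ne_true
  | sc t T n k x r R =>
    cases y with
    | rc => exact absurd (show false = true from h) Bool.false_ne_true
    | sc t' T' n' k' x' r' R' =>
      have h' : and (Nat.beq t t') (and (Nat.beq T T')
        (and (Nat.beq n n') (and (Nat.beq k k') (and (Nat.beq x x') (and (Nat.beq r r')
        (Nat.beq R R')))))) = true := h
      simp only [and_iff', beq_iff] at h'
      obtain ⟨rfl, rfl, rfl, rfl, rfl, rfl, rfl⟩ := h'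
      rfl
    | cb => exact absurd (show false = true from h) Bool.false_ne_true
  | cb t T n e d c f k x r R =>
    cases y with
    | rc => exact absurd (show false = true from h) Bool.false_ne_true
    | sc => exact absurd (show false = true from h) Bool.false_ne_true
    | cb t' T' n' e' d' c' f' k' x' r' R' =>
      have h' : and (Nat.beq t t') (and (Nat.beq T T')
        (and (Nat.beq n n') (and (Nat.beq e e') (and (Nat.beq d d') (and (Nat.beq c c')
        (and (Nat.beq f f') (and (Nat.beq k k') (and (Nat.beq x x') (and (Nat.beq r r')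
        (Nat.beq R R')))))))))) = true := h
      simp only [and_iff', beq_iff] at h'
      obtain ⟨rfl, rfl, rfl, rfl, rfl, rfl, rfl, rfl, rfl, rfl, rfl⟩ := h'
      rfl

theorem eqL_eq {x y : List It} (h : eqL x y = true) : x = y := by
  induction x generalizing y with
  | nil =>
    cases y with
    | nil => rfl
    | cons b l => exact absurd (show false = true from h) Bool.false_ne_true
  | cons a x ih =>
    cases y with
    | nil => exact absurd (show false = true from h) Bool.false_ne_true
    | cons b l =>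
      have h' : and (eqI a b) (eqL x l) = true := h
      rw [and_iff'] at h'
      rw [eqI_eq h'.1, ih h'.2]

/-- **soundness of a module** -/
theorem mod_sound {tab : ℕ} {D : Dl} {S Th S' Th' : List It} {p : Pf} {sp tot cnt : ℕ}
    (h : runM tab (fin S' Th' p sp tot 0) D S Th P00 0 0 (2 ^ cnt - 1) = true)
    (hk : ∀ r < cnt, ek (ent tab r) < 2 ^ 20)
    {W H : ℝ} {C0 : List Cb} {P0 : Finset ℕ} {cs hs : List Cb}
    (hS : List.Forall₂ Rep S cs) (hT : List.Forall₂ Rep Th hs)
    (hPC : PC W H (cs ++ hs ++ C0) P0)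
    (hd : ∀ r < cnt, Disjoint (Iset tab r) P0)
    (hd2 : ∀ r < cnt, ∀ r' < cnt, r ≠ r' → Disjoint (Iset tab r) (Iset tab r')) :
    ∃ cs' hs' ls : List Cb, List.Forall₂ Rep S' cs' ∧ List.Forall₂ Rep Th' hs' ∧
      Acc ls.flatten (flat p) tot ∧ U * thk ls.flatten ≤ sp ∧
      PC W H (cs' ++ hs' ++ ls ++ C0) (P0 ∪ (Finset.range cnt).biUnion (Iset tab)) := by
  obtain ⟨E, hE⟩ : ∃ E : Env, E = ⟨W, H, C0, P0, tab, cnt, hk, hd, hd2⟩ := ⟨_, rfl⟩
  have eW : E.W = W := by rw [hE]
  have eH : E.H = H := by rw [hE]
  have eC : E.C0 = C0 := by rw [hE]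
  have eP : E.P0 = P0 := by rw [hE]
  have et : E.tab = tab := by rw [hE]
  have ec : E.cnt = cnt := by rw [hE]
  have hb : ∀ r, (2 ^ cnt - 1).testBit r = true ↔ r < cnt := by
    intro r
    rw [Nat.testBit_two_pow_sub_one, decide_eq_true_eq]
  have hI : Sta E S Th P00 0 0 (2 ^ cnt - 1) := by
    refine ⟨fun r hr => by rw [ec]; exact (hb r).1 hr, cs, hs, [], hS, hT, ?_, ?_, ?_⟩
    · rw [flat_zero]
      exact Acc.nil
    · simp [thk]
    · rw [eW, eH, eC, eP, et, ec]
      have e1 : Pset tab cnt (2 ^ cnt - 1) = ∅ := by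
        unfold Pset
        rw [Finset.eq_empty_iff_forall_notMem]
        intro x hx
        rw [Finset.mem_biUnion] at hx
        obtain ⟨r, hr, hx⟩ := hx
        rw [Finset.mem_range] at hr
        rw [(hb r).2 hr] at hx
        simp at hx
      rw [e1, Finset.union_empty, List.append_nil]
      exact hPC
  rw [← et] at h
  obtain ⟨S1, Th1, p1, sp1, tot1, rk1, h1, hI1⟩ := runM_sound E D _ S Th P00 0 0 (2 ^ cnt - 1) h hI
  have h1' : and (eqP p p1) (and (Nat.beq sp sp1) (and (Nat.beq tot tot1)
      (and (Nat.beq 0 rk1) (and (eqL S' S1) (eqL Th' Th1))))) = true := h1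
  simp only [and_iff', beq_iff] at h1'
  obtain ⟨h5, rfl, rfl, rfl, h6, h7⟩ := h1'
  have h5' := eqP_eq h5
  have h6' := eqL_eq h6
  have h7' := eqL_eq h7
  subst h5' h6' h7'
  obtain ⟨-, cs', hs', ls, g1, g2, g3, g4, g5⟩ := hI1
  rw [eW, eH, eC, eP, et, ec] at g5
  refine ⟨cs', hs', ls, g1, g2, g3, g4, ?_⟩
  have e2 : Pset tab cnt 0 = (Finset.range cnt).biUnion (Iset tab) := by
    unfold Pset
    apply Finset.biUnion_congr rfl
    intro r _
    rw [Nat.zero_testBit]
    rfl
  rw [e2] at g5
  exact g5

end Pool.Agent.LibM73
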