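import Pool.Agent.LibM73.Mach
import Pool.Agent.LibM73.Num
import Pool.Agent.LibMoserF.CombBlock2
import Pool.Agent.LibMoserF.CombPC
set_option autoImplicit false
/-!
# Soundness of the checking machine: definitions

Real lengths `x`, numbers of the machine are in units `2^-100` (`U = 2^100`).
-/
namespace Pool.Agent.LibM73
open Pool.Agent.LibMoser5 Pool.Agent.LibMoserF

noncomputable section

/-- `x` is in the interval `[a,A]` (unit `2^-100`) -/
def Iv (a A : ℕ) (x : ℝ) : Prop := (a : ℝ) ≤ U * x ∧ U * x ≤ A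

/-- sum of sides over a progression -/
def SS (d n c : ℕ) : ℝ := ∑ l ∈ Finset.range c, sd (n + d * l)

/-- comb with teeth `0..k` (the thickest tooth `k` first): tooth `i` has thickness `θ - S i` and
length `ℓ i`; the tooth `k` is longer by `ρ` -/
def cbT (θ : ℝ) (S ℓ : ℕ → ℝ) (k : ℕ) (ρ : ℝ) : Cb :=
  (θ - S k, ℓ k + ρ) :: ((List.range k).map (fun i => (θ - S i, ℓ i))).reverse

/-- simple comb: the pieces above a row of the squares `n .. n+k` -/
def scT (θ : ℝ) (n k : ℕ) (ρ : ℝ) : Cb := cbT θ (fun i => sd (n + i)) (fun i => sd (n + i)) k ρ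

/-- general comb -/
def gcT (θ : ℝ) (n e d c f k : ℕ) (ρ : ℝ) : Cb :=
  cbT θ (fun i => SS d (n + e * i) c) (fun i => sd (n + e * i + f)) k ρ

/-- meaning of the items -/
def Rep : It → Cb → Prop
  | .rc a A b B, C => ∃ x y : ℝ, C = [(x, y)] ∧ Iv a A x ∧ Iv b B y
  | .sc t T n k x r R, C => x = sl (n + k) ∧ k < 2 ^ 20 ∧
      ∃ θ ρ : ℝ, C = scT θ n k ρ ∧ Iv t T θ ∧ Iv r R ρ
  | .cb t T n e d c f k x r R, C => x = ap d (n + e * k) c ∧ c ≤ 2 ^ 20 ∧
      ∃ θ ρ : ℝ, C = gcT θ n e d c f k ρ ∧ Iv t T θ ∧ Iv r R ρ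

/-! ### cells -/

/-- number of cells; the cell `NC` is the dust -/
def NC : ℕ := 29184

/-- binary logarithm of the number of cells of the octave `e` -/
def qe (e : ℕ) : ℕ := if e < 12 then 11 else if e < 16 then 9 else if e < 20 then 8 else 7

/-- octave of a cell -/
def cE (c : ℕ) : ℕ := if c < 24576 then c / 2048 else if c < 26624 then 12 + (c - 24576) / 512
  else if c < 27648 then 16 + (c - 26624) / 256 else 20 + (c - 27648) / 128

/-- number of the cell in its octave (thickest first) -/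
def cR (c : ℕ) : ℕ := if c < 24576 then c % 2048 else if c < 26624 then (c - 24576) % 512
  else if c < 27648 then (c - 26624) % 256 else (c - 27648) % 128

/-- upper edge of a cell (unit `2^-100`) -/
def up (c : ℕ) : ℕ := (2 ^ (qe (cE c) + 1) - cR c) * 2 ^ (71 - cE c - qe (cE c))

/-- lower edge of a cell -/
def lo (c : ℕ) : ℕ := (2 ^ (qe (cE c) + 1) - 1 - cR c) * 2 ^ (71 - cE c - qe (cE c))

/-- the thickness `x` (unit `2^-100`) belongs to the cell `c` -/
def InC (c : ℕ) (x : ℝ) : Prop :=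
  (c < NC ∧ (lo c : ℝ) * (1 - 1 / 2 ^ 14) < x ∧ x ≤ up c) ∨ (c = NC ∧ x ≤ 2 ^ 56)

/-! ### accounts -/

/-- mass of a piece (thickness, length) in units `2^-34` -/
def ms (x : ℝ × ℝ) : ℝ := 2 ^ 34 * (x.2 + 13 / 16 * x.1)

/-- `z = (cell, thickness, length)` is a correct entry -/
def Leaf (z : ℕ × ℝ × ℝ) : Prop := InC z.1 (U * z.2.1) ∧ 6 / 5 * z.2.1 ≤ z.2.2

/-- packed table -/
def pk (f : ℕ → ℕ) : ℕ := ∑ c ∈ Finset.range (NC + 1), f c * 2 ^ (36 * c)

/-- the table of a profile: the cell `c` is digit `c % 4096` of group `c / 4096` -/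
def flat : Pf → ℕ
  | .mk a0 a1 a2 a3 a4 a5 a6 a7 => a0 + a1 * 2 ^ (36 * 4096) + a2 * 2 ^ (36 * 8192) +
      a3 * 2 ^ (36 * 12288) + a4 * 2 ^ (36 * 16384) + a5 * 2 ^ (36 * 20480) +
      a6 * 2 ^ (36 * 24576) + a7 * 2 ^ (36 * 28672)

/-- total of a table -/
def tt (f : ℕ → ℕ) : ℕ := ∑ c ∈ Finset.range (NC + 1), f c

/-- mass of the cell `c` in the list `L` -/
def mC (L : List (ℕ × ℝ × ℝ)) (c : ℕ) : ℝ := (L.map (fun z => if z.1 = c then ms z.2 else 0)).sum

/-- the pieces `l` are accounted: packed table `p`, total `tot` -/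
def Acc (l : List (ℝ × ℝ)) (p tot : ℕ) : Prop :=
  ∃ (L : List (ℕ × ℝ × ℝ)) (f : ℕ → ℕ), (L.map Prod.snd).Perm l ∧ (∀ z ∈ L, Leaf z) ∧
    (∀ c, mC L c ≤ f c) ∧ pk f = p ∧ tt f = tot

/-- total thickness -/
def thk (l : List (ℝ × ℝ)) : ℝ := (l.map Prod.fst).sum

/-! ### the invariant -/

/-- squares of the entry `r` -/
def Iset (tab r : ℕ) : Finset ℕ := Finset.Ico (en (ent tab r)) (en (ent tab r) + (ek (ent tab r) + 1))

/-- the squares placed in the module so far: the entries `r < cnt` which are not marked in `rk` -/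
def Pset (tab cnt rk : ℕ) : Finset ℕ :=
  (Finset.range cnt).biUnion (fun r => if rk.testBit r then ∅ else Iset tab r)

/-- the data which do not change in a module -/
structure Env where
  W : ℝ
  H : ℝ
  /-- combs which were finished before -/
  C0 : List Cb
  /-- squares which were placed before -/
  P0 : Finset ℕ
  tab : ℕ
  /-- number of entries -/
  cnt : ℕ
  hk : ∀ r < cnt, ek (ent tab r) < 2 ^ 20
  hd : ∀ r < cnt, Disjoint (Iset tab r) P0
  hd2 : ∀ r < cnt, ∀ r' < cnt, r ≠ r' → Disjoint (Iset tab r) (Iset tab r')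

/-- **the invariant of the machine**: the state is correct (`rk` = entries not yet used) -/
def Sta (E : Env) (S Th : List It) (p : Pf) (sp tot rk : ℕ) : Prop :=
  (∀ r, rk.testBit r = true → r < E.cnt) ∧
  ∃ (cs hs ls : List Cb), List.Forall₂ Rep S cs ∧ List.Forall₂ Rep Th hs ∧
    Acc ls.flatten (flat p) tot ∧ U * thk ls.flatten ≤ sp ∧
    PC E.W E.H (cs ++ hs ++ ls ++ E.C0) (E.P0 ∪ Pset E.tab E.cnt rk)

/-- soundness of an operation -/
def Sound (E : Env) (f : KS → KS) : Prop :=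
  ∀ (K : KS) (S Th : List It) (p : Pf) (sp tot rk : ℕ), f K S Th p sp tot rk = true →
    Sta E S Th p sp tot rk →
    ∃ S' Th' p' sp' tot' rk', K S' Th' p' sp' tot' rk' = true ∧ Sta E S' Th' p' sp' tot' rk'

end

end Pool.Agent.LibM73
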